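import Pool.Agent.Lib.MP_5c6f2e_co.Defs

/-!
# MP_5c6f2e_co, P5: almost perfect matchings in weighted hypergraphs with small codegrees

Deterministic greedy proof with a quadratic potential.
-/

set_option autoImplicit false

namespace Pool.Agent.THC

open Finset

section core

variable {V ι : Type} [DecidableEq V] [Fintype ι]

/-- double counting -/
private theorem nib_dc (e : ι → Finset V) (w : ι → ℝ) (U : Finset V)
    (hU : ∀ i, w i ≠ 0 → e i ⊆ U) (g : V → ℝ) :
    ∑ i, w i * ∑ v ∈ e i, g v = ∑ v ∈ U, (∑ i with v ∈ e i, w i) * g v := by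
  have h1 : ∀ v ∈ U, (∑ i with v ∈ e i, w i) * g v = ∑ i, if v ∈ e i then w i * g v else 0 := by
    intro v _
    rw [Finset.sum_mul, Finset.sum_filter]
  rw [Finset.sum_congr rfl h1, Finset.sum_comm]
  refine Finset.sum_congr rfl fun i _ => ?_
  by_cases hi : w i = 0
  · simp [hi]
  · rw [← Finset.sum_filter, Finset.mul_sum]
    have : U.filter (fun v => v ∈ e i) = e i := by
      ext v; simp only [Finset.mem_filter]
      exact ⟨fun h => h.2, fun h => ⟨hU i hi h, h⟩⟩
    rw [this]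

/-- number of common elements of two edges, weighted -/
private theorem nib_inter (e : ι → Finset V) (w : ι → ℝ) (s : Finset V) :
    ∑ v ∈ s, (∑ i with v ∈ e i, w i) = ∑ i, w i * ((e i ∩ s).card : ℝ) := by
  have h1 : ∀ v ∈ s, (∑ i with v ∈ e i, w i) = ∑ i, if v ∈ e i then w i else 0 := by
    intro v _
    rw [Finset.sum_filter]
  rw [Finset.sum_congr rfl h1, Finset.sum_comm]
  refine Finset.sum_congr rfl fun i _ => ?_
  rw [← Finset.sum_filter, Finset.sum_const, nsmul_eq_mul, mul_comm]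
  congr 3
  ext v; simp [and_comm]

/-- pairs of common elements -/
private theorem nib_pairs (e : ι → Finset V) (w : ι → ℝ) (ε : ℝ)
    (hcod : ∀ u v, u ≠ v → ∑ i with (u ∈ e i ∧ v ∈ e i), w i ≤ ε) (s : Finset V) :
    ∑ i, w i * ((e i ∩ s).card * ((e i ∩ s).card - 1 : ℝ)) ≤ s.card * (s.card - 1 : ℝ) * ε := by
  have h0 : ∀ t : Finset V, (t.card : ℝ) * (t.card - 1 : ℝ) = (t.offDiag.card : ℝ) := by
    intro t
    rw [Finset.offDiag_card, Nat.cast_sub (Nat.le_mul_self _)]
    push_cast; ring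
  rw [h0 s]
  have h1 : ∀ i, w i * ((e i ∩ s).card * ((e i ∩ s).card - 1 : ℝ)) =
      ∑ p ∈ s.offDiag, if (p.1 ∈ e i ∧ p.2 ∈ e i) then w i else 0 := by
    intro i
    rw [h0, ← Finset.sum_filter, Finset.sum_const, nsmul_eq_mul, mul_comm]
    congr 3
    ext p
    simp only [Finset.mem_offDiag, Finset.mem_inter, Finset.mem_filter]
    tauto
  rw [Finset.sum_congr rfl fun i _ => h1 i, Finset.sum_comm]
  calc ∑ p ∈ s.offDiag, ∑ i, (if (p.1 ∈ e i ∧ p.2 ∈ e i) then w i else 0)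
      ≤ ∑ p ∈ s.offDiag, ε := by
        refine Finset.sum_le_sum fun p hp => ?_
        rw [← Finset.sum_filter]
        exact hcod _ _ (Finset.mem_offDiag.1 hp).2.2
    _ = s.offDiag.card * ε := by rw [Finset.sum_const, nsmul_eq_mul]

/-- decrease of the load -/
private noncomputable def nibΔ (e : ι → Finset V) (w : ι → ℝ) (i : ι) (v : V) : ℝ :=
  ∑ j with (v ∈ e j ∧ ¬ Disjoint (e j) (e i)), w j

private theorem nibΔ_nonneg (e : ι → Finset V) (w : ι → ℝ) (hw : ∀ i, 0 ≤ w i) (i : ι) (v : V) :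
    0 ≤ nibΔ e w i v := Finset.sum_nonneg fun j _ => hw j

private theorem nibΔ_le (r : ℕ) (e : ι → Finset V) (w : ι → ℝ) (ε : ℝ)
    (hc : ∀ i, (e i).card = r) (hw : ∀ i, 0 ≤ w i)
    (hcod : ∀ u v, u ≠ v → ∑ i with (u ∈ e i ∧ v ∈ e i), w i ≤ ε) (i : ι) (v : V)
    (hv : v ∉ e i) : nibΔ e w i v ≤ r * ε := by
  classical
  unfold nibΔ
  calc ∑ j with (v ∈ e j ∧ ¬ Disjoint (e j) (e i)), w j
      ≤ ∑ j, ∑ a ∈ e i, (if (a ∈ e j ∧ v ∈ e j) then w j else 0) := by
        rw [Finset.sum_filter]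
        refine Finset.sum_le_sum fun j _ => ?_
        split_ifs with h
        · obtain ⟨h1, h2⟩ := h
          rw [Finset.not_disjoint_iff] at h2
          obtain ⟨a, ha1, ha2⟩ := h2
          calc w j = (if (a ∈ e j ∧ v ∈ e j) then w j else 0) := by rw [if_pos ⟨ha1, h1⟩]
            _ ≤ _ := Finset.single_le_sum (f := fun a => if (a ∈ e j ∧ v ∈ e j) then w j else 0)
                (fun b _ => by split_ifs <;> [exact hw j; exact le_rfl]) ha2
        · exact Finset.sum_nonneg fun b _ => by split_ifs <;> [exact hw j; exact le_rfl]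
    _ = ∑ a ∈ e i, ∑ j with (a ∈ e j ∧ v ∈ e j), w j := by
        rw [Finset.sum_comm]
        exact Finset.sum_congr rfl fun a _ => by rw [Finset.sum_filter]
    _ ≤ ∑ a ∈ e i, ε := by
        refine Finset.sum_le_sum fun a ha => ?_
        exact hcod a v (fun h => hv (h ▸ ha))
    _ = r * ε := by rw [Finset.sum_const, nsmul_eq_mul, hc]

private theorem nibΔ_sum (r : ℕ) (e : ι → Finset V) (w : ι → ℝ)
    (hc : ∀ i, (e i).card = r) (hw : ∀ i, 0 ≤ w i)
    (hD : ∀ v, ∑ i with v ∈ e i, w i ≤ 1) (i : ι) (s : Finset V) :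
    ∑ v ∈ s, nibΔ e w i v ≤ r * r := by
  classical
  have h1 : ∀ v, nibΔ e w i v = ∑ j, if v ∈ e j then
      (if Disjoint (e j) (e i) then 0 else w j) else 0 := by
    intro v
    unfold nibΔ
    rw [Finset.sum_filter]
    refine Finset.sum_congr rfl fun j _ => ?_
    by_cases h : v ∈ e j <;> simp [h]
  calc ∑ v ∈ s, nibΔ e w i v
      = ∑ j, ∑ v ∈ s, if v ∈ e j then (if Disjoint (e j) (e i) then 0 else w j) else 0 := by
        rw [Finset.sum_comm]; exact Finset.sum_congr rfl fun v _ => h1 v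
    _ = ∑ j, ((s.filter (· ∈ e j)).card : ℝ) * (if Disjoint (e j) (e i) then 0 else w j) := by
        refine Finset.sum_congr rfl fun j _ => ?_
        rw [← Finset.sum_filter, Finset.sum_const, nsmul_eq_mul]
    _ ≤ ∑ j, (r : ℝ) * ∑ a ∈ e i, (if a ∈ e j then w j else 0) := by
        refine Finset.sum_le_sum fun j _ => ?_
        have h2 : ((s.filter (· ∈ e j)).card : ℝ) ≤ r := by
          rw [← hc j]
          exact_mod_cast Finset.card_le_card fun v hv => (Finset.mem_filter.1 hv).2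
        have h3 : (if Disjoint (e j) (e i) then 0 else w j) ≤
            ∑ a ∈ e i, (if a ∈ e j then w j else 0) := by
          split_ifs with h
          · exact Finset.sum_nonneg fun b _ => by split_ifs <;> [exact hw j; exact le_rfl]
          · rw [Finset.not_disjoint_iff] at h
            obtain ⟨a, ha1, ha2⟩ := h
            calc w j = (if a ∈ e j then w j else 0) := by rw [if_pos ha1]
              _ ≤ _ := Finset.single_le_sum (f := fun a => if a ∈ e j then w j else 0)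
                (fun b _ => by split_ifs <;> [exact hw j; exact le_rfl]) ha2
        have h4 : (0:ℝ) ≤ (if Disjoint (e j) (e i) then 0 else w j) := by
          split_ifs <;> [exact le_rfl; exact hw j]
        exact mul_le_mul h2 h3 h4 (Nat.cast_nonneg r)
    _ = r * ∑ a ∈ e i, ∑ j with a ∈ e j, w j := by
        rw [← Finset.mul_sum, Finset.sum_comm]
        congr 1
        exact Finset.sum_congr rfl fun a _ => by rw [Finset.sum_filter]
    _ ≤ r * ∑ a ∈ e i, 1 := by
        refine mul_le_mul_of_nonneg_left (Finset.sum_le_sum fun a _ => hD a) (Nat.cast_nonneg r)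
    _ = r * r := by rw [Finset.sum_const, nsmul_eq_mul, hc, mul_one]

/-- the exact rewriting of the mixed term -/
private theorem nib_mixed (e : ι → Finset V) (w : ι → ℝ) (U : Finset V)
    (hU : ∀ i, w i ≠ 0 → e i ⊆ U) (x : V → ℝ) :
    ∑ i, w i * ∑ v ∈ U \ e i, x v * nibΔ e w i v =
      ∑ j, w j * ∑ i, w i * ((if Disjoint (e i) (e j) then 0 else 1) * ∑ v ∈ e j, x v
        - ∑ v ∈ e j, if v ∈ e i then x v else 0) := by
  classical
  have h1 : ∀ i, ∑ v ∈ U \ e i, x v * nibΔ e w i v =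
      ∑ j, w j * ((if Disjoint (e i) (e j) then 0 else 1) * ∑ v ∈ e j, x v
        - ∑ v ∈ e j, if v ∈ e i then x v else 0) := by
    intro i
    have h2 : ∀ v ∈ U \ e i, x v * nibΔ e w i v = ∑ j, if v ∈ e j then
        (if Disjoint (e i) (e j) then 0 else w j * x v) else 0 := by
      intro v _
      unfold nibΔ
      rw [Finset.sum_filter, Finset.mul_sum]
      refine Finset.sum_congr rfl fun j _ => ?_
      by_cases h : v ∈ e j <;> by_cases h' : Disjoint (e i) (e j)
      · have h'' := h'.symm; simp [h, h', h'']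
      · have h'' : ¬ Disjoint (e j) (e i) := fun h3 => h' h3.symm
        simp [h, h', h'']; ring
      · simp [h]
      · simp [h]
    rw [Finset.sum_congr rfl h2, Finset.sum_comm]
    refine Finset.sum_congr rfl fun j _ => ?_
    by_cases hj : w j = 0
    · simp [hj]
    rw [← Finset.sum_filter]
    have h3 : (U \ e i).filter (· ∈ e j) = e j \ e i := by
      ext v; simp only [Finset.mem_filter, Finset.mem_sdiff]
      exact ⟨fun h => ⟨h.2, h.1.2⟩, fun h => ⟨⟨hU j hj h.1, h.2⟩, h.1⟩⟩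
    rw [h3]
    by_cases h' : Disjoint (e i) (e j)
    · simp only [h', if_true, Finset.sum_const_zero, zero_mul, zero_sub]
      rw [Finset.sum_eq_zero, neg_zero, mul_zero]
      intro v hv
      rw [if_neg]
      intro hv'
      exact Finset.disjoint_left.1 h' hv' hv
    · simp only [h', if_false, one_mul]
      rw [← Finset.sum_filter, ← Finset.mul_sum]
      congr 1
      rw [eq_sub_iff_add_eq, ← Finset.sum_filter_add_sum_filter_not (e j) (fun v => v ∈ e i),
        add_comm]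
      congr 1
      refine Finset.sum_congr ?_ fun _ _ => rfl
      ext v; simp
  simp_rw [h1, Finset.mul_sum (s := Finset.univ)]
  rw [Finset.sum_comm]
  refine Finset.sum_congr rfl fun j _ => Finset.sum_congr rfl fun i _ => ?_
  ring

private theorem nib_mixed_ge (r : ℕ) (hr : 2 ≤ r) (e : ι → Finset V) (w : ι → ℝ) (U : Finset V)
    (ε a : ℝ) (hε : 0 ≤ ε)
    (hc : ∀ i, (e i).card = r) (hw : ∀ i, 0 ≤ w i) (hU : ∀ i, w i ≠ 0 → e i ⊆ U)
    (hD : ∀ v, ∑ i with v ∈ e i, w i ≤ 1)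
    (hcod : ∀ u v, u ≠ v → ∑ i with (u ∈ e i ∧ v ∈ e i), w i ≤ ε)
    (x : V → ℝ) (hx : ∀ v, x v = (∑ i with v ∈ e i, w i) - a) (hx1 : ∀ v, |x v| ≤ 1) :
    (r - 1) * a * (a * ∑ v ∈ U, x v + ∑ v ∈ U, x v ^ 2) - ∑ v ∈ U, x v ^ 2
      - r ^ 3 * ε * ∑ i, w i ≤
    ∑ i, w i * ∑ v ∈ U \ e i, x v * nibΔ e w i v := by
  classical
  rw [nib_mixed e w U hU x]
  have hr' : (2:ℝ) ≤ r := by exact_mod_cast hr
  -- lower bound of the inner term
  have hinner : ∀ j, (∑ v ∈ e j, x v) * (∑ v ∈ e j, (∑ i with v ∈ e i, w i))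
      - ∑ v ∈ e j, x v * (∑ i with v ∈ e i, w i) - r ^ 3 * ε ≤
      ∑ i, w i * ((if Disjoint (e i) (e j) then 0 else 1) * ∑ v ∈ e j, x v
        - ∑ v ∈ e j, if v ∈ e i then x v else 0) := by
    intro j
    have e1 : ∑ v ∈ e j, x v * (∑ i with v ∈ e i, w i) =
        ∑ i, w i * ∑ v ∈ e j, if v ∈ e i then x v else 0 := by
      have : ∀ v ∈ e j, x v * (∑ i with v ∈ e i, w i) = ∑ i, if v ∈ e i then w i * x v else 0 := by
        intro v _
        rw [Finset.sum_filter, Finset.mul_sum]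
        exact Finset.sum_congr rfl fun i _ => by split_ifs <;> ring
      rw [Finset.sum_congr rfl this, Finset.sum_comm]
      refine Finset.sum_congr rfl fun i _ => ?_
      rw [Finset.mul_sum]
      exact Finset.sum_congr rfl fun v _ => by split_ifs <;> ring
    rw [e1, nib_inter, Finset.mul_sum]
    have hS : |∑ v ∈ e j, x v| ≤ r := by
      calc |∑ v ∈ e j, x v| ≤ ∑ v ∈ e j, |x v| := Finset.abs_sum_le_sum_abs _ _
        _ ≤ ∑ v ∈ e j, 1 := Finset.sum_le_sum fun v _ => hx1 v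
        _ = r := by rw [Finset.sum_const, hc, nsmul_eq_mul, mul_one]
    have hp := nib_pairs e w ε hcod (e j)
    rw [hc] at hp
    have hp' : ∑ i, w i * ((e i ∩ e j).card * ((e i ∩ e j).card - 1 : ℝ)) ≤ r ^ 2 * ε := by
      refine hp.trans (mul_le_mul_of_nonneg_right ?_ hε)
      nlinarith
    have h3 : ∀ i, (∑ v ∈ e j, x v) * (w i * ((e i ∩ e j).card : ℝ)) -
        w i * (∑ v ∈ e j, if v ∈ e i then x v else 0) -
        r * (w i * ((e i ∩ e j).card * ((e i ∩ e j).card - 1 : ℝ))) ≤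
        w i * ((if Disjoint (e i) (e j) then 0 else 1) * ∑ v ∈ e j, x v
        - ∑ v ∈ e j, if v ∈ e i then x v else 0) := by
      intro i
      set S := ∑ v ∈ e j, x v
      set T := ∑ v ∈ e j, if v ∈ e i then x v else 0
      have hwi := hw i
      have hSr : S ≤ r := (le_abs_self _).trans hS
      by_cases hd : Disjoint (e i) (e j)
      · have : (e i ∩ e j).card = 0 := by rw [Finset.card_eq_zero]; exact Finset.disjoint_iff_inter_eq_empty.1 hd
        simp [hd, this]
      · have hm : 1 ≤ (e i ∩ e j).card := by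
          rw [Nat.one_le_iff_ne_zero, Ne, Finset.card_eq_zero]
          exact fun h => hd (Finset.disjoint_iff_inter_eq_empty.2 h)
        have hm' : (1:ℝ) ≤ ((e i ∩ e j).card : ℝ) := by exact_mod_cast hm
        set m := ((e i ∩ e j).card : ℝ)
        simp only [hd, if_false, one_mul]
        have : (m - 1) * S ≤ r * (m * (m - 1)) := by
          calc (m - 1) * S ≤ (m - 1) * r := mul_le_mul_of_nonneg_left hSr (by linarith)
            _ ≤ r * (m * (m - 1)) := by nlinarith [mul_nonneg (by linarith : (0:ℝ) ≤ m - 1) (by linarith : (0:ℝ) ≤ m - 1), mul_nonneg (mul_nonneg (by linarith : (0:ℝ) ≤ m - 1) (by linarith : (0:ℝ) ≤ m - 1)) (by linarith : (0:ℝ) ≤ (r:ℝ))]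
        nlinarith [mul_le_mul_of_nonneg_left this hwi]
    have h4 := Finset.sum_le_sum fun i (_ : i ∈ (Finset.univ : Finset ι)) => h3 i
    rw [Finset.sum_sub_distrib, Finset.sum_sub_distrib] at h4
    have h5 : (r:ℝ) * ∑ i, w i * ((e i ∩ e j).card * ((e i ∩ e j).card - 1 : ℝ)) ≤ r ^ 3 * ε := by
      calc _ ≤ (r:ℝ) * (r ^ 2 * ε) := mul_le_mul_of_nonneg_left hp' (by linarith)
        _ = _ := by ring
    rw [Finset.mul_sum] at h5
    linarith
  -- lower bound in terms of sums over the edge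
  have hj : ∀ j, (r - 1) * a * (∑ v ∈ e j, x v) - ∑ v ∈ e j, x v ^ 2 - r ^ 3 * ε ≤
      ∑ i, w i * ((if Disjoint (e i) (e j) then 0 else 1) * ∑ v ∈ e j, x v
        - ∑ v ∈ e j, if v ∈ e i then x v else 0) := by
    intro j
    refine le_trans ?_ (hinner j)
    have e2 : ∑ v ∈ e j, (∑ i with v ∈ e i, w i) = r * a + ∑ v ∈ e j, x v := by
      have : ∀ v ∈ e j, (∑ i with v ∈ e i, w i) = a + x v := fun v _ => by rw [hx v]; ring
      rw [Finset.sum_congr rfl this, Finset.sum_add_distrib, Finset.sum_const, hc, nsmul_eq_mul]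
    have e3 : ∑ v ∈ e j, x v * (∑ i with v ∈ e i, w i) = a * ∑ v ∈ e j, x v + ∑ v ∈ e j, x v ^ 2 := by
      rw [Finset.mul_sum, ← Finset.sum_add_distrib]
      exact Finset.sum_congr rfl fun v _ => by rw [hx v]; ring
    rw [e2, e3]
    nlinarith [sq_nonneg (∑ v ∈ e j, x v)]
  calc (r - 1) * a * (a * ∑ v ∈ U, x v + ∑ v ∈ U, x v ^ 2) - ∑ v ∈ U, x v ^ 2
      - r ^ 3 * ε * ∑ i, w i
      ≤ (r - 1) * a * (∑ j, w j * ∑ v ∈ e j, x v) - (∑ j, w j * ∑ v ∈ e j, x v ^ 2)
        - r ^ 3 * ε * ∑ j, w j := by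
        rw [nib_dc e w U hU x, nib_dc e w U hU (fun v => x v ^ 2)]
        have e4 : ∑ v ∈ U, (∑ i with v ∈ e i, w i) * x v =
            a * ∑ v ∈ U, x v + ∑ v ∈ U, x v ^ 2 := by
          rw [Finset.mul_sum, ← Finset.sum_add_distrib]
          exact Finset.sum_congr rfl fun v _ => by rw [hx v]; ring
        have e5 : ∑ v ∈ U, (∑ i with v ∈ e i, w i) * x v ^ 2 ≤ ∑ v ∈ U, x v ^ 2 := by
          refine Finset.sum_le_sum fun v _ => ?_
          have := mul_le_mul_of_nonneg_right (hD v) (sq_nonneg (x v))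
          linarith
        rw [e4]
        linarith
    _ = ∑ j, w j * ((r - 1) * a * (∑ v ∈ e j, x v) - ∑ v ∈ e j, x v ^ 2 - r ^ 3 * ε) := by
        rw [Finset.mul_sum, Finset.mul_sum, ← Finset.sum_sub_distrib, ← Finset.sum_sub_distrib]
        exact Finset.sum_congr rfl fun j _ => by ring
    _ ≤ _ := Finset.sum_le_sum fun j _ => mul_le_mul_of_nonneg_left (hj j) (hw j)

private theorem nib_core (r : ℕ) (hr : 2 ≤ r) (e : ι → Finset V) (w : ι → ℝ) (U : Finset V)
    (ε a : ℝ) (hε : 0 ≤ ε) (ha0 : 0 ≤ a) (ha1 : a ≤ 1)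
    (hc : ∀ i, (e i).card = r) (hw : ∀ i, 0 ≤ w i) (hU : ∀ i, w i ≠ 0 → e i ⊆ U)
    (hD : ∀ v, ∑ i with v ∈ e i, w i ≤ 1)
    (hcod : ∀ u v, u ≠ v → ∑ i with (u ∈ e i ∧ v ∈ e i), w i ≤ ε)
    (hUpos : 0 < U.card)
    (x : V → ℝ) (hx : ∀ v, x v = (∑ i with v ∈ e i, w i) - a) (τ : ℝ)
    (hτ : τ = a * (r * (r - 1)) / U.card) :
    ∑ i, w i * ∑ v ∈ U \ e i, (x v - nibΔ e w i v + τ) ^ 2 ≤
      (∑ i, w i) * (∑ v ∈ U, x v ^ 2 + 3 * r ^ 3 * ε + 3 * r ^ 4 / U.card)
        + 2 * ∑ v ∈ U, x v ^ 2 := by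
  classical
  have hr' : (2:ℝ) ≤ r := by exact_mod_cast hr
  have hu : (0:ℝ) < U.card := by exact_mod_cast hUpos
  have hD0 : ∀ v, 0 ≤ ∑ i with v ∈ e i, w i := fun v => Finset.sum_nonneg fun i _ => hw i
  have hx1 : ∀ v, |x v| ≤ 1 := by
    intro v; rw [hx v, abs_le]; constructor <;> linarith [hD v, hD0 v]
  have hOm0 : 0 ≤ ∑ i, w i := Finset.sum_nonneg fun i _ => hw i
  have hτ0 : 0 ≤ τ := by
    rw [hτ]
    have : (0:ℝ) ≤ r * (r - 1) := mul_nonneg (by linarith) (by linarith)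
    positivity
  set X := ∑ v ∈ U, x v with hX
  set Q := ∑ v ∈ U, x v ^ 2 with hQ
  set Om := ∑ i, w i with hOm
  set u : ℝ := (U.card : ℝ) with hudef
  have hQ0 : 0 ≤ Q := Finset.sum_nonneg fun v _ => sq_nonneg _
  -- total load
  have F1 : r * Om = u * a + X := by
    have h := nib_dc e w U hU (fun _ => 1)
    have h1 : ∑ i, w i * ∑ v ∈ e i, (1:ℝ) = r * Om := by
      rw [hOm, Finset.mul_sum]
      refine Finset.sum_congr rfl fun i _ => ?_
      rw [Finset.sum_const, hc, nsmul_eq_mul]; ring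
    have h2 : ∑ v ∈ U, (∑ i with v ∈ e i, w i) * 1 = u * a + X := by
      have : ∀ v ∈ U, (∑ i with v ∈ e i, w i) * 1 = a + x v := fun v _ => by rw [hx v]; ring
      rw [Finset.sum_congr rfl this, Finset.sum_add_distrib, Finset.sum_const, nsmul_eq_mul]
    rw [← h1, ← h2]; exact h
  have F7 : X ^ 2 ≤ u * Q := sq_sum_le_card_mul_sum_sq
  have F6 : ∑ v ∈ U, (∑ i with v ∈ e i, w i) * x v = a * X + Q := by
    rw [hX, hQ, Finset.mul_sum, ← Finset.sum_add_distrib]
    exact Finset.sum_congr rfl fun v _ => by rw [hx v]; ring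
  -- pointwise expansion
  have F2 : ∀ i, ∑ v ∈ U \ e i, (x v - nibΔ e w i v + τ) ^ 2 ≤
      Q - 2 * (∑ v ∈ U \ e i, x v * nibΔ e w i v) + 2 * τ * (∑ v ∈ U \ e i, x v)
        + r ^ 3 * ε + u * τ ^ 2 := by
    intro i
    have g1 : ∀ v ∈ U \ e i, (x v - nibΔ e w i v + τ) ^ 2 ≤
        x v ^ 2 - 2 * (x v * nibΔ e w i v) + 2 * τ * x v + (r * ε) * nibΔ e w i v + τ ^ 2 := by
      intro v hv
      have hv' := (Finset.mem_sdiff.1 hv).2
      have d0 := nibΔ_nonneg e w hw i v
      have d1 := nibΔ_le r e w ε hc hw hcod i v hv'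
      nlinarith [mul_nonneg d0 hτ0, mul_nonneg d0 (sub_nonneg.2 d1)]
    refine (Finset.sum_le_sum g1).trans ?_
    rw [Finset.sum_add_distrib, Finset.sum_add_distrib, Finset.sum_add_distrib,
      Finset.sum_sub_distrib, ← Finset.mul_sum, ← Finset.mul_sum, ← Finset.mul_sum,
      Finset.sum_const, nsmul_eq_mul]
    have g2 : ∑ v ∈ U \ e i, x v ^ 2 ≤ Q :=
      Finset.sum_le_sum_of_subset_of_nonneg Finset.sdiff_subset fun v _ _ => sq_nonneg _
    have g3 : r * ε * ∑ v ∈ U \ e i, nibΔ e w i v ≤ r ^ 3 * ε := by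
      calc _ ≤ r * ε * (r * r : ℝ) := mul_le_mul_of_nonneg_left
            (nibΔ_sum r e w hc hw hD i _) (by positivity)
        _ = _ := by ring
    have g4 : ((U \ e i).card : ℝ) * τ ^ 2 ≤ u * τ ^ 2 := by
      refine mul_le_mul_of_nonneg_right ?_ (sq_nonneg _)
      rw [hudef]
      exact_mod_cast Finset.card_le_card Finset.sdiff_subset
    linarith
  have F3 := nib_mixed_ge r hr e w U ε a hε hc hw hU hD hcod x hx hx1
  have F4 : ∑ i, w i * ∑ v ∈ U \ e i, x v = Om * X - (a * X + Q) := by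
    rw [← F6, ← nib_dc e w U hU x, hOm, Finset.sum_mul, ← Finset.sum_sub_distrib]
    refine Finset.sum_congr rfl fun i _ => ?_
    by_cases hi : w i = 0
    · simp [hi]
    · rw [← mul_sub]
      congr 1
      rw [hX, ← Finset.sum_sdiff (hU i hi)]; ring
  have F4' : -(a * X + Q) ≤ r * Om := by
    rw [← F6]
    have : ∑ v ∈ U, -((∑ i with v ∈ e i, w i) * x v) ≤ ∑ v ∈ U, (∑ i with v ∈ e i, w i) * 1 := by
      refine Finset.sum_le_sum fun v _ => ?_
      have h1 := abs_le.1 (hx1 v)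
      nlinarith [hD0 v]
    rw [Finset.sum_neg_distrib] at this
    have h2 : ∑ v ∈ U, (∑ i with v ∈ e i, w i) * 1 = u * a + X := by
      have : ∀ v ∈ U, (∑ i with v ∈ e i, w i) * 1 = a + x v := fun v _ => by rw [hx v]; ring
      rw [Finset.sum_congr rfl this, Finset.sum_add_distrib, Finset.sum_const, nsmul_eq_mul]
    rw [h2] at this
    rw [F1]; exact this
  have F8 : ∑ i, w i * ∑ v ∈ U \ e i, (x v - nibΔ e w i v + τ) ^ 2 ≤
      Om * Q - 2 * (∑ i, w i * ∑ v ∈ U \ e i, x v * nibΔ e w i v)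
        + 2 * τ * (Om * X - (a * X + Q)) + Om * (r ^ 3 * ε + u * τ ^ 2) := by
    rw [← F4]
    calc _ ≤ ∑ i, w i * (Q - 2 * (∑ v ∈ U \ e i, x v * nibΔ e w i v)
          + 2 * τ * (∑ v ∈ U \ e i, x v) + r ^ 3 * ε + u * τ ^ 2) :=
          Finset.sum_le_sum fun i _ => mul_le_mul_of_nonneg_left (F2 i) (hw i)
      _ = _ := by
          rw [hOm, Finset.sum_mul, Finset.sum_mul, Finset.mul_sum (s := Finset.univ),
            Finset.mul_sum (s := Finset.univ), ← Finset.sum_sub_distrib,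
            ← Finset.sum_add_distrib, ← Finset.sum_add_distrib]
          exact Finset.sum_congr rfl fun i _ => by ring
  -- the main cancellation
  have hτu : τ * u = a * (r * (r - 1)) := by rw [hτ]; field_simp
  have F9 : 2 * τ * (Om * X) ≤ 2 * (r - 1) * a ^ 2 * X + 2 * (r - 1) * a * Q := by
    have hr0 : (0:ℝ) < r := by linarith
    have h1 : r * (2 * τ * (Om * X)) = 2 * (τ * u) * a * X + 2 * τ * X ^ 2 := by
      have : r * (2 * τ * (Om * X)) = 2 * τ * (r * Om) * X := by ring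
      rw [this, F1]; ring
    have h2 : 2 * τ * X ^ 2 ≤ 2 * (τ * u) * Q := by
      have := mul_le_mul_of_nonneg_left F7 (by positivity : 0 ≤ 2 * τ)
      linarith
    rw [hτu] at h1 h2
    have h3 : r * (2 * τ * (Om * X)) ≤ r * (2 * (r - 1) * a ^ 2 * X + 2 * (r - 1) * a * Q) := by
      rw [h1]; nlinarith
    exact le_of_mul_le_mul_left h3 hr0
  have hτ1 : τ ≤ r ^ 2 / u := by
    rw [hτ]
    refine div_le_div_of_nonneg_right ?_ hu.le
    nlinarith [mul_nonneg ha0 (by linarith : (0:ℝ) ≤ r), mul_nonneg (by linarith : (0:ℝ) ≤ 1 - a) (by nlinarith : (0:ℝ) ≤ (r:ℝ) * (r-1))]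
  have hτ2 : u * τ ^ 2 ≤ r ^ 4 / u := by
    calc u * τ ^ 2 ≤ u * (r ^ 2 / u) ^ 2 := by gcongr
      _ = r ^ 4 / u := by field_simp
  have hτ3 : 2 * τ * r ≤ 2 * r ^ 4 / u := by
    calc 2 * τ * r ≤ 2 * (r ^ 2 / u) * r := by gcongr
      _ = 2 * r ^ 3 / u := by ring
      _ ≤ 2 * r ^ 4 / u := by
        refine div_le_div_of_nonneg_right ?_ hu.le
        have : (r:ℝ) ^ 3 ≤ r ^ 4 := pow_le_pow_right₀ (by linarith) (by norm_num)
        linarith
  have F10 : 2 * τ * (-(a * X + Q)) ≤ Om * (2 * r ^ 4 / u) := by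
    calc 2 * τ * (-(a * X + Q)) ≤ 2 * τ * (r * Om) :=
          mul_le_mul_of_nonneg_left F4' (by positivity)
      _ = Om * (2 * τ * r) := by ring
      _ ≤ _ := mul_le_mul_of_nonneg_left hτ3 hOm0
  have F11 : Om * (u * τ ^ 2) ≤ Om * (r ^ 4 / u) := mul_le_mul_of_nonneg_left hτ2 hOm0
  have F12 : Om * (3 * r ^ 4 / u) = Om * (2 * r ^ 4 / u) + Om * (r ^ 4 / u) := by ring
  nlinarith [F8, F9, F10, F11, F12, F3]

/-- weights of the edges inside `U` -/
private noncomputable def nibW (e : ι → Finset V) (ω : ι → ℝ) (U : Finset V) (i : ι) : ℝ :=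
  if e i ⊆ U then ω i else 0

private noncomputable def nibQ (e : ι → Finset V) (ω : ι → ℝ) (U : Finset V) (a : ℝ) : ℝ :=
  ∑ v ∈ U, ((∑ i with v ∈ e i, nibW e ω U i) - a) ^ 2

private theorem nibW_sdiff (e : ι → Finset V) (ω : ι → ℝ) (U : Finset V) (i : ι) (v : V) :
    ∑ j with v ∈ e j, nibW e ω (U \ e i) j =
      (∑ j with v ∈ e j, nibW e ω U j) - nibΔ e (nibW e ω U) i v := by
  classical
  unfold nibΔ
  rw [Finset.sum_filter, Finset.sum_filter, Finset.sum_filter, ← Finset.sum_sub_distrib]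
  refine Finset.sum_congr rfl fun j _ => ?_
  unfold nibW
  by_cases h1 : v ∈ e j <;> by_cases h2 : e j ⊆ U <;> by_cases h3 : Disjoint (e j) (e i) <;>
    simp [h1, h2, h3, Finset.subset_sdiff]

private theorem nib_step (r : ℕ) (hr : 2 ≤ r) (e : ι → Finset V) (ω : ι → ℝ) (U : Finset V)
    (ε a n η A : ℝ) (hε : 0 ≤ ε) (hη : 0 < η) (hη1 : η ≤ 1) (hn : 0 < n) (hA : 0 < A)
    (haA : A ≤ a) (ha1 : a ≤ 1)
    (hc : ∀ i, (e i).card = r) (hω : ∀ i, 0 ≤ ω i)
    (hD : ∀ v, ∑ i with v ∈ e i, ω i ≤ 1)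
    (hcod : ∀ u v, u ≠ v → ∑ i with (u ∈ e i ∧ v ∈ e i), ω i ≤ ε)
    (hu : η * n ≤ U.card) (hQ : nibQ e ω U a ≤ U.card * a ^ 2 / 4) :
    ∃ i, e i ⊆ U ∧ nibQ e ω (U \ e i) (a - a * (r * (r - 1)) / U.card) ≤
      (1 + (4 * r / (η * A) + 3 * r ^ 4 / η) / n) * nibQ e ω U a
        + (4 * r / (η * A) + 3 * r ^ 4 / η) * (ε + 1 / n) := by
  classical
  have hr' : (2:ℝ) ≤ r := by exact_mod_cast hr
  have hupos : (0:ℝ) < U.card := lt_of_lt_of_le (by positivity) hu
  have ha0 : 0 < a := lt_of_lt_of_le hA haA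
  set w := nibW e ω U with hw
  have hw0 : ∀ i, 0 ≤ w i := fun i => by
    rw [hw]; unfold nibW; split_ifs <;> [exact hω i; exact le_rfl]
  have hwω : ∀ i, w i ≤ ω i := fun i => by
    rw [hw]; unfold nibW; split_ifs <;> [exact le_rfl; exact hω i]
  have hwU : ∀ i, w i ≠ 0 → e i ⊆ U := fun i hi => by
    by_contra h; apply hi; rw [hw]; unfold nibW; rw [if_neg h]
  have hwD : ∀ v, ∑ i with v ∈ e i, w i ≤ 1 := fun v =>
    (Finset.sum_le_sum fun i _ => hwω i).trans (hD v)
  have hwc : ∀ u v, u ≠ v → ∑ i with (u ∈ e i ∧ v ∈ e i), w i ≤ ε := fun u v huv =>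
    (Finset.sum_le_sum fun i _ => hwω i).trans (hcod u v huv)
  set τ := a * (r * (r - 1)) / U.card with hτ
  have hcore := nib_core r hr e w U ε a hε ha0.le ha1 hc hw0 hwU hwD hwc
    (by exact_mod_cast hupos) (fun v => (∑ i with v ∈ e i, w i) - a) (fun v => rfl) τ hτ
  set Q := nibQ e ω U a with hQdef
  have hQ' : ∑ v ∈ U, ((∑ i with v ∈ e i, w i) - a) ^ 2 = Q := rfl
  have hQ0 : 0 ≤ Q := Finset.sum_nonneg fun v _ => sq_nonneg _
  have hQi : ∀ i, ∑ v ∈ U \ e i, ((∑ i with v ∈ e i, w i) - a - nibΔ e w i v + τ) ^ 2 =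
      nibQ e ω (U \ e i) (a - τ) := by
    intro i
    unfold nibQ
    refine Finset.sum_congr rfl fun v _ => ?_
    rw [nibW_sdiff]; ring
  simp only [hQi, hQ'] at hcore
  set Om := ∑ i, w i with hOm
  -- lower bound for Om
  have hF1 : r * Om = U.card * a + ∑ v ∈ U, ((∑ i with v ∈ e i, w i) - a) := by
    have h := nib_dc e w U hwU (fun _ => 1)
    have h1 : ∑ i, w i * ∑ v ∈ e i, (1:ℝ) = r * Om := by
      rw [hOm, Finset.mul_sum]
      refine Finset.sum_congr rfl fun i _ => ?_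
      rw [Finset.sum_const, hc, nsmul_eq_mul]; ring
    rw [← h1, h, Finset.sum_sub_distrib, Finset.sum_const, nsmul_eq_mul]
    simp
  have hX : (∑ v ∈ U, ((∑ i with v ∈ e i, w i) - a)) ^ 2 ≤ (U.card * a / 2) ^ 2 := by
    calc _ ≤ U.card * ∑ v ∈ U, ((∑ i with v ∈ e i, w i) - a) ^ 2 := sq_sum_le_card_mul_sum_sq
      _ ≤ U.card * (U.card * a ^ 2 / 4) := by
          rw [hQ']; exact mul_le_mul_of_nonneg_left hQ hupos.le
      _ = _ := by ring
  have hX' := (abs_le.1 (abs_le_of_sq_le_sq hX (by positivity))).1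
  have hOm1 : U.card * a / (2 * r) ≤ Om := by
    rw [div_le_iff₀ (by positivity)]
    linarith
  have hOmpos : 0 < Om := lt_of_lt_of_le (by positivity) hOm1
  -- average
  set B := Q + 3 * r ^ 3 * ε + 3 * r ^ 4 / U.card + 2 * Q / Om with hB
  have hcore' : ∑ i, w i * nibQ e ω (U \ e i) (a - τ) ≤ Om * B := by
    refine hcore.trans (le_of_eq ?_)
    rw [hB]; field_simp
  obtain ⟨i, hi0, hiB⟩ : ∃ i, w i ≠ 0 ∧ nibQ e ω (U \ e i) (a - τ) ≤ B := by
    by_contra hcon
    push Not at hcon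
    have h1 : ∀ i ∈ (Finset.univ : Finset ι), 0 ≤ w i * (nibQ e ω (U \ e i) (a - τ) - B) := by
      intro i _
      by_cases hi : w i = 0
      · rw [hi, zero_mul]
      · exact mul_nonneg (hw0 i) (by linarith [hcon i hi])
    have h2 : ∑ i, w i * (nibQ e ω (U \ e i) (a - τ) - B) ≤ 0 := by
      have : ∑ i, w i * (nibQ e ω (U \ e i) (a - τ) - B) =
          ∑ i, w i * nibQ e ω (U \ e i) (a - τ) - Om * B := by
        rw [hOm, Finset.sum_mul, ← Finset.sum_sub_distrib]
        exact Finset.sum_congr rfl fun i _ => by ring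
      rw [this]; linarith
    have h3 := (Finset.sum_eq_zero_iff_of_nonneg h1).1
      (le_antisymm h2 (Finset.sum_nonneg h1))
    have h4 : Om = 0 := by
      rw [hOm]
      refine Finset.sum_eq_zero fun i hi => ?_
      by_contra h
      have h5 := h3 i hi
      rcases mul_eq_zero.1 h5 with h6 | h6
      · exact h h6
      · linarith [hcon i h]
    exact hOmpos.ne' h4
  refine ⟨i, hwU i hi0, hiB.trans ?_⟩
  have hηn : 0 < η * n := by positivity
  have g1 : 2 * Q / Om ≤ 4 * r / (η * A) / n * Q := by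
    have : η * n * A / (2 * r) ≤ Om := by
      refine le_trans ?_ hOm1
      refine div_le_div_of_nonneg_right ?_ (by positivity)
      exact mul_le_mul hu haA hA.le hupos.le
    calc 2 * Q / Om ≤ 2 * Q / (η * n * A / (2 * r)) :=
          div_le_div_of_nonneg_left (by positivity) (by positivity) this
      _ = _ := by field_simp; ring
  have g2 : (3:ℝ) * r ^ 4 / U.card ≤ 3 * r ^ 4 / η * (1 / n) := by
    calc (3:ℝ) * r ^ 4 / U.card ≤ 3 * r ^ 4 / (η * n) :=
          div_le_div_of_nonneg_left (by positivity) hηn hu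
      _ = _ := by field_simp
  have g3 : (3:ℝ) * r ^ 3 ≤ 3 * r ^ 4 / η := by
    rw [le_div_iff₀ hη]
    have : (r:ℝ) ^ 3 ≤ r ^ 4 := pow_le_pow_right₀ (by linarith) (by norm_num)
    have h3 : (0:ℝ) ≤ r ^ 3 := by positivity
    nlinarith
  have g4 : 0 ≤ 4 * r / (η * A) * (ε + 1 / n) := by positivity
  have g5 : 0 ≤ 3 * r ^ 4 / η / n * Q := by positivity
  have g6 := mul_le_mul_of_nonneg_right g3 hε
  have g7 : (1 + (4 * r / (η * A) + 3 * r ^ 4 / η) / n) * Q
        + (4 * r / (η * A) + 3 * r ^ 4 / η) * (ε + 1 / n) =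
      Q + 4 * r / (η * A) / n * Q + 3 * r ^ 4 / η / n * Q + 4 * r / (η * A) * (ε + 1 / n)
        + 3 * r ^ 4 / η * ε + 3 * r ^ 4 / η * (1 / n) := by ring
  rw [g7, hB]
  linarith

private theorem nib_iter [Fintype V] (r : ℕ) (hr : 2 ≤ r) (e : ι → Finset V) (ω : ι → ℝ)
    (ε n η c A K : ℝ) (hε : 0 < ε) (hη : 0 < η) (hη1 : η ≤ 1)
    (hn : n = Fintype.card V) (hcdef : c = 2 * r ^ 2 / η) (hAdef : A = Real.exp (-c))
    (hKdef : K = 4 * r / (η * A) + 3 * r ^ 4 / η)
    (hε1 : ε ≤ η / (2 * r ^ 2)) (hε2 : ε * (Real.exp K * (1 + 2 * K)) ≤ η * A ^ 2 / 4)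
    (hc : ∀ i, (e i).card = r) (hω : ∀ i, 0 ≤ ω i)
    (hD : ∀ v, ∑ i with v ∈ e i, ω i ≤ 1)
    (hcod : ∀ u v, u ≠ v → ∑ i with (u ∈ e i ∧ v ∈ e i), ω i ≤ ε)
    (hn1 : 1 / ε ≤ n) (hsum : (1 - ε) * n ≤ r * ∑ i, ω i) :
    ∀ t : ℕ, (∀ s < t, η * n ≤ n - r * s) → ∃ (I : Finset ι) (U : Finset V) (a : ℝ),
      I.card = t ∧ (∀ i ∈ I, ∀ j ∈ I, i ≠ j → Disjoint (e i) (e j)) ∧
      (∀ i ∈ I, Disjoint (e i) U) ∧ (U.card : ℝ) = n - r * t ∧
      Real.exp (-(c / n * t)) ≤ a ∧ a ≤ 1 ∧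
      nibQ e ω U a ≤ Real.exp (K / n * t) * (ε * n + K * t * (ε + 1 / n)) := by
  classical
  have hr' : (2:ℝ) ≤ r := by exact_mod_cast hr
  have hApos : 0 < A := by rw [hAdef]; exact Real.exp_pos _
  have hKpos : 0 < K := by rw [hKdef]; positivity
  have hcpos : 0 < c := by rw [hcdef]; positivity
  have hnpos : 0 < n := lt_of_lt_of_le (by positivity) hn1
  have hn1' : 1 ≤ ε * n := by
    rw [div_le_iff₀ hε] at hn1; linarith
  intro t
  induction t with
  | zero =>
    intro _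
    refine ⟨∅, Finset.univ, 1, rfl, by simp, by simp, by simp [hn], by simp, le_rfl, ?_⟩
    unfold nibQ
    have h1 : ∀ v : V, ∑ i with v ∈ e i, nibW e ω Finset.univ i = ∑ i with v ∈ e i, ω i := by
      intro v
      refine Finset.sum_congr rfl fun i _ => ?_
      unfold nibW; simp
    have h2 : ∑ v : V, ((∑ i with v ∈ e i, nibW e ω Finset.univ i) - 1) ^ 2 ≤
        ∑ v : V, (1 - ∑ i with v ∈ e i, ω i) := by
      refine Finset.sum_le_sum fun v _ => ?_
      rw [h1]
      have := hD v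
      have h0 : 0 ≤ ∑ i with v ∈ e i, ω i := Finset.sum_nonneg fun i _ => hω i
      nlinarith
    refine h2.trans ?_
    rw [Finset.sum_sub_distrib, Finset.sum_const, nsmul_eq_mul, Finset.card_univ, ← hn]
    have h3 : ∑ v : V, ∑ i with v ∈ e i, ω i = r * ∑ i, ω i := by
      have h := nib_dc e ω Finset.univ (fun i _ => Finset.subset_univ _) (fun _ => 1)
      simp only [mul_one] at h
      rw [← h, Finset.mul_sum]
      refine Finset.sum_congr rfl fun i _ => ?_
      rw [Finset.sum_const, hc, nsmul_eq_mul]; ring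
    rw [h3]
    simp
    linarith
  | succ t ih =>
    intro hs
    obtain ⟨I, U, a, hI, hdis, hIU, hUc, haA, ha1, hQ⟩ := ih (fun s hs' => hs s (by omega))
    have hu : η * n ≤ U.card := by rw [hUc]; exact hs t (by omega)
    have htn : (t:ℝ) ≤ n := by
      have h1 := hs t (by omega)
      have h2 : 0 ≤ η * n := by positivity
      have h3 : (0:ℝ) ≤ t := Nat.cast_nonneg t
      nlinarith
    have ht0 : (0:ℝ) ≤ t := Nat.cast_nonneg t
    have hupos : (0:ℝ) < U.card := lt_of_lt_of_le (by positivity) hu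
    have hAa : A ≤ a := by
      refine le_trans ?_ haA
      rw [hAdef]
      refine Real.exp_le_exp.2 (neg_le_neg ?_)
      calc c / n * t ≤ c / n * n := mul_le_mul_of_nonneg_left htn (by positivity)
        _ = c := by field_simp
    have ha0 : 0 < a := lt_of_lt_of_le hApos hAa
    have hQ1 : nibQ e ω U a ≤ U.card * a ^ 2 / 4 := by
      calc nibQ e ω U a ≤ Real.exp (K / n * t) * (ε * n + K * t * (ε + 1 / n)) := hQ
        _ ≤ Real.exp K * (ε * n + 2 * K * (ε * n)) := by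
            refine mul_le_mul ?_ ?_ (by positivity) (Real.exp_pos _).le
            · refine Real.exp_le_exp.2 ?_
              calc K / n * t ≤ K / n * n := mul_le_mul_of_nonneg_left htn (by positivity)
                _ = K := by field_simp
            · have : K * t * (ε + 1 / n) ≤ 2 * K * (ε * n) := by
                calc K * t * (ε + 1 / n) ≤ K * n * (ε + 1 / n) := by gcongr
                  _ = K * (ε * n + 1) := by field_simp
                  _ ≤ _ := by nlinarith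
              linarith
        _ = n * (ε * (Real.exp K * (1 + 2 * K))) := by ring
        _ ≤ n * (η * A ^ 2 / 4) := mul_le_mul_of_nonneg_left hε2 hnpos.le
        _ = (η * n) * A ^ 2 / 4 := by ring
        _ ≤ U.card * a ^ 2 / 4 := by gcongr
    obtain ⟨i, hiU, hi⟩ := nib_step r hr e ω U ε a n η A hε.le hη hη1 hnpos hApos hAa ha1 hc hω hD
      hcod hu hQ1
    rw [← hKdef] at hi
    have hne : (e i).Nonempty := by
      rw [← Finset.card_pos, hc]; omega
    have hiI : i ∉ I := by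
      intro h
      obtain ⟨v, hv⟩ := hne
      exact Finset.disjoint_left.1 (hIU i h) hv (hiU hv)
    set y : ℝ := r * (r - 1) / U.card with hy
    have hz : r ^ 2 / (η * n) ≤ 1 / 2 := by
      rw [div_le_iff₀ (by positivity)]
      have h1 : ε * (2 * r ^ 2) ≤ η := by
        rwa [le_div_iff₀ (by positivity)] at hε1
      have h2 : (r:ℝ) ^ 2 * 1 ≤ r ^ 2 * (ε * n) := mul_le_mul_of_nonneg_left hn1' (by positivity)
      nlinarith [mul_le_mul_of_nonneg_right h1 hnpos.le]
    have hyz : y ≤ r ^ 2 / (η * n) := by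
      calc y ≤ r ^ 2 / U.card := by
            rw [hy]; refine div_le_div_of_nonneg_right ?_ hupos.le
            nlinarith
        _ ≤ _ := div_le_div_of_nonneg_left (by positivity) (by positivity) hu
    have hy0 : 0 ≤ y := by
      rw [hy]
      exact div_nonneg (mul_nonneg (by linarith) (by linarith)) hupos.le
    have ha' : a - a * (r * (r - 1)) / U.card = a * (1 - y) := by rw [hy]; ring
    have hexp : Real.exp (-(c / n)) ≤ 1 - y := by
      set z := (r:ℝ) ^ 2 / (η * n) with hzdef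
      have hz0 : 0 ≤ z := by rw [hzdef]; positivity
      have hcn : c / n = 2 * z := by rw [hcdef, hzdef]; field_simp
      have h1 : Real.exp (-(c / n)) ≤ 1 / (1 + 2 * z) := by
        rw [hcn, Real.exp_neg, ← one_div]
        refine one_div_le_one_div_of_le (by linarith) ?_
        linarith [Real.add_one_le_exp (2 * z)]
      have h2 : 1 / (1 + 2 * z) ≤ 1 - z := by
        rw [div_le_iff₀ (by linarith)]
        nlinarith
      linarith
    refine ⟨insert i I, U \ e i, a * (1 - y), ?_, ?_, ?_, ?_, ?_, ?_, ?_⟩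
    · rw [Finset.card_insert_of_notMem hiI, hI]
    · intro j hj k hk hjk
      rcases Finset.mem_insert.1 hj with hj' | hj'
      · rcases Finset.mem_insert.1 hk with hk' | hk'
        · exact absurd (hj'.trans hk'.symm) hjk
        · rw [hj']; exact (Finset.disjoint_of_subset_right hiU (hIU k hk')).symm
      · rcases Finset.mem_insert.1 hk with hk' | hk'
        · rw [hk']; exact Finset.disjoint_of_subset_right hiU (hIU j hj')
        · exact hdis j hj' k hk' hjk
    · intro j hj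
      rcases Finset.mem_insert.1 hj with rfl | hj
      · exact Finset.disjoint_sdiff
      · exact Finset.disjoint_of_subset_right Finset.sdiff_subset (hIU j hj)
    · rw [Finset.cast_card_sdiff hiU, hUc, hc]; push_cast; ring
    · have h1 : -(c / n * ((t + 1 : ℕ) : ℝ)) = -(c / n * t) + -(c / n) := by push_cast; ring
      rw [h1, Real.exp_add]
      exact mul_le_mul haA hexp (Real.exp_pos _).le ha0.le
    · nlinarith
    · rw [← ha']
      refine hi.trans ?_
      set R := ε * n + K * t * (ε + 1 / n) with hR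
      have hR0 : 0 ≤ R := by rw [hR]; positivity
      have h1 : (1 + K / n) ≤ Real.exp (K / n) := by linarith [Real.add_one_le_exp (K / n)]
      have h2 : 1 ≤ Real.exp (K / n * ((t + 1 : ℕ) : ℝ)) := Real.one_le_exp (by positivity)
      have h3 : Real.exp (K / n * ((t + 1 : ℕ) : ℝ)) = Real.exp (K / n) * Real.exp (K / n * t) := by
        rw [← Real.exp_add]; congr 1; push_cast; ring
      calc (1 + K / n) * nibQ e ω U a + K * (ε + 1 / n)
          ≤ Real.exp (K / n) * (Real.exp (K / n * t) * R)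
            + Real.exp (K / n * ((t + 1 : ℕ) : ℝ)) * (K * (ε + 1 / n)) := by
            have hQ0 : 0 ≤ nibQ e ω U a := Finset.sum_nonneg fun v _ => sq_nonneg _
            have h4 : (1 + K / n) * nibQ e ω U a ≤ Real.exp (K / n) * (Real.exp (K / n * t) * R) :=
              mul_le_mul h1 hQ hQ0 (Real.exp_pos _).le
            have h5 : 1 * (K * (ε + 1 / n)) ≤
                Real.exp (K / n * ((t + 1 : ℕ) : ℝ)) * (K * (ε + 1 / n)) :=
              mul_le_mul_of_nonneg_right h2 (by positivity)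
            linarith
        _ = Real.exp (K / n * ((t + 1 : ℕ) : ℝ)) * (ε * n + K * ((t + 1 : ℕ) : ℝ) * (ε + 1 / n)) := by
            rw [h3, hR]; push_cast; ring

end core

/-- **P5** : almost perfect matchings in weighted uniform hypergraphs with small codegrees -/
theorem nibble (r : ℕ) (hr : 2 ≤ r) (η : ℝ) (hη : 0 < η) : ∃ ε > (0 : ℝ),
    ∀ (V ι : Type) [Fintype V] [DecidableEq V] [Fintype ι] (e : ι → Finset V) (ω : ι → ℝ),
      (∀ i, (e i).card = r) → (∀ i, 0 ≤ ω i) →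
      (∀ v, ∑ i with v ∈ e i, ω i ≤ 1) →
      (∀ u v, u ≠ v → ∑ i with (u ∈ e i ∧ v ∈ e i), ω i ≤ ε) →
      1 / ε ≤ (Fintype.card V : ℝ) →
      (1 - ε) * (Fintype.card V : ℝ) ≤ r * ∑ i, ω i →
      ∃ I : Finset ι, (∀ i ∈ I, ∀ j ∈ I, i ≠ j → Disjoint (e i) (e j)) ∧
        (1 - η) * (Fintype.card V : ℝ) ≤ r * (I.card : ℝ) := by
  rcases le_or_gt 1 η with h1 | h1
  · refine ⟨1, one_pos, ?_⟩
    intro V ι _ _ _ e ω _ _ _ _ _ _
    refine ⟨∅, by simp, ?_⟩
    have : (0:ℝ) ≤ Fintype.card V := Nat.cast_nonneg _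
    simp only [Finset.card_empty, Nat.cast_zero, mul_zero]
    nlinarith
  have hr' : (2:ℝ) ≤ r := by exact_mod_cast hr
  set c : ℝ := 2 * r ^ 2 / η with hc
  set A : ℝ := Real.exp (-c) with hA
  set K : ℝ := 4 * r / (η * A) + 3 * r ^ 4 / η with hK
  have hApos : 0 < A := Real.exp_pos _
  have hKpos : 0 < K := by rw [hK]; positivity
  refine ⟨min (η / (2 * r ^ 2)) (η * A ^ 2 / 4 / (Real.exp K * (1 + 2 * K))), ?_, ?_⟩
  · refine lt_min (by positivity) (by positivity)
  intro V ι _ _ _ e ω hcard hω hD hcod hn hsum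
  set ε := min (η / (2 * r ^ 2)) (η * A ^ 2 / 4 / (Real.exp K * (1 + 2 * K))) with hε
  have hεpos : 0 < ε := lt_min (by positivity) (by positivity)
  have hit := nib_iter r hr e ω ε (Fintype.card V) η c A K hεpos hη h1.le rfl hc hA hK
    (min_le_left _ _) (by
      have := min_le_right (η / (2 * (r:ℝ) ^ 2)) (η * A ^ 2 / 4 / (Real.exp K * (1 + 2 * K)))
      rwa [le_div_iff₀ (by positivity)] at this) hcard hω hD hcod hn hsum
    ⌈(1 - η) * (Fintype.card V : ℝ) / r⌉₊ (by
      intro s hs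
      rw [Nat.lt_ceil, lt_div_iff₀ (by linarith)] at hs
      linarith)
  obtain ⟨I, U, a, hI, hdis, -⟩ := hit
  refine ⟨I, hdis, ?_⟩
  rw [hI]
  have := Nat.le_ceil ((1 - η) * (Fintype.card V : ℝ) / r)
  rw [div_le_iff₀ (by linarith)] at this
  linarith

end Pool.Agent.THC
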