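import Pool.Agent.Lib.MP_5c6f2e_co.Defs

/-!
# P12 : structure near the space barrier
-/

set_option autoImplicit false

namespace Pool.Agent.THC

open Finset

namespace CleanAux

variable {V : Type} [Fintype V] [DecidableEq V]

/-! ### counting -/

theorem cntEquiv {α β : Type*} [Fintype α] [Fintype β] (e : α ≃ β) (P : β → Prop) :
    cnt (fun a => P (e a)) = cnt P := by
  classical
  rw [cnt_eq, cnt_eq]
  exact Finset.card_bij (fun a _ => e a) (by simp) (fun a _ b _ h => e.injective h)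
    (fun b hb => ⟨e.symm b, by simpa using hb, by simp⟩)

theorem cnt_prod {α β : Type*} [Fintype α] [Fintype β] (P : α × β → Prop) :
    cnt P = ∑ a, cnt (fun b => P (a, b)) := by
  classical
  rw [cnt_eq, Finset.card_filter, Fintype.sum_prod_type]
  refine Finset.sum_congr rfl fun v _ => ?_
  rw [cnt_eq, Finset.card_filter]

theorem cnt_prod' {α β : Type*} [Fintype α] [Fintype β] (P : α × β → Prop) :
    cnt P = ∑ b, cnt (fun a => P (a, b)) := by
  classical
  rw [cnt_eq, Finset.card_filter, Fintype.sum_prod_type_right]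
  refine Finset.sum_congr rfl fun v _ => ?_
  rw [cnt_eq, Finset.card_filter]

theorem cnt_cons {m : ℕ} (P : (Fin (m + 1) → V) → Prop) :
    cnt P = ∑ v, cnt (fun g : Fin m → V => P (Fin.cons v g)) := by
  rw [← cntEquiv (Fin.consEquiv (fun _ : Fin (m + 1) => V)) P, cnt_prod]
  rfl

theorem cnt_cons' {m : ℕ} (P : (Fin (m + 1) → V) → Prop) :
    cnt P = ∑ g : Fin m → V, cnt (fun v => P (Fin.cons v g)) := by
  rw [← cntEquiv (Fin.consEquiv (fun _ : Fin (m + 1) => V)) P, cnt_prod']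
  rfl

theorem cnt_split {α : Type*} [Fintype α] (P Q : α → Prop) :
    cnt P = cnt (fun a => P a ∧ Q a) + cnt (fun a => P a ∧ ¬ Q a) := by
  classical
  rw [cnt_eq, cnt_eq, cnt_eq, ← Finset.filter_filter, ← Finset.filter_filter,
    Finset.card_filter_add_card_filter_not]

theorem cnt_true {α : Type*} [Fintype α] (P : α → Prop) (h : ∀ a, P a) :
    cnt P = Fintype.card α := by
  classical
  rw [cnt_eq, Finset.filter_true_of_mem (fun a _ => h a), Finset.card_univ]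

theorem cnt_false {α : Type*} [Fintype α] (P : α → Prop) (h : ∀ a, ¬ P a) :
    cnt P = 0 := by
  classical
  rw [cnt_eq, Finset.filter_false_of_mem (fun a _ => h a), Finset.card_empty]

theorem cnt_mem (S : Finset V) : cnt (fun v => v ∈ S) = S.card := by
  classical
  rw [cnt_eq]; congr 1; ext v; simp

theorem cnt_not_mem (S : Finset V) : (cnt (fun v => v ∉ S) : ℝ) = Fintype.card V - S.card := by
  have h := cnt_split (fun _ : V => True) (fun v => v ∈ S)
  rw [cnt_true (fun _ : V => True) (fun _ => trivial)] at h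
  have h1 : cnt (fun v : V => True ∧ v ∈ S) = S.card := by
    rw [← cnt_mem S]; exact cnt_congr (fun v => by simp)
  have h2 : cnt (fun v : V => True ∧ v ∉ S) = cnt (fun v => v ∉ S) :=
    cnt_congr (fun v => by simp)
  rw [h1, h2] at h
  have h' : (Fintype.card V : ℝ) = S.card + cnt (fun v => v ∉ S) := by exact_mod_cast h
  linarith

/-- `P` has a product structure over the first coordinate -/
theorem cnt_cons_and {m : ℕ} (A : V → Prop) (B : (Fin m → V) → Prop) :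
    cnt (fun f : Fin (m + 1) → V => A (f 0) ∧ B (fun i => f i.succ)) = cnt A * cnt B := by
  classical
  rw [cnt_cons]
  have : ∀ v, cnt (fun g : Fin m → V => A ((Fin.cons v g : Fin (m + 1) → V) 0) ∧
      B (fun i => (Fin.cons v g : Fin (m + 1) → V) i.succ)) = if A v then cnt B else 0 := by
    intro v
    split_ifs with h
    · refine cnt_congr fun g => ?_
      simp [h]
    · refine cnt_false _ fun g => ?_
      simp [h]
  rw [Finset.sum_congr rfl fun v _ => this v, ← Finset.sum_filter, Finset.sum_const, cnt_eq A,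
    smul_eq_mul]

theorem cnt_avoid (m : ℕ) (Y : Finset V) :
    (cnt (fun g : Fin m → V => ∀ i, g i ∉ Y) : ℝ) = ((Fintype.card V : ℝ) - Y.card) ^ m := by
  induction m with
  | zero =>
    rw [cnt_true _ (fun g i => i.elim0)]; simp
  | succ m ih =>
    have h : cnt (fun g : Fin (m + 1) → V => ∀ i, g i ∉ Y) =
        cnt (fun f : Fin (m + 1) → V => (fun v => v ∉ Y) (f 0) ∧
          (fun g : Fin m → V => ∀ i, g i ∉ Y) (fun i => f i.succ)) := by
      refine cnt_congr fun g => ?_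
      rw [Fin.forall_fin_succ]
    rw [h.trans (cnt_cons_and (fun v => v ∉ Y) (fun g : Fin m → V => ∀ i, g i ∉ Y)),
      Nat.cast_mul, ih, cnt_not_mem, pow_succ']

theorem cnt_hit (m : ℕ) (S : Finset V) :
    (cnt (fun g : Fin (m + 1) → V => ∃ i, g i ∈ S) : ℝ) ≤
      (m + 1) * S.card * (Fintype.card V : ℝ) ^ m := by
  induction m with
  | zero =>
    have h : cnt (fun g : Fin (0 + 1) → V => ∃ i, g i ∈ S) =
        cnt (fun f : Fin (0 + 1) → V => (fun v => v ∈ S) (f 0) ∧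
          (fun g : Fin 0 → V => True) (fun i => f i.succ)) := by
      refine cnt_congr fun g => ?_
      simp
    rw [h.trans (cnt_cons_and (fun v => v ∈ S) (fun _ : Fin 0 → V => True)), cnt_mem,
      cnt_true (fun _ : Fin 0 → V => True) (fun _ => trivial)]
    simp
  | succ m ih =>
    have h : cnt (fun g : Fin (m + 1 + 1) → V => ∃ i, g i ∈ S) ≤
        cnt (fun f : Fin (m + 1 + 1) → V => (fun v => v ∈ S) (f 0) ∧
          (fun _ : Fin (m + 1) → V => True) (fun i => f i.succ)) +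
        cnt (fun f : Fin (m + 1 + 1) → V => (fun _ => True) (f 0) ∧
          (fun g : Fin (m + 1) → V => ∃ i, g i ∈ S) (fun i => f i.succ)) := by
      refine le_trans (cnt_mono fun g hg => ?_) (cnt_or_le _ _)
      obtain ⟨i, hi⟩ := hg
      refine Fin.cases (fun h0 => Or.inl ⟨h0, trivial⟩) (fun j hj => Or.inr ⟨trivial, j, hj⟩) i hi
    have e1 := cnt_cons_and (fun v => v ∈ S) (fun _ : Fin (m + 1) → V => True)
    have e2 := cnt_cons_and (fun _ : V => True) (fun g : Fin (m + 1) → V => ∃ i, g i ∈ S)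
    replace h := h.trans (le_of_eq (congrArg₂ (· + ·) e1 e2))
    rw [cnt_mem,
      cnt_true (fun _ : Fin (m + 1) → V => True) (fun _ => trivial),
      cnt_true (fun _ : V => True) (fun _ => trivial)] at h
    have h' : (cnt (fun g : Fin (m + 1 + 1) → V => ∃ i, g i ∈ S) : ℝ) ≤
        S.card * (Fintype.card V : ℝ) ^ (m + 1) + Fintype.card V *
          cnt (fun g : Fin (m + 1) → V => ∃ i, g i ∈ S) := by
      have := (Nat.cast_le (α := ℝ)).2 h
      simpa using this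
    refine h'.trans ?_
    have h2 := mul_le_mul_of_nonneg_left ih ((Nat.cast_nonneg (Fintype.card V) : (0 : ℝ) ≤ Fintype.card V))
    push_cast
    calc _ ≤ _ := add_le_add_right h2 _
      _ = _ := by ring

theorem cnt_all (m : ℕ) : (cnt (fun _ : Fin m → V => True) : ℝ) = (Fintype.card V : ℝ) ^ m := by
  rw [cnt_true _ (fun _ => trivial)]; simp

theorem cnt_le_pow {m : ℕ} (P : (Fin m → V) → Prop) :
    (cnt P : ℝ) ≤ (Fintype.card V : ℝ) ^ m := by
  have := cnt_le_card P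
  have h := (Nat.cast_le (α := ℝ)).2 this
  simpa using h

/-! ### edges -/

theorem edge_iff {K : Set (Finset V)} {m : ℕ} (f : Fin m → V) :
    EdgeL K (List.ofFn f) ↔ EdgeF K f := by
  unfold EdgeL EdgeF
  rw [List.nodup_ofFn]
  have : (List.ofFn f).toFinset = Finset.univ.image f := by
    ext v; simp [List.mem_ofFn]
  rw [this]

theorem edge_cons {K : Set (Finset V)} {m : ℕ} (v : V) (g : Fin m → V) :
    EdgeF K (Fin.cons v g : Fin (m + 1) → V) ↔ EdgeL K (v :: List.ofFn g) := by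
  rw [← edge_iff, List.ofFn_succ]; simp

theorem edge_perm {K : Set (Finset V)} {m : ℕ} (e : Fin m ≃ Fin m) (f : Fin m → V) :
    EdgeF K (fun i => f (e i)) ↔ EdgeF K f := by
  unfold EdgeF
  have h1 : Function.Injective (fun i => f (e i)) ↔ Function.Injective f :=
    ⟨fun h a b hab => by
      have := @h (e.symm a) (e.symm b) (by simpa using hab)
      exact e.symm.injective this, fun h => h.comp e.injective⟩
  have h2 : Finset.univ.image (fun i => f (e i)) = Finset.univ.image f := by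
    ext v
    simp only [Finset.mem_image, Finset.mem_univ, true_and]
    exact ⟨fun ⟨a, ha⟩ => ⟨e a, ha⟩, fun ⟨a, ha⟩ => ⟨e.symm a, by simpa using ha⟩⟩
  rw [h1, h2]

theorem cnt_perm {m : ℕ} (e : Fin m ≃ Fin m) (P : (Fin m → V) → Prop) :
    cnt (fun f : Fin m → V => P (fun i => f (e i))) = cnt P :=
  cntEquiv (Equiv.arrowCongr e.symm (Equiv.refl V)) P

theorem tree {K : Set (Finset V)} {m : ℕ} {D : ℝ} (hD : 0 ≤ D) (hK : Cx K (m + 1) D) (v : V)
    (hv : {v} ∈ K) : ∀ j ≤ m, D ^ j ≤ (cnt (fun g : Fin j → V => EdgeL K (v :: List.ofFn g)) : ℝ) := by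
  intro j
  induction j with
  | zero =>
    intro _
    rw [cnt_true]
    · simp
    · intro g
      refine ⟨by simp, ?_⟩
      simpa using hv
  | succ j ih =>
    intro hj
    have ih' := ih (by omega)
    rw [cnt_cons']
    push_cast
    classical
    have hstep : ∀ g : Fin j → V, EdgeL K (v :: List.ofFn g) →
        D ≤ (cnt (fun u : V => EdgeL K (v :: List.ofFn (Fin.cons u g : Fin (j + 1) → V))) : ℝ) := by
      intro g hg
      have hc : (v :: List.ofFn g).toFinset.card < m + 1 := by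
        refine lt_of_le_of_lt (List.toFinset_card_le _) ?_
        simp; omega
      refine (hK.deg _ hg.2 hc).trans ?_
      refine (Nat.cast_le (α := ℝ)).2 (cnt_mono fun u hu => ?_)
      obtain ⟨hu1, hu2⟩ := hu
      have hu1' : u ∉ (v :: List.ofFn g) := fun h => hu1 (List.mem_toFinset.2 h)
      have e1 : List.ofFn (Fin.cons u g : Fin (j + 1) → V) = u :: List.ofFn g := by
        rw [List.ofFn_succ]; simp
      rw [e1]
      have hnd := hg.1
      rw [List.nodup_cons] at hnd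
      refine ⟨?_, ?_⟩
      · rw [List.nodup_cons, List.nodup_cons]
        refine ⟨?_, fun h => hu1' (List.mem_cons_of_mem _ h), hnd.2⟩
        intro h
        rcases List.mem_cons.1 h with h | h
        · exact hu1' (h ▸ List.mem_cons_self)
        · exact hnd.1 h
      · have : (v :: u :: List.ofFn g).toFinset = insert u (v :: List.ofFn g).toFinset := by
          simp only [List.toFinset_cons]
          exact Finset.insert_comm _ _ _
        rw [this]; exact hu2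
    calc D ^ (j + 1) = D * D ^ j := pow_succ' _ _
      _ ≤ D * (cnt (fun g : Fin j → V => EdgeL K (v :: List.ofFn g)) : ℝ) :=
          mul_le_mul_of_nonneg_left ih' hD
      _ = ∑ g : Fin j → V, if EdgeL K (v :: List.ofFn g) then D else 0 := by
          rw [← Finset.sum_filter, Finset.sum_const, nsmul_eq_mul, cnt_eq, mul_comm]
      _ ≤ _ := by
          refine Finset.sum_le_sum fun g _ => ?_
          split_ifs with h
          · exact hstep g h
          · exact Nat.cast_nonneg _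

/-- edges through `v` meeting `Y` again -/
noncomputable def E2 (K : Set (Finset V)) (m : ℕ) (Y : Finset V) (v : V) : ℝ :=
  (cnt (fun g : Fin m → V => (∃ i, g i ∈ Y) ∧ EdgeL K (v :: List.ofFn g)) : ℝ)

/-- non-edges through `v` otherwise outside `Y` -/
noncomputable def NB (K : Set (Finset V)) (m : ℕ) (Y : Finset V) (v : V) : ℝ :=
  (cnt (fun g : Fin m → V => (∀ i, g i ∉ Y) ∧ ¬ EdgeL K (v :: List.ofFn g)) : ℝ)

theorem E2_nonneg (K : Set (Finset V)) (m : ℕ) (Y : Finset V) (v : V) : 0 ≤ E2 K m Y v :=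
  Nat.cast_nonneg _

theorem NB_le {K : Set (Finset V)} {m : ℕ} {D : ℝ} (hD : 0 ≤ D) (hK : Cx K (m + 1) D) (v : V)
    (hv : {v} ∈ K) (Y : Finset V) :
    NB K m Y v ≤ ((Fintype.card V : ℝ) - Y.card) ^ m - D ^ m + E2 K m Y v := by
  have h1 := tree hD hK v hv m le_rfl
  have h2 := cnt_split (fun g : Fin m → V => ∀ i, g i ∉ Y)
    (fun g => EdgeL K (v :: List.ofFn g))
  have h3 := cnt_split (fun g : Fin m → V => EdgeL K (v :: List.ofFn g)) (fun g => ∀ i, g i ∉ Y)
  have h4 : cnt (fun g : Fin m → V => EdgeL K (v :: List.ofFn g) ∧ ∀ i, g i ∉ Y) =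
      cnt (fun g : Fin m → V => (∀ i, g i ∉ Y) ∧ EdgeL K (v :: List.ofFn g)) :=
    cnt_congr fun g => and_comm
  have h5 : cnt (fun g : Fin m → V => EdgeL K (v :: List.ofFn g) ∧ ¬ ∀ i, g i ∉ Y) =
      cnt (fun g : Fin m → V => (∃ i, g i ∈ Y) ∧ EdgeL K (v :: List.ofFn g)) :=
    cnt_congr fun g => by
      rw [and_comm]
      refine and_congr_left fun _ => ?_
      push Not
      rfl
  rw [h4, h5] at h3
  have h2' := congrArg (Nat.cast (R := ℝ)) h2
  have h3' := congrArg (Nat.cast (R := ℝ)) h3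
  push_cast at h2' h3'
  rw [cnt_avoid] at h2'
  unfold NB E2
  linarith

theorem E2_comp (K : Set (Finset V)) (j : ℕ) (Y Y' : Finset V) (v : V) :
    E2 K (j + 1) Y v ≤ E2 K (j + 1) Y' v +
      (j + 1) * (Y \ Y').card * (Fintype.card V : ℝ) ^ j := by
  have h1 : cnt (fun g : Fin (j + 1) → V => (∃ i, g i ∈ Y) ∧ EdgeL K (v :: List.ofFn g)) ≤
      cnt (fun g : Fin (j + 1) → V => (∃ i, g i ∈ Y') ∧ EdgeL K (v :: List.ofFn g)) +
      cnt (fun g : Fin (j + 1) → V => ∃ i, g i ∈ Y \ Y') := by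
    refine le_trans (cnt_mono fun g hg => ?_) (cnt_or_le _ _)
    obtain ⟨⟨i, hi⟩, he⟩ := hg
    by_cases h : g i ∈ Y'
    · exact Or.inl ⟨⟨i, h⟩, he⟩
    · exact Or.inr ⟨i, Finset.mem_sdiff.2 ⟨hi, h⟩⟩
  have h2 := (Nat.cast_le (α := ℝ)).2 h1
  push_cast at h2
  unfold E2
  exact h2.trans (add_le_add_right (cnt_hit j (Y \ Y')) _)

/-- sum over a set of first coordinates -/
theorem sum_le_cnt_cons {m : ℕ} (S : Finset V) (P : (Fin (m + 1) → V) → Prop)
    (Q : V → (Fin m → V) → Prop) (h : ∀ v ∈ S, ∀ g, Q v g → P (Fin.cons v g)) :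
    ∑ v ∈ S, (cnt (Q v) : ℝ) ≤ (cnt P : ℝ) := by
  rw [cnt_cons]
  push_cast
  refine le_trans (Finset.sum_le_sum (g := fun v => (cnt (fun g : Fin m → V => P (Fin.cons v g)) : ℝ))
    fun v hv => (Nat.cast_le (α := ℝ)).2 (cnt_mono fun g hg => h v hv g hg)) ?_
  exact Finset.sum_le_sum_of_subset_of_nonneg (Finset.subset_univ S)
    fun v _ _ => Nat.cast_nonneg _

theorem sum_E2_le (K : Set (Finset V)) (m : ℕ) (Y : Finset V) :
    ∑ y ∈ Y, E2 K m Y y ≤ (cnt (fun f : Fin (m + 1) → V =>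
      EdgeF K f ∧ ∃ a b, a ≠ b ∧ f a ∈ Y ∧ f b ∈ Y) : ℝ) := by
  refine sum_le_cnt_cons Y _ (fun v g => (∃ i, g i ∈ Y) ∧ EdgeL K (v :: List.ofFn g)) ?_
  rintro v hv g ⟨⟨i, hi⟩, he⟩
  refine ⟨(edge_cons v g).2 he, 0, i.succ, (Fin.succ_ne_zero i).symm, ?_, ?_⟩
  · simpa using hv
  · simpa using hi

/-- `f p ∈ Y`, the other entries outside `Y`, not an edge -/
def Bad (K : Set (Finset V)) {m : ℕ} (Y : Finset V) (p : Fin (m + 1)) (f : Fin (m + 1) → V) :
    Prop := f p ∈ Y ∧ (∀ i, i ≠ p → f i ∉ Y) ∧ ¬ EdgeF K f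

theorem cnt_bad (K : Set (Finset V)) {m : ℕ} (Y : Finset V) (p : Fin (m + 1)) :
    cnt (Bad K Y p) = cnt (Bad K Y (0 : Fin (m + 1))) := by
  rw [← cnt_perm (Equiv.swap 0 p) (Bad K Y p)]
  refine cnt_congr fun f => ?_
  unfold Bad
  rw [edge_perm (Equiv.swap 0 p) f]
  simp only [Equiv.swap_apply_right]
  refine and_congr_right fun _ => and_congr_left fun _ => ?_
  constructor
  · intro h i hi
    have := h (Equiv.swap 0 p i) (fun h' => hi (by
      have := congrArg (Equiv.swap 0 p) h'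
      simpa using this))
    simpa using this
  · intro h i hi
    exact h (Equiv.swap 0 p i) (fun h' => hi (by
      have := congrArg (Equiv.swap 0 p) h'
      simpa using this))

theorem cnt_bad_zero (K : Set (Finset V)) {m : ℕ} (Y : Finset V) :
    (cnt (Bad K Y (0 : Fin (m + 1))) : ℝ) = ∑ y ∈ Y, NB K m Y y := by
  classical
  rw [cnt_cons]
  push_cast
  rw [← Finset.sum_subset (Finset.subset_univ Y)]
  · refine Finset.sum_congr rfl fun y hy => ?_
    unfold NB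
    congr 1
    refine cnt_congr fun g => ?_
    unfold Bad
    rw [edge_cons]
    constructor
    · rintro ⟨_, h2, h3⟩
      exact ⟨fun i => by simpa using h2 i.succ (Fin.succ_ne_zero i), h3⟩
    · rintro ⟨h2, h3⟩
      refine ⟨by simpa using hy, fun i hi => ?_, h3⟩
      obtain ⟨j, rfl⟩ := Fin.exists_succ_eq.2 hi
      simpa using h2 j
  · intro y _ hy
    rw [cnt_false]
    · simp
    · rintro g ⟨h1, _⟩
      exact hy (by simpa using h1)

theorem cnt_oneY (K : Set (Finset V)) {m : ℕ} (Y : Finset V) :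
    (cnt (fun f : Fin (m + 1) → V => OneY Y f ∧ ¬ EdgeF K f) : ℝ) ≤
      (m + 1) * ∑ y ∈ Y, NB K m Y y := by
  classical
  have h : cnt (fun f : Fin (m + 1) → V => OneY Y f ∧ ¬ EdgeF K f) ≤
      ∑ p : Fin (m + 1), cnt (Bad K Y p) := by
    have : ∀ p : Fin (m + 1), cnt (Bad K Y p) = (Finset.univ.filter (Bad K Y p)).card :=
      fun p => cnt_eq _
    simp_rw [this]
    rw [cnt_eq]
    refine le_trans (Finset.card_le_card ?_) Finset.card_biUnion_le
    intro f hf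
    rw [Finset.mem_filter] at hf
    obtain ⟨_, ⟨p, hp, hu⟩, hE⟩ := hf
    rw [Finset.mem_biUnion]
    refine ⟨p, Finset.mem_univ _, Finset.mem_filter.2 ⟨Finset.mem_univ _, hp, ?_, hE⟩⟩
    intro i hi hiY
    exact hi (hu i hiY)
  rw [Finset.sum_congr rfl fun p _ => cnt_bad K Y p] at h
  rw [Finset.sum_const, Finset.card_univ, Fintype.card_fin, smul_eq_mul] at h
  have h' := (Nat.cast_le (α := ℝ)).2 h
  push_cast at h'
  rw [cnt_bad_zero] at h'
  exact h'

/-- double counting for the vertices outside `Y` with few edges meeting `Y` -/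
theorem sum_out_le (K : Set (Finset V)) (j : ℕ) (Y S : Finset V) (hS : ∀ x ∈ S, x ∉ Y) :
    ∑ x ∈ S, ((Y.card : ℝ) * ((Fintype.card V : ℝ) - Y.card) ^ j - E2 K (j + 1) Y x) ≤
      ∑ y ∈ Y, NB K (j + 1) Y y := by
  classical
  rw [← cnt_bad_zero, ← cnt_bad K Y (1 : Fin (j + 1 + 1))]
  refine le_trans ?_ (sum_le_cnt_cons (m := j + 1) S (Bad K Y (1 : Fin (j + 1 + 1)))
    (fun x g => (g 0 ∈ Y ∧ ∀ i, i ≠ 0 → g i ∉ Y) ∧ ¬ EdgeL K (x :: List.ofFn g)) ?_)
  · refine Finset.sum_le_sum fun x hx => ?_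
    have h1 := cnt_split (fun g : Fin (j + 1) → V => g 0 ∈ Y ∧ ∀ i, i ≠ 0 → g i ∉ Y)
      (fun g => EdgeL K (x :: List.ofFn g))
    have h2 : cnt (fun g : Fin (j + 1) → V => g 0 ∈ Y ∧ ∀ i, i ≠ 0 → g i ∉ Y) =
        cnt (fun g : Fin (j + 1) → V => (fun v => v ∈ Y) (g 0) ∧
          (fun h : Fin j → V => ∀ i, h i ∉ Y) (fun i => g i.succ)) := by
      refine cnt_congr fun g => and_congr_right fun _ => ?_
      constructor
      · intro h i
        exact h i.succ (Fin.succ_ne_zero i)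
      · intro h i hi
        obtain ⟨l, rfl⟩ := Fin.exists_succ_eq.2 hi
        exact h l
    rw [h2.trans (cnt_cons_and (fun v => v ∈ Y) (fun h : Fin j → V => ∀ i, h i ∉ Y)),
      cnt_mem] at h1
    have h1' := congrArg (Nat.cast (R := ℝ)) h1
    push_cast at h1'
    rw [cnt_avoid] at h1'
    have h3 : (cnt (fun g : Fin (j + 1) → V => (g 0 ∈ Y ∧ ∀ i, i ≠ 0 → g i ∉ Y) ∧
        EdgeL K (x :: List.ofFn g)) : ℝ) ≤ E2 K (j + 1) Y x := by
      unfold E2
      refine (Nat.cast_le (α := ℝ)).2 (cnt_mono fun g hg => ⟨⟨0, hg.1.1⟩, hg.2⟩)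
    linarith
  · rintro x hx g ⟨⟨h0, h1⟩, h2⟩
    refine ⟨?_, ?_, fun h => h2 ((edge_cons x g).1 h)⟩
    · have : (1 : Fin (j + 1 + 1)) = (0 : Fin (j + 1)).succ := by simp
      rw [this, Fin.cons_succ]; exact h0
    · intro i hi
      refine Fin.cases (fun _ => ?_) (fun l hl => ?_) i hi
      · simpa using hS x hx
      · rw [Fin.cons_succ]
        refine h1 l fun h => hl ?_
        rw [h]; simp

theorem pow_diff {x y n t : ℝ} (hy : 0 ≤ y) (hyx : y ≤ x) (hxn : x ≤ n)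
    (ht : x - y ≤ t * n) : ∀ m : ℕ, x ^ m - y ^ m ≤ m * t * n ^ m := by
  intro m
  have hn : 0 ≤ n := by linarith
  induction m with
  | zero => simp
  | succ m ih =>
    have h1 : x ^ (m + 1) - y ^ (m + 1) = x ^ m * (x - y) + y * (x ^ m - y ^ m) := by ring
    have h2 : x ^ m ≤ n ^ m := pow_le_pow_left₀ (hy.trans hyx) hxn m
    have h3 : x ^ m * (x - y) ≤ n ^ m * (t * n) :=
      mul_le_mul h2 ht (by linarith) (pow_nonneg hn m)
    have h4 : 0 ≤ x ^ m - y ^ m := sub_nonneg.2 (pow_le_pow_left₀ hy hyx m)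
    have h5 : y * (x ^ m - y ^ m) ≤ n * (m * t * n ^ m) :=
      mul_le_mul (hyx.trans hxn) ih h4 hn
    rw [h1]
    push_cast
    calc _ ≤ n ^ m * (t * n) + n * (m * t * n ^ m) := add_le_add h3 h5
      _ = _ := by ring

theorem pow_diff' {x y n t : ℝ} (hx : 0 ≤ x) (hy : 0 ≤ y) (hxn : x ≤ n)
    (ht : x - y ≤ t * n) (ht0 : 0 ≤ t) (m : ℕ) : x ^ m - y ^ m ≤ m * t * n ^ m := by
  rcases le_total y x with h | h
  · exact pow_diff hy h hxn ht m
  · have h1 : x ^ m ≤ y ^ m := pow_le_pow_left₀ hx h m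
    have h2 : 0 ≤ m * t * n ^ m :=
      mul_nonneg (mul_nonneg (Nat.cast_nonneg m) ht0) (pow_nonneg (hx.trans hxn) m)
    linarith

theorem cnt_first {m : ℕ} (v : V) (R : (Fin (m + 1) → V) → Prop) :
    cnt (fun f : Fin (m + 1) → V => f 0 = v ∧ R f) = cnt (fun g : Fin m → V => R (Fin.cons v g)) := by
  rw [cnt_cons]
  rw [Finset.sum_eq_single v]
  · refine cnt_congr fun g => ?_
    simp
  · intro u _ hu
    refine cnt_false _ fun g hg => hu ?_
    simpa using hg.1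
  · intro h; exact absurd (Finset.mem_univ v) h

theorem oneY_cons_in {m : ℕ} {Y : Finset V} {v : V} (hv : v ∈ Y) {g : Fin m → V}
    (h : OneY Y (Fin.cons v g : Fin (m + 1) → V)) : ∀ i, g i ∉ Y := by
  obtain ⟨p, hp, hu⟩ := h
  intro i hi
  have h0 := hu 0 (by simpa using hv)
  have h1 := hu i.succ (by simpa using hi)
  rw [← h1] at h0
  exact (Fin.succ_ne_zero i) h0.symm

theorem oneY_cons_out {m : ℕ} {Y : Finset V} {v : V} (hv : v ∉ Y) {g : Fin m → V} :
    OneY Y (Fin.cons v g : Fin (m + 1) → V) ↔ OneY Y g := by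
  constructor
  · rintro ⟨p, hp, hu⟩
    have hp0 : p ≠ 0 := by
      rintro rfl
      exact hv (by simpa using hp)
    obtain ⟨q, rfl⟩ := Fin.exists_succ_eq.2 hp0
    refine ⟨q, by simpa using hp, fun i hi => ?_⟩
    have := hu i.succ (by simpa using hi)
    exact Fin.succ_injective _ this
  · rintro ⟨q, hq, hu⟩
    refine ⟨q.succ, by simpa using hq, fun i hi => ?_⟩
    have hi0 : i ≠ 0 := by
      rintro rfl
      exact hv (by simpa using hi)
    obtain ⟨l, rfl⟩ := Fin.exists_succ_eq.2 hi0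
    rw [hu l (by simpa using hi)]

theorem oneY_perm {m : ℕ} {Y : Finset V} (e : Fin m ≃ Fin m) (f : Fin m → V) :
    OneY Y (fun i => f (e i)) ↔ OneY Y f := by
  unfold OneY
  constructor
  · rintro ⟨p, hp, hu⟩
    refine ⟨e p, hp, fun i hi => ?_⟩
    have := hu (e.symm i) (by simpa using hi)
    rw [← this]; simp
  · rintro ⟨p, hp, hu⟩
    refine ⟨e.symm p, by simpa using hp, fun i hi => ?_⟩
    have := hu (e i) hi
    rw [← this]; simp

theorem core (j : ℕ) (α ζ γ τ : ℝ) (hα : 0 < α) (hγ : 0 < γ)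
    (hα0 : α / 3 ≤ (1 / ((j : ℝ) + 2) / 2 * (1 / 2) ^ j) / 2)
    (hγ1 : γ ≤ 1 / ((j : ℝ) + 2) / 2)
    (hτ : γ + γ / (α / 3) +
      (2 * ((j : ℝ) + 2) / (1 / ((j : ℝ) + 2) / 2 * (1 / 2) ^ j)) * γ ≤ τ)
    (hτ1 : τ ≤ ζ) (hτ2 : ((j : ℝ) + 1) * τ ≤ α / 3 / 2)
    (hτ3 : 2 * ((j : ℝ) + 2) ^ 2 * τ ≤ ζ) (hτ4 : 2 * ((j : ℝ) + 2) ^ 2 * τ ≤ α * ζ)
    (hn : 0 < Fintype.card V) (K : Set (Finset V))
    (hK : Cx K (j + 2) ((1 - 1 / ((j : ℝ) + 2)) * (Fintype.card V : ℝ)))
    (hv : ∀ v, {v} ∈ K) (Y₁ : Finset V)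
    (hY1 : (1 / ((j : ℝ) + 2) - γ) * (Fintype.card V : ℝ) ≤ (Y₁.card : ℝ))
    (hY2 : (Y₁.card : ℝ) ≤ 1 / ((j : ℝ) + 2) * (Fintype.card V : ℝ))
    (hE : ∑ y ∈ Y₁, E2 K (j + 1) Y₁ y ≤ γ * (Fintype.card V : ℝ) ^ (j + 2)) :
    ∃ Y A : Finset V, ExtStr K (j + 2) α ζ Y A := by
  classical
  set N : ℝ := (Fintype.card V : ℝ) with hN
  have hN0 : 0 < N := by rw [hN]; exact_mod_cast hn
  set a : ℝ := 1 / ((j : ℝ) + 2) with ha
  have ha0 : 0 < a := by rw [ha]; positivity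
  have ha2 : a ≤ 1 / 2 := by
    rw [ha]
    exact one_div_le_one_div_of_le (by norm_num) (by linarith [(Nat.cast_nonneg j : (0 : ℝ) ≤ j)])
  set c : ℝ := α / 3 with hc
  have hc0 : 0 < c := by rw [hc]; positivity
  set c6 : ℝ := a / 2 * (1 / 2) ^ j with hc6
  have hc60 : 0 < c6 := by rw [hc6]; positivity
  have hj0 : (0 : ℝ) ≤ j := Nat.cast_nonneg j
  have hγτ : γ ≤ τ := by
    have h1 : 0 < γ / c := by positivity
    have h2 : 0 < 2 * ((j : ℝ) + 2) / c6 * γ := by positivity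
    linarith
  have hτ0 : 0 < τ := lt_of_lt_of_le hγ hγτ
  have hP : 0 < N ^ (j + 1) := pow_pos hN0 _
  have hPj : 0 < N ^ j := pow_pos hN0 _
  set D : ℝ := (1 - a) * N with hD
  have hD0 : 0 ≤ D := mul_nonneg (by linarith) hN0.le
  have hDN : D ≤ N := by rw [hD]; nlinarith
  -- the total number of bad tuples for `Y₁`
  have hcY1 : (Y₁.card : ℝ) ≤ N := by
    rw [hN]; exact_mod_cast Finset.card_le_univ Y₁
  have hNB1 : ∑ y ∈ Y₁, NB K (j + 1) Y₁ y ≤ ((j : ℝ) + 2) * γ * (N ^ (j + 1) * N) := by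
    have h1 : ∀ y ∈ Y₁, NB K (j + 1) Y₁ y ≤
        ((j + 1 : ℕ) : ℝ) * γ * N ^ (j + 1) + E2 K (j + 1) Y₁ y := by
      intro y _
      have h2 := NB_le hD0 hK y (hv y) Y₁
      have h3 := pow_diff' (x := N - Y₁.card) (y := D) (n := N) (t := γ) (by linarith) hD0
        (by linarith [(Nat.cast_nonneg Y₁.card : (0 : ℝ) ≤ Y₁.card)])
        (by
          have h5 : (a - γ) * N = a * N - γ * N := by ring
          have h6 : D = N - a * N := by rw [hD]; ring
          rw [h6]; linarith) hγ.le (j + 1)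
      linarith
    refine (Finset.sum_le_sum h1).trans ?_
    rw [Finset.sum_add_distrib, Finset.sum_const, nsmul_eq_mul]
    have h4 : (Y₁.card : ℝ) * (((j + 1 : ℕ) : ℝ) * γ * N ^ (j + 1)) ≤
        N * (((j + 1 : ℕ) : ℝ) * γ * N ^ (j + 1)) :=
      mul_le_mul_of_nonneg_right hcY1 (by positivity)
    have h5 : γ * N ^ (j + 2) = γ * (N ^ (j + 1) * N) := by rw [← pow_succ]
    push_cast at h4 ⊢
    rw [h5] at hE
    linarith
  set Y : Finset V := Finset.univ.filter (fun v => E2 K (j + 1) Y₁ v ≤ c * N ^ (j + 1)) with hY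
  have hYmem : ∀ v, v ∈ Y ↔ E2 K (j + 1) Y₁ v ≤ c * N ^ (j + 1) := by
    intro v; rw [hY]; simp
  -- `Y₁ \ Y` is small
  have s1 : ((Y₁ \ Y).card : ℝ) ≤ γ / c * N := by
    have h1 : ((Y₁ \ Y).card : ℝ) * (c * N ^ (j + 1)) ≤ γ * (N ^ (j + 1) * N) := by
      calc ((Y₁ \ Y).card : ℝ) * (c * N ^ (j + 1)) = ∑ y ∈ Y₁ \ Y, c * N ^ (j + 1) := by
            rw [Finset.sum_const, nsmul_eq_mul]
        _ ≤ ∑ y ∈ Y₁ \ Y, E2 K (j + 1) Y₁ y := by
            refine Finset.sum_le_sum fun y hy => ?_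
            have := (Finset.mem_sdiff.1 hy).2
            rw [hYmem] at this
            exact (not_le.1 this).le
        _ ≤ ∑ y ∈ Y₁, E2 K (j + 1) Y₁ y :=
            Finset.sum_le_sum_of_subset_of_nonneg Finset.sdiff_subset
              fun y _ _ => E2_nonneg _ _ _ _
        _ ≤ γ * N ^ (j + 2) := hE
        _ = _ := by rw [← pow_succ]
    rw [div_mul_eq_mul_div, le_div_iff₀ hc0]
    have h2 : (((Y₁ \ Y).card : ℝ) * c) * N ^ (j + 1) ≤ (γ * N) * N ^ (j + 1) := by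
      calc _ = ((Y₁ \ Y).card : ℝ) * (c * N ^ (j + 1)) := by ring
        _ ≤ _ := h1
        _ = _ := by ring
    exact le_of_mul_le_mul_right h2 hP
  -- `Y \ Y₁` is small
  have s2 : ((Y \ Y₁).card : ℝ) ≤ 2 * ((j : ℝ) + 2) / c6 * γ * N := by
    have h1 := sum_out_le K j Y₁ (Y \ Y₁) (fun x hx => (Finset.mem_sdiff.1 hx).2)
    have h2 : ∀ x ∈ Y \ Y₁, c6 / 2 * N ^ (j + 1) ≤
        (Y₁.card : ℝ) * (N - Y₁.card) ^ j - E2 K (j + 1) Y₁ x := by
      intro x hx
      have h3 := (hYmem x).1 (Finset.mem_sdiff.1 hx).1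
      have h4 : a / 2 * N ≤ Y₁.card :=
        (mul_le_mul_of_nonneg_right (by linarith) hN0.le).trans hY1
      have h4' : a * N ≤ 1 / 2 * N := mul_le_mul_of_nonneg_right ha2 hN0.le
      have h5 : (1 / 2 * N) ^ j ≤ (N - Y₁.card) ^ j :=
        pow_le_pow_left₀ (by positivity) (by linarith) j
      have h6 : (a / 2 * N) * (1 / 2 * N) ^ j ≤ (Y₁.card : ℝ) * (N - Y₁.card) ^ j :=
        mul_le_mul h4 h5 (by positivity) (Nat.cast_nonneg _)
      have h7 : (a / 2 * N) * (1 / 2 * N) ^ j = c6 * N ^ (j + 1) := by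
        rw [hc6, mul_pow, pow_succ]; ring
      rw [h7] at h6
      have h8 : c * N ^ (j + 1) ≤ c6 / 2 * N ^ (j + 1) := mul_le_mul_of_nonneg_right hα0 hP.le
      linarith
    have h3 := (Finset.sum_le_sum h2).trans (h1.trans hNB1)
    rw [Finset.sum_const, nsmul_eq_mul] at h3
    have h4 : (((Y \ Y₁).card : ℝ) * (c6 / 2)) * N ^ (j + 1) ≤
        (((j : ℝ) + 2) * γ * N) * N ^ (j + 1) := by
      calc _ = ((Y \ Y₁).card : ℝ) * (c6 / 2 * N ^ (j + 1)) := by ring
        _ ≤ _ := h3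
        _ = _ := by ring
    have h5 := le_of_mul_le_mul_right h4 hP
    have h6 : 2 * ((j : ℝ) + 2) / c6 * γ * N = (2 * ((j : ℝ) + 2) * γ * N) / c6 := by ring
    rw [h6, le_div_iff₀ hc60]
    linarith
  have t1 : ((Y₁ \ Y).card : ℝ) ≤ τ * N - γ * N := by
    have h1 : 0 ≤ 2 * ((j : ℝ) + 2) / c6 * γ * N := by positivity
    have h2 := mul_le_mul_of_nonneg_right hτ hN0.le
    have h3 : (γ + γ / c + 2 * ((j : ℝ) + 2) / c6 * γ) * N =
      γ * N + γ / c * N + 2 * ((j : ℝ) + 2) / c6 * γ * N := by ring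
    rw [h3] at h2
    linarith
  have t2 : ((Y \ Y₁).card : ℝ) ≤ τ * N := by
    have h1 : 0 ≤ γ / c * N := by positivity
    have h2 := mul_le_mul_of_nonneg_right hτ hN0.le
    have h3 : (γ + γ / c + 2 * ((j : ℝ) + 2) / c6 * γ) * N =
      γ * N + γ / c * N + 2 * ((j : ℝ) + 2) / c6 * γ * N := by ring
    have h4 : 0 ≤ γ * N := by positivity
    rw [h3] at h2
    linarith
  have hcard : (Y.card : ℝ) + (Y₁ \ Y).card = Y₁.card + (Y \ Y₁).card := by
    have h1 := Finset.card_sdiff_add_card_inter Y Y₁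
    have h2 := Finset.card_sdiff_add_card_inter Y₁ Y
    rw [Finset.inter_comm] at h2
    have : Y.card + (Y₁ \ Y).card = Y₁.card + (Y \ Y₁).card := by omega
    exact_mod_cast this
  have c1 : (Y \ Y₁).card ≥ (0 : ℝ) := Nat.cast_nonneg _
  have c2 : (Y₁ \ Y).card ≥ (0 : ℝ) := Nat.cast_nonneg _
  have hYlo : (a - τ) * N ≤ Y.card := by
    have h1 : (a - γ) * N = a * N - γ * N := by ring
    have h2 : (a - τ) * N = a * N - τ * N := by ring
    rw [h2]; rw [h1] at hY1; linarith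
  have hYhi : (Y.card : ℝ) ≤ (a + τ) * N := by
    have h2 : (a + τ) * N = a * N + τ * N := by ring
    rw [h2]; linarith
  have hYN : (Y.card : ℝ) ≤ N := by
    rw [hN]; exact_mod_cast Finset.card_le_univ Y
  -- comparison of the two counts
  have e1 : ∀ v, E2 K (j + 1) Y v ≤ E2 K (j + 1) Y₁ v + ((j : ℝ) + 1) * τ * N ^ (j + 1) := by
    intro v
    refine (E2_comp K j Y Y₁ v).trans (add_le_add_right ?_ _)
    have : ((j : ℝ) + 1) * ((Y \ Y₁).card : ℝ) * N ^ j ≤ ((j : ℝ) + 1) * (τ * N) * N ^ j :=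
      mul_le_mul_of_nonneg_right (mul_le_mul_of_nonneg_left t2 (by positivity)) hPj.le
    refine this.trans (le_of_eq ?_)
    rw [pow_succ]; ring
  have e2 : ∀ v, E2 K (j + 1) Y₁ v ≤ E2 K (j + 1) Y v + ((j : ℝ) + 1) * τ * N ^ (j + 1) := by
    intro v
    refine (E2_comp K j Y₁ Y v).trans (add_le_add_right ?_ _)
    have h0 : 0 < γ * N := by positivity
    have : ((j : ℝ) + 1) * ((Y₁ \ Y).card : ℝ) * N ^ j ≤ ((j : ℝ) + 1) * (τ * N) * N ^ j :=
      mul_le_mul_of_nonneg_right (mul_le_mul_of_nonneg_left (by linarith) (by positivity)) hPj.le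
    refine this.trans (le_of_eq ?_)
    rw [pow_succ]; ring
  have hτP : ((j : ℝ) + 1) * τ * N ^ (j + 1) ≤ c / 2 * N ^ (j + 1) :=
    mul_le_mul_of_nonneg_right hτ2 hP.le
  have few : ∀ y ∈ Y, E2 K (j + 1) Y y ≤ 2 * c * N ^ (j + 1) := by
    intro y hy
    have h1 := e1 y
    have h2 := (hYmem y).1 hy
    have h3 : 0 < c * N ^ (j + 1) := by positivity
    linarith
  have many : ∀ x, x ∉ Y → c / 2 * N ^ (j + 1) ≤ E2 K (j + 1) Y x := by
    intro x hx
    have h1 := e2 x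
    rw [hYmem, not_le] at hx
    linarith
  have hNBY : ∀ v, NB K (j + 1) Y v ≤ ((j : ℝ) + 1) * τ * N ^ (j + 1) + E2 K (j + 1) Y v := by
    intro y
    have h2 := NB_le hD0 hK y (hv y) Y
    have h3 := pow_diff' (x := N - Y.card) (y := D) (n := N) (t := τ) (by linarith) hD0
      (by linarith [(Nat.cast_nonneg Y.card : (0 : ℝ) ≤ Y.card)])
      (by
        have h5 : (a - τ) * N = a * N - τ * N := by ring
        have h6 : D = N - a * N := by rw [hD]; ring
        rw [h6]; linarith) hτ0.le (j + 1)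
    push_cast at h3
    linarith
  have hsum : ∑ y ∈ Y, NB K (j + 1) Y y ≤ 2 * ((j : ℝ) + 2) * τ * (N ^ (j + 1) * N) := by
    have h0 : ∑ y ∈ Y, NB K (j + 1) Y y =
        ∑ y ∈ Y \ Y₁, NB K (j + 1) Y y + ∑ y ∈ Y ∩ Y₁, NB K (j + 1) Y y := by
      rw [← Finset.sum_union (Finset.disjoint_sdiff_inter Y Y₁), Finset.sdiff_union_inter]
    have h1 : ∑ y ∈ Y \ Y₁, NB K (j + 1) Y y ≤ τ * N * N ^ (j + 1) := by
      calc _ ≤ ∑ y ∈ Y \ Y₁, N ^ (j + 1) :=
            Finset.sum_le_sum fun y _ => by unfold NB; exact cnt_le_pow _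
        _ = (Y \ Y₁).card * N ^ (j + 1) := by rw [Finset.sum_const, nsmul_eq_mul]
        _ ≤ _ := mul_le_mul_of_nonneg_right t2 hP.le
    have h2 : ∑ y ∈ Y ∩ Y₁, NB K (j + 1) Y y ≤
        N * (2 * (((j : ℝ) + 1) * τ * N ^ (j + 1))) + γ * (N ^ (j + 1) * N) := by
      calc _ ≤ ∑ y ∈ Y ∩ Y₁, (2 * (((j : ℝ) + 1) * τ * N ^ (j + 1)) + E2 K (j + 1) Y₁ y) := by
            refine Finset.sum_le_sum fun y _ => ?_
            have h3 := hNBY y
            have h4 := e1 y
            linarith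
        _ = (Y ∩ Y₁).card * (2 * (((j : ℝ) + 1) * τ * N ^ (j + 1))) +
            ∑ y ∈ Y ∩ Y₁, E2 K (j + 1) Y₁ y := by
            rw [Finset.sum_add_distrib, Finset.sum_const, nsmul_eq_mul]
        _ ≤ _ := by
            refine add_le_add ?_ ?_
            · refine mul_le_mul_of_nonneg_right ?_ (by positivity)
              rw [hN]; exact_mod_cast Finset.card_le_univ _
            · refine (Finset.sum_le_sum_of_subset_of_nonneg Finset.inter_subset_right
                fun y _ _ => E2_nonneg _ _ _ _).trans (hE.trans (le_of_eq ?_))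
              rw [← pow_succ]
    rw [h0]
    have h3 : γ * (N ^ (j + 1) * N) ≤ τ * (N ^ (j + 1) * N) :=
      mul_le_mul_of_nonneg_right hγτ (by positivity)
    calc _ ≤ τ * N * N ^ (j + 1) +
          (N * (2 * (((j : ℝ) + 1) * τ * N ^ (j + 1))) + τ * (N ^ (j + 1) * N)) := by linarith
      _ = _ := by ring
  have htot0 := cnt_oneY K (m := j + 1) Y
  have htot : (cnt (fun f : Fin (j + 1 + 1) → V => OneY Y f ∧ ¬ EdgeF K f) : ℝ) ≤
      2 * ((j : ℝ) + 2) ^ 2 * τ * (N ^ (j + 1) * N) := by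
    refine htot0.trans ?_
    push_cast
    calc ((j : ℝ) + 1 + 1) * ∑ y ∈ Y, NB K (j + 1) Y y ≤
        ((j : ℝ) + 1 + 1) * (2 * ((j : ℝ) + 2) * τ * (N ^ (j + 1) * N)) :=
          mul_le_mul_of_nonneg_left hsum (by positivity)
      _ = _ := by ring
  set A : Finset V := Finset.univ.filter (fun v => v ∉ Y ∧ α * N ^ (j + 1) <
    (cnt (fun g : Fin (j + 1) → V => OneY Y g ∧ ¬ EdgeL K (v :: List.ofFn g)) : ℝ)) with hA
  have hAmem : ∀ v, v ∈ A ↔ v ∉ Y ∧ α * N ^ (j + 1) <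
    (cnt (fun g : Fin (j + 1) → V => OneY Y g ∧ ¬ EdgeL K (v :: List.ofFn g)) : ℝ) := by
    intro v; rw [hA]; simp
  have hAc : (A.card : ℝ) ≤ ζ * N := by
    have h1 : ∑ v ∈ A, (cnt (fun g : Fin (j + 1) → V => OneY Y g ∧
        ¬ EdgeL K (v :: List.ofFn g)) : ℝ) ≤
        (cnt (fun f : Fin (j + 1 + 1) → V => OneY Y f ∧ ¬ EdgeF K f) : ℝ) := by
      refine sum_le_cnt_cons A _
        (fun v g => OneY Y g ∧ ¬ EdgeL K (v :: List.ofFn g)) ?_
      rintro v hv g ⟨h1, h2⟩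
      exact ⟨(oneY_cons_out ((hAmem v).1 hv).1).2 h1, fun h => h2 ((edge_cons v g).1 h)⟩
    have h2 : (A.card : ℝ) * (α * N ^ (j + 1)) ≤ ∑ v ∈ A, (cnt (fun g : Fin (j + 1) → V =>
        OneY Y g ∧ ¬ EdgeL K (v :: List.ofFn g)) : ℝ) := by
      calc _ = ∑ v ∈ A, α * N ^ (j + 1) := by rw [Finset.sum_const, nsmul_eq_mul]
        _ ≤ _ := Finset.sum_le_sum fun v hv => (((hAmem v).1 hv).2).le
    have h3 := h2.trans (h1.trans htot)
    have h4 : 2 * ((j : ℝ) + 2) ^ 2 * τ * (N ^ (j + 1) * N) ≤ α * ζ * (N ^ (j + 1) * N) :=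
      mul_le_mul_of_nonneg_right hτ4 (by positivity)
    have h5 : (A.card : ℝ) * (α * N ^ (j + 1)) ≤ (ζ * N) * (α * N ^ (j + 1)) := by
      calc _ ≤ _ := h3.trans h4
        _ = _ := by ring
    exact le_of_mul_le_mul_right h5 (by positivity)
  refine ⟨Y, A, ?_, ?_, ?_, hAc, ?_, ?_, ?_, ?_⟩
  · refine le_trans ?_ hYlo
    push_cast
    rw [← ha]
    exact mul_le_mul_of_nonneg_right (by linarith) hN0.le
  · refine hYhi.trans ?_
    push_cast
    rw [← ha]
    exact mul_le_mul_of_nonneg_right (by linarith) hN0.le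
  · rw [Finset.disjoint_left]
    intro v hv
    exact ((hAmem v).1 hv).1
  · refine le_trans htot ?_
    rw [pow_succ]
    exact mul_le_mul_of_nonneg_right hτ3 (by positivity)
  · intro v hvA p
    have hswap : cnt (fun f : Fin (j + 1 + 1) → V => f p = v ∧ OneY Y f ∧ ¬ EdgeF K f) =
        cnt (fun f : Fin (j + 1 + 1) → V => f 0 = v ∧ (OneY Y f ∧ ¬ EdgeF K f)) := by
      rw [← cnt_perm (Equiv.swap 0 p)
        (fun f : Fin (j + 1 + 1) → V => f p = v ∧ OneY Y f ∧ ¬ EdgeF K f)]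
      refine cnt_congr fun f => ?_
      rw [edge_perm (Equiv.swap 0 p) f, oneY_perm (Equiv.swap 0 p) f]
      simp only [Equiv.swap_apply_right]
    show (cnt (fun f : Fin (j + 1 + 1) → V => f p = v ∧ OneY Y f ∧ ¬ EdgeF K f) : ℝ) ≤
      α * N ^ (j + 1)
    rw [hswap, cnt_first v (fun f : Fin (j + 1 + 1) → V => OneY Y f ∧ ¬ EdgeF K f)]
    by_cases hvY : v ∈ Y
    · have h1 : (cnt (fun g : Fin (j + 1) → V => OneY Y (Fin.cons v g : Fin (j + 1 + 1) → V) ∧
          ¬ EdgeF K (Fin.cons v g : Fin (j + 1 + 1) → V)) : ℝ) ≤ NB K (j + 1) Y v := by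
        unfold NB
        refine (Nat.cast_le (α := ℝ)).2 (cnt_mono fun g hg => ?_)
        exact ⟨oneY_cons_in hvY hg.1, fun h => hg.2 ((edge_cons v g).2 h)⟩
      have h2 := hNBY v
      have h3 := few v hvY
      have h4 : α * N ^ (j + 1) = 3 * c * N ^ (j + 1) := by rw [hc]; ring
      have h5 : 0 < c * N ^ (j + 1) := by positivity
      rw [h4]
      linarith
    · have h1 : (cnt (fun g : Fin (j + 1) → V => OneY Y (Fin.cons v g : Fin (j + 1 + 1) → V) ∧
          ¬ EdgeF K (Fin.cons v g : Fin (j + 1 + 1) → V)) : ℝ) ≤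
          (cnt (fun g : Fin (j + 1) → V => OneY Y g ∧ ¬ EdgeL K (v :: List.ofFn g)) : ℝ) := by
        refine (Nat.cast_le (α := ℝ)).2 (cnt_mono fun g hg => ?_)
        exact ⟨(oneY_cons_out hvY).1 hg.1, fun h => hg.2 ((edge_cons v g).2 h)⟩
      refine h1.trans ?_
      by_contra hcon
      exact hvA ((hAmem v).2 ⟨hvY, not_le.1 hcon⟩)
  · intro y hy
    have h1 := few y hy
    have h2 : 0 < c * N ^ (j + 1) := by positivity
    show E2 K (j + 1) Y y ≤ α * N ^ (j + 1)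
    have h4 : α * N ^ (j + 1) = 3 * c * N ^ (j + 1) := by rw [hc]; ring
    rw [h4]; linarith
  · intro x hx
    have h1 := many x hx
    show α / 8 * N ^ (j + 1) ≤ E2 K (j + 1) Y x
    have h2 : 0 < c * N ^ (j + 1) := by positivity
    have h4 : α / 8 * N ^ (j + 1) = 3 / 8 * (c * N ^ (j + 1)) := by rw [hc]; ring
    rw [h4]; linarith

end CleanAux

open CleanAux in
theorem clean (k : ℕ) (hk : 3 ≤ k) : ∃ α₀ > (0 : ℝ), ∀ α > (0 : ℝ), α ≤ α₀ → ∀ ζ > (0 : ℝ),
    ∃ γ > (0 : ℝ), ∃ n₀ : ℕ,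
    ∀ (V : Type) [Fintype V] [DecidableEq V], n₀ ≤ Fintype.card V → ∀ K : Set (Finset V),
      Cx K k ((1 - 1 / (k : ℝ)) * (Fintype.card V : ℝ)) → (∀ v, {v} ∈ K) → NearExt K k γ →
      ∃ Y A : Finset V, ExtStr K k α ζ Y A := by
  obtain ⟨j, rfl⟩ : ∃ j, k = j + 2 := ⟨k - 2, by omega⟩
  set a : ℝ := 1 / ((j : ℝ) + 2) with ha
  have ha0 : 0 < a := by rw [ha]; positivity
  have hj0 : (0 : ℝ) ≤ j := Nat.cast_nonneg j
  set c6 : ℝ := a / 2 * (1 / 2) ^ j with hc6
  have hc60 : 0 < c6 := by rw [hc6]; positivity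
  refine ⟨c6, hc60, fun α hα hα0 ζ hζ => ?_⟩
  set τ : ℝ := min (min (α / 3 / 2 / ((j : ℝ) + 1)) ζ) (min (ζ / (2 * ((j : ℝ) + 2) ^ 2))
    (min (α * ζ / (2 * ((j : ℝ) + 2) ^ 2)) (a / 2))) with hτ
  have hτ0 : 0 < τ := by
    rw [hτ]
    refine lt_min (lt_min (by positivity) hζ) (lt_min (by positivity) (lt_min (by positivity) ?_))
    positivity
  have hτa : τ ≤ a / 2 := (min_le_right _ _).trans ((min_le_right _ _).trans (min_le_right _ _))
  have hτb : τ ≤ α / 3 / 2 / ((j : ℝ) + 1) := (min_le_left _ _).trans (min_le_left _ _)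
  have hτc : τ ≤ ζ := (min_le_left _ _).trans (min_le_right _ _)
  have hτd : τ ≤ ζ / (2 * ((j : ℝ) + 2) ^ 2) := (min_le_right _ _).trans (min_le_left _ _)
  have hτe : τ ≤ α * ζ / (2 * ((j : ℝ) + 2) ^ 2) :=
    (min_le_right _ _).trans ((min_le_right _ _).trans (min_le_left _ _))
  set B : ℝ := 1 + 1 / (α / 3) + 2 * ((j : ℝ) + 2) / c6 with hB
  have hB1 : 1 ≤ B := by
    have h1 : 0 < 1 / (α / 3) := by positivity
    have h2 : 0 < 2 * ((j : ℝ) + 2) / c6 := by positivity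
    rw [hB]; linarith
  have hB0 : 0 < B := by linarith
  set γ : ℝ := τ / B with hγ
  have hγ0 : 0 < γ := by positivity
  have hγτ : γ ≤ τ := div_le_self hτ0.le hB1
  refine ⟨γ, hγ0, Nat.ceil (1 / γ) + 1, ?_⟩
  intro V _ _ hn K hK hv hext
  have hcV : 0 < Fintype.card V := by omega
  set N : ℝ := (Fintype.card V : ℝ) with hN
  have hN1 : 1 ≤ γ * N := by
    have h1 : (1 / γ : ℝ) ≤ (Nat.ceil (1 / γ) : ℝ) := Nat.le_ceil _
    have h2 : ((Nat.ceil (1 / γ) + 1 : ℕ) : ℝ) ≤ N := by rw [hN]; exact_mod_cast hn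
    push_cast at h2
    have h3 : 1 / γ ≤ N := by linarith
    rwa [div_le_iff₀ hγ0, mul_comm] at h3
  have hN0 : 0 < N := by rw [hN]; exact_mod_cast hcV
  obtain ⟨Y₀, hY0, hE0⟩ := hext
  have hcast : ((j + 2 : ℕ) : ℝ) = (j : ℝ) + 2 := by push_cast; ring
  rw [hcast] at hK hY0
  rw [← ha] at hK hY0
  -- shrink `Y₀`
  obtain ⟨Y₁, hsub, hY1, hY2⟩ : ∃ Y₁ ⊆ Y₀, (a - γ) * N ≤ (Y₁.card : ℝ) ∧
      (Y₁.card : ℝ) ≤ a * N := by
    by_cases h : (Y₀.card : ℝ) ≤ a * N
    · exact ⟨Y₀, Finset.Subset.refl _, hY0, h⟩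
    · have h' := not_le.1 h
      have h1 : Nat.floor (a * N) ≤ Y₀.card := by
        have : (Nat.floor (a * N) : ℝ) ≤ a * N := Nat.floor_le (by positivity)
        exact_mod_cast (this.trans h'.le)
      obtain ⟨Y₁, hsub, hcard⟩ := Finset.exists_subset_card_eq h1
      refine ⟨Y₁, hsub, ?_, ?_⟩
      · rw [hcard]
        have := Nat.lt_floor_add_one (a * N)
        nlinarith
      · rw [hcard]; exact Nat.floor_le (by positivity)
  have hE : ∑ y ∈ Y₁, E2 K (j + 1) Y₁ y ≤ γ * N ^ (j + 2) := by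
    refine (sum_E2_le K (j + 1) Y₁).trans (le_trans ?_ hE0)
    refine (Nat.cast_le (α := ℝ)).2 (cnt_mono fun f hf => ?_)
    obtain ⟨h1, x, y, h2, h3, h4⟩ := hf
    exact ⟨h1, x, y, h2, hsub h3, hsub h4⟩
  refine core j α ζ γ τ hα hγ0 ?_ ?_ ?_ hτc ?_ ?_ ?_ hcV K hK hv Y₁ hY1 hY2 hE
  · rw [← ha, ← hc6]; linarith
  · rw [← ha]; linarith
  · rw [← ha, ← hc6]
    have : γ + γ / (α / 3) + 2 * ((j : ℝ) + 2) / c6 * γ = γ * B := by
      rw [hB]; ring
    rw [this, hγ, div_mul_cancel₀ _ hB0.ne']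
  · rw [le_div_iff₀ (by positivity)] at hτb
    linarith
  · rw [le_div_iff₀ (by positivity)] at hτd
    linarith
  · rw [le_div_iff₀ (by positivity)] at hτe
    linarith

end Pool.Agent.THC
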