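import Pool.Agent.Lib.MP_5c6f2e_co.Defs

/-!
# MP_5c6f2e_co, piece P3: robust connecting lemma
Induction on the uniformity: a tight path in the link of many vertices `v`, with the vertices `v`
woven in after every `j` steps (Jensen's inequality gives many such weavings).
-/

set_option autoImplicit false

namespace Pool.Agent.THC

open Finset

variable {V : Type} [Fintype V] [DecidableEq V]

/-! ### counting -/

private theorem connect_cnt_and_ge {V : Type*} [Fintype V] (P Q : V → Prop) :
    (cnt P : ℝ) + cnt Q - Fintype.card V ≤ (cnt (fun v => P v ∧ Q v) : ℝ) := by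
  classical
  have h1 : (cnt P) + cnt Q ≤ cnt (fun v => P v ∧ Q v) + Fintype.card V := by
    rw [cnt_eq, cnt_eq, cnt_eq, Finset.filter_and, ← Finset.card_union_add_card_inter,
      add_comm]
    exact Nat.add_le_add_left (Finset.card_le_univ _) _
  have : ((cnt P : ℝ) + cnt Q) ≤ (cnt (fun v => P v ∧ Q v) : ℝ) + Fintype.card V := by
    exact_mod_cast h1
  linarith

/-- counting by the first entry -/
private theorem connect_cnt_cons {V : Type*} [Fintype V] (m : ℕ) (P : List V → Prop) :
    (cnt (fun f : Fin (m + 1) → V => P (List.ofFn f)) : ℕ) =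
      ∑ v : V, cnt (fun g : Fin m → V => P (v :: List.ofFn g)) := by
  classical
  simp only [cnt_eq]
  rw [← Finset.card_sigma]
  refine Finset.card_bij' (fun f _ => (⟨f 0, Fin.tail f⟩ : Σ _ : V, (Fin m → V)))
    (fun x _ => Fin.cons x.1 x.2) ?_ ?_ ?_ ?_
  · intro f hf
    simp only [Finset.mem_filter, Finset.mem_univ, true_and, Finset.mem_sigma] at hf ⊢
    rw [List.ofFn_succ] at hf
    exact hf
  · intro x hx
    simp only [Finset.mem_filter, Finset.mem_univ, true_and, Finset.mem_sigma] at hx ⊢
    rw [List.ofFn_succ]
    simpa using hx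
  · intro f _
    exact Fin.cons_self_tail f
  · intro x _
    simp [Fin.tail_cons]

/-! ### windows -/

/-- windows of `a :: l` of length `k`: the first one, and those of `l` -/
private theorem connect_allWin_cons {A : Type*} {Φ : List A → Prop} {k : ℕ} {a : A} {l : List A}
    (h1 : Φ ((a :: l).take k)) (h2 : AllWin Φ k l) : AllWin Φ k (a :: l) := by
  intro w hw hk
  rcases List.infix_cons_iff.1 hw with h | h
  · have : w = (a :: l).take k := by
      rw [← hk]; exact (List.prefix_iff_eq_take.1 h)
    rw [this]; exact h1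
  · exact h2 w h hk

/-- gluing along an overlap of length `j` -/
private theorem connect_glue {A : Type*} {Φ : List A → Prop} {j : ℕ} {a z b : List A}
    (hz : z.length = j) (h1 : AllWin Φ (j + 1) (a ++ z)) (h2 : AllWin Φ (j + 1) (z ++ b)) :
    AllWin Φ (j + 1) (a ++ z ++ b) := by
  rintro w ⟨p, r, hpr⟩ hw
  have hlen := congrArg List.length hpr
  simp only [List.length_append] at hlen
  by_cases hc : p.length + w.length ≤ a.length + z.length
  · refine h1 w ?_ hw
    have hpre : (p ++ w) <+: (a ++ z) := by
      refine List.prefix_of_prefix_length_le (l₃ := a ++ z ++ b) ?_ ?_ ?_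
      · rw [← hpr]; exact List.prefix_append _ _
      · exact List.prefix_append _ _
      · simpa using hc
    obtain ⟨u, hu⟩ := hpre
    exact ⟨p, u, hu⟩
  · refine h2 w ?_ hw
    have hap : a <+: p := by
      refine List.prefix_of_prefix_length_le (l₃ := a ++ z ++ b) ?_ ?_ ?_
      · rw [List.append_assoc]; exact List.prefix_append _ _
      · rw [← hpr, List.append_assoc]; exact List.prefix_append _ _
      · omega
    obtain ⟨p', rfl⟩ := hap
    refine ⟨p', r, ?_⟩
    have : a ++ (p' ++ w ++ r) = a ++ (z ++ b) := by
      simpa [List.append_assoc] using hpr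
    exact List.append_cancel_left this

/-! ### links -/

/-- link of a vertex -/
private def cLnk (K : Set (Finset V)) (v : V) : Set (Finset V) := {s | v ∉ s ∧ insert v s ∈ K}

private theorem Cx.cLnk {K : Set (Finset V)} {k : ℕ} {D : ℝ} (h : Cx K (k + 1) D) {v : V}
    (hv : {v} ∈ K) : Cx (THC.cLnk K v) k D := by
  classical
  refine ⟨⟨by simp, by simpa using hv⟩, ?_, ?_⟩
  · rintro s ⟨hs1, hs2⟩ t hts
    exact ⟨fun hvt => hs1 (hts hvt), h.down _ hs2 _ (Finset.insert_subset_insert _ hts)⟩
  · rintro s ⟨hs1, hs2⟩ hsk
    have h1 := h.deg _ hs2 (by rw [Finset.card_insert_of_notMem hs1]; omega)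
    refine h1.trans ?_
    have : cnt (nb K (insert v s)) ≤ cnt (nb (THC.cLnk K v) s) := by
      refine cnt_mono ?_
      rintro u ⟨hu1, hu2⟩
      rw [Finset.mem_insert, not_or] at hu1
      refine ⟨hu1.2, ?_, ?_⟩
      · rw [Finset.mem_insert, not_or]; exact ⟨fun h => hu1.1 h.symm, hs1⟩
      · rw [Finset.insert_comm]; exact hu2
    exact_mod_cast this

omit [Fintype V] in
private theorem edgeL_of_cLnk {K : Set (Finset V)} {v : V} {a b : List V}
    (h : EdgeL (cLnk K v) (a ++ b)) : EdgeL K (a ++ v :: b) := by
  obtain ⟨h1, h2, h3⟩ := h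
  have hp : (a ++ v :: b).Perm (v :: (a ++ b)) := List.perm_middle
  refine ⟨?_, ?_⟩
  · rw [hp.nodup_iff, List.nodup_cons]
    exact ⟨fun hh => h2 (List.mem_toFinset.2 hh), h1⟩
  · rw [List.toFinset_eq_of_perm _ _ hp, List.toFinset_cons]
    exact h3

omit [Fintype V] in
private theorem edgeL_cLnk_of {K : Set (Finset V)} (hd : ∀ s ∈ K, ∀ t ⊆ s, t ∈ K) {v : V}
    {s l : List V} (hs : EdgeL K s) (hv : nb K s.toFinset v) (hl : l.Sublist s) :
    EdgeL (cLnk K v) l := by
  refine ⟨hs.1.sublist hl, ?_, ?_⟩
  · intro hh
    exact hv.1 (List.mem_toFinset.2 (hl.subset (List.mem_toFinset.1 hh)))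
  · refine hd _ hv.2 _ (Finset.insert_subset_insert _ ?_)
    intro x hx
    exact List.mem_toFinset.2 (hl.subset (List.mem_toFinset.1 hx))

/-! ### weaving -/

/-- `v₀ x₁ … x_j v₁ x_{j+1} …` -/
private def weave (j : ℕ) : List V → List V → List V
  | [], x => x
  | v :: vs, x => v :: (x.take j ++ weave j vs (x.drop j))

omit [Fintype V] [DecidableEq V] in
private theorem weave_length (j : ℕ) : ∀ (vs x : List V),
    (weave j vs x).length = vs.length + x.length
  | [], x => by simp [weave]
  | v :: vs, x => by
      simp only [weave, List.length_cons, List.length_append, weave_length j vs, List.length_take,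
        List.length_drop]
      omega

omit [Fintype V] [DecidableEq V] in
private theorem weave_inj (j : ℕ) : ∀ (vs vs' x x' : List V), vs.length = vs'.length →
    x.length = x'.length → weave j vs x = weave j vs' x' → vs = vs' ∧ x = x'
  | [], [], x, x', _, _, h => ⟨rfl, by simpa [weave] using h⟩
  | [], _ :: _, _, _, h, _, _ => by simp at h
  | _ :: _, [], _, _, h, _, _ => by simp at h
  | v :: vs, v' :: vs', x, x', hl, hx, h => by
      simp only [weave, List.cons.injEq] at h
      obtain ⟨hv, h⟩ := h
      obtain ⟨h1, h2⟩ := List.append_inj h (by simp [hx])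
      obtain ⟨h3, h4⟩ := weave_inj j vs vs' (x.drop j) (x'.drop j) (by simpa using hl)
        (by simp [hx]) h2
      refine ⟨by rw [hv, h3], ?_⟩
      rw [← List.take_append_drop j x, ← List.take_append_drop j x', h1, h4]

omit [Fintype V] in
/-- two blocks of length `j` around one vertex -/
private theorem mid_tight {K : Set (Finset V)} {j : ℕ} {v : V} {s z : List V}
    (hs : s.length = j) (hz : z.length = j) (h1 : EdgeL K (s ++ [v])) (h2 : EdgeL K (v :: z))
    (h : Tight (cLnk K v) j (s.tail ++ z.dropLast)) : Tight K (j + 1) (s ++ v :: z) := by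
  rintro w ⟨p, r, hpr⟩ hw
  have hlen := congrArg List.length hpr
  simp only [List.length_append, List.length_cons] at hlen
  set i := p.length with hi
  have hij : i ≤ j := by omega
  have hwd : w = s.drop i ++ v :: z.take i := by
    have e1 : w = ((s ++ v :: z).drop i).take (j + 1) := by
      rw [← hpr, List.append_assoc, hi, List.drop_left, ← hw, List.take_left]
    rw [e1, List.drop_append_of_le_length (by omega), List.take_append,
      List.take_of_length_le (by simp; omega)]
    congr 1
    have : j + 1 - (s.drop i).length = i + 1 := by simp; omega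
    rw [this, List.take_succ_cons]
  rw [hwd]
  rcases Nat.eq_zero_or_pos i with h0 | h0
  · rw [h0]; simpa using h1
  rcases Nat.lt_or_ge i j with hlt | hge
  · apply edgeL_of_cLnk
    refine h _ ?_ ?_
    · refine ⟨s.tail.take (i - 1), z.dropLast.drop i, ?_⟩
      rw [← List.drop_one, List.dropLast_eq_take]
      have e1 : (s.drop 1).take (i - 1) ++ s.drop i = s.drop 1 := by
        have : s.drop i = (s.drop 1).drop (i - 1) := by
          rw [List.drop_drop]; congr 1; omega
        rw [this, List.take_append_drop]
      have e2 : z.take i ++ (z.take (z.length - 1)).drop i = z.take (z.length - 1) := by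
        have : z.take i = (z.take (z.length - 1)).take i := by
          rw [List.take_take]; congr 1; omega
        rw [this, List.take_append_drop]
      calc (s.drop 1).take (i - 1) ++ (s.drop i ++ z.take i) ++ (z.take (z.length - 1)).drop i
          = ((s.drop 1).take (i - 1) ++ s.drop i) ++
              (z.take i ++ (z.take (z.length - 1)).drop i) := by
            simp only [List.append_assoc]
        _ = _ := by rw [e1, e2]
    · simp; omega
  · have : i = j := le_antisymm hij hge
    rw [this, ← hs, List.drop_length, hs, ← hz, List.take_length]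
    simpa using h2

omit [Fintype V] in
private theorem weave_tight {K : Set (Finset V)} {j : ℕ} :
    ∀ (vs : List V) (v : V) (s x t : List V), s.length = j → t.length = j →
      x.length = j * vs.length → EdgeL K (s ++ [v]) → (∀ u ∈ v :: vs, EdgeL K (u :: t)) →
      (∀ u ∈ v :: vs, Tight (cLnk K u) j (s.tail ++ x ++ t.dropLast)) →
      Tight K (j + 1) (s ++ weave j (v :: vs) x ++ t)
  | [], v, s, x, t, hs, ht, hx, h1, h2, h3 => by
      have hx0 : x = [] := by
        rw [← List.length_eq_zero_iff, hx]; simp
      subst hx0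
      have h := mid_tight hs ht h1 (h2 v (by simp)) (by simpa using h3 v (by simp))
      simpa [weave] using h
  | v₁ :: vs, v, s, x, t, hs, ht, hx, h1, h2, h3 => by
      have hxj : j ≤ x.length := by rw [hx]; simp only [List.length_cons]; nlinarith
      have hz : (x.take j).length = j := by simp [hxj]
      have hxd : (x.drop j).length = j * vs.length := by
        simp only [List.length_drop, hx, List.length_cons]
        rw [Nat.mul_succ]; omega
      have hxx : s.tail ++ x ++ t.dropLast =
          s.tail ++ (x.take j ++ x.drop j) ++ t.dropLast := by rw [List.take_append_drop]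
      -- the block `x.take j` is an edge of all the links
      have hblk : ∀ u ∈ v :: v₁ :: vs, EdgeL (cLnk K u) (x.take j) := by
        intro u hu
        refine h3 u hu _ ?_ hz
        rw [hxx]
        exact ⟨s.tail, x.drop j ++ t.dropLast, by simp only [List.append_assoc]⟩
      have hIH := weave_tight vs v₁ (x.take j) (x.drop j) t hz ht hxd
        (by
          have := edgeL_of_cLnk (a := x.take j) (b := [])
            (by simpa using hblk v₁ (by simp))
          simpa using this)
        (fun u hu => h2 u (List.mem_cons_of_mem _ hu))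
        (fun u hu => by
          intro w hw hwk
          refine h3 u (List.mem_cons_of_mem _ hu) w (hw.trans ?_) hwk
          rw [hxx]
          have : (x.take j).tail <:+: x.take j := List.IsSuffix.isInfix (List.tail_suffix _)
          have h5 : (x.take j).tail ++ x.drop j ++ t.dropLast <:+
              x.take j ++ x.drop j ++ t.dropLast := by
            obtain ⟨a, ha⟩ := List.tail_suffix (x.take j)
            refine ⟨a, ?_⟩
            rw [← List.append_assoc, ← List.append_assoc, ha]
          refine h5.isInfix.trans ?_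
          exact ⟨s.tail, [], by simp [List.append_assoc]⟩)
      have hmid : Tight K (j + 1) (s ++ v :: x.take j) := by
        refine mid_tight hs hz h1 ?_ ?_
        · have := edgeL_of_cLnk (a := []) (b := x.take j) (by simpa using hblk v (by simp))
          simpa using this
        · intro w hw hwk
          refine h3 v (by simp) w (hw.trans ?_) hwk
          rw [hxx]
          have h6 : (x.take j).dropLast <+: x.take j := List.dropLast_prefix _
          obtain ⟨b, hb⟩ := h6
          refine ⟨[], b ++ x.drop j ++ t.dropLast, ?_⟩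
          rw [List.nil_append]
          calc s.tail ++ (x.take j).dropLast ++ (b ++ x.drop j ++ t.dropLast)
              = s.tail ++ (((x.take j).dropLast ++ b) ++ x.drop j) ++ t.dropLast := by
                simp only [List.append_assoc]
            _ = _ := by rw [hb]
      have hg := connect_glue (a := s ++ [v]) (z := x.take j)
        (b := weave j (v₁ :: vs) (x.drop j) ++ t) hz
        (Φ := EdgeL K)
        (by
          have := hmid
          unfold Tight at this
          simpa [List.append_assoc] using this)
        (by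
          have := hIH
          unfold Tight at this
          simpa [List.append_assoc] using this)
      have e : s ++ weave j (v :: v₁ :: vs) x ++ t =
          s ++ [v] ++ x.take j ++ (weave j (v₁ :: vs) (x.drop j) ++ t) := by
        simp [weave, List.append_assoc]
      rw [e]
      exact hg

/-! ### the statement for one length -/

private def Conn (k m : ℕ) : Prop := ∃ c > (0 : ℝ),
    ∀ (V : Type) [Fintype V] [DecidableEq V] (K : Set (Finset V)) (D : ℝ), Cx K k D →
      2 / 3 * (Fintype.card V : ℝ) ≤ D →
      ∀ s t : List V, s.length = k - 1 → t.length = k - 1 → EdgeL K s → EdgeL K t →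
      c * (Fintype.card V : ℝ) ^ m ≤
        (cnt (fun w : Fin m → V => Tight K k (s ++ List.ofFn w ++ t)) : ℝ)

private theorem conn_base : Conn 1 0 := by
  refine ⟨1, one_pos, ?_⟩
  intro V _ _ K D hK hD s t hs ht _ _
  have hs' : s = [] := List.length_eq_zero_iff.1 (by simpa using hs)
  have ht' : t = [] := List.length_eq_zero_iff.1 (by simpa using ht)
  subst hs' ht'
  classical
  have : 0 < cnt (fun w : Fin 0 → V => Tight K 1 ([] ++ List.ofFn w ++ [])) := by
    rw [cnt_eq, Finset.card_pos]
    refine ⟨Fin.elim0, ?_⟩
    simp only [Finset.mem_filter, Finset.mem_univ, true_and]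
    intro w hw hw1
    have := hw.length_le
    simp at this
    simp [this] at hw1
  simp only [pow_zero, mul_one]
  exact_mod_cast this

private theorem conn_succ {k m : ℕ} (hk : 1 ≤ k) (h : Conn k m) : Conn k (m + 1) := by
  obtain ⟨c, hc, h⟩ := h
  refine ⟨2 / 3 * c, by positivity, ?_⟩
  intro V _ _ K D hK hD s t hs ht hsE htE
  classical
  have hcard : s.toFinset.card < k := by
    rw [List.toFinset_card_of_nodup hsE.1, hs]; omega
  have hN := hK.deg _ hsE.2 hcard
  rw [connect_cnt_cons m (fun l => Tight K k (s ++ l ++ t))]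
  push_cast
  have hv : ∀ v : V, nb K s.toFinset v → c * (Fintype.card V : ℝ) ^ m ≤
      (cnt (fun g : Fin m → V => Tight K k (s ++ v :: List.ofFn g ++ t)) : ℝ) := by
    intro v hv
    obtain ⟨a, s₁, hs₁⟩ : ∃ a s₁, s ++ [v] = a :: s₁ := by
      cases s with
      | nil => exact ⟨v, [], rfl⟩
      | cons a s => exact ⟨a, s ++ [v], rfl⟩
    have hlen := congrArg List.length hs₁
    simp only [List.length_append, List.length_cons, List.length_nil] at hlen
    have hs₁l : s₁.length = k - 1 := by omega
    have hEsv : EdgeL K (s ++ [v]) := by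
      refine ⟨?_, ?_⟩
      · rw [List.nodup_append]
        refine ⟨hsE.1, by simp, ?_⟩
        intro x hx y hy
        simp only [List.mem_singleton] at hy
        subst hy
        rintro rfl
        exact hv.1 (List.mem_toFinset.2 hx)
      · have : (s ++ [v]).toFinset = insert v s.toFinset := by
          ext x; simp
        rw [this]; exact hv.2
    have hEs₁ : EdgeL K s₁ := by
      rw [hs₁] at hEsv
      refine ⟨(List.nodup_cons.1 hEsv.1).2, hK.down _ hEsv.2 _ ?_⟩
      intro x hx
      simp only [List.toFinset_cons, Finset.mem_insert]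
      exact Or.inr hx
    refine (h V K D hK hD s₁ t hs₁l ht hEs₁ htE).trans ?_
    have hmono : cnt (fun g : Fin m → V => Tight K k (s₁ ++ List.ofFn g ++ t)) ≤
        cnt (fun g : Fin m → V => Tight K k (s ++ v :: List.ofFn g ++ t)) := by
      refine cnt_mono ?_
      intro g hg
      have e : s ++ v :: List.ofFn g ++ t = a :: (s₁ ++ List.ofFn g ++ t) := by
        calc s ++ v :: List.ofFn g ++ t = (s ++ [v]) ++ (List.ofFn g ++ t) := by simp
          _ = _ := by rw [hs₁]; simp
      rw [e]
      refine connect_allWin_cons ?_ hg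
      have e2 : (a :: (s₁ ++ List.ofFn g ++ t)).take k = s ++ [v] := by
        have : a :: (s₁ ++ List.ofFn g ++ t) = (s ++ [v]) ++ (List.ofFn g ++ t) := by
          rw [hs₁]; simp
        rw [this]
        have hkl : k = (s ++ [v]).length := by simp; omega
        rw [hkl, List.take_left]
      rw [e2]; exact hEsv
    exact_mod_cast hmono
  have hge : (0 : ℝ) ≤ c * (Fintype.card V : ℝ) ^ m := by positivity
  calc 2 / 3 * c * (Fintype.card V : ℝ) ^ (m + 1)
      = (2 / 3 * (Fintype.card V : ℝ)) * (c * (Fintype.card V : ℝ) ^ m) := by ring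
    _ ≤ (cnt (nb K s.toFinset) : ℝ) * (c * (Fintype.card V : ℝ) ^ m) :=
        mul_le_mul_of_nonneg_right (hD.trans hN) hge
    _ = ∑ v ∈ Finset.univ.filter (nb K s.toFinset), c * (Fintype.card V : ℝ) ^ m := by
        rw [Finset.sum_const, nsmul_eq_mul, cnt_eq]
    _ ≤ ∑ v ∈ Finset.univ.filter (nb K s.toFinset),
          (cnt (fun g : Fin m → V => Tight K k (s ++ v :: List.ofFn g ++ t)) : ℝ) := by
        refine Finset.sum_le_sum ?_
        intro v hvm
        exact hv v (Finset.mem_filter.1 hvm).2
    _ ≤ ∑ v : V, (cnt (fun g : Fin m → V => Tight K k (s ++ v :: List.ofFn g ++ t)) : ℝ) := by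
        refine Finset.sum_le_sum_of_subset_of_nonneg (Finset.filter_subset _ _) ?_
        intro v _ _
        positivity

private theorem conn_step {j q : ℕ} (hj : 1 ≤ j) (h : Conn j (j * q)) :
    Conn (j + 1) ((j + 1) * q + 1) := by
  obtain ⟨c, hc, h⟩ := h
  refine ⟨(c / 3) ^ (q + 1), by positivity, ?_⟩
  intro V _ _ K D hK hD s t hs ht hsE htE
  classical
  rw [Nat.add_sub_cancel] at hs ht
  set n := Fintype.card V with hn
  have hnpos : 0 < n := by
    cases s with
    | nil => simp at hs; omega
    | cons a s => exact Fintype.card_pos_iff.2 ⟨a⟩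
  have hnR : (0 : ℝ) < n := by exact_mod_cast hnpos
  -- many common neighbours
  have hNs := hK.deg _ hsE.2 (by rw [List.toFinset_card_of_nodup hsE.1, hs]; omega)
  have hNt := hK.deg _ htE.2 (by rw [List.toFinset_card_of_nodup htE.1, ht]; omega)
  set N : V → Prop := fun v => nb K s.toFinset v ∧ nb K t.toFinset v with hNdef
  have hN : (n : ℝ) / 3 ≤ cnt N := by
    have := connect_cnt_and_ge (nb K s.toFinset) (nb K t.toFinset)
    linarith
  -- the pairs `(v,x)`
  set A : V → (Fin (j * q) → V) → Prop := fun v x =>
    N v ∧ Tight (cLnk K v) j (s.tail ++ List.ofFn x ++ t.dropLast) with hA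
  have hAv : ∀ v, N v → c * (n : ℝ) ^ (j * q) ≤ (cnt (A v) : ℝ) := by
    intro v hv
    have hvK : {v} ∈ K := hK.down _ hv.1.2 _ (by simp)
    have h1 := h V (cLnk K v) D (Cx.cLnk hK hvK) hD s.tail t.dropLast (by simp [hs]) (by simp [ht])
      (edgeL_cLnk_of hK.down hsE hv.1 (List.tail_sublist _))
      (edgeL_cLnk_of hK.down htE hv.2 (List.dropLast_sublist _))
    refine h1.trans ?_
    have : cnt (fun w : Fin (j * q) → V =>
        Tight (cLnk K v) j (s.tail ++ List.ofFn w ++ t.dropLast)) ≤ cnt (A v) :=
      cnt_mono fun w hw => ⟨hv, hw⟩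
    exact_mod_cast this
  set d : (Fin (j * q) → V) → ℝ := fun x => (cnt (fun v => A v x) : ℝ) with hd
  have hsum : c / 3 * (n : ℝ) ^ (j * q + 1) ≤ ∑ x, d x := by
    have e : ∑ x, d x = ∑ v, (cnt (A v) : ℝ) := by
      simp only [hd, cnt_eq]
      simp only [Finset.card_filter]
      push_cast
      exact Finset.sum_comm
    rw [e]
    calc c / 3 * (n : ℝ) ^ (j * q + 1) = ((n : ℝ) / 3) * (c * (n : ℝ) ^ (j * q)) := by ring
      _ ≤ (cnt N : ℝ) * (c * (n : ℝ) ^ (j * q)) := by
          exact mul_le_mul_of_nonneg_right hN (by positivity)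
      _ = ∑ v ∈ Finset.univ.filter N, c * (n : ℝ) ^ (j * q) := by
          rw [Finset.sum_const, nsmul_eq_mul, cnt_eq]
      _ ≤ ∑ v ∈ Finset.univ.filter N, (cnt (A v) : ℝ) :=
          Finset.sum_le_sum fun v hv => hAv v (Finset.mem_filter.1 hv).2
      _ ≤ ∑ v, (cnt (A v) : ℝ) :=
          Finset.sum_le_sum_of_subset_of_nonneg (Finset.filter_subset _ _)
            (fun v _ _ => by positivity)
  -- Jensen
  have hJ : (c / 3) ^ (q + 1) * (n : ℝ) ^ ((j + 1) * q + 1) ≤ ∑ x, d x ^ (q + 1) := by
    have h2 : (∑ x, d x) ^ (q + 1) / ((Finset.univ : Finset (Fin (j * q) → V)).card : ℝ) ^ q ≤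
        ∑ x, d x ^ (q + 1) :=
      pow_sum_div_card_le_sum_pow (s := Finset.univ) (f := d) (fun x _ => by positivity) q
    have hcardX : ((Finset.univ : Finset (Fin (j * q) → V)).card : ℝ) = (n : ℝ) ^ (j * q) := by
      simp [hn]
    rw [hcardX] at h2
    refine le_trans ?_ h2
    rw [le_div_iff₀ (by positivity)]
    calc (c / 3) ^ (q + 1) * (n : ℝ) ^ ((j + 1) * q + 1) * ((n : ℝ) ^ (j * q)) ^ q
        = (c / 3 * (n : ℝ) ^ (j * q + 1)) ^ (q + 1) := by
          rw [mul_pow, ← pow_mul, ← pow_mul, mul_assoc, ← pow_add]
          congr 2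
          ring
      _ ≤ (∑ x, d x) ^ (q + 1) := by
          refine pow_le_pow_left₀ (by positivity) hsum _
  refine hJ.trans ?_
  -- the weavings
  have hcount : ∑ x, d x ^ (q + 1) =
      ((Finset.univ.filter (fun p : (Fin (q + 1) → V) × (Fin (j * q) → V) =>
        ∀ i, A (p.1 i) p.2)).card : ℝ) := by
    have e1 : ((Finset.univ.filter (fun p : (Fin (q + 1) → V) × (Fin (j * q) → V) =>
        ∀ i, A (p.1 i) p.2)).card : ℕ) =
        ∑ x : Fin (j * q) → V, (cnt (fun v => A v x)) ^ (q + 1) := by
      have e2 : ∀ x : Fin (j * q) → V, (cnt (fun v => A v x)) ^ (q + 1) =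
          (Finset.univ.filter (fun f : Fin (q + 1) → V => ∀ i, A (f i) x)).card := by
        intro x
        have e3 : Finset.univ.filter (fun f : Fin (q + 1) → V => ∀ i, A (f i) x) =
            Fintype.piFinset (fun _ : Fin (q + 1) => Finset.univ.filter (fun v => A v x)) := by
          ext f; simp
        rw [e3, Fintype.card_piFinset, Finset.prod_const, cnt_eq]
        simp
      simp_rw [e2]
      rw [← Finset.card_sigma]
      refine Finset.card_bij' (fun p _ => (⟨p.2, p.1⟩ : Σ _ : (Fin (j * q) → V), (Fin (q + 1) → V)))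
        (fun p _ => (p.2, p.1)) ?_ ?_ ?_ ?_
      · intro p hp; simpa using hp
      · intro p hp; simpa using hp
      · intro p _; rfl
      · intro p _; rfl
    rw [e1]
    push_cast
    rfl
  rw [hcount]
  have hlen : ∀ p : (Fin (q + 1) → V) × (Fin (j * q) → V),
      (weave j (List.ofFn p.1) (List.ofFn p.2)).length = (j + 1) * q + 1 := by
    intro p
    rw [weave_length, List.length_ofFn, List.length_ofFn]; ring
  set F : (Fin (q + 1) → V) × (Fin (j * q) → V) → (Fin ((j + 1) * q + 1) → V) := fun p i =>
    (weave j (List.ofFn p.1) (List.ofFn p.2)).get (i.cast (hlen p).symm) with hF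
  have hFof : ∀ p, List.ofFn (F p) = weave j (List.ofFn p.1) (List.ofFn p.2) := by
    intro p
    apply List.ext_get
    · rw [List.length_ofFn, hlen]
    · intro i h1 h2
      rw [List.get_ofFn]
      rfl
  have hle : (Finset.univ.filter (fun p : (Fin (q + 1) → V) × (Fin (j * q) → V) =>
        ∀ i, A (p.1 i) p.2)).card ≤
      cnt (fun w : Fin ((j + 1) * q + 1) → V => Tight K (j + 1) (s ++ List.ofFn w ++ t)) := by
    rw [cnt_eq]
    refine Finset.card_le_card_of_injOn F ?_ ?_
    · intro p hp
      simp only [Finset.coe_filter, Finset.mem_univ, true_and, Set.mem_ofPred_eq] at hp ⊢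
      rw [hFof]
      rw [List.ofFn_succ]
      have hmem : ∀ u ∈ p.1 0 :: List.ofFn (fun i => p.1 (Fin.succ i)), A u p.2 := by
        intro u hu
        rw [← List.ofFn_succ, List.mem_ofFn] at hu
        obtain ⟨i, rfl⟩ := hu
        exact hp i
      refine weave_tight _ _ s _ t hs ht (by simp) ?_ ?_ ?_
      · have h0 := (hp 0).1.1
        have := edgeL_of_cLnk (a := s) (b := [])
          (edgeL_cLnk_of hK.down hsE h0 (by simp))
        simpa using this
      · intro u hu
        have h0 := (hmem u hu).1.2
        have := edgeL_of_cLnk (a := []) (b := t) (edgeL_cLnk_of hK.down htE h0 (by simp))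
        simpa using this
      · intro u hu
        exact (hmem u hu).2
    · intro p _ p' _ hpp
      have h1 : weave j (List.ofFn p.1) (List.ofFn p.2) =
          weave j (List.ofFn p'.1) (List.ofFn p'.2) := by
        rw [← hFof, ← hFof, hpp]
      obtain ⟨h2, h3⟩ := weave_inj j _ _ _ _ (by simp) (by simp) h1
      exact Prod.ext (List.ofFn_injective h2) (List.ofFn_injective h3)
  exact_mod_cast hle

theorem connect (k : ℕ) (hk : 1 ≤ k) : ∃ M : ℕ, k - 1 ≤ M ∧ ∀ m ≥ M, ∃ c > (0 : ℝ),
    ∀ (V : Type) [Fintype V] [DecidableEq V] (K : Set (Finset V)) (D : ℝ), Cx K k D →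
      2 / 3 * (Fintype.card V : ℝ) ≤ D →
      ∀ s t : List V, s.length = k - 1 → t.length = k - 1 → EdgeL K s → EdgeL K t →
      c * (Fintype.card V : ℝ) ^ m ≤
        (cnt (fun w : Fin m → V => Tight K k (s ++ List.ofFn w ++ t)) : ℝ) := by
  suffices H : ∃ M : ℕ, k - 1 ≤ M ∧ ∀ m ≥ M, Conn k m from H
  induction k, hk using Nat.le_induction with
  | base =>
    refine ⟨0, by simp, ?_⟩
    intro m _
    induction m with
    | zero => exact conn_base
    | succ m ih => exact conn_succ le_rfl (ih (Nat.zero_le _))
  | succ j hj ih =>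
    obtain ⟨M, hM1, hM2⟩ := ih
    have h1 : Conn j (j * M) := hM2 _ (by nlinarith)
    have h2 := conn_step hj h1
    refine ⟨(j + 1) * M + 1, ?_, ?_⟩
    · have h3 : M ≤ (j + 1) * M := Nat.le_mul_of_pos_left _ (by omega)
      have h4 : j ≤ M + 1 := by omega
      rw [Nat.add_sub_cancel]
      linarith
    · intro m hm
      induction m, hm using Nat.le_induction with
      | base => exact h2
      | succ m _ ih => exact conn_succ (by omega) ih

end Pool.Agent.THC
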