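import Pool.Agent.Lib.MP_5c6f2e_co.Good

/-!
# MP_5c6f2e_co P13b : core of the piece through a vertex, extra pieces
-/

set_option autoImplicit false
set_option linter.unusedSectionVars false

namespace Pool.Agent.THC

open Finset

variable {V : Type} [Fintype V] [DecidableEq V]

/-- sequential choice of further vertices of a member of the complex -/
theorem core_set_count {K : Set (Finset V)} {k : ℕ} {D : ℝ} (hK : Cx K k D)
    {C : List V} (hC : EdgeL K C) (U : Finset V) (r : ℕ) (hr : r + C.length ≤ k) (d : ℝ)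
    (hd : 0 ≤ d) (hdD : d + U.card + k ≤ D) :
    d ^ r ≤ (cnt (fun f : Fin r → V => EdgeL K (List.ofFn f ++ C) ∧
      ∀ v ∈ List.ofFn f, v ∉ U) : ℝ) := by
  have h0 : EdgeL K (([] : List V) ++ C) ∧ ∀ v ∈ ([] : List V), v ∉ U := ⟨hC, by simp⟩
  apply good_tree_count d hd r (fun l : List V => EdgeL K (l ++ C) ∧ ∀ v ∈ l, v ∉ U) h0
  rintro l ⟨h1, h3⟩ hlen
  have hlen2 : (l ++ C).length < k := by rw [List.length_append]; omega
  have hcard : (l ++ C).toFinset.card < k := (List.toFinset_card_le _).trans_lt hlen2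
  have hdeg := hK.deg _ h1.2 hcard
  have h4 := good_cnt_avoid (nb K (l ++ C).toFinset) (U ∪ (l ++ C).toFinset)
  have h5 : ((U ∪ (l ++ C).toFinset).card : ℝ) ≤ U.card + k := by
    have h6 : (U ∪ (l ++ C).toFinset).card ≤ U.card + (l ++ C).length :=
      (Finset.card_union_le _ _).trans (Nat.add_le_add_left (List.toFinset_card_le _) _)
    have h7 : (U ∪ (l ++ C).toFinset).card ≤ U.card + k := by omega
    exact_mod_cast h7
  have h8 : cnt (fun v => nb K (l ++ C).toFinset v ∧ v ∉ U ∪ (l ++ C).toFinset) ≤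
      cnt (fun v => EdgeL K (v :: l ++ C) ∧ ∀ x ∈ v :: l, x ∉ U) := ?_
  · have h9 : (cnt (fun v => nb K (l ++ C).toFinset v ∧ v ∉ U ∪ (l ++ C).toFinset) : ℝ) ≤
      (cnt (fun v => EdgeL K (v :: l ++ C) ∧ ∀ x ∈ v :: l, x ∉ U) : ℝ) := by exact_mod_cast h8
    refine le_trans ?_ h9
    linarith
  refine cnt_mono ?_
  rintro v ⟨⟨hv1, hv2⟩, hv3⟩
  have hv4 : v ∉ U := fun h => hv3 (Finset.mem_union_left _ h)
  have hv5 : v ∉ l ++ C := fun h => hv3 (Finset.mem_union_right _ (List.mem_toFinset.2 h))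
  refine ⟨⟨?_, ?_⟩, ?_⟩
  · rw [List.cons_append, List.nodup_cons]; exact ⟨hv5, h1.1⟩
  · rw [List.cons_append, List.toFinset_cons]; exact hv2
  · intro x hx
    rcases List.mem_cons.1 hx with rfl | hx
    · exact hv4
    · exact h3 x hx

/-- tuples through `v` meeting `Y` are at most `m * |N(v) ∩ Y| * n^(m-1)` -/
private theorem core_meet {K : Set (Finset V)} (hdown : ∀ s ∈ K, ∀ t ⊆ s, t ∈ K) (m : ℕ)
    (Y : Finset V) (v : V) :
    cnt (fun g : Fin m → V => (∃ i, g i ∈ Y) ∧ EdgeL K (v :: List.ofFn g)) ≤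
      m * (cnt (fun y => y ∈ Y ∧ EdgeL K [y, v]) * Fintype.card V ^ (m - 1)) := by
  classical
  have h1 : cnt (fun g : Fin m → V => (∃ i, g i ∈ Y) ∧ EdgeL K (v :: List.ofFn g)) ≤
      cnt (fun g : Fin m → V => ∃ i ∈ (Finset.univ : Finset (Fin m)), g i ∈ Y ∧
        EdgeL K (v :: List.ofFn g)) := by
    refine cnt_mono ?_
    rintro g ⟨⟨i, hi⟩, hg⟩
    exact ⟨i, Finset.mem_univ _, hi, hg⟩
  refine h1.trans ((good_cnt_exists_le _ _).trans ?_)
  have h2 : ∀ i ∈ (Finset.univ : Finset (Fin m)), cnt (fun g : Fin m → V => g i ∈ Y ∧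
      EdgeL K (v :: List.ofFn g)) ≤
      cnt (fun y => y ∈ Y ∧ EdgeL K [y, v]) * Fintype.card V ^ (m - 1) := by
    intro i _
    have h3 : cnt (fun g : Fin m → V => g i ∈ Y ∧ EdgeL K (v :: List.ofFn g)) ≤
        cnt (fun q : V × ({j // j ≠ i} → V) => q.1 ∈ Y ∧ EdgeL K [q.1, v]) := by
      refine good_cnt_le_of_inj (fun g => (g i, fun j => g j.1)) ?_ ?_
      · rintro g ⟨hg1, hg2, hg3⟩
        rw [List.nodup_cons, List.mem_ofFn] at hg2
        refine ⟨hg1, ?_, ?_⟩
        · have : g i ≠ v := fun h => hg2.1 ⟨i, h⟩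
          simpa using this
        · refine hdown _ hg3 _ ?_
          intro x hx
          simp only [List.mem_toFinset, List.mem_cons, List.not_mem_nil, or_false] at hx ⊢
          rcases hx with rfl | rfl
          · right; simp [List.mem_ofFn]
          · left; rfl
      · intro g g' _ _ h
        simp only [Prod.mk.injEq] at h
        funext j
        by_cases hj : j = i
        · rw [hj]; exact h.1
        · exact congrFun h.2 ⟨j, hj⟩
    refine h3.trans (le_of_eq ?_)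
    rw [good_cnt_prod_left (fun y => y ∈ Y ∧ EdgeL K [y, v]), Fintype.card_fun]
    congr 2
    rw [Fintype.card_subtype_compl, Fintype.card_fin]
    simp
  refine (Finset.sum_le_sum h2).trans ?_
  simp

/-- core of the piece through a vertex `v` outside `Y` -/
theorem core_through (k : ℕ) (hk : 3 ≤ k) (α : ℝ) (hα : 0 < α) : ∃ ζ₀ > (0 : ℝ), ∃ n₀ : ℕ,
    ∀ (V : Type) [Fintype V] [DecidableEq V], n₀ ≤ Fintype.card V → ∀ K : Set (Finset V),
      Cx K k ((1 - 1 / (k : ℝ)) * (Fintype.card V : ℝ)) →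
      ∀ (ζ : ℝ) (Y A S : Finset V), 0 ≤ ζ → ζ ≤ ζ₀ → ExtStr K k α ζ Y A →
      (S.card : ℝ) ≤ ζ₀ * Fintype.card V →
      ∀ v, v ∉ Y → v ∉ S → ∃ (y y' : V) (T : List V), T.length = k - 2 ∧
        (y :: v :: T ++ [y']).Nodup ∧ y ∈ Y ∧ y' ∈ Y ∧ (∀ x ∈ T, x ∉ Y) ∧
        (∀ x ∈ y :: y' :: T, x ∉ S) ∧ Tight K k (y :: v :: T ++ [y']) := by
  have hkR : (0 : ℝ) < k := by have : 0 < k := by omega
                               exact_mod_cast this
  refine ⟨min (1 / 100) (α / (16 * k)), by positivity,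
    max (100 * k) (⌈16 * k * 4 ^ k / α⌉₊ + 1), ?_⟩
  intro V _ _ hn K hK ζ Y A S hζ0 hζ hE hS v hvY hvS
  have hz1 : min (1 / 100) (α / (16 * k)) ≤ 1 / 100 := min_le_left _ _
  have hz2 : min (1 / 100) (α / (16 * k)) ≤ α / (16 * k) := min_le_right _ _
  have hn1 : 100 * k ≤ Fintype.card V := (le_max_left _ _).trans hn
  have hn2 : ⌈16 * k * 4 ^ k / α⌉₊ + 1 ≤ Fintype.card V := (le_max_right _ _).trans hn
  have hn3 : 16 * k * 4 ^ k / α < (Fintype.card V : ℝ) := by
    calc 16 * k * 4 ^ k / α ≤ (⌈16 * k * 4 ^ k / α⌉₊ : ℝ) := Nat.le_ceil _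
      _ < ((⌈16 * k * 4 ^ k / α⌉₊ + 1 : ℕ) : ℝ) := by push_cast; linarith
      _ ≤ _ := by exact_mod_cast hn2
  have hroom := good_room hk hz1 hζ hE hS hn1
  have hn0 : (0 : ℝ) < Fintype.card V := by
    have : 0 < Fintype.card V := by omega
    exact_mod_cast this
  set n : ℝ := (Fintype.card V : ℝ) with hnn
  -- many `y`
  have h1 := hE.many v hvY
  have h2 := core_meet hK.down (k - 1) Y v
  set c : ℕ := cnt (fun y => y ∈ Y ∧ EdgeL K [y, v]) with hc
  have h3 : α / 8 * n ^ (k - 1) ≤ (k : ℝ) * (c * n ^ (k - 2)) := by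
    refine h1.trans ?_
    have h4 : cnt (fun g : Fin (k - 1) → V => (∃ i, g i ∈ Y) ∧ EdgeL K (v :: List.ofFn g)) ≤
        k * (c * Fintype.card V ^ (k - 2)) := by
      refine h2.trans ?_
      have : k - 1 - 1 = k - 2 := by omega
      rw [this]
      exact Nat.mul_le_mul_right _ (by omega)
    calc _ ≤ ((k * (c * Fintype.card V ^ (k - 2)) : ℕ) : ℝ) := by exact_mod_cast h4
      _ = _ := by push_cast; rfl
  have h5 : α * n / (8 * k) ≤ c := by
    have e : n ^ (k - 1) = n * n ^ (k - 2) := by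
      rw [← pow_succ']; congr 1; omega
    rw [e] at h3
    have hp : (0 : ℝ) < n ^ (k - 2) := by positivity
    have h6 : α / 8 * n ≤ k * c := by
      refine le_of_mul_le_mul_right ?_ hp
      calc _ = α / 8 * (n * n ^ (k - 2)) := by ring
        _ ≤ _ := h3
        _ = _ := by ring
    rw [div_le_iff₀ (by positivity)]
    linarith
  have h6 := good_cnt_avoid (fun y => y ∈ Y ∧ EdgeL K [y, v]) S
  rw [← hc] at h6
  have h7 : α * n / (16 * k) ≤
      (cnt (fun y => (y ∈ Y ∧ EdgeL K [y, v]) ∧ y ∉ S) : ℝ) := by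
    have h8 : (S.card : ℝ) ≤ α / (16 * k) * n :=
      hS.trans (mul_le_mul_of_nonneg_right hz2 hn0.le)
    have h9 : α * n / (8 * k) = α / (16 * k) * n + α * n / (16 * k) := by
      field_simp; ring
    linarith
  -- for every such `y` many `T`
  have h8 := good_cnt_pairs (fun y => (y ∈ Y ∧ EdgeL K [y, v]) ∧ y ∉ S)
    (fun y (f : Fin (k - 2) → V) => EdgeL K (List.ofFn f ++ [y, v]) ∧
      ∀ x ∈ List.ofFn f, x ∉ Y ∪ A ∪ S) ((n / 4) ^ (k - 2)) (by
      rintro y ⟨⟨_, hy⟩, _⟩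
      exact core_set_count hK hy _ (k - 2) (by simp; omega) (n / 4) (by positivity) (by linarith))
  by_cases hex : ∃ (f : Fin (k - 2) → V) (y y' : V), y ≠ y' ∧
      (((y ∈ Y ∧ EdgeL K [y, v]) ∧ y ∉ S) ∧ EdgeL K (List.ofFn f ++ [y, v]) ∧
        ∀ x ∈ List.ofFn f, x ∉ Y ∪ A ∪ S) ∧
      (((y' ∈ Y ∧ EdgeL K [y', v]) ∧ y' ∉ S) ∧ EdgeL K (List.ofFn f ++ [y', v]) ∧
        ∀ x ∈ List.ofFn f, x ∉ Y ∪ A ∪ S)
  · obtain ⟨f, y, y', hyy, ⟨⟨⟨hy1, _⟩, hy3⟩, hy4, hy5⟩, ⟨⟨⟨hz1', _⟩, hz3⟩, hz4, _⟩⟩ := hex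
    have hT : (List.ofFn f).length = k - 2 := by simp
    have p1 : (List.ofFn f ++ [y, v]).Perm (y :: v :: List.ofFn f) := List.perm_append_comm
    have p2 : (List.ofFn f ++ [y', v]).Perm (v :: List.ofFn f ++ [y']) := by
      refine List.perm_append_comm.trans ?_
      have e1 : ([y', v] ++ List.ofFn f).Perm (y' :: (v :: List.ofFn f)) := List.Perm.refl _
      have e2 : (y' :: (v :: List.ofFn f)).Perm ((v :: List.ofFn f) ++ [y']) :=
        (List.perm_append_singleton _ _).symm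
      exact e1.trans e2
    have w1 : EdgeL K (y :: v :: List.ofFn f) := (good_edgeL_perm p1).1 hy4
    have w2 : EdgeL K (v :: List.ofFn f ++ [y']) := (good_edgeL_perm p2).1 hz4
    have hyn : y ∉ v :: List.ofFn f ++ [y'] := by
      intro hmem
      rcases List.mem_append.1 hmem with h | h
      · exact (List.nodup_cons.1 w1.1).1 h
      · exact hyy (List.mem_singleton.1 h)
    refine ⟨y, y', List.ofFn f, hT, ?_, hy1, hz1', ?_, ?_, ?_⟩
    · have : (y :: (v :: List.ofFn f ++ [y'])).Nodup := List.nodup_cons.2 ⟨hyn, w2.1⟩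
      simpa using this
    · intro x hx hxY
      exact hy5 x hx (by simp [hxY])
    · intro x hx
      rcases List.mem_cons.1 hx with rfl | hx
      · exact hy3
      rcases List.mem_cons.1 hx with rfl | hx
      · exact hz3
      · intro hxS
        exact hy5 x hx (by simp [hxS])
    · intro w hw hlen
      have hw' : w <:+: y :: (v :: List.ofFn f ++ [y']) := by simpa using hw
      rcases List.infix_cons_iff.1 hw' with h | h
      · have h9 : w = y :: v :: List.ofFn f := by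
          rw [List.prefix_iff_eq_take, hlen] at h
          rw [h]
          have e : (y :: v :: List.ofFn f).length = k := by simp; omega
          have e2 : y :: (v :: List.ofFn f ++ [y']) = (y :: v :: List.ofFn f) ++ [y'] := by simp
          rw [e2]
          exact List.take_left' e
        rw [h9]; exact w1
      · have h9 : w = v :: List.ofFn f ++ [y'] := by
          refine h.eq_of_length ?_
          simp [hlen]; omega
        rw [h9]; exact w2
  · exfalso
    push Not at hex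
    have h9 : cnt (fun p : V × (Fin (k - 2) → V) =>
        ((p.1 ∈ Y ∧ EdgeL K [p.1, v]) ∧ p.1 ∉ S) ∧ EdgeL K (List.ofFn p.2 ++ [p.1, v]) ∧
          ∀ x ∈ List.ofFn p.2, x ∉ Y ∪ A ∪ S) ≤ cnt (fun _ : Fin (k - 2) → V => True) := by
      refine good_cnt_le_of_inj (fun p => p.2) (fun _ _ => trivial) ?_
      rintro ⟨y, f⟩ ⟨y', f'⟩ hp hp' hff
      simp only at hff
      subst hff
      by_contra hne
      have hyy : y ≠ y' := fun h => hne (by rw [h])
      obtain ⟨x, hx1, hx2⟩ := hex f y y' hyy hp hp'.1 hp'.2.1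
      exact hp'.2.2 x hx1 hx2
    have h10 : (cnt (fun _ : Fin (k - 2) → V => True) : ℝ) ≤ n ^ (k - 2) := by
      have : cnt (fun _ : Fin (k - 2) → V => True) ≤ Fintype.card V ^ (k - 2) := by
        refine (cnt_le_card _).trans ?_
        rw [Fintype.card_fun, Fintype.card_fin]
      calc _ ≤ ((Fintype.card V ^ (k - 2) : ℕ) : ℝ) := by exact_mod_cast this
        _ = _ := by push_cast; rfl
    have h11 : (cnt (fun p : V × (Fin (k - 2) → V) =>
        ((p.1 ∈ Y ∧ EdgeL K [p.1, v]) ∧ p.1 ∉ S) ∧ EdgeL K (List.ofFn p.2 ++ [p.1, v]) ∧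
          ∀ x ∈ List.ofFn p.2, x ∉ Y ∪ A ∪ S) : ℝ) ≤ n ^ (k - 2) := by
      refine le_trans ?_ h10
      exact_mod_cast h9
    have h12 := h8.trans h11
    have h13 : α * n / (16 * k) * (n / 4) ^ (k - 2) ≤ n ^ (k - 2) :=
      le_trans (mul_le_mul_of_nonneg_right h7 (by positivity)) h12
    have hp : (0 : ℝ) < n ^ (k - 2) := by positivity
    have h14 : α * n / (16 * k) ≤ 4 ^ (k - 2) := by
      refine le_of_mul_le_mul_right ?_ hp
      calc α * n / (16 * k) * n ^ (k - 2)
          = 4 ^ (k - 2) * (α * n / (16 * k) * (n / 4) ^ (k - 2)) := by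
            rw [div_pow]; field_simp
        _ ≤ 4 ^ (k - 2) * n ^ (k - 2) := by gcongr
    have h15 : (4 : ℝ) ^ (k - 2) ≤ 4 ^ k := pow_le_pow_right₀ (by norm_num) (by omega)
    have h16 : α * n / (16 * k) ≤ 4 ^ k := h14.trans h15
    rw [div_le_iff₀ (by positivity)] at h16
    rw [div_lt_iff₀ hα] at hn3
    linarith

/-- pieces with one extra vertex outside `Y` -/
theorem extra_piece (k : ℕ) (hk : 3 ≤ k) (α : ℝ) (hα : 0 < α) : ∃ ζ₀ > (0 : ℝ), ∃ n₀ : ℕ,
    ∀ (V : Type) [Fintype V] [DecidableEq V], n₀ ≤ Fintype.card V → ∀ K : Set (Finset V),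
      Cx K k ((1 - 1 / (k : ℝ)) * (Fintype.card V : ℝ)) →
      ∀ (ζ : ℝ) (Y A S : Finset V), 0 ≤ ζ → ζ ≤ ζ₀ → ExtStr K k α ζ Y A →
      (S.card : ℝ) ≤ ζ₀ * Fintype.card V →
      ∃ C : List V, C.length = k ∧ C.Nodup ∧ (∀ v ∈ C, v ∉ S ∧ v ∉ Y ∧ v ∉ A) ∧
        IsPiece K k α Y C ∧ IsPiece K k α Y (C.take (k - 1)) := by
  refine ⟨min (1 / 100) (α / (4 * 8 ^ k)), by positivity, 100 * k, ?_⟩
  intro V _ _ hn K hK ζ Y A S hζ0 hζ hE hS
  have hz1 : min (1 / 100) (α / (4 * 8 ^ k)) ≤ 1 / 100 := min_le_left _ _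
  have hz2 : min (1 / 100) (α / (4 * 8 ^ k)) ≤ α / (4 * 8 ^ k) := min_le_right _ _
  have hroom := good_room hk hz1 hζ hE hS hn
  have hn0 : (0 : ℝ) < Fintype.card V := by
    have : 0 < Fintype.card V := by omega
    exact_mod_cast this
  have h2 := good_count hk hα hζ0 hE
  have h3 := good_few (k := k) (by omega) hα hz2 hζ hn0
  have h1 := core_set_count (C := []) hK ⟨List.nodup_nil, by simpa using hK.empty⟩ (Y ∪ A ∪ S) k
    (by simp) ((Fintype.card V : ℝ) / 4) (by positivity) (by linarith)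
  obtain ⟨m, rfl⟩ : ∃ m, k = m + 1 := ⟨k - 1, by omega⟩
  simp only [Nat.add_sub_cancel] at h3 ⊢
  by_contra hcon
  push Not at hcon
  set n : ℝ := (Fintype.card V : ℝ) with hnn
  set B : (Fin m → V) → Prop := fun s => (∀ i, s i ∉ Y) ∧ ¬ GoodS K (m + 1) α Y (List.ofFn s)
    with hB
  have e1 : ∀ f : Fin (m + 1) → V, (List.ofFn f).take m = List.ofFn (fun i : Fin m => f i.castSucc) := by
    intro f
    rw [List.ofFn_succ', List.concat_eq_append]
    exact List.take_left' (by simp)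
  have e2 : ∀ f : Fin (m + 1) → V, (List.ofFn f).drop 1 = List.ofFn (fun i : Fin m => f i.succ) := by
    intro f
    rw [List.ofFn_succ]; rfl
  have h4 : cnt (fun f : Fin (m + 1) → V => EdgeL K (List.ofFn f ++ []) ∧
      ∀ v ∈ List.ofFn f, v ∉ Y ∪ A ∪ S) ≤
      cnt (fun f : Fin (m + 1) → V => B (fun i => f i.castSucc) ∨ B (fun i => f i.succ)) := by
    refine cnt_mono ?_
    rintro f ⟨hf1, hf2⟩
    rw [List.append_nil] at hf1
    by_contra hno
    rw [not_or, hB] at hno
    have hf3 : ∀ i, f i ∉ Y ∪ A ∪ S := fun i => hf2 _ (List.mem_ofFn.2 ⟨i, rfl⟩)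
    have hf4 : ∀ i, f i ∉ Y := fun i hi => hf3 i (by simp [hi])
    have g1 : GoodS K (m + 1) α Y (List.ofFn (fun i : Fin m => f i.castSucc)) := by
      by_contra hg
      exact hno.1 ⟨fun i => hf4 _, hg⟩
    have g2 : GoodS K (m + 1) α Y (List.ofFn (fun i : Fin m => f i.succ)) := by
      by_contra hg
      exact hno.2 ⟨fun i => hf4 _, hg⟩
    have hfl : (List.ofFn f).length = m + 1 := by simp
    have hfY : ∀ v ∈ List.ofFn f, v ∉ Y := fun v hv h => hf2 v hv (by simp [h])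
    refine hcon (List.ofFn f) hfl hf1.1 ?_ ?_ ?_
    · intro v hv
      have := hf2 v hv
      simp only [Finset.mem_union, not_or] at this
      exact ⟨this.2, this.1.1, this.1.2⟩
    · refine ⟨by simp, ?_, ?_, ?_, ?_, ?_⟩
      · intro w hw hlen
        rw [hw.eq_of_length (by rw [hlen, hfl])]
        exact hf1
      · exact fun v hv => hfY v (List.mem_of_mem_take hv)
      · exact fun v hv => hfY v (List.mem_of_mem_drop hv)
      · rw [Nat.add_sub_cancel, e1]; exact g1
      · have : (List.ofFn f).length - (m + 1 - 1) = 1 := by rw [hfl]; omega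
        rw [this, e2]; exact g2
    · have hl : ((List.ofFn f).take m).length = m := by rw [List.length_take, hfl]; omega
      refine ⟨by rw [hl]; omega, ?_, ?_, ?_, ?_, ?_⟩
      · intro w hw hlen
        have := hw.length_le
        omega
      · exact fun v hv => hfY v (List.mem_of_mem_take (List.mem_of_mem_take hv))
      · exact fun v hv => hfY v (List.mem_of_mem_take (List.mem_of_mem_drop hv))
      · rw [Nat.add_sub_cancel, List.take_take, min_self, e1]; exact g1
      · rw [hl, Nat.add_sub_cancel, Nat.sub_self, List.drop_zero, e1]; exact g1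
  have h5 : cnt (fun f : Fin (m + 1) → V => B (fun i => f i.castSucc)) ≤
      cnt B * Fintype.card V := by
    rw [← good_cnt_prod_left (β := V) B]
    refine good_cnt_le_of_inj (fun f => (fun i => f i.castSucc, f (Fin.last m))) (fun f h => h) ?_
    intro f g _ _ h
    simp only [Prod.mk.injEq] at h
    funext i
    refine Fin.lastCases ?_ (fun j => ?_) i
    · exact h.2
    · exact congrFun h.1 j
  have h6 : cnt (fun f : Fin (m + 1) → V => B (fun i => f i.succ)) ≤
      cnt B * Fintype.card V := by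
    rw [← good_cnt_prod_left (β := V) B]
    refine good_cnt_le_of_inj (fun f => (fun i => f i.succ, f 0)) (fun f h => h) ?_
    intro f g _ _ h
    simp only [Prod.mk.injEq] at h
    funext i
    refine Fin.cases ?_ (fun j => ?_) i
    · exact h.2
    · exact congrFun h.1 j
  have h7 : cnt (fun f : Fin (m + 1) → V => EdgeL K (List.ofFn f ++ []) ∧
      ∀ v ∈ List.ofFn f, v ∉ Y ∪ A ∪ S) ≤ 2 * (cnt B * Fintype.card V) :=
    h4.trans ((cnt_or_le _ _).trans (by omega))
  have h8 : (cnt (fun f : Fin (m + 1) → V => EdgeL K (List.ofFn f ++ []) ∧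
      ∀ v ∈ List.ofFn f, v ∉ Y ∪ A ∪ S) : ℝ) ≤ 2 * (cnt B * n) := by
    calc _ ≤ ((2 * (cnt B * Fintype.card V) : ℕ) : ℝ) := by exact_mod_cast h7
      _ = _ := by push_cast; rfl
  have h9 : (n / 4) ^ (m + 1) = (n / 4) ^ m * (n / 4) := pow_succ _ _
  have h10 : (cnt B : ℝ) < (n / 4) ^ m / (4 * 4) := lt_of_le_of_lt h2 h3
  have h11 : (cnt B : ℝ) * n < (n / 4) ^ m / (4 * 4) * n := mul_lt_mul_of_pos_right h10 hn0
  have h12 : 0 < (n / 4) ^ m * n := by positivity
  have h13 := h1.trans h8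
  rw [h9] at h13
  linarith

end Pool.Agent.THC
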