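import Pool.Agent.Lib.MP_5c6f2e_co.Defs

/-!
# P2: sequential counting, elementary facts on complexes, absorbers
-/

set_option autoImplicit false

namespace Pool.Agent.THC

open Finset

/-! ### counting tuples -/

private theorem cnt_cons {V : Type*} [Fintype V] (r : ℕ) (Q : (Fin (r + 1) → V) → Prop) :
    cnt Q = ∑ g : Fin r → V, cnt (fun v => Q (Fin.cons v g)) := by
  classical
  simp only [cnt_eq, Finset.card_filter]
  rw [← (Fin.consEquiv (fun _ : Fin (r + 1) => V)).sum_comp, Fintype.sum_prod_type_right]
  rfl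

theorem tree_count {V : Type*} [Fintype V] (d : ℝ) (hd : 0 ≤ d) (r : ℕ) (P : List V → Prop)
    (h0 : P []) (hs : ∀ l : List V, P l → l.length < r → d ≤ (cnt (fun v => P (v :: l)) : ℝ)) :
    d ^ r ≤ (cnt (fun f : Fin r → V => P (List.ofFn f)) : ℝ) := by
  classical
  induction r with
  | zero =>
    have : cnt (fun f : Fin 0 → V => P (List.ofFn f)) = 1 := by
      rw [cnt_eq, Finset.filter_true_of_mem (by intro f _; simpa using h0)]
      simp
    rw [this]; simp
  | succ r ih =>
    have ih' := ih (fun l hl hlt => hs l hl (by omega))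
    rw [cnt_cons]
    have e : ∀ g : Fin r → V, (cnt (fun v => P (List.ofFn (Fin.cons v g : Fin (r + 1) → V))))
        = cnt (fun v => P (v :: List.ofFn g)) := by
      intro g
      apply cnt_congr
      intro v
      rw [List.ofFn_succ]
      simp
    simp only [e]
    push_cast
    calc d ^ (r + 1) = d * d ^ r := by ring
      _ ≤ d * (cnt (fun f : Fin r → V => P (List.ofFn f)) : ℝ) :=
          mul_le_mul_of_nonneg_left ih' hd
      _ = ∑ g : Fin r → V, (if P (List.ofFn g) then d else 0) := by
          rw [← Finset.sum_filter, Finset.sum_const, nsmul_eq_mul, cnt_eq]; ring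
      _ ≤ ∑ g : Fin r → V, (cnt (fun v => P (v :: List.ofFn g)) : ℝ) := by
          apply Finset.sum_le_sum
          intro g _
          split_ifs with hg
          · exact hs _ hg (by simp)
          · positivity

private theorem ofFn_rev {V : Type*} {r : ℕ} (f : Fin r → V) :
    List.ofFn (fun i => f (Fin.rev i)) = (List.ofFn f).reverse := by
  apply List.ext_getElem
  · simp
  · intro i h1 h2
    simp only [List.getElem_ofFn, List.getElem_reverse, List.length_ofFn]
    congr 1
    apply Fin.ext
    simp [Fin.rev]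
    omega

theorem tree_count' {V : Type*} [Fintype V] (d : ℝ) (hd : 0 ≤ d) (r : ℕ) (P : List V → Prop)
    (h0 : P []) (hs : ∀ l : List V, P l → l.length < r → d ≤ (cnt (fun v => P (l ++ [v])) : ℝ)) :
    d ^ r ≤ (cnt (fun f : Fin r → V => P (List.ofFn f)) : ℝ) := by
  classical
  have h := tree_count d hd r (fun l => P l.reverse) (by simpa using h0) (by
    intro l hl hlt
    have := hs l.reverse hl (by simpa using hlt)
    simpa using this)
  refine h.trans (le_of_eq ?_)
  norm_cast
  rw [cnt_eq, cnt_eq]
  refine Finset.card_bij (fun f _ => fun i => f (Fin.rev i)) ?_ ?_ ?_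
  · intro f hf
    simp only [Finset.mem_filter, Finset.mem_univ, true_and] at hf ⊢
    rw [ofFn_rev]; exact hf
  · intro f _ g _ hfg
    funext i
    have := congrFun hfg (Fin.rev i)
    simpa using this
  · intro g hg
    refine ⟨fun i => g (Fin.rev i), ?_, ?_⟩
    · simp only [Finset.mem_filter, Finset.mem_univ, true_and] at hg ⊢
      rw [ofFn_rev, List.reverse_reverse]; exact hg
    · funext i; simp

/-- common neighbours, avoiding a set -/
theorem cnt_and_ge {V : Type*} [Fintype V] (P Q : V → Prop) :
    (cnt P : ℝ) + cnt Q - Fintype.card V ≤ (cnt (fun v => P v ∧ Q v) : ℝ) := by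
  classical
  rw [cnt_eq, cnt_eq, cnt_eq, Finset.filter_and]
  have h := Finset.card_union_add_card_inter (Finset.univ.filter P) (Finset.univ.filter Q)
  have h2 := Finset.card_le_univ (Finset.univ.filter P ∪ Finset.univ.filter Q)
  have h' : ((Finset.univ.filter P ∪ Finset.univ.filter Q).card : ℝ) +
      (Finset.univ.filter P ∩ Finset.univ.filter Q).card =
      (Finset.univ.filter P).card + (Finset.univ.filter Q).card := by exact_mod_cast h
  have h2' : ((Finset.univ.filter P ∪ Finset.univ.filter Q).card : ℝ) ≤ Fintype.card V := by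
    exact_mod_cast h2
  linarith

theorem cnt_avoid_ge {V : Type*} [Fintype V] [DecidableEq V] (P : V → Prop) (S : Finset V) :
    (cnt P : ℝ) - S.card ≤ (cnt (fun v => P v ∧ v ∉ S) : ℝ) := by
  classical
  rw [cnt_eq, cnt_eq]
  have h : Finset.univ.filter P ⊆ (Finset.univ.filter fun v => P v ∧ v ∉ S) ∪ S := by
    intro v hv
    by_cases hS : v ∈ S
    · exact Finset.mem_union_right _ hS
    · apply Finset.mem_union_left
      simp only [Finset.mem_filter, Finset.mem_univ, true_and] at hv ⊢
      exact ⟨hv, hS⟩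
  have h1 := (Finset.card_le_card h).trans (Finset.card_union_le _ _)
  have h1' : ((Finset.univ.filter P).card : ℝ) ≤
      (Finset.univ.filter fun v => P v ∧ v ∉ S).card + S.card := by exact_mod_cast h1
  linarith

variable {V : Type} [Fintype V] [DecidableEq V]

theorem Cx.mono {K : Set (Finset V)} {k : ℕ} {D D' : ℝ} (h : Cx K k D) (hD : D' ≤ D) :
    Cx K k D' := ⟨h.empty, h.down, fun s hs hk => hD.trans (h.deg s hs hk)⟩

/-- link -/
def lnk (K : Set (Finset V)) (v : V) : Set (Finset V) := {s | v ∉ s ∧ insert v s ∈ K}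

theorem Cx.lnk {K : Set (Finset V)} {k : ℕ} {D : ℝ} (h : Cx K (k + 1) D) {v : V}
    (hv : {v} ∈ K) : Cx (lnk K v) k D where
  empty := by
    refine ⟨by simp, ?_⟩
    simpa using hv
  down := by
    intro s hs t hts
    exact ⟨fun hvt => hs.1 (hts hvt), h.down _ hs.2 _ (Finset.insert_subset_insert _ hts)⟩
  deg := by
    intro s hs hcard
    have h1 := h.deg (insert v s) hs.2 (by rw [Finset.card_insert_of_notMem hs.1]; omega)
    refine h1.trans ?_
    norm_cast
    apply cnt_mono
    intro u hu
    obtain ⟨hu1, hu2⟩ := hu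
    have huv : u ≠ v := fun e => hu1 (by rw [e]; exact Finset.mem_insert_self _ _)
    have hus : u ∉ s := fun e => hu1 (Finset.mem_insert_of_mem e)
    refine ⟨hus, ?_, ?_⟩
    · intro hmem
      rcases Finset.mem_insert.1 hmem with e | e
      · exact huv e.symm
      · exact hs.1 e
    · rw [Finset.insert_comm]; exact hu2

/-- restriction to a subset, as a complex on the subtype -/
def rst (K : Set (Finset V)) (W : Finset V) : Set (Finset {v // v ∈ W}) :=
  {s | s.map (Function.Embedding.subtype _) ∈ K}

theorem Cx.rst {K : Set (Finset V)} {k : ℕ} {D : ℝ} (h : Cx K k D) (W : Finset V) :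
    Cx (rst K W) k (D - (Fintype.card V - W.card)) where
  empty := by
    show (∅ : Finset {v // v ∈ W}).map _ ∈ K
    rw [Finset.map_empty]; exact h.empty
  down := by
    intro s hs t hts
    exact h.down _ hs _ (Finset.map_subset_map.2 hts)
  deg := by
    classical
    intro s hs hcard
    have h1 := h.deg (s.map (Function.Embedding.subtype _)) hs (by rw [Finset.card_map]; exact hcard)
    have h2 := cnt_and_ge (nb K (s.map (Function.Embedding.subtype _))) (fun v => v ∈ W)
    have h3 : cnt (fun v => v ∈ W) = W.card := by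
      rw [cnt_eq]; simp
    have h4 : cnt (fun v => nb K (s.map (Function.Embedding.subtype _)) v ∧ v ∈ W) ≤
        cnt (nb (Pool.Agent.THC.rst K W) s) := by
      rw [cnt_eq, cnt_eq]
      refine Finset.card_le_card_of_surjOn (fun v => v.1) ?_
      intro v hv
      simp only [Finset.coe_filter, Finset.mem_univ, true_and, Set.mem_ofPred_eq] at hv
      refine ⟨⟨v, hv.2⟩, ?_, rfl⟩
      simp only [Finset.coe_filter, Finset.mem_univ, true_and, Set.mem_ofPred_eq]
      obtain ⟨⟨h5, h6⟩, h7⟩ := hv
      refine ⟨?_, ?_⟩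
      · intro hmem
        apply h5
        rw [Finset.mem_map]
        exact ⟨_, hmem, rfl⟩
      · show (insert (⟨v, h7⟩ : {v // v ∈ W}) s).map _ ∈ K
        rw [Finset.map_insert]
        exact h6
    have h4' : (cnt (fun v => nb K (s.map (Function.Embedding.subtype _)) v ∧ v ∈ W) : ℝ) ≤
        cnt (nb (Pool.Agent.THC.rst K W) s) := by exact_mod_cast h4
    rw [h3] at h2
    linarith

omit [Fintype V] in
theorem Tight.map_rst {K : Set (Finset V)} {k : ℕ} {W : Finset V} {l : List {v // v ∈ W}}
    (h : Tight (rst K W) k l) : Tight K k (l.map Subtype.val) := by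
  intro w hw hlen
  obtain ⟨s, t, hst⟩ := hw
  obtain ⟨l1, l2, h1, h2, h3⟩ := List.map_eq_append_iff.1 hst.symm
  obtain ⟨l3, l4, h4, h5, h6⟩ := List.map_eq_append_iff.1 h2
  subst h1; subst h4; subst h6
  have hw : EdgeL (rst K W) l4 := h l4 ⟨l3, l2, rfl⟩ (by simpa using hlen)
  obtain ⟨hn, hK⟩ := hw
  refine ⟨hn.map Subtype.val_injective, ?_⟩
  have e : (l4.map Subtype.val).toFinset = l4.toFinset.map (Function.Embedding.subtype _) := by
    ext x
    simp
  rw [e]; exact hK

private theorem cnt_outside (k : ℕ) (W : Finset V) {β : ℝ}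
    (hW : (1 - β) * (Fintype.card V : ℝ) ≤ W.card) :
    (cnt (fun f : Fin k → V => ∃ i, f i ∉ W) : ℝ) ≤ k * β * (Fintype.card V : ℝ) ^ k := by
  classical
  have h1 : cnt (fun f : Fin k → V => ∃ i, f i ∉ W) + W.card ^ k = (Fintype.card V) ^ k := by
    have h2 : (Fintype.piFinset (fun _ : Fin k => W)).card = W.card ^ k := by simp
    have h3 : (Finset.univ.filter (fun f : Fin k → V => ∃ i, f i ∉ W)).card +
        (Finset.univ.filter (fun f : Fin k → V => ¬ ∃ i, f i ∉ W)).card
          = (Finset.univ : Finset (Fin k → V)).card :=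
      Finset.card_filter_add_card_filter_not _
    have h4 : Finset.univ.filter (fun f : Fin k → V => ¬ ∃ i, f i ∉ W) =
        Fintype.piFinset (fun _ : Fin k => W) := by
      ext f; simp [Fintype.mem_piFinset]
    rw [h4, h2] at h3
    rw [cnt_eq, h3]
    simp
  have h1' : (cnt (fun f : Fin k → V => ∃ i, f i ∉ W) : ℝ) + (W.card : ℝ) ^ k =
      (Fintype.card V : ℝ) ^ k := by exact_mod_cast h1
  have hn : (0 : ℝ) ≤ (Fintype.card V : ℝ) := by positivity
  by_cases hb : β ≤ 1
  · have h5 : ((1 - β) * (Fintype.card V : ℝ)) ^ k ≤ (W.card : ℝ) ^ k :=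
      pow_le_pow_left₀ (mul_nonneg (by linarith) hn) hW k
    rw [mul_pow] at h5
    have h6 : 1 + (k : ℝ) * (-β) ≤ (1 + (-β)) ^ k := one_add_mul_le_pow (by linarith) k
    have h7 : (1 + (k : ℝ) * (-β)) * (Fintype.card V : ℝ) ^ k ≤
        (1 - β) ^ k * (Fintype.card V : ℝ) ^ k := by
      apply mul_le_mul_of_nonneg_right _ (by positivity)
      simpa [sub_eq_add_neg] using h6
    nlinarith
  · rcases Nat.eq_zero_or_pos k with hk | hk
    · subst hk
      have : cnt (fun f : Fin 0 → V => ∃ i, f i ∉ W) = 0 := by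
        rw [cnt_eq]; simp
      rw [this]; simp
    · have hk' : (1 : ℝ) ≤ k := by exact_mod_cast hk
      have h8 : (cnt (fun f : Fin k → V => ∃ i, f i ∉ W) : ℝ) ≤ (Fintype.card V : ℝ) ^ k := by
        have : (0 : ℝ) ≤ (W.card : ℝ) ^ k := by positivity
        linarith
      refine h8.trans ?_
      have h9 : (1 : ℝ) ≤ k * β := by nlinarith
      have : (0 : ℝ) ≤ (Fintype.card V : ℝ) ^ k := by positivity
      nlinarith

theorem NearExt.of_rst {K : Set (Finset V)} {k : ℕ} {γ β : ℝ} (hγ : 0 ≤ γ) (hβ : 0 ≤ β)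
    (hk : 1 ≤ k) {W : Finset V} (hW : (1 - β) * (Fintype.card V : ℝ) ≤ W.card)
    (h : NearExt (rst K W) k γ) : NearExt K k (γ + (k + 1) * β) := by
  classical
  obtain ⟨Y', h1, h2⟩ := h
  have hk' : (1 : ℝ) ≤ k := by exact_mod_cast hk
  have hn : (0 : ℝ) ≤ (Fintype.card V : ℝ) := by positivity
  have hcW : (Fintype.card {v // v ∈ W} : ℝ) = W.card := by simp
  have hWn : (W.card : ℝ) ≤ Fintype.card V := by exact_mod_cast Finset.card_le_univ W
  refine ⟨Y'.map (Function.Embedding.subtype _), ?_, ?_⟩
  · rw [Finset.card_map]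
    rw [hcW] at h1
    have hinv : (1 : ℝ) / k ≤ 1 := by
      rw [div_le_one (by linarith)]; exact hk'
    have hinv0 : (0 : ℝ) < 1 / k := by positivity
    by_cases hc : 0 ≤ 1 / (k : ℝ) - γ
    · have h3 : (1 / (k : ℝ) - γ) * ((1 - β) * (Fintype.card V : ℝ)) ≤
          (1 / (k : ℝ) - γ) * W.card := mul_le_mul_of_nonneg_left hW hc
      refine le_trans ?_ (h3.trans h1)
      have h4 : (1 / (k : ℝ) - γ) * β * (Fintype.card V : ℝ) ≤
          ((k : ℝ) + 1) * β * (Fintype.card V : ℝ) := by
        apply mul_le_mul_of_nonneg_right _ hn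
        apply mul_le_mul_of_nonneg_right _ hβ
        linarith
      nlinarith
    · have h5 : (1 / (k : ℝ) - (γ + (k + 1) * β)) * (Fintype.card V : ℝ) ≤ 0 := by
        apply mul_nonpos_of_nonpos_of_nonneg _ hn
        have : 0 ≤ ((k : ℝ) + 1) * β := by positivity
        push Not at hc
        linarith
      exact h5.trans (by positivity)
  · have h6 : (cnt (fun f : Fin k → V => EdgeF K f ∧ ∃ a b, a ≠ b ∧
        f a ∈ Y'.map (Function.Embedding.subtype _) ∧
        f b ∈ Y'.map (Function.Embedding.subtype _)) : ℝ) ≤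
        (cnt (fun f : Fin k → V => ∃ i, f i ∉ W) : ℝ) +
        (cnt (fun f : Fin k → {v // v ∈ W} => EdgeF (rst K W) f ∧
          ∃ a b, a ≠ b ∧ f a ∈ Y' ∧ f b ∈ Y') : ℝ) := by
      have h7 : cnt (fun f : Fin k → V => (∀ i, f i ∈ W) ∧ EdgeF K f ∧ ∃ a b, a ≠ b ∧
          f a ∈ Y'.map (Function.Embedding.subtype _) ∧
          f b ∈ Y'.map (Function.Embedding.subtype _)) ≤
          cnt (fun f : Fin k → {v // v ∈ W} => EdgeF (rst K W) f ∧
            ∃ a b, a ≠ b ∧ f a ∈ Y' ∧ f b ∈ Y') := by
        rw [cnt_eq, cnt_eq]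
        refine Finset.card_le_card_of_surjOn (fun f => fun i => (f i).1) ?_
        intro f hf
        simp only [Finset.coe_filter, Finset.mem_univ, true_and, Set.mem_ofPred_eq] at hf
        obtain ⟨hf1, ⟨hf2, hf3⟩, a, b, hab, ha, hb⟩ := hf
        refine ⟨fun i => ⟨f i, hf1 i⟩, ?_, rfl⟩
        simp only [Finset.coe_filter, Finset.mem_univ, true_and, Set.mem_ofPred_eq]
        refine ⟨⟨?_, ?_⟩, a, b, hab, ?_, ?_⟩
        · intro i j hij
          exact hf2 (congrArg Subtype.val hij)
        · show (Finset.univ.image fun i => (⟨f i, hf1 i⟩ : {v // v ∈ W})).map _ ∈ K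
          have : (Finset.univ.image fun i => (⟨f i, hf1 i⟩ : {v // v ∈ W})).map
              (Function.Embedding.subtype _) = Finset.univ.image f := by
            ext x; simp
          rw [this]; exact hf3
        · simpa using (Finset.mem_map.1 ha |> fun ⟨x, hx, hx'⟩ => by
            have : x = ⟨f a, hf1 a⟩ := Subtype.ext hx'
            rw [← this]; exact hx)
        · simpa using (Finset.mem_map.1 hb |> fun ⟨x, hx, hx'⟩ => by
            have : x = ⟨f b, hf1 b⟩ := Subtype.ext hx'
            rw [← this]; exact hx)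
      have h8 : cnt (fun f : Fin k → V => EdgeF K f ∧ ∃ a b, a ≠ b ∧
          f a ∈ Y'.map (Function.Embedding.subtype _) ∧
          f b ∈ Y'.map (Function.Embedding.subtype _)) ≤
          cnt (fun f : Fin k → V => ∃ i, f i ∉ W) +
          cnt (fun f : Fin k → V => (∀ i, f i ∈ W) ∧ EdgeF K f ∧ ∃ a b, a ≠ b ∧
            f a ∈ Y'.map (Function.Embedding.subtype _) ∧
            f b ∈ Y'.map (Function.Embedding.subtype _)) := by
        refine le_trans (cnt_mono ?_) (cnt_or_le _ _)
        intro f hf
        by_cases hall : ∀ i, f i ∈ W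
        · exact Or.inr ⟨hall, hf⟩
        · left; push Not at hall; exact hall
      exact_mod_cast h8.trans (Nat.add_le_add_left h7 _)
    refine h6.trans ?_
    have h9 := cnt_outside k W hW
    rw [hcW] at h2
    have h10 : (W.card : ℝ) ^ k ≤ (Fintype.card V : ℝ) ^ k :=
      pow_le_pow_left₀ (by positivity) hWn k
    have h11 : γ * (W.card : ℝ) ^ k ≤ γ * (Fintype.card V : ℝ) ^ k :=
      mul_le_mul_of_nonneg_left h10 hγ
    have h12 : (0 : ℝ) ≤ β * (Fintype.card V : ℝ) ^ k := by positivity
    nlinarith

/-! ### absorbers -/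

omit [Fintype V] in
private theorem edgeL_perm' {K : Set (Finset V)} {l m : List V} (h : EdgeL K l)
    (hp : l.Perm m) : EdgeL K m := by
  refine ⟨(hp.nodup_iff).1 h.1, ?_⟩
  rw [← List.toFinset_eq_of_perm _ _ hp]; exact h.2

omit [Fintype V] in
private theorem edgeL_sublist {K : Set (Finset V)} (hK : ∀ s ∈ K, ∀ t ⊆ s, t ∈ K)
    {l m : List V} (h : EdgeL K l) (hp : m.Sublist l) : EdgeL K m := by
  refine ⟨h.1.sublist hp, hK _ h.2 _ ?_⟩
  intro x hx
  rw [List.mem_toFinset] at hx ⊢
  exact hp.subset hx

omit [Fintype V] in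
private theorem edgeL_concat {K : Set (Finset V)} {l : List V} {u : V} (h : EdgeL K l)
    (hu : nb K l.toFinset u) : EdgeL K (l ++ [u]) := by
  obtain ⟨h1, h2⟩ := hu
  rw [List.mem_toFinset] at h1
  have h3 : EdgeL K (u :: l) := by
    refine ⟨List.nodup_cons.2 ⟨h1, h.1⟩, ?_⟩
    rw [List.toFinset_cons]; exact h2
  exact edgeL_perm' h3 (List.perm_append_singleton u l).symm

/-- invariant for the sequential choice of absorbers -/
private def AbsInv (K : Set (Finset V)) (k : ℕ) (v : V) (l : List V) : Prop :=
  (∀ w : List V, w <:+: l → w.length ≤ k → EdgeL K w) ∧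
  (∀ w : List V, w <:+: l → w.length + 1 ≤ k → EdgeL K (v :: w))

omit [Fintype V] [DecidableEq V] in
/-- an infix of `l ++ [u]` is an infix of `l` or a suffix -/
private theorem infix_concat {l w : List V} {u : V} (h : w <:+: l ++ [u]) :
    w <:+: l ∨ w <:+ l ++ [u] := by
  obtain ⟨s, t, hst⟩ := h
  rcases List.eq_nil_or_concat t with ht | ⟨t', b, ht⟩
  · right
    subst ht
    exact ⟨s, by simpa using hst⟩
  · left
    subst ht
    have : (s ++ w ++ t') ++ [b] = l ++ [u] := by simpa using hst
    have h2 := List.append_inj_left' this (by simp)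
    exact ⟨s, t', h2⟩

omit [Fintype V] [DecidableEq V] in
/-- a nonempty suffix of `l ++ [u]` of length at most `j+1` is a sublist of the last `j`
entries of `l` followed by `u` -/
private theorem suffix_concat {l w : List V} {u : V} {j : ℕ} (h : w <:+ l ++ [u])
    (hw : w.length ≤ j + 1) : w.Sublist (l.drop (l.length - j) ++ [u]) := by
  have h1 : w <:+ l.drop (l.length - j) ++ [u] := by
    have h2 : l.drop (l.length - j) ++ [u] <:+ l ++ [u] := by
      refine ⟨l.take (l.length - j), ?_⟩
      rw [← List.append_assoc, List.take_append_drop]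
    apply List.suffix_of_suffix_length_le h h2
    simp only [List.length_append, List.length_drop, List.length_cons, List.length_nil]
    have := h.length_le
    simp only [List.length_append, List.length_cons, List.length_nil] at this
    omega
  exact h1.sublist

private theorem absInv_step {K : Set (Finset V)} {k : ℕ} {D : ℝ} (hk : 2 ≤ k) (h : Cx K k D)
    (hD : 2 / 3 * (Fintype.card V : ℝ) ≤ D) (v : V) (l : List V)
    (hl : AbsInv K k v l) :
    1 / 3 * (Fintype.card V : ℝ) ≤ (cnt (fun u => AbsInv K k v (l ++ [u])) : ℝ) := by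
  classical
  set s₀ := l.drop (l.length - (k - 1)) with hs₀
  set s₁ := l.drop (l.length - (k - 2)) with hs₁
  have e0 : EdgeL K s₀ := hl.1 s₀ (List.drop_suffix _ _).isInfix (by
    rw [hs₀, List.length_drop]; omega)
  have e1 : EdgeL K (v :: s₁) := hl.2 s₁ (List.drop_suffix _ _).isInfix (by
    rw [hs₁, List.length_drop]; omega)
  have c0 : s₀.toFinset.card < k := by
    have := List.toFinset_card_le s₀
    rw [hs₀, List.length_drop] at this
    rw [hs₀]
    omega
  have c1 : (v :: s₁).toFinset.card < k := by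
    have := List.toFinset_card_le (v :: s₁)
    rw [List.length_cons, hs₁, List.length_drop] at this
    rw [hs₁]
    omega
  have d0 := h.deg _ e0.2 c0
  have d1 := h.deg _ e1.2 c1
  have d2 := cnt_and_ge (nb K s₀.toFinset) (nb K (v :: s₁).toFinset)
  have d3 : cnt (fun u => nb K s₀.toFinset u ∧ nb K (v :: s₁).toFinset u) ≤
      cnt (fun u => AbsInv K k v (l ++ [u])) := by
    apply cnt_mono
    intro u hu
    obtain ⟨hu0, hu1⟩ := hu
    have f0 := edgeL_concat e0 hu0
    have f1 := edgeL_concat e1 hu1
    constructor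
    · intro w hw hlen
      rcases infix_concat hw with hw' | hw'
      · exact hl.1 w hw' hlen
      · exact edgeL_sublist h.down f0 (suffix_concat hw' (by omega))
    · intro w hw hlen
      rcases infix_concat hw with hw' | hw'
      · exact hl.2 w hw' hlen
      · apply edgeL_sublist h.down f1
        show (v :: w).Sublist (v :: (s₁ ++ [u]))
        exact (suffix_concat hw' (by omega)).cons_cons v
  have d3' : (cnt (fun u => nb K s₀.toFinset u ∧ nb K (v :: s₁).toFinset u) : ℝ) ≤
      cnt (fun u => AbsInv K k v (l ++ [u])) := by exact_mod_cast d3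
  linarith

omit [Fintype V] in
private theorem absInv_absorbs {K : Set (Finset V)} {k : ℕ} (hk : 2 ≤ k) (v : V) (l : List V)
    (hl : AbsInv K k v l) (hlen : l.length = 2 * k - 2) : Absorbs K k v l := by
  refine ⟨fun w hw hwl => hl.1 w hw (by omega), ?_⟩
  intro w hw hwl
  obtain ⟨s, t, hst⟩ := hw
  have hL : (s ++ w ++ t).length = 2 * k - 1 := by
    rw [hst]
    simp only [List.length_append, List.length_cons, List.length_take, List.length_drop]
    omega
  simp only [List.length_append] at hL
  have hw1 : w = ((l.take (k - 1) ++ v :: l.drop (k - 1)).drop s.length).take k := by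
    rw [← hst, List.append_assoc, List.drop_left, ← hwl, List.take_left]
  have hA : (l.take (k - 1)).length = k - 1 := by rw [List.length_take]; omega
  rw [List.drop_append_of_le_length (by omega)] at hw1
  have hA2 : ((l.take (k - 1)).drop s.length).length = k - 1 - s.length := by
    rw [List.length_drop, hA]
  have hk2 : k = ((l.take (k - 1)).drop s.length).length + (s.length + 1) := by
    rw [hA2]; omega
  have hw2 : w = (l.take (k - 1)).drop s.length ++ v :: (l.drop (k - 1)).take s.length := by
    have key : ∀ (A B : List V) (j n : ℕ), n = A.length + (j + 1) →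
        (A ++ v :: B).take n = A ++ v :: B.take j := by
      intro A B j n hn
      rw [hn, List.take_length_add_append, List.take_succ_cons]
    rw [hw1]
    exact key _ _ _ _ hk2
  have hp : w.Perm (v :: ((l.take (k - 1)).drop s.length ++ (l.drop (k - 1)).take s.length)) := by
    rw [hw2]; exact List.perm_middle
  refine edgeL_perm' (hl.2 _ ?_ ?_) hp.symm
  · refine ⟨(l.take (k - 1)).take s.length, (l.drop (k - 1)).drop s.length, ?_⟩
    rw [← List.append_assoc, List.take_append_drop, List.append_assoc, List.take_append_drop,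
      List.take_append_drop]
  · rw [List.length_append, hA2, List.length_take, List.length_drop]
    omega

/-- every vertex has many absorbers -/
theorem absorbers (k : ℕ) (hk : 2 ≤ k) : ∃ c > (0 : ℝ),
    ∀ (V : Type) [Fintype V] [DecidableEq V] (K : Set (Finset V)) (D : ℝ), Cx K k D →
      2 / 3 * (Fintype.card V : ℝ) ≤ D → ∀ v : V, {v} ∈ K →
      c * (Fintype.card V : ℝ) ^ (2 * k - 2) ≤
        (cnt (fun x : Fin (2 * k - 2) → V => Absorbs K k v (List.ofFn x)) : ℝ) := by
  refine ⟨(1 / 3) ^ (2 * k - 2), by positivity, ?_⟩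
  intro V _ _ K D h hD v hv
  have h1 := tree_count' (1 / 3 * (Fintype.card V : ℝ)) (by positivity) (2 * k - 2)
    (AbsInv K k v) ⟨?_, ?_⟩ (fun l hl _ => absInv_step hk h hD v l hl)
  · rw [mul_pow] at h1
    refine h1.trans ?_
    have : cnt (fun f : Fin (2 * k - 2) → V => AbsInv K k v (List.ofFn f)) ≤
        cnt (fun x : Fin (2 * k - 2) → V => Absorbs K k v (List.ofFn x)) :=
      cnt_mono fun f hf => absInv_absorbs hk v _ hf (by simp)
    exact_mod_cast this
  · intro w hw _
    rw [List.infix_nil] at hw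
    subst hw
    exact ⟨List.nodup_nil, by simpa using h.empty⟩
  · intro w hw _
    rw [List.infix_nil] at hw
    subst hw
    exact ⟨by simp, by simpa using hv⟩

end Pool.Agent.THC
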