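import Pool.Agent.Lib.MP_5c6f2e_co.Defs

/-!
# P8: stability of the fractional cover argument
-/

set_option autoImplicit false

namespace Pool.Agent.THC

open Finset

/-! ## elementary counting -/

private theorem cnt_real {α : Type*} [Fintype α] (P : α → Prop) [DecidablePred P] :
    (cnt P : ℝ) = ∑ a, if P a then (1 : ℝ) else 0 := by
  rw [cnt_eq, Finset.card_filter]; push_cast; rfl

private theorem dual_tree_count {V : Type*} [Fintype V] (d : ℝ) (hd : 0 ≤ d) (P : List V → Prop)
    (h0 : P []) : ∀ r : ℕ,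
    (∀ l : List V, P l → l.length < r → d ≤ (cnt (fun v => P (v :: l)) : ℝ)) →
    d ^ r ≤ (cnt (fun f : Fin r → V => P (List.ofFn f)) : ℝ) := by
  classical
  intro r
  induction r with
  | zero =>
    intro _
    have : cnt (fun f : Fin 0 → V => P (List.ofFn f)) = 1 := by
      rw [cnt_eq]
      simp [h0]
    rw [this]; simp
  | succ r ih =>
    intro hs
    have ih' := ih (fun l hl hlen => hs l hl (by omega))
    have key : (cnt (fun f : Fin (r + 1) → V => P (List.ofFn f)) : ℝ) =
        ∑ g : Fin r → V, (cnt (fun v => P (v :: List.ofFn g)) : ℝ) := by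
      rw [cnt_real]
      rw [← (Fin.consEquiv (fun _ : Fin (r + 1) => V)).sum_comp]
      rw [Fintype.sum_prod_type_right]
      refine Finset.sum_congr rfl (fun g _ => ?_)
      rw [cnt_real]
      refine Finset.sum_congr rfl (fun v _ => ?_)
      have : List.ofFn ((Fin.consEquiv (fun _ : Fin (r + 1) => V)) (v, g)) = v :: List.ofFn g := by
        simp [Fin.consEquiv, List.ofFn_succ]
      rw [this]
    rw [key]
    calc d ^ (r + 1) = d ^ r * d := pow_succ _ _
      _ ≤ (cnt (fun f : Fin r → V => P (List.ofFn f)) : ℝ) * d := mul_le_mul_of_nonneg_right ih' hd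
      _ = ∑ g : Fin r → V, (if P (List.ofFn g) then (1 : ℝ) else 0) * d := by
          rw [cnt_real, Finset.sum_mul]
      _ ≤ _ := by
          refine Finset.sum_le_sum (fun g _ => ?_)
          split_ifs with h
          · rw [one_mul]; exact hs _ h (by simp)
          · rw [zero_mul]; positivity

private theorem cnt_entry {V : Type*} [Fintype V] [DecidableEq V] (k : ℕ) (B : Finset V) :
    (cnt (fun f : Fin k → V => ∃ i, f i ∈ B) : ℝ) ≤
      k * B.card * (Fintype.card V : ℝ) ^ (k - 1) := by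
  classical
  rw [cnt_eq]
  have h1 : (Finset.univ.filter (fun f : Fin k → V => ∃ i, f i ∈ B)) ⊆
      Finset.univ.biUnion (fun i : Fin k =>
        Fintype.piFinset (fun j : Fin k => if j = i then B else Finset.univ)) := by
    intro f hf
    simp only [Finset.mem_filter, Finset.mem_univ, true_and] at hf
    obtain ⟨i, hi⟩ := hf
    simp only [Finset.mem_biUnion, Finset.mem_univ, true_and, Fintype.mem_piFinset]
    refine ⟨i, fun j => ?_⟩
    split_ifs with h
    · rw [h]; exact hi
    · exact Finset.mem_univ _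
  have h2 : ∀ i : Fin k, (Fintype.piFinset
      (fun j : Fin k => if j = i then B else (Finset.univ : Finset V))).card =
      B.card * (Fintype.card V) ^ (k - 1) := by
    intro i
    rw [Fintype.card_piFinset]
    rw [← Finset.mul_prod_erase _ _ (Finset.mem_univ i)]
    rw [if_pos rfl]
    congr 1
    rw [Finset.prod_congr rfl (g := fun _ => Fintype.card V)]
    · rw [Finset.prod_const, Finset.card_erase_of_mem (Finset.mem_univ _)]; simp
    · intro j hj
      rw [if_neg (Finset.ne_of_mem_erase hj)]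
      simp
  have h3 := (Finset.card_le_card h1).trans Finset.card_biUnion_le
  rw [Finset.sum_congr rfl (fun i _ => h2 i)] at h3
  simp only [Finset.sum_const, Finset.card_univ, Fintype.card_fin, smul_eq_mul] at h3
  calc ((Finset.univ.filter (fun f : Fin k → V => ∃ i, f i ∈ B)).card : ℝ)
      ≤ ((k * (B.card * (Fintype.card V) ^ (k - 1)) : ℕ) : ℝ) := by exact_mod_cast h3
    _ = _ := by push_cast; ring

/-- the `t`-th smallest value -/
private theorem exists_val {V : Type*} [DecidableEq V] (N : Finset V) (w : V → ℝ)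
    (hw : ∀ v, 0 ≤ w v) (t : ℕ) (ht : 1 ≤ t) (hN : t ≤ N.card) :
    ∃ a : ℝ, 0 ≤ a ∧ t ≤ (N.filter (fun v => w v ≤ a)).card ∧
      (N.filter (fun v => w v < a)).card < t := by
  classical
  have hne : N.Nonempty := Finset.card_pos.1 (by omega)
  obtain ⟨m, hm, hmax⟩ := Finset.exists_max_image N w hne
  let T := (N.image w).filter (fun x => t ≤ (N.filter (fun v => w v ≤ x)).card)
  have hT : T.Nonempty := by
    refine ⟨w m, ?_⟩
    simp only [T, Finset.mem_filter, Finset.mem_image]
    refine ⟨⟨m, hm, rfl⟩, ?_⟩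
    rw [Finset.filter_true_of_mem (fun v hv => hmax v hv)]
    exact hN
  obtain ⟨a, haT, hmin⟩ := Finset.exists_min_image T id hT
  simp only [T, Finset.mem_filter, Finset.mem_image] at haT
  obtain ⟨⟨v0, hv0, rfl⟩, hcount⟩ := haT
  refine ⟨w v0, hw v0, hcount, ?_⟩
  by_contra hcon
  push Not at hcon
  set M := N.filter (fun v => w v < w v0) with hM
  have hMne : M.Nonempty := Finset.card_pos.1 (by omega)
  obtain ⟨m1, hm1, hmax1⟩ := Finset.exists_max_image M w hMne
  have hm1' : m1 ∈ N ∧ w m1 < w v0 := by simpa [hM] using hm1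
  have : w m1 ∈ T := by
    simp only [T, Finset.mem_filter, Finset.mem_image]
    refine ⟨⟨m1, hm1'.1, rfl⟩, hcon.trans (Finset.card_le_card ?_)⟩
    intro v hv
    have hv' : v ∈ N := (Finset.mem_filter.1 hv).1
    exact Finset.mem_filter.2 ⟨hv', hmax1 v hv⟩
  have := hmin _ this
  simp only [id] at this
  linarith [hm1'.2]

section seq

variable {V : Type} [Fintype V] [DecidableEq V]

open Classical in
/-- the threshold attached to a list -/
private noncomputable def aval (K : Set (Finset V)) (w : V → ℝ) (t : ℕ) (l : List V) : ℝ :=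
  if h : ∃ a : ℝ, 0 ≤ a ∧ t ≤ cnt (fun v => nb K l.toFinset v ∧ w v ≤ a) ∧
      cnt (fun v => nb K l.toFinset v ∧ w v < a) < t then h.choose else 0

private theorem aval_spec (K : Set (Finset V)) (w : V → ℝ) (hw : ∀ v, 0 ≤ w v) (t : ℕ)
    (ht : 1 ≤ t) (l : List V) (hN : t ≤ cnt (nb K l.toFinset)) :
    0 ≤ aval K w t l ∧ t ≤ cnt (fun v => nb K l.toFinset v ∧ w v ≤ aval K w t l) ∧
      cnt (fun v => nb K l.toFinset v ∧ w v < aval K w t l) < t := by
  classical
  have h : ∃ a : ℝ, 0 ≤ a ∧ t ≤ cnt (fun v => nb K l.toFinset v ∧ w v ≤ a) ∧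
      cnt (fun v => nb K l.toFinset v ∧ w v < a) < t := by
    obtain ⟨a, h0, h1, h2⟩ := exists_val (Finset.univ.filter (nb K l.toFinset)) w hw t ht
      (by rw [← cnt_eq]; exact hN)
    refine ⟨a, h0, ?_, ?_⟩
    · rw [cnt_eq]; rw [Finset.filter_filter] at h1; exact h1
    · rw [cnt_eq]; rw [Finset.filter_filter] at h2; exact h2
  unfold aval
  rw [dif_pos h]
  exact h.choose_spec

/-- lists built greedily -/
private def Gr (K : Set (Finset V)) (w : V → ℝ) (t : ℕ) : List V → Prop
  | [] => True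
  | v :: l => Gr K w t l ∧ nb K l.toFinset v ∧ w v ≤ aval K w t l

private theorem Gr.edge {K : Set (Finset V)} {w : V → ℝ} {t : ℕ} (hK : ∅ ∈ K) :
    ∀ {l : List V}, Gr K w t l → EdgeL K l
  | [], _ => ⟨List.nodup_nil, by simpa using hK⟩
  | v :: l, h => by
    obtain ⟨h1, h2, _⟩ := h
    obtain ⟨hn, hm⟩ := Gr.edge hK h1
    refine ⟨List.nodup_cons.2 ⟨?_, hn⟩, ?_⟩
    · have := h2.1
      simpa using this
    · rw [List.toFinset_cons]; exact h2.2

private theorem aval_mono {K : Set (Finset V)} {k : ℕ} {D : ℝ} (hK : Cx K k D) (w : V → ℝ)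
    (hw : ∀ v, 0 ≤ w v) (t : ℕ) (ht : 1 ≤ t) (htD : (t : ℝ) ≤ D) (v : V) (l : List V)
    (h : EdgeL K (v :: l)) (hl : (v :: l).length < k) :
    aval K w t l ≤ aval K w t (v :: l) := by
  have hin : (v :: l).toFinset ∈ K := h.2
  have hin' : l.toFinset ∈ K := hK.down _ hin _ (by
    intro x hx; rw [List.mem_toFinset] at hx ⊢; exact List.mem_cons_of_mem _ hx)
  have hc1 : ((v :: l).toFinset).card < k := by
    rw [List.toFinset_card_of_nodup h.1]; exact hl
  have hc2 : (l.toFinset).card < k := by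
    rw [List.toFinset_card_of_nodup (List.nodup_cons.1 h.1).2]
    simp only [List.length_cons] at hl; omega
  have hd1 : t ≤ cnt (nb K (v :: l).toFinset) := by
    have := htD.trans (hK.deg _ hin hc1); exact_mod_cast this
  have hd2 : t ≤ cnt (nb K l.toFinset) := by
    have := htD.trans (hK.deg _ hin' hc2); exact_mod_cast this
  have s1 := aval_spec K w hw t ht (v :: l) hd1
  have s2 := aval_spec K w hw t ht l hd2
  by_contra hcon
  push Not at hcon
  have : cnt (fun u => nb K (v :: l).toFinset u ∧ w u ≤ aval K w t (v :: l)) ≤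
      cnt (fun u => nb K l.toFinset u ∧ w u < aval K w t l) := by
    refine cnt_mono (fun u hu => ⟨⟨?_, ?_⟩, lt_of_le_of_lt hu.2 hcon⟩)
    · intro hx
      apply hu.1.1
      rw [List.mem_toFinset] at hx ⊢; exact List.mem_cons_of_mem _ hx
    · refine hK.down _ hu.1.2 _ (Finset.insert_subset_insert _ ?_)
      intro x hx; rw [List.mem_toFinset] at hx ⊢; exact List.mem_cons_of_mem _ hx
  omega

private theorem Gr.sum_le {K : Set (Finset V)} {k : ℕ} {D : ℝ} (hK : Cx K k D) (w : V → ℝ)
    (hw : ∀ v, 0 ≤ w v) (t : ℕ) (ht : 1 ≤ t) (htD : (t : ℝ) ≤ D) :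
    ∀ (l : List V) (v : V), Gr K w t (v :: l) → (v :: l).length ≤ k →
      ((v :: l).map w).sum ≤ aval K w t [] + l.length * aval K w t l
  | [], v, h, _ => by
    have := h.2.2
    simpa using this
  | u :: l, v, h, hlen => by
    have h1 : Gr K w t (u :: l) := h.1
    have hrec := Gr.sum_le hK w hw t ht htD l u h1 (by
      simp only [List.length_cons] at hlen ⊢; omega)
    have hm := aval_mono hK w hw t ht htD u l (h1.edge hK.empty) (by
      simp only [List.length_cons] at hlen ⊢; omega)
    have h3 := h.2.2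
    have hlp : (0 : ℝ) ≤ (l.length : ℝ) := Nat.cast_nonneg _
    have h4 : (l.length : ℝ) * aval K w t l ≤ l.length * aval K w t (u :: l) :=
      mul_le_mul_of_nonneg_left hm hlp
    rw [List.map_cons, List.sum_cons]
    simp only [List.length_cons] at hrec ⊢
    push_cast
    nlinarith [hrec, h3, h4]

private theorem aval_nil_le {K : Set (Finset V)} {k : ℕ} {D : ℝ} (hK : Cx K k D) (w : V → ℝ)
    (hw : ∀ v, 0 ≤ w v) (t : ℕ) (ht : 1 ≤ t) (htD : (t : ℝ) ≤ D) :
    ∀ (l : List V), Gr K w t l → l.length < k → aval K w t [] ≤ aval K w t l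
  | [], _, _ => le_refl _
  | u :: l, h, hlen => by
    have h1 := aval_nil_le hK w hw t ht htD l h.1 (by
      simp only [List.length_cons] at hlen; omega)
    exact h1.trans (aval_mono hK w hw t ht htD u l (h.edge hK.empty) hlen)

end seq

/-- the core inequality: a set `G` of large weights and a near-extremal structure -/
theorem robust_dual (k : ℕ) (hk : 3 ≤ k) (γ : ℝ) (hγ : 0 < γ) : ∃ β > (0 : ℝ),
    ∀ ε > (0 : ℝ), ∃ c > (0 : ℝ), ∃ n₀ : ℕ,
    ∀ (V : Type) [Fintype V] [DecidableEq V], n₀ ≤ Fintype.card V → ∀ K : Set (Finset V),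
      Cx K k ((1 - 1 / (k : ℝ) - β) * (Fintype.card V : ℝ)) → (∀ v, {v} ∈ K) →
      ¬ NearExt K k γ →
      ∀ w : V → ℝ, (∀ v, 0 ≤ w v) →
      c * (Fintype.card V : ℝ) ^ k ≤ (cnt (fun f : Fin k → V => EdgeF K f ∧
        ∑ i, w (f i) ≤ (1 + ε) * (k / Fintype.card V) * ∑ v, w v) : ℝ) := by
  classical
  have hk0 : (3 : ℝ) ≤ k := by exact_mod_cast hk
  have hkpos : (0 : ℝ) < k := by linarith
  refine ⟨min (1 / (4 * k)) (γ / (10 * k ^ 2)), by positivity, ?_⟩
  set β : ℝ := min (1 / (4 * k)) (γ / (10 * k ^ 2)) with hβ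
  have hβpos : 0 < β := by rw [hβ]; positivity
  have hβ1 : β ≤ 1 / (4 * k) := min_le_left _ _
  have hβ2 : β ≤ γ / (10 * k ^ 2) := min_le_right _ _
  have hkβ : k * β ≤ 1 / 4 := by
    have := mul_le_mul_of_nonneg_left hβ1 hkpos.le
    calc k * β ≤ k * (1 / (4 * k)) := this
      _ = 1 / 4 := by field_simp
  have hk2β : 10 * k ^ 2 * β ≤ γ := by
    have := mul_le_mul_of_nonneg_left hβ2 (show (0:ℝ) ≤ 10 * k ^ 2 by positivity)
    calc 10 * k ^ 2 * β ≤ 10 * k ^ 2 * (γ / (10 * k ^ 2)) := this
      _ = γ := by field_simp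
  have hkkβ : β * k ≤ β * (k * k) := mul_le_mul_of_nonneg_left (by nlinarith) hβpos.le
  have hβk : β ≤ β * k := le_mul_of_one_le_right hβpos.le (by linarith)
  have hγ6 : (k : ℝ) * (β + 4 * k * β) ≤ γ / 2 := by linarith
  have hγ5 : β + 4 * k * β ≤ γ := by linarith
  intro ε hε
  set κ : ℝ := min (min β (ε / (1 + ε))) γ / 2 with hκ
  have hκpos : 0 < κ := by rw [hκ]; positivity
  have hκ1 : 2 * κ ≤ β := by
    rw [hκ]; have := min_le_left (min β (ε / (1 + ε))) γ
    have h2 := min_le_left β (ε / (1 + ε)); linarith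
  have hκ2 : 2 * κ ≤ ε / (1 + ε) := by
    rw [hκ]; have := min_le_left (min β (ε / (1 + ε))) γ
    have h2 := min_le_right β (ε / (1 + ε)); linarith
  have hκ3 : 2 * κ ≤ γ := by
    rw [hκ]; have := min_le_right (min β (ε / (1 + ε))) γ; linarith
  have hκle1 : κ ≤ 1 := by
    have : β ≤ 1 := hβ1.trans (by rw [div_le_one (by positivity)]; linarith)
    linarith
  refine ⟨κ ^ k, by positivity, ⌈1 / κ⌉₊ + 1, ?_⟩
  intro V _ _ hn K hK hv hNE w hw
  set n : ℝ := (Fintype.card V : ℝ) with hndef
  have hn1 : 1 / κ ≤ n := by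
    have h1 : ((⌈1 / κ⌉₊ + 1 : ℕ) : ℝ) ≤ n := by rw [hndef]; exact_mod_cast hn
    push_cast at h1
    linarith [Nat.le_ceil (1 / κ)]
  have hnpos : 0 < n := lt_of_lt_of_le (by positivity) hn1
  have hκn : 1 ≤ κ * n := by
    rw [div_le_iff₀ hκpos] at hn1; linarith
  set t : ℕ := ⌈κ * n⌉₊ with ht
  have ht1 : 1 ≤ t := by
    rw [ht, Nat.one_le_ceil_iff]; positivity
  have htge : κ * n ≤ t := Nat.le_ceil _
  have htle : (t : ℝ) ≤ 2 * κ * n := by
    have := (Nat.ceil_lt_add_one (show (0:ℝ) ≤ κ * n by positivity)).le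
    rw [← ht] at this
    linarith
  have htβ : (t : ℝ) ≤ β * n := htle.trans (mul_le_mul_of_nonneg_right hκ1 hnpos.le)
  have htε : (t : ℝ) ≤ ε / (1 + ε) * n := htle.trans (mul_le_mul_of_nonneg_right hκ2 hnpos.le)
  have htD : (t : ℝ) ≤ (1 - 1 / (k : ℝ) - β) * n := by
    refine htβ.trans (mul_le_mul_of_nonneg_right ?_ hnpos.le)
    have h1 : 1 / (k : ℝ) ≤ 1 / 3 := one_div_le_one_div_of_le (by norm_num) hk0
    have h2 : β ≤ 1 / 12 := by
      refine hβ1.trans (one_div_le_one_div_of_le (by norm_num) (by linarith))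
    linarith
  -- suppose few light edges
  by_contra hcon
  push Not at hcon
  set W : ℝ := ∑ v, w v with hW
  have hWn : 0 ≤ W := Finset.sum_nonneg (fun v _ => hw v)
  set θ : ℝ := (1 + ε) * (k / n) * W with hθ
  -- greedy sequences
  have htc := dual_tree_count (V := V) (t : ℝ) (Nat.cast_nonneg _) (Gr K w t) trivial k (by
    intro l hl hlen
    have he := hl.edge hK.empty
    have hc : (l.toFinset).card < k := by
      rw [List.toFinset_card_of_nodup he.1]; exact hlen
    have hd : t ≤ cnt (nb K l.toFinset) := by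
      have := htD.trans (hK.deg _ he.2 hc); exact_mod_cast this
    have hs := (aval_spec K w hw t ht1 l hd).2.1
    have : cnt (fun v => nb K l.toFinset v ∧ w v ≤ aval K w t l) ≤
        cnt (fun v => Gr K w t (v :: l)) := cnt_mono (fun v hv => ⟨hl, hv.1, hv.2⟩)
    exact_mod_cast hs.trans this)
  have hlt : cnt (fun f : Fin k → V => EdgeF K f ∧ ∑ i, w (f i) ≤ θ) <
      cnt (fun f : Fin k → V => Gr K w t (List.ofFn f)) := by
    have h1 : κ ^ k * n ^ k ≤ (t : ℝ) ^ k := by
      rw [← mul_pow]; exact pow_le_pow_left₀ (by positivity) htge k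
    have : (cnt (fun f : Fin k → V => EdgeF K f ∧ ∑ i, w (f i) ≤ θ) : ℝ) <
      (cnt (fun f : Fin k → V => Gr K w t (List.ofFn f)) : ℝ) :=
      lt_of_lt_of_le hcon (h1.trans htc)
    exact_mod_cast this
  have hex : ∃ f : Fin k → V, Gr K w t (List.ofFn f) ∧ θ < ∑ i, w (f i) := by
    by_contra hno
    push Not at hno
    refine absurd (cnt_mono (P := fun f : Fin k → V => Gr K w t (List.ofFn f))
      (Q := fun f : Fin k → V => EdgeF K f ∧ ∑ i, w (f i) ≤ θ) ?_) (not_le.2 hlt)
    intro f hf
    refine ⟨?_, hno f hf⟩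
    have he := hf.edge hK.empty
    refine ⟨List.nodup_ofFn.1 he.1, ?_⟩
    have : (List.ofFn f).toFinset = Finset.univ.image f := by
      ext x; simp
    rw [← this]; exact he.2
  obtain ⟨f, hf, hfθ⟩ := hex
  obtain ⟨v, l, hvl⟩ : ∃ v l, List.ofFn f = v :: l := by
    cases h : List.ofFn f with
    | nil =>
      have := congrArg List.length h
      simp at this; omega
    | cons v l => exact ⟨v, l, rfl⟩
  have hlenl : l.length = k - 1 := by
    have := congrArg List.length hvl
    simp at this; omega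
  rw [hvl] at hf
  have hsum : ∑ i, w (f i) = ((v :: l).map w).sum := by
    rw [← hvl, List.map_ofFn, List.sum_ofFn]; rfl
  set a : ℝ := aval K w t [] with ha
  set A : ℝ := aval K w t l with hA
  have hgl : Gr K w t l := hf.1
  have hel := hgl.edge hK.empty
  have hcl : (l.toFinset).card < k := by
    rw [List.toFinset_card_of_nodup hel.1]; omega
  have hdl : t ≤ cnt (nb K l.toFinset) := by
    have := htD.trans (hK.deg _ hel.2 hcl); exact_mod_cast this
  have hd0 : t ≤ cnt (nb K ([] : List V).toFinset) := by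
    have := htD.trans (hK.deg _ (show ([] : List V).toFinset ∈ K by simpa using hK.empty)
      (by simp; omega)); exact_mod_cast this
  have sA := aval_spec K w hw t ht1 l hdl
  have sa := aval_spec K w hw t ht1 [] hd0
  rw [← hA] at sA
  rw [← ha] at sa
  have haA : a ≤ A := aval_nil_le hK w hw t ht1 htD l hgl (by omega)
  have hmain : θ < a + (k - 1) * A := by
    have h1 := Gr.sum_le hK w hw t ht1 htD l v hf (by simp; omega)
    rw [← hsum, hlenl, ← ha, ← hA] at h1
    have h2 : ((k - 1 : ℕ) : ℝ) = (k : ℝ) - 1 := by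
      rw [Nat.cast_sub (by omega)]; simp
    rw [h2] at h1
    linarith
  -- the sets
  set d : ℝ := A - a with hd
  have hd0' : 0 ≤ d := by rw [hd]; linarith
  have ha0 : 0 ≤ a := sa.1
  set Bad : Finset V := Finset.univ.filter (fun v => w v < a) with hBad
  set R : Finset V := Finset.univ.filter (fun v => ¬ w v < a) with hR
  set G : Finset V := Finset.univ.filter (fun v => nb K l.toFinset v ∧ A ≤ w v) with hG
  have hBadc : (Bad.card : ℝ) ≤ t := by
    have h1 : cnt (fun v => w v < a) ≤ cnt (fun v => nb K ([] : List V).toFinset v ∧ w v < a) := by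
      refine cnt_mono (fun u hu => ⟨⟨by simp, ?_⟩, hu⟩)
      have := hv u
      simpa using this
    have h2 := sa.2.2
    have h3 : cnt (fun v => w v < a) = Bad.card := cnt_eq _
    have : Bad.card ≤ t := by omega
    exact_mod_cast this
  have hRc : n - t ≤ (R.card : ℝ) := by
    have h1 : Bad.card + R.card = Fintype.card V := by
      rw [hBad, hR, Finset.card_filter_add_card_filter_not, Finset.card_univ]
    have h2 : (Bad.card : ℝ) + R.card = n := by rw [hndef]; exact_mod_cast h1
    linarith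
  have hGc : (1 - 1 / (k : ℝ) - β) * n - t ≤ (G.card : ℝ) := by
    have h1 := hK.deg _ hel.2 hcl
    have h2 : cnt (nb K l.toFinset) ≤ cnt (fun v => nb K l.toFinset v ∧ A ≤ w v) +
        cnt (fun v => nb K l.toFinset v ∧ w v < A) := by
      refine le_trans (cnt_mono (fun u hu => ?_)) (cnt_or_le _ _)
      rcases le_or_gt A (w u) with h | h
      · exact Or.inl ⟨hu, h⟩
      · exact Or.inr ⟨hu, h⟩
    have h3 : cnt (fun v => nb K l.toFinset v ∧ A ≤ w v) = G.card := cnt_eq _
    have h4 := sA.2.2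
    have h5 : cnt (nb K l.toFinset) ≤ G.card + t := by omega
    have h6 : (cnt (nb K l.toFinset) : ℝ) ≤ G.card + t := by exact_mod_cast h5
    linarith
  have hGR : G ⊆ R := by
    intro u hu
    rw [hG, Finset.mem_filter] at hu
    rw [hR, Finset.mem_filter]
    exact ⟨hu.1, by linarith [hu.2.2]⟩
  set h : V → ℝ := fun v => w v - a - (if v ∈ G then d else 0) with hh
  have hh0 : ∀ v ∈ R, 0 ≤ h v := by
    intro u hu
    have h1 : a ≤ w u := by
      rw [hR, Finset.mem_filter] at hu; linarith [hu.2]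
    simp only [hh]
    split_ifs with hg
    · rw [hG, Finset.mem_filter] at hg
      linarith [hg.2.2]
    · linarith
  have hsumh : ∑ v ∈ R, h v = ∑ v ∈ R, w v - a * R.card - d * G.card := by
    simp only [hh, Finset.sum_sub_distrib, Finset.sum_const, nsmul_eq_mul]
    rw [← Finset.sum_filter, Finset.filter_mem_eq_inter, Finset.inter_eq_right.2 hGR,
      Finset.sum_const, nsmul_eq_mul]
    ring
  have hRW : ∑ v ∈ R, w v ≤ W :=
    Finset.sum_le_sum_of_subset_of_nonneg (Finset.subset_univ _) (fun v _ _ => hw v)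
  have hkk : (1 : ℝ) - 1 / k = (k - 1) / k := by field_simp
  -- upper bound for `W`
  have hI2 : (1 + ε) * W < n * (a + (1 - 1 / (k : ℝ)) * d) := by
    have h1 : (1 + ε) * (k / n) * W < k * a + (k - 1) * d := by
      have : a + (k - 1) * A = k * a + (k - 1) * d := by rw [hd]; ring
      rw [← this]; exact hmain
    have h2 : (1 + ε) * (k / n) * W = (k / n) * ((1 + ε) * W) := by ring
    rw [h2] at h1
    have h3 : k * a + (k - 1) * d = (k / n) * (n * (a + (1 - 1 / (k : ℝ)) * d)) := by
      field_simp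
    rw [h3] at h1
    exact lt_of_mul_lt_mul_left h1 (by positivity)
  have htε' : (1 + ε) * t ≤ ε * n := by
    have := mul_le_mul_of_nonneg_left htε (show (0:ℝ) ≤ 1 + ε by linarith)
    calc (1 + ε) * t ≤ (1 + ε) * (ε / (1 + ε) * n) := this
      _ = ε * n := by field_simp
  have hat : a * n ≤ (1 + ε) * (a * (n - t)) := by
    have h1 := mul_le_mul_of_nonneg_left htε' ha0
    linarith
  have hk1 : 0 < 1 - 1 / (k : ℝ) := by
    have : 1 / (k : ℝ) ≤ 1 / 3 := one_div_le_one_div_of_le (by norm_num) hk0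
    linarith
  have hI3 : (1 + ε) * ∑ v ∈ R, h v < (1 + ε) * (2 * β * d * n) := by
    rw [hsumh]
    have e1 : a * (n - t) ≤ a * R.card := mul_le_mul_of_nonneg_left hRc ha0
    have e2 : d * ((1 - 1 / (k : ℝ) - β) * n - t) ≤ d * G.card :=
      mul_le_mul_of_nonneg_left hGc hd0'
    have e3 : d * t ≤ d * (β * n) := mul_le_mul_of_nonneg_left htβ hd0'
    have e4 : (1 + ε) * (∑ v ∈ R, w v - a * R.card - d * G.card) ≤
        (1 + ε) * (W - a * (n - t) - d * ((1 - 1 / (k : ℝ) - β) * n - β * n)) := by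
      refine mul_le_mul_of_nonneg_left ?_ (by linarith)
      linarith
    refine lt_of_le_of_lt e4 ?_
    have e5 : 0 ≤ ε * ((1 - 1 / (k : ℝ)) * d * n) := by positivity
    linarith [hI2, hat, e5]
  have hI3' : ∑ v ∈ R, h v < 2 * β * d * n := lt_of_mul_lt_mul_left hI3 (by linarith)
  have hS0 : 0 ≤ ∑ v ∈ R, h v := Finset.sum_nonneg hh0
  have hdpos : 0 < d := by
    rcases hd0'.lt_or_eq with h1 | h1
    · exact h1
    · rw [← h1] at hI3'; simp at hI3'; linarith
  have hGle : (G.card : ℝ) ≤ (1 - 1 / (k : ℝ)) * n := by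
    have e1 : a * (n - t) ≤ a * R.card := mul_le_mul_of_nonneg_left hRc ha0
    have e2 : d * G.card ≤ W - a * (n - t) := by
      rw [hsumh] at hS0; linarith
    have e3 : (1 + ε) * (d * G.card) ≤ (1 + ε) * (d * ((1 - 1 / (k : ℝ)) * n)) := by
      have e5 : 0 ≤ ε * ((1 - 1 / (k : ℝ)) * d * n) := by positivity
      have e6 : (1 + ε) * (d * G.card) ≤ (1 + ε) * (W - a * (n - t)) :=
        mul_le_mul_of_nonneg_left e2 (by linarith)
      linarith [hI2, hat, e5, e6]
    have e4 : d * G.card ≤ d * ((1 - 1 / (k : ℝ)) * n) := le_of_mul_le_mul_left e3 (by linarith)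
    exact le_of_mul_le_mul_left e4 hdpos
  set L : Finset V := R.filter (fun v => 1 / (2 * k) * d < h v) with hL
  have hLc : (L.card : ℝ) ≤ 4 * k * β * n := by
    have e1 : ∑ _v ∈ L, (1 / (2 * k) * d : ℝ) ≤ ∑ v ∈ L, h v :=
      Finset.sum_le_sum (fun v hv => (Finset.mem_filter.1 hv).2.le)
    have e2 : ∑ v ∈ L, h v ≤ ∑ v ∈ R, h v :=
      Finset.sum_le_sum_of_subset_of_nonneg (Finset.filter_subset _ _) (fun v hv _ => hh0 v hv)
    rw [Finset.sum_const, nsmul_eq_mul] at e1
    have e3 : (L.card : ℝ) * (1 / (2 * k) * d) ≤ (4 * k * β * n) * (1 / (2 * k) * d) := by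
      have : (4 * k * β * n) * (1 / (2 * k) * d) = 2 * β * d * n := by field_simp; ring
      rw [this]; linarith
    exact le_of_mul_le_mul_right e3 (by positivity)
  set Y : Finset V := Finset.univ.filter (fun v => v ∉ Bad ∪ L ∧ v ∉ G) with hY
  -- lower bound for `θ`
  have hI6 : k * a + d * (k - 1 - 2 * (k * β)) ≤ θ := by
    have e0 : a * R.card + d * G.card ≤ W := by
      rw [hsumh] at hS0; linarith
    have e1 : a * (n - t) ≤ a * R.card := mul_le_mul_of_nonneg_left hRc ha0
    have e2 : d * ((1 - 1 / (k : ℝ) - β) * n - t) ≤ d * G.card :=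
      mul_le_mul_of_nonneg_left hGc hd0'
    have e3 : d * t ≤ d * (β * n) := mul_le_mul_of_nonneg_left htβ hd0'
    have e4 : 0 ≤ d * ((1 - 1 / (k : ℝ) - 2 * β) * n) := by
      have : 0 ≤ 1 - 1 / (k : ℝ) - 2 * β := by
        have h1 : 1 / (k : ℝ) ≤ 1 / 3 := one_div_le_one_div_of_le (by norm_num) hk0
        have h2 : β ≤ 1 / 12 := by
          refine hβ1.trans (one_div_le_one_div_of_le (by norm_num) (by linarith))
        linarith
      positivity
    have e5 : a * n + d * ((1 - 1 / (k : ℝ) - 2 * β) * n) ≤ (1 + ε) * W := by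
      have f1 : a * (n - t) + d * ((1 - 1 / (k : ℝ) - 2 * β) * n) ≤ W := by linarith
      have f2 : (1 + ε) * (a * (n - t) + d * ((1 - 1 / (k : ℝ) - 2 * β) * n)) ≤ (1 + ε) * W :=
        mul_le_mul_of_nonneg_left f1 (by linarith)
      have f3 : 0 ≤ ε * (d * ((1 - 1 / (k : ℝ) - 2 * β) * n)) := by positivity
      linarith
    have e6 : (k / n) * (a * n + d * ((1 - 1 / (k : ℝ) - 2 * β) * n)) ≤ (k / n) * ((1 + ε) * W) :=
      mul_le_mul_of_nonneg_left e5 (by positivity)
    have e7 : (k / n) * (a * n + d * ((1 - 1 / (k : ℝ) - 2 * β) * n)) =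
        k * a + d * (k - 1 - 2 * (k * β)) := by
      field_simp
    rw [e7] at e6
    calc _ ≤ (k / n) * ((1 + ε) * W) := e6
      _ = θ := by rw [hθ]; ring
  apply hNE
  refine ⟨Y, ?_, ?_⟩
  · -- size of `Y`
    have e1 : Fintype.card V ≤ Y.card + (Bad.card + L.card + G.card) := by
      have : (Finset.univ : Finset V) ⊆ Y ∪ (Bad ∪ L ∪ G) := by
        intro u _
        by_cases h1 : u ∈ Bad ∪ L
        · exact Finset.mem_union_right _ (Finset.mem_union_left _ h1)
        · by_cases h2 : u ∈ G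
          · exact Finset.mem_union_right _ (Finset.mem_union_right _ h2)
          · exact Finset.mem_union_left _ (by rw [hY, Finset.mem_filter]; exact ⟨Finset.mem_univ _, h1, h2⟩)
      have h1 := Finset.card_le_card this
      rw [Finset.card_univ] at h1
      have h2 := Finset.card_union_le Y (Bad ∪ L ∪ G)
      have h3 := Finset.card_union_le (Bad ∪ L) G
      have h4 := Finset.card_union_le Bad L
      omega
    have e2 : n ≤ Y.card + (Bad.card + L.card + G.card) := by rw [hndef]; exact_mod_cast e1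
    have e3 : β + 4 * k * β ≤ γ := hγ5
    have e4 : (β + 4 * k * β) * n ≤ γ * n := mul_le_mul_of_nonneg_right e3 hnpos.le
    linarith
  · -- few edges with two entries in `Y`
    have hsub : cnt (fun f : Fin k → V => EdgeF K f ∧ ∃ a b, a ≠ b ∧ f a ∈ Y ∧ f b ∈ Y) ≤
        cnt (fun f : Fin k → V => EdgeF K f ∧ ∑ i, w (f i) ≤ θ) +
        cnt (fun f : Fin k → V => ∃ i, f i ∈ Bad ∪ L) := by
      refine le_trans (cnt_mono (fun g hg => ?_)) (cnt_or_le _ _)
      by_cases hB : ∃ i, g i ∈ Bad ∪ L
      · exact Or.inr hB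
      · left
        push Not at hB
        refine ⟨hg.1, ?_⟩
        obtain ⟨_, p, q, hpq, hp, hq⟩ := hg
        rw [hY, Finset.mem_filter] at hp hq
        have hbd : ∀ i, w (g i) ≤ a + 1 / (2 * k) * d + (if g i ∈ G then d else 0) := by
          intro i
          have h1 := hB i
          rw [Finset.mem_union, not_or] at h1
          have h2 : g i ∈ R := by
            rw [hR, Finset.mem_filter]
            refine ⟨Finset.mem_univ _, fun h3 => h1.1 ?_⟩
            rw [hBad, Finset.mem_filter]; exact ⟨Finset.mem_univ _, h3⟩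
          have h3 : ¬ (1 / (2 * k) * d < h (g i)) := fun h4 => h1.2 (by
            rw [hL, Finset.mem_filter]; exact ⟨h2, h4⟩)
          push Not at h3
          simp only [hh] at h3
          linarith
        have hG2 : ∑ i, (if g i ∈ G then d else 0) ≤ (k - 2) * d := by
          have h1 : ∑ i, (if g i ∈ G then d else 0) =
              ∑ i ∈ (Finset.univ.erase p).erase q, (if g i ∈ G then d else 0) := by
            rw [← Finset.add_sum_erase _ _ (Finset.mem_univ p), if_neg hp.2.2, zero_add]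
            rw [← Finset.add_sum_erase _ _ (Finset.mem_erase.2 ⟨hpq.symm, Finset.mem_univ q⟩),
              if_neg hq.2.2, zero_add]
          rw [h1]
          calc _ ≤ ∑ _i ∈ (Finset.univ.erase p).erase q, d := by
                refine Finset.sum_le_sum (fun i _ => ?_)
                split_ifs
                · exact le_refl _
                · exact hd0'
            _ = (k - 2) * d := by
                rw [Finset.sum_const, nsmul_eq_mul,
                  Finset.card_erase_of_mem (Finset.mem_erase.2 ⟨hpq.symm, Finset.mem_univ q⟩),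
                  Finset.card_erase_of_mem (Finset.mem_univ p), Finset.card_univ,
                  Fintype.card_fin]
                have : ((k - 1 - 1 : ℕ) : ℝ) = k - 2 := by
                  rw [Nat.sub_sub, Nat.cast_sub (by omega)]; norm_num
                rw [this]
        calc ∑ i, w (g i) ≤ ∑ i, (a + 1 / (2 * k) * d + (if g i ∈ G then d else 0)) :=
              Finset.sum_le_sum (fun i _ => hbd i)
          _ = k * (a + 1 / (2 * k) * d) + ∑ i, (if g i ∈ G then d else 0) := by
              rw [Finset.sum_add_distrib, Finset.sum_const, Finset.card_univ, Fintype.card_fin,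
                nsmul_eq_mul]
          _ ≤ k * (a + 1 / (2 * k) * d) + (k - 2) * d := by linarith
          _ = k * a + d * (k - 3 / 2) := by field_simp; ring
          _ ≤ k * a + d * (k - 1 - 2 * (k * β)) := by
              have : d * (k - 3 / 2) ≤ d * (k - 1 - 2 * (k * β)) :=
                mul_le_mul_of_nonneg_left (by linarith) hd0'
              linarith
          _ ≤ θ := hI6
    have e1 : (cnt (fun f : Fin k → V => EdgeF K f ∧ ∃ a b, a ≠ b ∧ f a ∈ Y ∧ f b ∈ Y) : ℝ) ≤
        cnt (fun f : Fin k → V => EdgeF K f ∧ ∑ i, w (f i) ≤ θ) +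
        cnt (fun f : Fin k → V => ∃ i, f i ∈ Bad ∪ L) := by exact_mod_cast hsub
    have e2 := cnt_entry k (Bad ∪ L)
    have e3 : ((Bad ∪ L).card : ℝ) ≤ (β + 4 * k * β) * n := by
      have h1 : ((Bad ∪ L).card : ℝ) ≤ Bad.card + L.card := by
        exact_mod_cast Finset.card_union_le Bad L
      linarith
    have e4 : (k : ℝ) * (Bad ∪ L).card * n ^ (k - 1) ≤ γ / 2 * n ^ k := by
      have h1 : (k : ℝ) * (Bad ∪ L).card ≤ k * ((β + 4 * k * β) * n) :=
        mul_le_mul_of_nonneg_left e3 hkpos.le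
      have h2 : n ^ k = n * n ^ (k - 1) := by
        rw [← pow_succ']; congr 1; omega
      have h3 : (k : ℝ) * (β + 4 * k * β) ≤ γ / 2 := hγ6
      calc (k : ℝ) * (Bad ∪ L).card * n ^ (k - 1) ≤ k * ((β + 4 * k * β) * n) * n ^ (k - 1) :=
            mul_le_mul_of_nonneg_right h1 (by positivity)
        _ = (k * (β + 4 * k * β)) * n ^ k := by rw [h2]; ring
        _ ≤ γ / 2 * n ^ k := mul_le_mul_of_nonneg_right h3 (by positivity)
    have e5 : κ ^ k * n ^ k ≤ γ / 2 * n ^ k := by
      refine mul_le_mul_of_nonneg_right ?_ (by positivity)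
      calc κ ^ k ≤ κ ^ 1 := pow_le_pow_of_le_one hκpos.le hκle1 (by omega)
        _ ≤ γ / 2 := by rw [pow_one]; linarith
    linarith

end Pool.Agent.THC
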