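import Mathlib

/-!
# MP_5c6f2e_co : tight Hamilton cycles and positive codegree. Shared definitions.
-/

set_option autoImplicit false

namespace Pool.Agent.THC

open Finset

/-- number of elements satisfying `P` -/
noncomputable def cnt {α : Type*} [Fintype α] (P : α → Prop) : ℕ := by
  classical exact (Finset.univ.filter P).card

theorem cnt_eq {α : Type*} [Fintype α] (P : α → Prop) [DecidablePred P] :
    cnt P = (Finset.univ.filter P).card := by
  unfold cnt; congr

theorem cnt_mono {α : Type*} [Fintype α] {P Q : α → Prop} (h : ∀ a, P a → Q a) :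
    cnt P ≤ cnt Q := by
  classical
  rw [cnt_eq, cnt_eq]
  exact Finset.card_le_card (fun a ha => by
    simp only [Finset.mem_filter, Finset.mem_univ, true_and] at ha ⊢; exact h a ha)

theorem cnt_le_card {α : Type*} [Fintype α] (P : α → Prop) : cnt P ≤ Fintype.card α := by
  classical
  rw [cnt_eq]; exact Finset.card_le_univ _

theorem cnt_congr {α : Type*} [Fintype α] {P Q : α → Prop} (h : ∀ a, P a ↔ Q a) :
    cnt P = cnt Q :=
  le_antisymm (cnt_mono fun a => (h a).1) (cnt_mono fun a => (h a).2)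

theorem cnt_or_le {α : Type*} [Fintype α] (P Q : α → Prop) :
    cnt (fun a => P a ∨ Q a) ≤ cnt P + cnt Q := by
  classical
  rw [cnt_eq, cnt_eq, cnt_eq, Finset.filter_or]
  exact Finset.card_union_le _ _

theorem exists_of_cnt_pos {α : Type*} [Fintype α] {P : α → Prop} (h : 0 < cnt P) : ∃ a, P a := by
  classical
  rw [cnt_eq, Finset.card_pos] at h
  obtain ⟨a, ha⟩ := h
  exact ⟨a, (Finset.mem_filter.1 ha).2⟩

variable {V : Type} [Fintype V] [DecidableEq V]

/-- `v` extends the set `s` inside the complex `K` -/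
def nb (K : Set (Finset V)) (s : Finset V) (v : V) : Prop := v ∉ s ∧ insert v s ∈ K

/-- A down-closed family `K` of finite sets in which every member with fewer than `k` elements has
at least `D` one-point extensions. -/
structure Cx (K : Set (Finset V)) (k : ℕ) (D : ℝ) : Prop where
  empty : ∅ ∈ K
  down : ∀ s ∈ K, ∀ t ⊆ s, t ∈ K
  deg : ∀ s ∈ K, s.card < k → D ≤ (cnt (nb K s) : ℝ)

/-- a list without repetition whose set of entries is in `K` -/
def EdgeL (K : Set (Finset V)) (w : List V) : Prop := w.Nodup ∧ w.toFinset ∈ K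

/-- all windows (infixes) of length `k` of `l` satisfy `Φ` -/
def AllWin {A : Type*} (Φ : List A → Prop) (k : ℕ) (l : List A) : Prop :=
  ∀ w : List A, w <:+: l → w.length = k → Φ w

/-- all windows of length `k` are edges -/
def Tight (K : Set (Finset V)) (k : ℕ) (l : List V) : Prop := AllWin (EdgeL K) k l

/-- tight Hamilton cycle, written as a list of all the vertices -/
def HamCyc (K : Set (Finset V)) (k : ℕ) : Prop :=
  ∃ l : List V, l.Nodup ∧ (∀ v, v ∈ l) ∧ Tight K k (l ++ l.take (k - 1))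

/-- an ordered tuple of distinct vertices which spans a member of `K` -/
def EdgeF (K : Set (Finset V)) {m : ℕ} (f : Fin m → V) : Prop :=
  Function.Injective f ∧ Finset.univ.image f ∈ K

/-- the space barrier, approximately -/
def NearExt (K : Set (Finset V)) (k : ℕ) (γ : ℝ) : Prop :=
  ∃ Y : Finset V, (1 / (k : ℝ) - γ) * (Fintype.card V : ℝ) ≤ (Y.card : ℝ) ∧
    (cnt (fun f : Fin k → V => EdgeF K f ∧ ∃ a b, a ≠ b ∧ f a ∈ Y ∧ f b ∈ Y) : ℝ) ≤
      γ * (Fintype.card V : ℝ) ^ k

/-- the tuple `X` (of length `2k-2`) absorbs `v` -/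
def Absorbs (K : Set (Finset V)) (k : ℕ) (v : V) (X : List V) : Prop :=
  Tight K k X ∧ Tight K k (X.take (k - 1) ++ v :: X.drop (k - 1))

/-- exactly one entry of the tuple lies in `Y` -/
def OneY (Y : Finset V) {m : ℕ} (f : Fin m → V) : Prop := ∃! i, f i ∈ Y

/-- structure found near the space barrier; `A` is the set of atypical vertices outside `Y` -/
structure ExtStr (K : Set (Finset V)) (k : ℕ) (α ζ : ℝ) (Y A : Finset V) : Prop where
  cardY_lo : (1 / (k : ℝ) - ζ) * (Fintype.card V : ℝ) ≤ (Y.card : ℝ)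
  cardY_hi : (Y.card : ℝ) ≤ (1 / (k : ℝ) + ζ) * (Fintype.card V : ℝ)
  disj : Disjoint A Y
  cardA : (A.card : ℝ) ≤ ζ * (Fintype.card V : ℝ)
  /-- few bad `k`-tuples with exactly one entry in `Y` in total -/
  tot : (cnt (fun f : Fin k → V => OneY Y f ∧ ¬ EdgeF K f) : ℝ) ≤ ζ * (Fintype.card V : ℝ) ^ k
  /-- few bad `k`-tuples through every typical vertex -/
  bad1 : ∀ v, v ∉ A → ∀ p : Fin k,
    (cnt (fun f : Fin k → V => f p = v ∧ OneY Y f ∧ ¬ EdgeF K f) : ℝ) ≤
      α * (Fintype.card V : ℝ) ^ (k - 1)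
  /-- a vertex of `Y` has few edges meeting `Y` again -/
  few : ∀ y ∈ Y, (cnt (fun g : Fin (k - 1) → V => (∃ i, g i ∈ Y) ∧
      EdgeL K (y :: List.ofFn g)) : ℝ) ≤ α * (Fintype.card V : ℝ) ^ (k - 1)
  /-- a vertex outside `Y` has many edges meeting `Y` -/
  many : ∀ x, x ∉ Y → α / 8 * (Fintype.card V : ℝ) ^ (k - 1) ≤
      (cnt (fun g : Fin (k - 1) → V => (∃ i, g i ∈ Y) ∧ EdgeL K (x :: List.ofFn g)) : ℝ)

/-- every nonempty sublist of `s` has few bad completions to a `k`-tuple with exactly one entry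
in `Y` -/
def GoodS (K : Set (Finset V)) (k : ℕ) (α : ℝ) (Y : Finset V) (s : List V) : Prop :=
  ∀ F : List V, F.Sublist s → F ≠ [] →
    (cnt (fun g : Fin (k - F.length) → V => OneY Y g ∧ ¬ EdgeL K (F ++ List.ofFn g)) : ℝ) ≤
      α * (Fintype.card V : ℝ) ^ (k - F.length)

/-- a tight path whose first and last `k-1` vertices are outside `Y` and good -/
structure IsPiece (K : Set (Finset V)) (k : ℕ) (α : ℝ) (Y : Finset V) (B : List V) : Prop where
  len : k - 1 ≤ B.length
  tight : Tight K k B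
  startX : ∀ v ∈ B.take (k - 1), v ∉ Y
  endX : ∀ v ∈ B.drop (B.length - (k - 1)), v ∉ Y
  startG : GoodS K k α Y (B.take (k - 1))
  endG : GoodS K k α Y (B.drop (B.length - (k - 1)))

end Pool.Agent.THC
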