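import Mathlib
import Pool.Agent.Lib.MP_5c6f2e_co.Defs

/-!
Spread fractional matchings from a robust dual condition (Hahn-Banach).
-/

set_option autoImplicit false

namespace Pool.Agent.THC

open Finset

theorem spread {V ι : Type} [Fintype V] [DecidableEq V] [Fintype ι] [Nonempty V]
    (e : ι → Finset V) (ρ M : ℝ) (hρ : 0 < ρ) (hM : 0 < M)
    (h : ∀ w : V → ℝ, (∀ v, 0 ≤ w v) →
      1 / M ≤ (cnt (fun i => ∑ v ∈ e i, w v ≤ ρ * ∑ v, w v) : ℝ)) :
    ∃ ω : ι → ℝ, (∀ i, 0 ≤ ω i) ∧ (∀ i, ω i ≤ M) ∧ ∑ i, ω i = 1 ∧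
      ∀ v, ∑ i with v ∈ e i, ω i ≤ ρ := by
  classical
  -- uniform distributions on large sets
  have hunif : ∀ w : V → ℝ, (∀ v, 0 ≤ w v) → ∃ ω : ι → ℝ, (∀ i, 0 ≤ ω i) ∧ (∀ i, ω i ≤ M) ∧
      ∑ i, ω i = 1 ∧ ∑ i, ω i * ∑ v ∈ e i, w v ≤ ρ * ∑ v, w v := by
    intro w hw
    set G := Finset.univ.filter fun i => ∑ v ∈ e i, w v ≤ ρ * ∑ v, w v with hG
    have hcard : 1 / M ≤ (G.card : ℝ) := by
      have := h w hw
      rwa [cnt_eq] at this
    have hGpos : (0 : ℝ) < G.card := lt_of_lt_of_le (by positivity) hcard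
    refine ⟨fun i => if i ∈ G then 1 / (G.card : ℝ) else 0, fun i => ?_, fun i => ?_, ?_, ?_⟩
    · simp only
      split_ifs <;> positivity
    · simp only
      split_ifs
      · rw [div_le_iff₀ hGpos]
        rw [div_le_iff₀ hM] at hcard
        linarith
      · exact hM.le
    · rw [Finset.sum_ite_mem, Finset.univ_inter, Finset.sum_const, nsmul_eq_mul]
      field_simp
    · have h1 : ∀ i, (if i ∈ G then 1 / (G.card : ℝ) else 0) * ∑ v ∈ e i, w v =
          if i ∈ G then 1 / (G.card : ℝ) * ∑ v ∈ e i, w v else 0 := by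
        intro i; split_ifs <;> simp
      simp_rw [h1]
      rw [Finset.sum_ite_mem, Finset.univ_inter, ← Finset.mul_sum]
      have h2 : ∑ i ∈ G, ∑ v ∈ e i, w v ≤ ∑ i ∈ G, ρ * ∑ v, w v :=
        Finset.sum_le_sum fun i hi => (Finset.mem_filter.1 hi).2
      rw [Finset.sum_const, nsmul_eq_mul] at h2
      rw [one_div, inv_mul_le_iff₀ hGpos]
      exact h2
  -- the load map
  let L : (ι → ℝ) →ₗ[ℝ] (V → ℝ) :=
    { toFun := fun ω v => ∑ i with v ∈ e i, ω i
      map_add' := fun a b => by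
        ext v; simp [Finset.sum_add_distrib]
      map_smul' := fun r a => by
        ext v; simp [Finset.mul_sum] }
  have hLapp : ∀ ω v, L ω v = ∑ i with v ∈ e i, ω i := fun _ _ => rfl
  set W : Set (ι → ℝ) := (Set.pi Set.univ fun _ => Set.Icc (0 : ℝ) M) ∩ {ω | ∑ i, ω i = 1} with hW
  have hWcomp : IsCompact W := by
    refine (isCompact_univ_pi fun _ => isCompact_Icc).inter_right ?_
    exact isClosed_eq (by fun_prop) continuous_const
  have hWconv : Convex ℝ W := by
    refine (convex_pi fun _ _ => convex_Icc _ _).inter ?_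
    intro a ha b hb s t hs ht hst
    simp only [Set.mem_ofPred_eq] at ha hb ⊢
    simp only [Pi.add_apply, Pi.smul_apply, smul_eq_mul, Finset.sum_add_distrib, ← Finset.mul_sum,
      ha, hb, mul_one, hst]
  have hWmem : ∀ ω, ω ∈ W ↔ (∀ i, 0 ≤ ω i) ∧ (∀ i, ω i ≤ M) ∧ ∑ i, ω i = 1 := by
    intro ω
    constructor
    · rintro ⟨h1, h2⟩
      exact ⟨fun i => (h1 i (Set.mem_univ _)).1, fun i => (h1 i (Set.mem_univ _)).2, h2⟩
    · rintro ⟨h1, h2, h3⟩
      exact ⟨fun i _ => ⟨h1 i, h2 i⟩, h3⟩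
  by_contra hcon
  -- separation
  set B : Set (V → ℝ) := {x | ∀ v, x v ≤ ρ} with hB
  have hBclosed : IsClosed B := by
    have : B = ⋂ v, {x : V → ℝ | x v ≤ ρ} := by
      ext x; simp [hB]
    rw [this]
    exact isClosed_iInter fun v => isClosed_le (continuous_apply v) continuous_const
  have hBconv : Convex ℝ B := by
    intro a ha b hb s t hs ht hst v
    have h1 := ha v
    have h2 := hb v
    simp only [Pi.add_apply, Pi.smul_apply, smul_eq_mul]
    calc s * a v + t * b v ≤ s * ρ + t * ρ := by gcongr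
      _ = ρ := by rw [← add_mul, hst, one_mul]
  have hLcont : Continuous L := LinearMap.continuous_of_finiteDimensional L
  have hdisj : Disjoint (L '' W) B := by
    rw [Set.disjoint_left]
    rintro x ⟨ω, hω, rfl⟩ hx
    obtain ⟨h1, h2, h3⟩ := (hWmem ω).1 hω
    exact hcon ⟨ω, h1, h2, h3, fun v => hx v⟩
  obtain ⟨f, u, v', hf1, huv, hf2⟩ := geometric_hahn_banach_compact_closed
    (hWconv.linear_image L) (hWcomp.image hLcont) hBconv hBclosed hdisj
  -- f < u on the loads, f > v' on B, u < v'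
  set c : V → ℝ := fun v => f (Pi.single v 1) with hc
  have hfx : ∀ x : V → ℝ, f x = ∑ v, x v * c v := by
    intro x
    have hx : x = ∑ v, x v • (Pi.single v 1 : V → ℝ) := by
      ext a
      simp [Finset.sum_apply, Pi.single_apply]
    conv_lhs => rw [hx]
    rw [map_sum]
    exact Finset.sum_congr rfl fun v _ => by rw [map_smul, smul_eq_mul]
  have hcneg : ∀ v, c v ≤ 0 := by
    intro v
    by_contra hpos
    push Not at hpos
    -- x = ρ everywhere except a very negative value at v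
    have hval : ∀ t : ℝ, 0 ≤ t → v' < (∑ a, ρ * c a) - t * c v := by
      intro t ht
      have hx : (fun a => ρ - t * (if a = v then 1 else 0)) ∈ B := by
        intro a
        simp only
        split_ifs
        · linarith
        · simp
      have := hf2 _ hx
      rw [hfx] at this
      have h2 : ∑ a, (ρ - t * (if a = v then 1 else 0)) * c a = (∑ a, ρ * c a) - t * c v := by
        simp_rw [sub_mul, Finset.sum_sub_distrib]
        congr 1
        simp
      rwa [h2] at this
    have h3 := hval (|(∑ a, ρ * c a) - v'| / c v + 1) (by positivity)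
    have h4 : (|(∑ a, ρ * c a) - v'| / c v + 1) * c v = |(∑ a, ρ * c a) - v'| + c v := by
      field_simp
    rw [h4] at h3
    have := le_abs_self ((∑ a, ρ * c a) - v')
    linarith
  set w : V → ℝ := fun v => - c v with hw
  have hw0 : ∀ v, 0 ≤ w v := fun v => by simp only [hw]; linarith [hcneg v]
  obtain ⟨ω, h1, h2, h3, h4⟩ := hunif w hw0
  have h5 := hf1 _ ⟨ω, (hWmem ω).2 ⟨h1, h2, h3⟩, rfl⟩
  have h6 := hf2 (fun _ => ρ) (fun _ => le_rfl)
  rw [hfx] at h5 h6
  have h7 : ∑ v, L ω v * c v = - ∑ i, ω i * ∑ v ∈ e i, w v := by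
    simp_rw [hLapp, Finset.sum_mul, Finset.mul_sum, hw]
    rw [← Finset.sum_neg_distrib]
    simp_rw [← Finset.sum_neg_distrib, Finset.sum_filter]
    rw [Finset.sum_comm]
    refine Finset.sum_congr rfl fun i _ => ?_
    rw [← Finset.sum_filter]
    have : (Finset.univ.filter fun v => v ∈ e i) = e i := by ext; simp
    rw [this]
    exact Finset.sum_congr rfl fun v _ => by ring
  have h8 : ∑ v, ρ * c v = - (ρ * ∑ v, w v) := by
    rw [hw, Finset.sum_neg_distrib, mul_neg, neg_neg, Finset.mul_sum]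
  rw [h7] at h5
  rw [h8] at h6
  linarith

end Pool.Agent.THC
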