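import Pool.Agent.Lib.MP_5c6f2e_co.Defs

/-!
# MP_5c6f2e_co, piece P7: supersaturation (iterated Jensen)
-/

set_option autoImplicit false

namespace Pool.Agent.THC

open Finset

private theorem ss_cnt_equiv {A B : Type} [Fintype A] [Fintype B] (e : A ≃ B) (P : B → Prop) :
    cnt (fun a => P (e a)) = cnt P := by
  classical
  rw [cnt_eq, cnt_eq]
  refine Finset.card_bij (fun a _ => e a) ?_ ?_ ?_
  · intro a ha
    simpa using ha
  · intro a _ b _ h
    exact e.injective h
  · intro b hb
    refine ⟨e.symm b, ?_, by simp⟩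
    simpa using hb

private theorem ss_cnt_prod {A B : Type} [Fintype A] [Fintype B] (P : A → B → Prop) :
    cnt (fun p : A × B => P p.1 p.2) = ∑ b : B, cnt (fun a => P a b) := by
  classical
  simp only [cnt_eq]
  rw [Finset.card_filter, Fintype.sum_prod_type_right]
  refine Finset.sum_congr rfl fun b _ => ?_
  rw [Finset.card_filter]

private theorem ss_cnt_pow {V : Type} [Fintype V] (b : ℕ) (F : V → Prop) :
    cnt (fun f : Fin b → V => ∀ j, F (f j)) = cnt F ^ b := by
  classical
  rw [cnt_eq, cnt_eq]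
  have : (Finset.univ.filter (fun f : Fin b → V => ∀ j, F (f j))) =
      Fintype.piFinset (fun _ : Fin b => Finset.univ.filter F) := by
    ext f
    simp [Fintype.mem_piFinset]
  rw [this, Fintype.card_piFinset]
  simp

private theorem ss_jensen {V W : Type} [Fintype V] [Fintype W] (b : ℕ) (c : ℝ) (hc : 0 ≤ c)
    (F : V → W → Prop)
    (h : c * (Fintype.card V : ℝ) * (Fintype.card W : ℝ) ≤
      (cnt (fun p : V × W => F p.1 p.2) : ℝ)) :
    c ^ b * (Fintype.card V : ℝ) ^ b * (Fintype.card W : ℝ) ≤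
      (cnt (fun p : (Fin b → V) × W => ∀ j, F (p.1 j) p.2) : ℝ) := by
  classical
  have h1 : cnt (fun p : (Fin b → V) × W => ∀ j, F (p.1 j) p.2) =
      ∑ w : W, (cnt (fun v => F v w)) ^ b := by
    rw [ss_cnt_prod (fun (f : Fin b → V) (w : W) => ∀ j, F (f j) w)]
    exact Finset.sum_congr rfl fun w _ => ss_cnt_pow b (fun v => F v w)
  rw [h1]
  rw [ss_cnt_prod] at h
  push_cast at h ⊢
  rcases Nat.eq_zero_or_pos b with hb | hb
  · subst hb
    simp
  rcases Nat.eq_zero_or_pos (Fintype.card W) with hW | hW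
  · rw [hW]
    simp only [Nat.cast_zero, mul_zero]
    exact Finset.sum_nonneg fun w _ => by positivity
  obtain ⟨m, rfl⟩ : ∃ m, b = m + 1 := ⟨b - 1, by omega⟩
  have hj := pow_sum_div_card_le_sum_pow (s := (Finset.univ : Finset W))
    (f := fun w => (cnt (fun v => F v w) : ℝ)) (n := m) (fun w _ => by positivity)
  refine le_trans ?_ hj
  have hWr : (0 : ℝ) < (Fintype.card W : ℝ) := by exact_mod_cast hW
  rw [Finset.card_univ, le_div_iff₀ (by positivity)]
  have hpow := pow_le_pow_left₀ (by positivity) h (m + 1)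
  refine le_trans (le_of_eq ?_) hpow
  ring

private theorem ss_gen {V : Type} [Fintype V] (b : ℕ) (c : ℝ) (hc : 0 ≤ c) (k : ℕ) :
    ∀ (Z : Type) [Fintype Z] (E : (Fin k → V) → Z → Prop),
      c * (Fintype.card V : ℝ) ^ k * (Fintype.card Z : ℝ) ≤
        (cnt (fun p : (Fin k → V) × Z => E p.1 p.2) : ℝ) →
      c ^ (b ^ k) * (Fintype.card V : ℝ) ^ (k * b) * (Fintype.card Z : ℝ) ≤
        (cnt (fun p : (Fin k → Fin b → V) × Z =>
          ∀ φ : Fin k → Fin b, E (fun i => p.1 i (φ i)) p.2) : ℝ) := by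
  classical
  induction k with
  | zero =>
    intro Z _ E h
    let e' : ((Fin 0 → Fin b → V) × Z) ≃ ((Fin 0 → V) × Z) :=
      ⟨fun p => (fun i => i.elim0, p.2), fun p => (fun i => i.elim0, p.2),
        fun p => Prod.ext (Subsingleton.elim _ _) rfl,
        fun p => Prod.ext (Subsingleton.elim _ _) rfl⟩
    have h1 : cnt (fun p : (Fin 0 → Fin b → V) × Z =>
          ∀ φ : Fin 0 → Fin b, E (fun i => p.1 i (φ i)) p.2) =
        cnt (fun p : (Fin 0 → V) × Z => E p.1 p.2) := by
      rw [← ss_cnt_equiv e' (fun p : (Fin 0 → V) × Z => E p.1 p.2)]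
      refine cnt_congr fun p => ?_
      constructor
      · intro H
        have H' := H (fun i => i.elim0)
        have hfun : (fun i : Fin 0 => p.1 i ((fun i : Fin 0 => (i.elim0 : Fin b)) i)) =
            (e' p).1 := Subsingleton.elim _ _
        rw [hfun] at H'
        exact H'
      · intro H φ
        have hfun : (fun i : Fin 0 => p.1 i (φ i)) = (e' p).1 := Subsingleton.elim _ _
        rw [hfun]
        exact H
    rw [h1]
    simpa using h
  | succ k ih =>
    intro Z _ E h
    -- first coordinate as a parameter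
    let e1 : ((Fin (k + 1) → V) × Z) ≃ ((Fin k → V) × (V × Z)) :=
      ⟨fun p => (Fin.tail p.1, (p.1 0, p.2)), fun p => (Fin.cons p.2.1 p.1, p.2.2),
        fun p => Prod.ext (Fin.cons_self_tail p.1) rfl,
        fun p => rfl⟩
    have h2 : cnt (fun p : (Fin (k + 1) → V) × Z => E p.1 p.2) =
        cnt (fun p : (Fin k → V) × (V × Z) => E (Fin.cons p.2.1 p.1) p.2.2) := by
      rw [← ss_cnt_equiv e1 (fun p : (Fin k → V) × (V × Z) => E (Fin.cons p.2.1 p.1) p.2.2)]
      refine cnt_congr fun p => ?_
      have : (Fin.cons (e1 p).2.1 (e1 p).1 : Fin (k + 1) → V) = p.1 := Fin.cons_self_tail p.1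
      rw [this]
      exact Iff.rfl
    have h3 := ih (V × Z) (fun x p => E (Fin.cons p.1 x) p.2) (by
      rw [← h2]
      refine le_trans (le_of_eq ?_) h
      rw [Fintype.card_prod]
      push_cast
      ring)
    let X := Fin k → Fin b → V
    let F : V → X × Z → Prop := fun v w =>
      ∀ φ : Fin k → Fin b, E (Fin.cons v (fun i => w.1 i (φ i))) w.2
    let e2 : (V × (X × Z)) ≃ (X × (V × Z)) :=
      ⟨fun p => (p.2.1, (p.1, p.2.2)), fun p => (p.2.1, (p.1, p.2.2)),
        fun p => rfl, fun p => rfl⟩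
    have h4 : cnt (fun p : V × (X × Z) => F p.1 p.2) =
        cnt (fun p : X × (V × Z) =>
          ∀ φ : Fin k → Fin b, E (Fin.cons p.2.1 (fun i => p.1 i (φ i))) p.2.2) := by
      rw [← ss_cnt_equiv e2]
      exact cnt_congr fun p => Iff.rfl
    have hcardX : (Fintype.card X : ℝ) = (Fintype.card V : ℝ) ^ (k * b) := by
      have : Fintype.card X = (Fintype.card V ^ b) ^ k := by
        simp [X]
      rw [this]
      push_cast
      rw [← pow_mul, mul_comm]
    have h5 := ss_jensen b (c ^ (b ^ k)) (pow_nonneg hc _) F (by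
      rw [h4]
      refine le_trans (le_of_eq ?_) h3
      rw [Fintype.card_prod, Fintype.card_prod]
      push_cast
      rw [hcardX]
      ring)
    let e3 : ((Fin (k + 1) → Fin b → V) × Z) ≃ ((Fin b → V) × (X × Z)) :=
      ⟨fun p => (p.1 0, (Fin.tail p.1, p.2)), fun p => (Fin.cons p.1 p.2.1, p.2.2),
        fun p => Prod.ext (Fin.cons_self_tail p.1) rfl,
        fun p => rfl⟩
    have h6 : cnt (fun p : (Fin (k + 1) → Fin b → V) × Z =>
          ∀ φ : Fin (k + 1) → Fin b, E (fun i => p.1 i (φ i)) p.2) =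
        cnt (fun p : (Fin b → V) × (X × Z) => ∀ j, F (p.1 j) p.2) := by
      rw [← ss_cnt_equiv e3]
      refine cnt_congr fun p => ?_
      constructor
      · intro H j φ
        have H' := H (Fin.cons j φ)
        have hfun : (fun i => p.1 i ((Fin.cons j φ : Fin (k + 1) → Fin b) i)) =
            Fin.cons (p.1 0 j) (fun i => p.1 i.succ (φ i)) := by
          funext i
          refine Fin.cases ?_ (fun i => ?_) i
          · simp
          · simp
        rw [hfun] at H'
        exact H'
      · intro H φ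
        have H' := H (φ 0) (fun i => φ i.succ)
        have hfun : (fun i => p.1 i (φ i)) =
            Fin.cons (p.1 0 (φ 0)) (fun i : Fin k => p.1 i.succ (φ i.succ)) := by
          funext i
          refine Fin.cases ?_ (fun i => ?_) i
          · simp
          · simp
        rw [hfun]
        exact H'
    rw [h6]
    refine le_trans (le_of_eq ?_) h5
    rw [Fintype.card_prod]
    push_cast
    rw [hcardX, ← pow_mul, ← pow_succ]
    ring

set_option linter.unusedVariables false in
theorem supersat {V : Type} [Fintype V] (k b : ℕ) (c : ℝ) (hc : 0 ≤ c) (hc1 : c ≤ 1)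
    (E : (Fin k → V) → Prop) (h : c * (Fintype.card V : ℝ) ^ k ≤ (cnt E : ℝ)) :
    c ^ (b ^ k) * (Fintype.card V : ℝ) ^ (k * b) ≤
      (cnt (fun x : Fin k → Fin b → V => ∀ φ : Fin k → Fin b, E (fun i => x i (φ i))) : ℝ) := by
  classical
  have h1 := ss_gen (V := V) b c hc k Unit (fun x _ => E x) (by
    rw [Fintype.card_unit]
    have : cnt (fun p : (Fin k → V) × Unit => E p.1) = cnt E :=
      ss_cnt_equiv (Equiv.prodPUnit (Fin k → V)) E
    rw [this]
    simpa using h)
  have h2 : cnt (fun p : (Fin k → Fin b → V) × Unit =>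
          ∀ φ : Fin k → Fin b, E (fun i => p.1 i (φ i))) =
      cnt (fun x : Fin k → Fin b → V => ∀ φ : Fin k → Fin b, E (fun i => x i (φ i))) :=
    ss_cnt_equiv (Equiv.prodPUnit (Fin k → Fin b → V))
      (fun x : Fin k → Fin b → V => ∀ φ : Fin k → Fin b, E (fun i => x i (φ i)))
  rw [h2] at h1
  simpa using h1

end Pool.Agent.THC
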