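import Pool.Agent.Lib.MP_5c6f2e_co.Nibble
import Pool.Agent.Lib.MP_5c6f2e_co.Spread
import Pool.Agent.Lib.MP_5c6f2e_co.Supersat
import Pool.Agent.Lib.MP_5c6f2e_co.Dual

set_option autoImplicit false
set_option linter.unusedSectionVars false

namespace Pool.Agent.THC

open Finset



/-! ## counting -/

private theorem cover_cnt_le_of_inj {α β : Type*} [Fintype α] [Fintype β] {P : α → Prop}
    (f : α → β) (h : ∀ a a', P a → P a' → f a = f a' → a = a') : cnt P ≤ Fintype.card β := by
  classical
  rw [cnt_eq, ← Finset.card_univ]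
  apply Finset.card_le_card_of_injOn f (fun _ _ => Finset.mem_coe.2 (Finset.mem_univ _))
  intro a ha a' ha' he
  exact h a a' (by simpa using ha) (by simpa using ha') he

private theorem cover_cnt_exists_le {α J : Type*} [Fintype α] [Fintype J] (P : J → α → Prop) :
    cnt (fun a => ∃ j, P j a) ≤ ∑ j, cnt (P j) := by
  classical
  have : cnt (fun a => ∃ j, P j a) ≤ (Finset.univ.biUnion fun j => Finset.univ.filter (P j)).card := by
    rw [cnt_eq]
    apply Finset.card_le_card
    intro a ha
    simpa using ha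
  refine this.trans (Finset.card_biUnion_le.trans (le_of_eq ?_))
  exact Finset.sum_congr rfl fun j _ => (cnt_eq _).symm

private theorem cover_cnt_sub {α : Type*} [Fintype α] (Q P : α → Prop) [Fintype {x // Q x}] :
    cnt (fun x => Q x ∧ P x) ≤ cnt (fun i : {x // Q x} => P i.1) := by
  classical
  rw [cnt_eq, cnt_eq, ← Finset.card_map (Function.Embedding.subtype _)]
  apply Finset.card_le_card
  intro a ha
  simp only [Finset.mem_filter, Finset.mem_univ, true_and] at ha
  simp only [Finset.mem_map, Finset.mem_filter, Finset.mem_univ, true_and,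
    Function.Embedding.subtype_apply]
  exact ⟨⟨a, ha.1⟩, ha.2, rfl⟩

private theorem cover_card_ne {P : Type*} [Fintype P] [DecidableEq P] (p : P) :
    Fintype.card {j : P // j ≠ p} = Fintype.card P - 1 := by
  simp [Fintype.card_subtype_compl]

private theorem cover_card_ne2 {P : Type*} [Fintype P] [DecidableEq P] (p q : P) (h : p ≠ q) :
    Fintype.card {j : P // j ≠ p ∧ j ≠ q} = Fintype.card P - 2 := by
  rw [Fintype.card_subtype]
  have : (Finset.univ.filter fun j : P => j ≠ p ∧ j ≠ q) = (Finset.univ.erase p).erase q := by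
    ext j; simp [and_comm]
  rw [this, Finset.card_erase_of_mem (by simp [h.symm]), Finset.card_erase_of_mem (by simp),
    Finset.card_univ]
  omega

variable {V : Type} [Fintype V] [DecidableEq V]

private theorem cover_cnt_eq {k b : ℕ} (p q : Fin k × Fin b) (h : p ≠ q) :
    cnt (fun x : Fin k → Fin b → V => x p.1 p.2 = x q.1 q.2) ≤
      Fintype.card V ^ (k * b - 1) := by
  classical
  have h1 := cover_cnt_le_of_inj (P := fun x : Fin k → Fin b → V => x p.1 p.2 = x q.1 q.2)
    (β := {j : Fin k × Fin b // j ≠ p} → V) (fun x j => x j.1.1 j.1.2) ?_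
  · refine h1.trans (le_of_eq ?_)
    rw [Fintype.card_fun, cover_card_ne, Fintype.card_prod, Fintype.card_fin, Fintype.card_fin]
  · intro x x' hx hx' he
    have he' : ∀ j : Fin k × Fin b, j ≠ p → x j.1 j.2 = x' j.1 j.2 := fun j hj =>
      congrFun he ⟨j, hj⟩
    funext i j
    by_cases hp : (i, j) = p
    · have h1 := he' q (fun e => h e.symm)
      have h2 : x p.1 p.2 = x' p.1 p.2 := by rw [hx, hx', h1]
      rw [← hp] at h2
      exact h2
    · exact he' (i, j) hp

private theorem cover_cnt_eq2 {k b : ℕ} (p q : Fin k × Fin b) (h : p ≠ q) (u v : V) :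
    cnt (fun x : Fin k → Fin b → V => x p.1 p.2 = u ∧ x q.1 q.2 = v) ≤
      Fintype.card V ^ (k * b - 2) := by
  classical
  have h1 := cover_cnt_le_of_inj
    (P := fun x : Fin k → Fin b → V => x p.1 p.2 = u ∧ x q.1 q.2 = v)
    (β := {j : Fin k × Fin b // j ≠ p ∧ j ≠ q} → V) (fun x j => x j.1.1 j.1.2) ?_
  · refine h1.trans (le_of_eq ?_)
    rw [Fintype.card_fun, cover_card_ne2 p q h, Fintype.card_prod, Fintype.card_fin,
      Fintype.card_fin]
  · intro x x' hx hx' he
    have he' : ∀ j : Fin k × Fin b, j ≠ p → j ≠ q → x j.1 j.2 = x' j.1 j.2 := fun j hj hj' =>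
      congrFun he ⟨j, hj, hj'⟩
    funext i j
    by_cases hp : (i, j) = p
    · have h2 : x p.1 p.2 = x' p.1 p.2 := by rw [hx.1, hx'.1]
      rw [← hp] at h2
      exact h2
    · by_cases hq : (i, j) = q
      · have h2 : x q.1 q.2 = x' q.1 q.2 := by rw [hx.2, hx'.2]
        rw [← hq] at h2
        exact h2
      · exact he' (i, j) hp hq

private theorem cover_noninj {k b : ℕ} :
    cnt (fun x : Fin k → Fin b → V => ¬ Function.Injective (fun p : Fin k × Fin b => x p.1 p.2)) ≤
      (k * b) ^ 2 * Fintype.card V ^ (k * b - 1) := by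
  classical
  have h1 : cnt (fun x : Fin k → Fin b → V =>
      ¬ Function.Injective (fun p : Fin k × Fin b => x p.1 p.2)) ≤
      cnt (fun x : Fin k → Fin b → V => ∃ pq : (Fin k × Fin b) × (Fin k × Fin b),
        pq.1 ≠ pq.2 ∧ x pq.1.1 pq.1.2 = x pq.2.1 pq.2.2) := by
    apply cnt_mono
    intro x hx
    unfold Function.Injective at hx
    push Not at hx
    obtain ⟨p, q, h1, h2⟩ := hx
    exact ⟨(p, q), h2, h1⟩
  refine h1.trans ((cover_cnt_exists_le _).trans ?_)
  have h2 : ∀ pq : (Fin k × Fin b) × (Fin k × Fin b),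
      cnt (fun x : Fin k → Fin b → V => pq.1 ≠ pq.2 ∧ x pq.1.1 pq.1.2 = x pq.2.1 pq.2.2) ≤
        Fintype.card V ^ (k * b - 1) := by
    intro pq
    by_cases h : pq.1 = pq.2
    · have : cnt (fun x : Fin k → Fin b → V => pq.1 ≠ pq.2 ∧ x pq.1.1 pq.1.2 = x pq.2.1 pq.2.2)
        = 0 := by
        rw [cnt_eq, Finset.card_eq_zero, Finset.filter_eq_empty_iff]
        intro x _ hx
        exact hx.1 h
      rw [this]; exact Nat.zero_le _
    · exact (cnt_mono (fun x hx => hx.2)).trans (cover_cnt_eq _ _ h)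
  refine (Finset.sum_le_sum fun pq _ => h2 pq).trans (le_of_eq ?_)
  rw [Finset.sum_const, smul_eq_mul, Finset.card_univ, Fintype.card_prod, Fintype.card_prod,
    Fintype.card_fin, Fintype.card_fin]
  ring

/-! ## tiles -/

private def CoverTile (K : Set (Finset V)) (k b : ℕ) (x : Fin k → Fin b → V) : Prop :=
  Function.Injective (fun p : Fin k × Fin b => x p.1 p.2) ∧
    ∀ φ : Fin k → Fin b, EdgeF K (fun i => x i (φ i))

private def coverSet {k b : ℕ} (x : Fin k → Fin b → V) : Finset V :=
  Finset.univ.image (fun p : Fin k × Fin b => x p.1 p.2)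

omit [Fintype V] in
private theorem mem_coverSet {k b : ℕ} {x : Fin k → Fin b → V} {v : V} :
    v ∈ coverSet x ↔ ∃ p : Fin k × Fin b, x p.1 p.2 = v := by
  unfold coverSet; simp

private theorem CoverTile.card {K : Set (Finset V)} {k b : ℕ} {x : Fin k → Fin b → V}
    (h : CoverTile K k b x) : (coverSet x).card = k * b := by
  unfold coverSet
  rw [Finset.card_image_of_injective _ h.1]
  simp

private def coverF {k b : ℕ} (hk : 0 < k) (x : Fin k → Fin b → V) (t : Fin (k * b)) : V :=
  x ⟨t % k, Nat.mod_lt _ hk⟩ ⟨t / k, Nat.div_lt_of_lt_mul t.2⟩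

private theorem CoverTile.inj {K : Set (Finset V)} {k b : ℕ} {x : Fin k → Fin b → V}
    (hk : 0 < k) (h : CoverTile K k b x) : Function.Injective (coverF hk x) := by
  intro s t hst
  have := @h.1 (⟨s % k, Nat.mod_lt _ hk⟩, ⟨s / k, Nat.div_lt_of_lt_mul s.2⟩)
    (⟨t % k, Nat.mod_lt _ hk⟩, ⟨t / k, Nat.div_lt_of_lt_mul t.2⟩) hst
  simp only [Prod.mk.injEq, Fin.mk.injEq] at this
  apply Fin.ext
  rw [← Nat.div_add_mod s.1 k, ← Nat.div_add_mod t.1 k, this.1, this.2]

private theorem coverF_mem {k b : ℕ} {x : Fin k → Fin b → V} (hk : 0 < k)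
    (t : Fin (k * b)) : coverF hk x t ∈ coverSet x :=
  mem_coverSet.2 ⟨(⟨t % k, Nat.mod_lt _ hk⟩, ⟨t / k, Nat.div_lt_of_lt_mul t.2⟩), rfl⟩

private theorem CoverTile.tight {K : Set (Finset V)} {k b : ℕ} {x : Fin k → Fin b → V}
    (hk : 0 < k) (h : CoverTile K k b x) : Tight K k (List.ofFn (coverF hk x)) := by
  intro w hw hlen
  have hnd : w.Nodup := (List.nodup_ofFn.2 (h.inj hk)).sublist hw.sublist
  refine ⟨hnd, ?_⟩
  obtain ⟨s, t, hst⟩ := hw
  set p := s.length with hp
  have hlen2 : p + k + t.length = k * b := by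
    have := congrArg List.length hst
    simp only [List.length_append, List.length_ofFn, hlen] at this
    omega
  have hget : ∀ a (ha : a < k), w[a]'(by omega) = coverF hk x ⟨p + a, by omega⟩ := by
    intro a ha
    have h1 : (List.ofFn (coverF hk x))[p + a]'(by rw [List.length_ofFn]; omega) =
        coverF hk x ⟨p + a, by omega⟩ := by
      rw [List.getElem_ofFn]
    rw [← h1]
    have h2 : (s ++ w ++ t)[p + a]'(by
        simp only [List.length_append, hlen]; omega) = w[a]'(by omega) := by
      rw [List.getElem_append_left (by simp only [List.length_append, hlen]; omega),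
        List.getElem_append_right (by omega)]
      congr 1
      omega
    rw [← h2]
    congr 1
  -- choice of the transversal
  have hsurj : ∀ i : Fin k, ∃ a : Fin k, (p + a) % k = i := by
    have hinj : Function.Injective (fun a : Fin k => (⟨(p + a) % k, Nat.mod_lt _ hk⟩ : Fin k)) := by
      intro a a' haa
      simp only [Fin.mk.injEq] at haa
      have h3 : (a : ℕ) ≡ a' [MOD k] := Nat.ModEq.add_left_cancel' p haa
      apply Fin.ext
      exact Nat.ModEq.eq_of_lt_of_lt h3 a.2 a'.2
    intro i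
    obtain ⟨a, ha⟩ := (Finite.injective_iff_surjective.1 hinj) i
    exact ⟨a, congrArg Fin.val ha⟩
  choose a ha using hsurj
  set φ : Fin k → Fin b := fun i =>
    ⟨(p + a i) / k, Nat.div_lt_of_lt_mul (by have := (a i).2; omega)⟩ with hφ
  have hE := h.2 φ
  have hsub : Finset.univ.image (fun i => x i (φ i)) ⊆ w.toFinset := by
    intro v hv
    obtain ⟨i, -, rfl⟩ := Finset.mem_image.1 hv
    rw [List.mem_toFinset]
    have h4 := hget (a i) (a i).2
    have h5 : coverF hk x ⟨p + a i, by have := (a i).2; omega⟩ = x i (φ i) := by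
      unfold coverF
      congr 1
      congr 1
      exact ha i
    rw [← h5, ← h4]
    exact List.getElem_mem _
  have hcard : w.toFinset.card ≤ (Finset.univ.image (fun i => x i (φ i))).card := by
    rw [List.toFinset_card_of_nodup hnd, Finset.card_image_of_injective _ hE.1, hlen]
    simp
  rw [← Finset.eq_of_subset_of_card_le hsub hcard]
  exact hE.2


/-! ## the weights -/

/-- weight of a tile from the weights of its transversals -/
private theorem cover_weight {k b : ℕ} {x : Fin k → Fin b → V}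
    (hinj : Function.Injective (fun p : Fin k × Fin b => x p.1 p.2)) (w : V → ℝ) (B : ℝ)
    (h : ∀ φ : Fin k → Fin b, ∑ i, w (x i (φ i)) ≤ B) :
    ∑ v ∈ coverSet x, w v ≤ b * B := by
  unfold coverSet
  rw [Finset.sum_image (fun p _ q _ hpq => hinj hpq), Fintype.sum_prod_type_right]
  calc ∑ j : Fin b, ∑ i : Fin k, w (x i j) ≤ ∑ _j : Fin b, B :=
        Finset.sum_le_sum fun j _ => h (fun _ => j)
    _ = b * B := by simp

theorem almost_cover (k : ℕ) (hk : 3 ≤ k) (γ : ℝ) (hγ : 0 < γ) : ∃ β > (0 : ℝ),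
    ∀ η > (0 : ℝ), ∀ b : ℕ, 1 ≤ b → ∃ n₀ : ℕ,
    ∀ (V : Type) [Fintype V] [DecidableEq V], n₀ ≤ Fintype.card V → ∀ K : Set (Finset V),
      Cx K k ((1 - 1 / (k : ℝ) - β) * (Fintype.card V : ℝ)) → (∀ v, {v} ∈ K) → ¬ NearExt K k γ →
      ∃ L : List (List V), (∀ B ∈ L, B.length = k * b ∧ Tight K k B) ∧ L.flatten.Nodup ∧
        (1 - η) * (Fintype.card V : ℝ) ≤ (L.flatten.length : ℝ) := by
  obtain ⟨β, hβ, hdual⟩ := robust_dual k hk γ hγ
  refine ⟨β, hβ, ?_⟩
  intro η hη b hb
  have hk0 : 0 < k := by omega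
  have hr3 : 3 ≤ k * b := by nlinarith
  obtain ⟨ε, hε, hnib⟩ := nibble (k * b) (by omega) η hη
  obtain ⟨c₀, hc₀, n₁, hdual1⟩ := hdual ε hε
  set c := min c₀ 1 with hc
  have hcpos : 0 < c := lt_min hc₀ one_pos
  have hc1 : c ≤ 1 := min_le_right _ _
  set c1 := c ^ (b ^ k) / 2 with hc1d
  have hc1pos : 0 < c1 := by positivity
  set R : ℝ := ((k * b : ℕ) : ℝ) with hR
  have hRpos : 0 < R := by rw [hR]; exact_mod_cast (by omega : 0 < k * b)
  obtain ⟨n₂, hn₂⟩ := exists_nat_ge (1 / ε)
  obtain ⟨n₃, hn₃⟩ := exists_nat_ge (R / (c1 * ε))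
  obtain ⟨n₄, hn₄⟩ := exists_nat_ge (R ^ 2 / c1)
  refine ⟨max (max n₁ n₂) (max (max n₃ n₄) 1), ?_⟩
  intro V _ _ hn K hK hvK hne
  classical
  have hn1 : n₁ ≤ Fintype.card V := le_trans (le_max_left _ _) (le_trans (le_max_left _ _) hn)
  have hn2 : n₂ ≤ Fintype.card V := le_trans (le_max_right _ _) (le_trans (le_max_left _ _) hn)
  have hn3 : n₃ ≤ Fintype.card V := le_trans (le_max_left _ _) (le_trans (le_max_left _ _)
    (le_trans (le_max_right _ _) hn))
  have hn4 : n₄ ≤ Fintype.card V := le_trans (le_max_right _ _) (le_trans (le_max_left _ _)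
    (le_trans (le_max_right _ _) hn))
  have hn5 : 1 ≤ Fintype.card V := le_trans (le_max_right _ _) (le_trans (le_max_right _ _) hn)
  have : Nonempty V := Fintype.card_pos_iff.1 hn5
  set N : ℝ := (Fintype.card V : ℝ) with hN
  have hNpos : 0 < N := by rw [hN]; exact_mod_cast hn5
  have hN2 : 1 / ε ≤ N := hn₂.trans (by rw [hN]; exact_mod_cast hn2)
  have hN3 : R / (c1 * ε) ≤ N := hn₃.trans (by rw [hN]; exact_mod_cast hn3)
  have hN4 : R ^ 2 / c1 ≤ N := hn₄.trans (by rw [hN]; exact_mod_cast hn4)
  have hpow1 : N ^ (k * b) = N * N ^ (k * b - 1) := by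
    rw [← pow_succ']; congr 1; omega
  have hpow2 : N ^ (k * b) = N ^ 2 * N ^ (k * b - 2) := by
    rw [← pow_add]; congr 1; omega
  -- the tiles
  let ι : Type := {x : Fin k → Fin b → V // CoverTile K k b x}
  set ρ : ℝ := (1 + ε) * R / N with hρ
  have hρpos : 0 < ρ := by positivity
  set M : ℝ := 1 / (c1 * N ^ (k * b)) with hM
  have hMpos : 0 < M := by positivity
  have hM1 : 1 / M = c1 * N ^ (k * b) := by rw [hM, one_div_one_div]
  obtain ⟨ω, hω0, hωM, hω1, hωρ⟩ := spread (V := V) (ι := ι) (fun i => coverSet i.1) ρ M hρpos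
    hMpos (by
      intro w hw
      rw [hM1]
      set E : (Fin k → V) → Prop := fun f => EdgeF K f ∧
        ∑ i, w (f i) ≤ (1 + ε) * (k / Fintype.card V) * ∑ v, w v with hE
      have h1 : c * (Fintype.card V : ℝ) ^ k ≤ (cnt E : ℝ) :=
        le_trans (mul_le_mul_of_nonneg_right (min_le_left _ _) (by positivity))
          (hdual1 V hn1 K hK hvK hne w hw)
      have h2 := supersat k b c hcpos.le hc1 E h1
      have h3 : cnt (fun x : Fin k → Fin b → V => ∀ φ : Fin k → Fin b, E (fun i => x i (φ i))) ≤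
          cnt (fun x : Fin k → Fin b → V =>
            ¬ Function.Injective (fun p : Fin k × Fin b => x p.1 p.2)) +
          cnt (fun i : ι => ∑ v ∈ coverSet i.1, w v ≤ ρ * ∑ v, w v) := by
        refine le_trans ?_ (Nat.add_le_add_left (cover_cnt_sub (CoverTile K k b)
          (fun x => ∑ v ∈ coverSet x, w v ≤ ρ * ∑ v, w v)) _)
        refine le_trans ?_ (cnt_or_le _ _)
        apply cnt_mono
        intro x hx
        by_cases hinj : Function.Injective (fun p : Fin k × Fin b => x p.1 p.2)
        · right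
          refine ⟨⟨hinj, fun φ => (hx φ).1⟩, ?_⟩
          refine (cover_weight hinj w _ (fun φ => (hx φ).2)).trans (le_of_eq ?_)
          rw [hρ, hR]
          push_cast
          ring
        · left; exact hinj
      have h4 := cover_noninj (V := V) (k := k) (b := b)
      have h5 : (cnt (fun x : Fin k → Fin b → V =>
            ¬ Function.Injective (fun p : Fin k × Fin b => x p.1 p.2)) : ℝ) ≤
            R ^ 2 * N ^ (k * b - 1) := by
        calc (cnt (fun x : Fin k → Fin b → V =>
            ¬ Function.Injective (fun p : Fin k × Fin b => x p.1 p.2)) : ℝ) ≤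
            (((k * b) ^ 2 * Fintype.card V ^ (k * b - 1) : ℕ) : ℝ) := by exact_mod_cast h4
          _ = R ^ 2 * N ^ (k * b - 1) := by rw [hR, hN]; push_cast; ring
      have h6 : R ^ 2 * N ^ (k * b - 1) ≤ c1 * N ^ (k * b) := by
        rw [hpow1, ← mul_assoc]
        apply mul_le_mul_of_nonneg_right _ (by positivity)
        rw [div_le_iff₀ hc1pos] at hN4
        linarith
      have h7 : c ^ (b ^ k) * (Fintype.card V : ℝ) ^ (k * b) = 2 * (c1 * N ^ (k * b)) := by
        rw [hc1d, hN]; ring
      rw [h7] at h2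
      have h3' : (cnt (fun x : Fin k → Fin b → V =>
          ∀ φ : Fin k → Fin b, E (fun i => x i (φ i))) : ℝ) ≤
          cnt (fun x : Fin k → Fin b → V =>
            ¬ Function.Injective (fun p : Fin k × Fin b => x p.1 p.2)) +
          cnt (fun i : ι => ∑ v ∈ coverSet i.1, w v ≤ ρ * ∑ v, w v) := by exact_mod_cast h3
      linarith)
  -- the fractional matching
  obtain ⟨I, hI1, hI2⟩ := hnib V ι (fun i => coverSet i.1) (fun i => ω i / ρ)
    (fun i => i.2.card) (fun i => div_nonneg (hω0 i) hρpos.le)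
    (by
      intro v
      rw [← Finset.sum_div, div_le_one hρpos]
      exact hωρ v)
    (by
      intro u v huv
      have h1 : ∀ i ∈ Finset.univ.filter (fun i : ι => u ∈ coverSet i.1 ∧ v ∈ coverSet i.1),
          ω i / ρ ≤ M / ρ := fun i _ => div_le_div_of_nonneg_right (hωM i) hρpos.le
      refine (Finset.sum_le_card_nsmul _ _ _ h1).trans ?_
      rw [nsmul_eq_mul]
      have h2 : (Finset.univ.filter (fun i : ι => u ∈ coverSet i.1 ∧ v ∈ coverSet i.1)).card ≤
          (k * b) ^ 2 * Fintype.card V ^ (k * b - 2) := by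
        rw [← cnt_eq]
        have h3 : cnt (fun i : ι => u ∈ coverSet i.1 ∧ v ∈ coverSet i.1) ≤
            cnt (fun x : Fin k → Fin b → V => u ∈ coverSet x ∧ v ∈ coverSet x) := by
          rw [cnt_eq, cnt_eq]
          apply Finset.card_le_card_of_injOn (fun i : ι => i.1)
          · intro i hi
            simpa using hi
          · intro i _ j _ hij
            exact Subtype.ext hij
        refine h3.trans ?_
        have h4 : cnt (fun x : Fin k → Fin b → V => u ∈ coverSet x ∧ v ∈ coverSet x) ≤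
            cnt (fun x : Fin k → Fin b → V => ∃ pq : (Fin k × Fin b) × (Fin k × Fin b),
              x pq.1.1 pq.1.2 = u ∧ x pq.2.1 pq.2.2 = v) := by
          apply cnt_mono
          intro x hx
          obtain ⟨p, hp⟩ := mem_coverSet.1 hx.1
          obtain ⟨q, hq⟩ := mem_coverSet.1 hx.2
          exact ⟨(p, q), hp, hq⟩
        refine h4.trans ((cover_cnt_exists_le _).trans ?_)
        have h5 : ∀ pq : (Fin k × Fin b) × (Fin k × Fin b),
            cnt (fun x : Fin k → Fin b → V => x pq.1.1 pq.1.2 = u ∧ x pq.2.1 pq.2.2 = v) ≤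
              Fintype.card V ^ (k * b - 2) := by
          intro pq
          by_cases h : pq.1 = pq.2
          · have : cnt (fun x : Fin k → Fin b → V =>
                x pq.1.1 pq.1.2 = u ∧ x pq.2.1 pq.2.2 = v) = 0 := by
              rw [cnt_eq, Finset.card_eq_zero, Finset.filter_eq_empty_iff]
              intro x _ hx
              apply huv
              rw [← hx.1, ← hx.2, h]
            rw [this]; exact Nat.zero_le _
          · exact cover_cnt_eq2 _ _ h u v
        refine (Finset.sum_le_sum fun pq _ => h5 pq).trans (le_of_eq ?_)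
        rw [Finset.sum_const, smul_eq_mul, Finset.card_univ, Fintype.card_prod, Fintype.card_prod,
          Fintype.card_fin, Fintype.card_fin]
        ring
      have h3 : ((Finset.univ.filter (fun i : ι => u ∈ coverSet i.1 ∧ v ∈ coverSet i.1)).card : ℝ)
          ≤ R ^ 2 * N ^ (k * b - 2) := by
        calc ((Finset.univ.filter
              (fun i : ι => u ∈ coverSet i.1 ∧ v ∈ coverSet i.1)).card : ℝ) ≤
            (((k * b) ^ 2 * Fintype.card V ^ (k * b - 2) : ℕ) : ℝ) := by exact_mod_cast h2
          _ = R ^ 2 * N ^ (k * b - 2) := by rw [hR, hN]; push_cast; ring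
      refine (mul_le_mul_of_nonneg_right h3 (by positivity)).trans ?_
      have h4 : R ^ 2 * N ^ (k * b - 2) * (M / ρ) = R / (c1 * (1 + ε) * N) := by
        rw [hM, hρ, hpow2]
        field_simp
      rw [h4]
      rw [div_le_iff₀ (by positivity)] at hN3
      rw [div_le_iff₀ (by positivity)]
      have h5 : 0 ≤ ε * (c1 * ε * N) := by positivity
      nlinarith)
    hN2
    (by
      rw [← Finset.sum_div, hω1]
      have h1 : ((k * b : ℕ) : ℝ) * (1 / ρ) = N / (1 + ε) := by
        rw [hρ, ← hR]
        field_simp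
      rw [h1, le_div_iff₀ (by positivity)]
      have h2 : 0 ≤ ε ^ 2 * N := by positivity
      rw [← hN]
      nlinarith)
  -- the paths
  refine ⟨I.toList.map (fun i => List.ofFn (coverF hk0 i.1)), ?_, ?_, ?_⟩
  · intro B hB
    obtain ⟨i, -, rfl⟩ := List.mem_map.1 hB
    exact ⟨List.length_ofFn, i.2.tight hk0⟩
  · rw [List.nodup_flatten]
    constructor
    · intro B hB
      obtain ⟨i, -, rfl⟩ := List.mem_map.1 hB
      exact List.nodup_ofFn.2 (i.2.inj hk0)
    · rw [List.pairwise_map]
      refine (Finset.nodup_toList I).pairwise_of_forall_ne ?_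
      intro i hi j hj hij
      have hd := hI1 i (Finset.mem_toList.1 hi) j (Finset.mem_toList.1 hj) hij
      rw [List.disjoint_iff_ne]
      intro a ha a' ha' he
      obtain ⟨s, rfl⟩ := (List.mem_ofFn' _ _).1 ha
      obtain ⟨t, rfl⟩ := (List.mem_ofFn' _ _).1 ha'
      exact Finset.disjoint_left.1 hd (coverF_mem hk0 s) (he ▸ coverF_mem hk0 t)
  · refine hI2.trans (le_of_eq ?_)
    rw [List.length_flatten, List.map_map]
    have : (List.length ∘ fun i : ι => List.ofFn (coverF hk0 i.1)) = fun _ => k * b := by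
      funext i
      simp
    rw [this]
    simp [mul_comm, hR]

end Pool.Agent.THC
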