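import Pool.Agent.Lib.MP_5c6f2e_co.Lists

/-!
# MP_5c6f2e_co, piece P15: Dirac's theorem (the case k = 2)
-/

set_option autoImplicit false

namespace Pool.Agent.THC

open Finset

section dirac_aux

variable {α : Type} [Fintype α] [DecidableEq α]

private theorem dr_gen [Nonempty α] (adj : α → α → Prop) [DecidableRel adj]
    (hs : ∀ a b, adj a b → adj b a) (hi : ∀ a, ¬ adj a a)
    (hd : ∀ v, Fintype.card α ≤ 2 * (Finset.univ.filter (adj v)).card) :
    ∃ l : List α, l.Nodup ∧ (∀ v, v ∈ l) ∧ (l ++ l.take 1).IsChain adj := by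
  classical
  -- longest path
  let P : ℕ → Prop := fun m => ∃ l : List α, l.length = m ∧ l.Nodup ∧ l.IsChain adj
  have hPle : ∀ m, P m → m ≤ Fintype.card α := by
    rintro m ⟨l, rfl, hl, -⟩
    exact hl.length_le_card
  obtain ⟨v0⟩ := (inferInstance : Nonempty α)
  have hP1 : P 1 := ⟨[v0], rfl, List.nodup_singleton _, List.IsChain.singleton _⟩
  obtain ⟨m, hm, hmax⟩ : ∃ m, P m ∧ ∀ m', P m' → m' ≤ m := by
    refine ⟨Nat.findGreatest P (Fintype.card α), ?_, ?_⟩
    · exact Nat.findGreatest_spec (hPle 1 hP1) hP1
    · intro m' hm'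
      exact Nat.le_findGreatest (hPle m' hm') hm'
  have hm1 : 1 ≤ m := hmax 1 hP1
  obtain ⟨l, hlen, hnd, hch⟩ := hm
  subst hlen
  set m := l.length with hmdef
  have hno : ∀ l' : List α, l'.Nodup → l'.IsChain adj → l'.length ≤ m := fun l' h1 h2 =>
    hmax _ ⟨l', rfl, h1, h2⟩
  have h0 : 0 < m := hm1
  let a : α := l[0]
  let z : α := l[m - 1]
  have hne : l ≠ [] := by
    intro h
    rw [hmdef, h] at h0
    simp at h0
  have hhead : l.head? = some a := by
    simp [a, List.head?_eq_getElem?]
  have hlast : l.getLast? = some z := by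
    simp [z, List.getLast?_eq_getElem?, hmdef]
  have hNa : ∀ u, adj a u → u ∈ l := by
    intro u hu
    by_contra hul
    have h1 : (u :: l).Nodup := List.nodup_cons.2 ⟨hul, hnd⟩
    have h2 : (u :: l).IsChain adj := by
      rw [List.isChain_cons]
      refine ⟨?_, hch⟩
      intro y hy
      rw [hhead] at hy
      simp at hy
      rw [← hy]
      exact hs _ _ hu
    have := hno _ h1 h2
    simp at this
    omega
  have hNz : ∀ u, adj z u → u ∈ l := by
    intro u hu
    by_contra hul
    have h1 : (l ++ [u]).Nodup := by
      rw [List.nodup_append]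
      refine ⟨hnd, List.nodup_singleton _, ?_⟩
      intro x hx y hy
      simp at hy
      rintro rfl
      exact hul (hy ▸ hx)
    have h2 : (l ++ [u]).IsChain adj := by
      rw [List.isChain_append]
      refine ⟨hch, List.IsChain.singleton _, ?_⟩
      intro x hx y hy
      rw [hlast] at hx
      simp at hx hy
      rw [← hx, ← hy]
      exact hu
    have := hno _ h1 h2
    simp at this
    omega
  -- pigeonhole
  let f : ℕ → α := fun i => l.getD i a
  have hf : ∀ i (hi : i < m), f i = l[i] := fun i hi => List.getD_eq_getElem _ _ hi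
  let I : Finset ℕ := (Finset.range (m - 1)).filter (fun i => adj a (f (i + 1)))
  let J : Finset ℕ := (Finset.range (m - 1)).filter (fun i => adj z (f i))
  have hI : (Finset.univ.filter (adj a)).card ≤ I.card := by
    refine le_trans (Finset.card_le_card ?_) (Finset.card_image_le (s := I)
      (f := fun i => f (i + 1)))
    intro u hu
    have hau : adj a u := (Finset.mem_filter.1 hu).2
    obtain ⟨j, hj, rfl⟩ := List.getElem_of_mem (hNa u hau)
    have hj0 : j ≠ 0 := by
      rintro rfl
      exact hi _ hau
    obtain ⟨i, rfl⟩ : ∃ i, j = i + 1 := ⟨j - 1, by omega⟩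
    rw [Finset.mem_image]
    refine ⟨i, ?_, hf _ hj⟩
    rw [Finset.mem_filter, Finset.mem_range]
    refine ⟨by omega, ?_⟩
    rw [hf _ hj]
    exact hau
  have hJ : (Finset.univ.filter (adj z)).card ≤ J.card := by
    refine le_trans (Finset.card_le_card ?_) (Finset.card_image_le (s := J) (f := f))
    intro u hu
    have hau : adj z u := (Finset.mem_filter.1 hu).2
    obtain ⟨j, hj, rfl⟩ := List.getElem_of_mem (hNz u hau)
    have hj0 : j ≠ m - 1 := by
      rintro rfl
      exact hi _ hau
    rw [Finset.mem_image]
    refine ⟨j, ?_, hf _ hj⟩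
    rw [Finset.mem_filter, Finset.mem_range]
    refine ⟨by omega, ?_⟩
    rw [hf _ hj]
    exact hau
  have hmn : m ≤ Fintype.card α := hnd.length_le_card
  obtain ⟨i, hiI, hiJ⟩ : ∃ i, i ∈ I ∧ i ∈ J := by
    by_contra hcon
    push Not at hcon
    have hdisj : Disjoint I J := Finset.disjoint_left.2 hcon
    have h1 : (I ∪ J).card = I.card + J.card := Finset.card_union_of_disjoint hdisj
    have h2 : (I ∪ J).card ≤ m - 1 := by
      have : I ∪ J ⊆ Finset.range (m - 1) :=
        Finset.union_subset (Finset.filter_subset _ _) (Finset.filter_subset _ _)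
      simpa using Finset.card_le_card this
    have h3 := hd a
    have h4 := hd z
    omega
  have hi1 : i < m - 1 := Finset.mem_range.1 (Finset.mem_filter.1 hiI).1
  have hia : adj a (f (i + 1)) := (Finset.mem_filter.1 hiI).2
  have hiz : adj z (f i) := (Finset.mem_filter.1 hiJ).2
  rw [hf _ (by omega)] at hia hiz
  -- the cycle
  let A := l.take (i + 1)
  let B := l.drop (i + 1)
  have hAB : A ++ B = l := List.take_append_drop _ _
  have hAlen : A.length = i + 1 := by
    simp only [A, List.length_take]
    omega
  have hBlen : B.length = m - (i + 1) := by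
    simp only [B, List.length_drop, hmdef]
  have hAhead : A.head? = some a := by
    have : A.head? = l.head? := by
      simp [A, List.head?_take]
    rw [this, hhead]
  have hAlast : A.getLast? = some (l[i]) := by
    rw [List.getLast?_eq_getElem?, hAlen]
    simp only [A]
    rw [List.getElem?_take]
    simp
  have hBhead : B.head? = some (l[i + 1]) := by
    simp only [B, List.head?_drop]
    simp
  have hBlast : B.getLast? = some z := by
    rw [List.getLast?_eq_getElem?, hBlen]
    simp only [B, List.getElem?_drop]
    rw [List.getElem?_eq_getElem (by omega)]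
    congr 2
    omega
  let C := A ++ B.reverse
  have hCnd : C.Nodup := by
    have : C.Perm l := by
      have h1 : C.Perm (A ++ B) := List.Perm.append_left A (List.reverse_perm B)
      rw [hAB] at h1
      exact h1
    exact this.nodup_iff.2 hnd
  have hCmem : ∀ x, x ∈ C ↔ x ∈ l := by
    intro x
    rw [← hAB]
    simp [C]
  have hClen : C.length = m := by
    simp only [C, List.length_append, List.length_reverse, hAlen, hBlen]
    omega
  have hCtake : C.take 1 = [a] := by
    obtain ⟨x, A', hA'⟩ : ∃ x A', A = x :: A' := by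
      cases hA' : A with
      | nil => rw [hA'] at hAhead; simp at hAhead
      | cons x A' => exact ⟨x, A', rfl⟩
    simp only [C, hA']
    rw [hA'] at hAhead
    simp at hAhead
    simp [hAhead]
  have hCch : (C ++ C.take 1).IsChain adj := by
    rw [hCtake, List.isChain_append]
    refine ⟨?_, List.IsChain.singleton _, ?_⟩
    · simp only [C]
      rw [List.isChain_append]
      refine ⟨hch.take _, ?_, ?_⟩
      · rw [List.isChain_reverse]
        exact (hch.drop _).imp (fun x y h => hs _ _ h)
      · intro x hx y hy
        rw [hAlast] at hx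
        rw [List.head?_reverse, hBlast] at hy
        simp at hx hy
        rw [← hx, ← hy]
        exact hs _ _ hiz
    · intro x hx y hy
      have hlastC : C.getLast? = some (l[i + 1]) := by
        simp only [C]
        rw [List.getLast?_append, List.getLast?_reverse, hBhead]
        simp
      rw [hlastC] at hx
      simp at hx hy
      rw [← hx, ← hy]
      exact hs _ _ hia
  refine ⟨C, hCnd, ?_, hCch⟩
  by_contra hcon
  push Not at hcon
  obtain ⟨w, hw⟩ := hcon
  have hwl : w ∉ l := fun h => hw ((hCmem w).2 h)
  -- w has a neighbour on the cycle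
  obtain ⟨x, hwx, hx⟩ : ∃ x, adj w x ∧ x ∈ l := by
    by_contra hcon
    push Not at hcon
    have h1 : (Finset.univ.filter (adj w)) ⊆ (Finset.univ \ (insert w l.toFinset)) := by
      intro u hu
      have hwu : adj w u := (Finset.mem_filter.1 hu).2
      rw [Finset.mem_sdiff]
      refine ⟨Finset.mem_univ _, ?_⟩
      rw [Finset.mem_insert, List.mem_toFinset]
      rintro (rfl | h)
      · exact hi _ hwu
      · exact hcon u hwu h
    have h2 := Finset.card_le_card h1
    rw [Finset.card_sdiff_of_subset (Finset.subset_univ _), Finset.card_univ,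
      Finset.card_insert_of_notMem (by simpa using hwl), List.toFinset_card_of_nodup hnd] at h2
    have h3 : insert a (Finset.univ.filter (adj a)) ⊆ l.toFinset := by
      intro u hu
      rw [Finset.mem_insert] at hu
      rw [List.mem_toFinset]
      rcases hu with rfl | hu
      · exact List.getElem_mem _
      · exact hNa u (Finset.mem_filter.1 hu).2
    have h4 := Finset.card_le_card h3
    rw [Finset.card_insert_of_notMem (by simp [hi]), List.toFinset_card_of_nodup hnd] at h4
    have h5 := hd a
    have h6 := hd w
    omega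
  -- rotate
  obtain ⟨C1, C2, hC⟩ := List.mem_iff_append.1 ((hCmem x).2 hx)
  have hnew : (w :: (x :: C2 ++ C1)).IsChain adj := by
    rw [List.cons_append, List.isChain_cons_cons]
    refine ⟨hwx, ?_⟩
    rw [← List.cons_append, List.isChain_append]
    cases C1 with
    | nil =>
      simp only [List.nil_append] at hC
      refine ⟨?_, List.isChain_nil, by simp⟩
      rw [← hC]
      exact (List.isChain_append.1 hCch).1
    | cons c C1' =>
      have h1 : C.take 1 = [c] := by rw [hC]; simp
      rw [h1, hC, List.append_assoc, List.isChain_append] at hCch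
      obtain ⟨h2, h3, -⟩ := hCch
      rw [List.isChain_append] at h3
      refine ⟨h3.1, h2, ?_⟩
      intro u hu v hv
      refine h3.2.2 u hu v ?_
      simpa using hv
  have hnewnd : (w :: (x :: C2 ++ C1)).Nodup := by
    rw [List.nodup_cons]
    have hperm : (x :: C2 ++ C1).Perm C := by
      rw [hC]
      exact List.perm_append_comm
    exact ⟨fun h => hw (hperm.mem_iff.1 h), hperm.nodup_iff.2 hCnd⟩
  have := hno _ hnewnd hnew
  have hlen2 : (x :: C2 ++ C1).length = m := by
    rw [← hClen, hC]
    simp only [List.length_append, List.length_cons]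
    omega
  rw [List.length_cons, hlen2] at this
  omega

end dirac_aux

theorem dirac {n : ℕ} (hn : 3 ≤ n) (H : Finset (Finset (Fin n)))
    (hH : ∀ e ∈ H, e.card = 2) (hcov : ∀ v : Fin n, ∃ e ∈ H, v ∈ e)
    (hdeg : ∀ S : Finset (Fin n), S.card = 2 - 1 → (∃ e ∈ H, S ⊆ e) →
          (1 - 1 / ((2 : ℕ) : ℝ)) * (n : ℝ) ≤
            ((Finset.univ.filter (fun v : Fin n => v ∉ S ∧ insert v S ∈ H)).card : ℝ)) :
    ∃ g : ℕ → Fin n,
      (∀ i : ℕ, g (i + n) = g i) ∧
      (∀ i j : ℕ, i < n → j < n → g i = g j → i = j) ∧
      (∀ i : ℕ, (Finset.range 2).image (fun j => g (i + j)) ∈ H) := by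
  classical
  have hpos : 0 < n := by omega
  have : Nonempty (Fin n) := ⟨⟨0, hpos⟩⟩
  let adj : Fin n → Fin n → Prop := fun u v => v ≠ u ∧ ({u, v} : Finset (Fin n)) ∈ H
  obtain ⟨l, hnd, hall, hch⟩ := dr_gen adj
    (fun a b h => ⟨h.1.symm, by rw [Finset.pair_comm]; exact h.2⟩)
    (fun a h => h.1 rfl)
    (by
      intro v
      have h1 := hdeg {v} (by simp) (by
        obtain ⟨e, he, hve⟩ := hcov v
        exact ⟨e, he, by simpa using hve⟩)
      have h2 : (Finset.univ.filter (fun u : Fin n => u ∉ ({v} : Finset (Fin n)) ∧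
          insert u {v} ∈ H)) = Finset.univ.filter (adj v) := by
        ext u
        simp only [Finset.mem_filter, Finset.mem_univ, true_and, Finset.mem_singleton, adj]
        rw [Finset.pair_comm]
      rw [h2] at h1
      rw [Fintype.card_fin]
      have h3 : (n : ℝ) ≤ 2 * ((Finset.univ.filter (adj v)).card : ℝ) := by
        push_cast at h1
        linarith
      exact_mod_cast h3)
  refine HamCyc.toFun (by norm_num) (by omega) hH ⟨l, hnd, hall, ?_⟩
  intro w hw hwl
  have hwch : w.IsChain adj := by
    obtain ⟨s, t, hst⟩ := hw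
    rw [← hst] at hch
    exact hch.left_of_append.right_of_append
  match w, hwl, hwch with
  | [a, b], _, hwch =>
    rw [List.isChain_cons_cons] at hwch
    obtain ⟨hne, hmem⟩ := hwch.1
    refine ⟨by simp [hne.symm], {a, b}, hmem, ?_⟩
    simp

end Pool.Agent.THC
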