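import Pool.Agent.Lib.MP_5c6f2e_co.Defs

/-!
# MP_5c6f2e_co P13a : good tuples, extension to pieces
-/

set_option autoImplicit false
set_option linter.unusedSectionVars false

namespace Pool.Agent.THC

open Finset

/-! ### counting -/

theorem good_cnt_le_of_inj {α β : Type*} [Fintype α] [Fintype β] {P : α → Prop} {Q : β → Prop}
    (f : α → β) (hf : ∀ a, P a → Q (f a)) (hi : ∀ a b, P a → P b → f a = f b → a = b) :
    cnt P ≤ cnt Q := by
  classical
  rw [cnt_eq, cnt_eq]
  refine Finset.card_le_card_of_injOn f ?_ ?_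
  · intro a ha
    simp only [Finset.coe_filter, Finset.mem_univ, true_and, Set.mem_ofPred_eq] at ha ⊢
    exact hf a ha
  · intro a ha b hb hab
    simp only [Finset.coe_filter, Finset.mem_univ, true_and, Set.mem_ofPred_eq] at ha hb
    exact hi a b ha hb hab

theorem good_cnt_prod_left {α β : Type*} [Fintype α] [Fintype β] (Q : α → Prop) :
    cnt (fun p : α × β => Q p.1) = cnt Q * Fintype.card β := by
  classical
  rw [cnt_eq, cnt_eq, ← Finset.card_univ, ← Finset.card_product]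
  congr 1
  ext p
  simp

/-- many completions of every element of a set give many pairs -/
theorem good_cnt_pairs {α β : Type*} [Fintype α] [Fintype β] (A : α → Prop) (P : α → β → Prop)
    (m : ℝ) (h : ∀ a, A a → m ≤ (cnt (P a) : ℝ)) :
    (cnt A : ℝ) * m ≤ (cnt (fun p : α × β => A p.1 ∧ P p.1 p.2) : ℝ) := by
  classical
  have h1 : cnt (fun p : α × β => A p.1 ∧ P p.1 p.2) =
      ∑ a ∈ Finset.univ.filter A, cnt (P a) := by
    rw [cnt_eq, Finset.card_filter, ← Finset.univ_product_univ, Finset.sum_product,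
      Finset.sum_filter]
    refine Finset.sum_congr rfl fun a _ => ?_
    by_cases ha : A a
    · simp only [ha, true_and, if_true]
      rw [cnt_eq, Finset.card_filter]
    · simp [ha]
  rw [h1, cnt_eq]
  push_cast
  rw [← nsmul_eq_mul]
  exact Finset.card_nsmul_le_sum _ _ _ fun a ha => h a (Finset.mem_filter.1 ha).2

theorem good_cnt_exists_le {α ι : Type*} [Fintype α] [DecidableEq ι] (T : Finset ι)
    (P : ι → α → Prop) :
    cnt (fun a => ∃ i ∈ T, P i a) ≤ ∑ i ∈ T, cnt (P i) := by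
  classical
  have : cnt (fun a => ∃ i ∈ T, P i a) =
      (T.biUnion fun i => Finset.univ.filter (P i)).card := by
    rw [cnt_eq]; congr 1; ext a; simp
  rw [this]
  refine Finset.card_biUnion_le.trans (le_of_eq ?_)
  exact Finset.sum_congr rfl fun i _ => (cnt_eq _).symm

theorem good_cnt_not {α : Type*} [Fintype α] (P : α → Prop) :
    cnt P + cnt (fun a => ¬ P a) = Fintype.card α := by
  classical
  rw [cnt_eq, cnt_eq, Finset.card_filter_add_card_filter_not, Finset.card_univ]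

/-- sequential counting -/
theorem good_tree_count {V : Type*} [Fintype V] (d : ℝ) (hd : 0 ≤ d) (r : ℕ) (P : List V → Prop)
    (h0 : P []) (hs : ∀ l : List V, P l → l.length < r → d ≤ (cnt (fun v => P (v :: l)) : ℝ)) :
    d ^ r ≤ (cnt (fun f : Fin r → V => P (List.ofFn f)) : ℝ) := by
  classical
  induction r with
  | zero =>
    have : cnt (fun f : Fin 0 → V => P (List.ofFn f)) = 1 := by
      rw [cnt_eq, Finset.filter_true_of_mem]
      · simp
      · intro f _; simpa using h0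
    rw [this]; simp
  | succ r ih =>
    have h1 := ih (fun l hl hr => hs l hl (by omega))
    have h2 := good_cnt_pairs (fun f : Fin r → V => P (List.ofFn f))
      (fun f v => P (v :: List.ofFn f)) d (fun f hf => hs _ hf (by simp))
    have h3 : cnt (fun p : (Fin r → V) × V => P (List.ofFn p.1) ∧ P (p.2 :: List.ofFn p.1)) ≤
        cnt (fun f : Fin (r + 1) → V => P (List.ofFn f)) := by
      refine good_cnt_le_of_inj (fun p => Fin.cons p.2 p.1) ?_ ?_
      · rintro ⟨f, v⟩ ⟨_, hp⟩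
        simpa [List.ofFn_succ] using hp
      · rintro ⟨f, v⟩ ⟨g, w⟩ _ _ hfg
        simp only at hfg
        rw [Fin.cons_inj] at hfg
        exact Prod.ext hfg.2 hfg.1
    calc d ^ (r + 1) = d ^ r * d := pow_succ _ _
      _ ≤ (cnt (fun f : Fin r → V => P (List.ofFn f)) : ℝ) * d := by gcongr
      _ ≤ _ := h2
      _ ≤ _ := by exact_mod_cast h3

variable {V : Type} [Fintype V] [DecidableEq V]

theorem good_edgeL_ofFn {K : Set (Finset V)} {m : ℕ} (f : Fin m → V) :
    EdgeL K (List.ofFn f) ↔ EdgeF K f := by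
  unfold EdgeL EdgeF
  rw [List.nodup_ofFn]
  have : (List.ofFn f).toFinset = Finset.univ.image f := by
    ext v; simp [List.mem_ofFn]
  rw [this]

theorem good_edgeL_perm {K : Set (Finset V)} {l m : List V} (hp : l.Perm m) :
    EdgeL K l ↔ EdgeL K m := by
  unfold EdgeL
  rw [hp.nodup_iff, List.toFinset_eq_of_perm _ _ hp]

/-- number of bad completions of the list `F` by `m` vertices -/
noncomputable def goodBadc (K : Set (Finset V)) (Y : Finset V) (F : List V) (m : ℕ) : ℕ :=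
  cnt (fun g : Fin m → V => OneY Y g ∧ ¬ EdgeL K (F ++ List.ofFn g))

theorem goodS_iff {K : Set (Finset V)} {k : ℕ} {α : ℝ} {Y : Finset V} {s : List V} :
    GoodS K k α Y s ↔ ∀ F : List V, F.Sublist s → F ≠ [] →
      (goodBadc K Y F (k - F.length) : ℝ) ≤ α * (Fintype.card V : ℝ) ^ (k - F.length) :=
  Iff.rfl

theorem goodBadc_perm {K : Set (Finset V)} {Y : Finset V} {F F' : List V} (h : F.Perm F') (m : ℕ) :
    goodBadc K Y F m = goodBadc K Y F' m := by
  unfold goodBadc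
  refine cnt_congr fun g => ?_
  rw [good_edgeL_perm (h.append_right _)]

theorem GoodS.reverse {K : Set (Finset V)} {k : ℕ} {α : ℝ} {Y : Finset V} {s : List V}
    (h : GoodS K k α Y s) : GoodS K k α Y s.reverse := by
  rw [goodS_iff] at h ⊢
  intro F hF hne
  have h1 := h F.reverse (List.sublist_reverse_iff.1 hF) (by simpa using hne)
  rw [List.length_reverse, goodBadc_perm (List.reverse_perm F)] at h1
  exact h1

theorem Tight.good_reverse {K : Set (Finset V)} {k : ℕ} {l : List V} (h : Tight K k l) :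
    Tight K k l.reverse := by
  intro w hw hlen
  have h1 : w.reverse <:+: l := by
    rw [← List.reverse_infix, List.reverse_reverse]; exact hw
  have h2 := h w.reverse h1 (by simpa using hlen)
  exact (good_edgeL_perm (List.reverse_perm w)).1 h2

/-- the tuple with prefix `F` followed by `g` -/
private def glue {k j : ℕ} (F : List V) (hF : F.length = j) (g : Fin (k - j) → V) :
    Fin k → V :=
  fun i => if h : i.1 < j then F[i.1]'(by omega) else g ⟨i.1 - j, by have := i.2; omega⟩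

private theorem ofFn_glue {k j : ℕ} (hjk : j ≤ k) (F : List V) (hF : F.length = j)
    (g : Fin (k - j) → V) : List.ofFn (glue (k := k) F hF g) = F ++ List.ofFn g := by
  apply List.ext_getElem
  · simp [hF]; omega
  · intro i h1 h2
    simp only [List.getElem_ofFn, glue]
    by_cases h : i < j
    · simp only [h, dif_pos]
      rw [List.getElem_append_left]
    · simp only [h, dif_neg, not_false_iff]
      rw [List.getElem_append_right (by omega)]
      simp [List.getElem_ofFn, hF]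

private theorem oneY_glue {k j : ℕ} (hjk : j ≤ k) (Y : Finset V) (F : List V) (hF : F.length = j)
    (hFY : ∀ x ∈ F, x ∉ Y) (g : Fin (k - j) → V) (hg : OneY Y g) :
    OneY Y (glue (k := k) F hF g) := by
  obtain ⟨i, hi, hu⟩ := hg
  refine ⟨⟨i.1 + j, by have := i.2; omega⟩, ?_, ?_⟩
  · have : ¬ (i.1 + j < j) := by omega
    simp only [glue, this, dif_neg, not_false_iff]
    simpa using hi
  · intro i' hi'
    simp only [glue] at hi'
    by_cases h : i'.1 < j
    · simp only [h, dif_pos] at hi'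
      exact absurd hi' (hFY _ (List.getElem_mem _))
    · simp only [h, dif_neg, not_false_iff] at hi'
      have := hu _ hi'
      apply Fin.ext
      have h3 := congrArg Fin.val this
      simp only at h3 ⊢
      omega

/-- for a fixed position list, few tuples are bad -/
private theorem good_fixed {K : Set (Finset V)} {k : ℕ} {α ζ : ℝ} (hα : 0 < α)
    (hn : 0 < Fintype.card V)
    {Y A : Finset V} (h : ExtStr K k α ζ Y A) (p : List (Fin (k - 1))) (hp : p.Nodup) :
    (cnt (fun s : Fin (k - 1) → V => (∀ i, s i ∉ Y) ∧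
      α * (Fintype.card V : ℝ) ^ (k - p.length) < (goodBadc K Y (p.map s) (k - p.length) : ℝ)) : ℝ) ≤
      ζ / α * (Fintype.card V : ℝ) ^ (k - 1) := by
  classical
  set n := Fintype.card V with hnn
  have hnR : (0 : ℝ) < n := by exact_mod_cast hn
  have hplen : p.length ≤ k - 1 := by
    have := hp.length_le_card; simpa using this
  set j := p.length with hj
  have h1 := good_cnt_pairs (fun s : Fin (k - 1) → V => (∀ i, s i ∉ Y) ∧
      α * (n : ℝ) ^ (k - j) < (goodBadc K Y (p.map s) (k - j) : ℝ))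
      (fun s (g : Fin (k - j) → V) => OneY Y g ∧ ¬ EdgeL K (p.map s ++ List.ofFn g))
      (α * (n : ℝ) ^ (k - j)) (fun s hs => hs.2.le)
  have h2 : cnt (fun q : (Fin (k - 1) → V) × (Fin (k - j) → V) =>
      ((∀ i, q.1 i ∉ Y) ∧ α * (n : ℝ) ^ (k - j) < (goodBadc K Y (p.map q.1) (k - j) : ℝ)) ∧
        (OneY Y q.2 ∧ ¬ EdgeL K (p.map q.1 ++ List.ofFn q.2))) ≤
      cnt (fun q : (Fin k → V) × ({i // i ∉ p} → V) => OneY Y q.1 ∧ ¬ EdgeF K q.1) := by
    refine good_cnt_le_of_inj (fun q => (glue (k := k) (j := j) (p.map q.1) (by simp [hj]) q.2,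
      fun i => q.1 i.1)) ?_ ?_
    · rintro ⟨s, g⟩ ⟨⟨hs, _⟩, hg1, hg2⟩
      refine ⟨?_, ?_⟩
      · refine oneY_glue (by omega) _ _ (by simp [hj]) ?_ _ hg1
        intro x hx
        obtain ⟨i, _, rfl⟩ := List.mem_map.1 hx
        exact hs i
      · rw [← good_edgeL_ofFn, ofFn_glue (by omega)]
        exact hg2
    · rintro ⟨s, g⟩ ⟨s', g'⟩ _ _ heq
      simp only [Prod.mk.injEq] at heq
      obtain ⟨he1, he2⟩ := heq
      have he3 : p.map s ++ List.ofFn g = p.map s' ++ List.ofFn g' := by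
        rw [← ofFn_glue (k := k) (j := j) (by omega) (p.map s) (by simp [hj]) g,
          ← ofFn_glue (k := k) (j := j) (by omega) (p.map s') (by simp [hj]) g', he1]
      have he4 := List.append_inj he3 (by simp)
      have hgg : g = g' := List.ofFn_injective he4.2
      have hss : s = s' := by
        funext i
        by_cases hi : i ∈ p
        · exact List.map_inj_left.1 he4.1 i hi
        · exact congrFun he2 ⟨i, hi⟩
      rw [hgg, hss]
  have h3 : cnt (fun q : (Fin k → V) × ({i // i ∉ p} → V) => OneY Y q.1 ∧ ¬ EdgeF K q.1) =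
      cnt (fun f : Fin k → V => OneY Y f ∧ ¬ EdgeF K f) * n ^ (k - 1 - j) := by
    rw [good_cnt_prod_left (fun f : Fin k → V => OneY Y f ∧ ¬ EdgeF K f)]
    congr 1
    rw [Fintype.card_fun]
    congr 1
    have : Fintype.card {i // i ∉ p} = Fintype.card (Fin (k - 1)) - Fintype.card {i // i ∈ p} := by
      rw [Fintype.card_subtype_compl]
    rw [this, Fintype.card_fin]
    congr 1
    rw [Fintype.card_of_subtype p.toFinset (by intro x; simp)]
    rw [List.toFinset_card_of_nodup hp]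
  have h4 := h.tot
  rw [← hnn] at h4
  have h5 : (cnt (fun s : Fin (k - 1) → V => (∀ i, s i ∉ Y) ∧
      α * (n : ℝ) ^ (k - j) < (goodBadc K Y (p.map s) (k - j) : ℝ)) : ℝ) *
      (α * (n : ℝ) ^ (k - j)) ≤ ζ * (n : ℝ) ^ k * (n : ℝ) ^ (k - 1 - j) := by
    refine h1.trans ?_
    calc _ ≤ ((cnt (fun q : (Fin k → V) × ({i // i ∉ p} → V) => OneY Y q.1 ∧ ¬ EdgeF K q.1) : ℕ)
          : ℝ) := by exact_mod_cast h2
      _ = (cnt (fun f : Fin k → V => OneY Y f ∧ ¬ EdgeF K f) : ℝ) * (n : ℝ) ^ (k - 1 - j) := by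
          rw [h3]; push_cast; ring
      _ ≤ _ := by gcongr
  by_cases hk0 : k = 0
  · subst hk0
    have hcard : (cnt (fun s : Fin (0 - 1) → V => (∀ i, s i ∉ Y) ∧
      α * (n : ℝ) ^ (0 - j) < (goodBadc K Y (p.map s) (0 - j) : ℝ)) : ℝ) * α ≤ ζ := by
      simpa using h5
    simpa using (le_div_iff₀ hα).2 hcard
  · have e1 : (n : ℝ) ^ k * (n : ℝ) ^ (k - 1 - j) = (n : ℝ) ^ (k - 1) * (n : ℝ) ^ (k - j) := by
      rw [← pow_add, ← pow_add]; congr 1; omega
    rw [mul_assoc ζ, e1] at h5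
    have hpos : (0 : ℝ) < (n : ℝ) ^ (k - j) := by positivity
    have h6 : (cnt (fun s : Fin (k - 1) → V => (∀ i, s i ∉ Y) ∧
      α * (n : ℝ) ^ (k - j) < (goodBadc K Y (p.map s) (k - j) : ℝ)) : ℝ) * α ≤
        ζ * (n : ℝ) ^ (k - 1) := by
      refine le_of_mul_le_mul_right ?_ hpos
      calc _ = _ := by ring
        _ ≤ _ := h5
        _ = _ := by ring
    rw [div_mul_eq_mul_div]
    exact (le_div_iff₀ hα).2 h6

/-- most tuples outside `Y` are good -/
theorem good_count {K : Set (Finset V)} {k : ℕ} (hk : 3 ≤ k) {α ζ : ℝ} (hα : 0 < α) (hζ : 0 ≤ ζ)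
    {Y A : Finset V} (h : ExtStr K k α ζ Y A) :
    (cnt (fun s : Fin (k - 1) → V => (∀ i, s i ∉ Y) ∧ ¬ GoodS K k α Y (List.ofFn s)) : ℝ) ≤
      2 ^ (k - 1) * (ζ / α) * (Fintype.card V : ℝ) ^ (k - 1) := by
  classical
  rcases Nat.eq_zero_or_pos (Fintype.card V) with h0 | hn
  · have : IsEmpty V := Fintype.card_eq_zero_iff.1 h0
    have hE : IsEmpty (Fin (k - 1) → V) := ⟨fun f => this.elim (f ⟨0, by omega⟩)⟩
    have h1 : cnt (fun s : Fin (k - 1) → V => (∀ i, s i ∉ Y) ∧ ¬ GoodS K k α Y (List.ofFn s)) = 0 := by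
      rw [cnt_eq]; simp
    rw [h1]
    have : 0 ≤ ζ / α := div_nonneg hζ hα.le
    push_cast
    positivity
  set T : Finset (List (Fin (k - 1))) := (List.finRange (k - 1)).sublists.toFinset with hT
  have hTc : T.card ≤ 2 ^ (k - 1) := by
    refine (List.toFinset_card_le _).trans ?_
    rw [List.length_sublists, List.length_finRange]
  have h1 : cnt (fun s : Fin (k - 1) → V => (∀ i, s i ∉ Y) ∧ ¬ GoodS K k α Y (List.ofFn s)) ≤
      cnt (fun s : Fin (k - 1) → V => ∃ p ∈ T, (∀ i, s i ∉ Y) ∧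
      α * (Fintype.card V : ℝ) ^ (k - p.length) <
        (goodBadc K Y (p.map s) (k - p.length) : ℝ)) := by
    refine cnt_mono ?_
    rintro s ⟨hs, hb⟩
    rw [goodS_iff] at hb
    push Not at hb
    obtain ⟨F, hF, hne, hlt⟩ := hb
    rw [List.ofFn_eq_map, List.sublist_map_iff] at hF
    obtain ⟨p, hp, rfl⟩ := hF
    refine ⟨p, ?_, hs, ?_⟩
    · rw [hT]; simpa using hp
    · simpa using hlt
  have h2 := h1.trans (good_cnt_exists_le T _)
  calc (cnt (fun s : Fin (k - 1) → V => (∀ i, s i ∉ Y) ∧ ¬ GoodS K k α Y (List.ofFn s)) : ℝ)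
      ≤ ((∑ p ∈ T, cnt (fun s : Fin (k - 1) → V => (∀ i, s i ∉ Y) ∧
      α * (Fintype.card V : ℝ) ^ (k - p.length) <
        (goodBadc K Y (p.map s) (k - p.length) : ℝ)) : ℕ) : ℝ) := by exact_mod_cast h2
    _ = ∑ p ∈ T, (cnt (fun s : Fin (k - 1) → V => (∀ i, s i ∉ Y) ∧
      α * (Fintype.card V : ℝ) ^ (k - p.length) <
        (goodBadc K Y (p.map s) (k - p.length) : ℝ)) : ℝ) := by push_cast; rfl
    _ ≤ ∑ p ∈ T, ζ / α * (Fintype.card V : ℝ) ^ (k - 1) := by
        refine Finset.sum_le_sum fun p hp => good_fixed hα hn h p ?_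
        have : p.Sublist (List.finRange (k - 1)) := by rw [hT] at hp; simpa using hp
        exact this.nodup (List.nodup_finRange _)
    _ = (T.card : ℝ) * (ζ / α * (Fintype.card V : ℝ) ^ (k - 1)) := by
        rw [Finset.sum_const, nsmul_eq_mul]
    _ ≤ (2 ^ (k - 1) : ℝ) * (ζ / α * (Fintype.card V : ℝ) ^ (k - 1)) := by
        have : 0 ≤ ζ / α := div_nonneg hζ hα.le
        gcongr
        exact_mod_cast hTc
    _ = _ := by ring

/-! ### extension of a tight path to the left -/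

theorem good_cnt_avoid (P : V → Prop) (S : Finset V) :
    (cnt P : ℝ) - S.card ≤ (cnt (fun v => P v ∧ v ∉ S) : ℝ) := by
  classical
  have h : cnt P ≤ cnt (fun v => P v ∧ v ∉ S) + S.card := by
    have h1 : cnt P ≤ cnt (fun v => (P v ∧ v ∉ S) ∨ v ∈ S) :=
      cnt_mono fun v hv => by by_cases h : v ∈ S <;> simp [h, hv]
    have h2 : cnt (fun v : V => v ∈ S) = S.card := by
      rw [cnt_eq]; congr 1; ext v; simp
    exact h1.trans ((cnt_or_le _ _).trans (by rw [h2]))
  have : (cnt P : ℝ) ≤ (cnt (fun v => P v ∧ v ∉ S) : ℝ) + S.card := by exact_mod_cast h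
  linarith

theorem good_take_mem {K : Set (Finset V)} {k : ℕ} {D : ℝ} (hK : Cx K k D) {l : List V}
    (hl : k ≤ l.length) (ht : Tight K k l) : (l.take (k - 1)).toFinset ∈ K := by
  have h1 : EdgeL K (l.take k) := ht _ (List.take_prefix k l).isInfix (by simp [hl])
  refine hK.down _ h1.2 _ ?_
  intro x hx
  rw [List.mem_toFinset] at hx ⊢
  exact (List.take_prefix_take_left (by omega)).subset hx

theorem good_tight_cons {K : Set (Finset V)} {k : ℕ} (hk : 1 ≤ k) {l : List V}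
    (hl : k ≤ l.length) (hnd : l.Nodup) (ht : Tight K k l) {v : V} (hv : v ∉ l)
    (hvK : insert v (l.take (k - 1)).toFinset ∈ K) : Tight K k (v :: l) := by
  intro w hw hlen
  rcases List.infix_cons_iff.1 hw with h | h
  · have h1 : w = v :: l.take (k - 1) := by
      rw [List.prefix_iff_eq_take, hlen] at h
      rw [h]
      obtain ⟨m, rfl⟩ : ∃ m, k = m + 1 := ⟨k - 1, by omega⟩
      simp
    rw [h1]
    refine ⟨?_, ?_⟩
    · rw [List.nodup_cons]
      exact ⟨fun h => hv (List.mem_of_mem_take h), hnd.sublist (List.take_sublist _ _)⟩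
    · rw [List.toFinset_cons]; exact hvK
  · exact ht w h hlen

theorem good_left_count {K : Set (Finset V)} {k : ℕ} {D : ℝ} (hk : 1 ≤ k) (hK : Cx K k D)
    {C : List V} (hC : C.Nodup) (hCl : k ≤ C.length) (hCt : Tight K k C) (U : Finset V) (d : ℝ)
    (hd : 0 ≤ d) (hdD : d + U.card + C.length + k ≤ D) :
    d ^ (k - 1) ≤ (cnt (fun f : Fin (k - 1) → V => (List.ofFn f ++ C).Nodup ∧
      Tight K k (List.ofFn f ++ C) ∧ ∀ v ∈ List.ofFn f, v ∉ U) : ℝ) := by
  have h0 : (([] : List V) ++ C).Nodup ∧ Tight K k (([] : List V) ++ C) ∧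
      ∀ v ∈ ([] : List V), v ∉ U := ⟨hC, hCt, by simp⟩
  apply good_tree_count d hd (k - 1) (fun l : List V => (l ++ C).Nodup ∧ Tight K k (l ++ C) ∧
    ∀ v ∈ l, v ∉ U) h0
  rintro l ⟨h1, h2, h3⟩ hlen
  have hlen2 : k ≤ (l ++ C).length := by rw [List.length_append]; omega
  have hs := good_take_mem hK hlen2 h2
  have hcard : ((l ++ C).take (k - 1)).toFinset.card < k := by
    refine (List.toFinset_card_le _).trans_lt ?_
    rw [List.length_take]; omega
  have hdeg := hK.deg _ hs hcard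
  have h4 := good_cnt_avoid (nb K ((l ++ C).take (k - 1)).toFinset) (U ∪ (l ++ C).toFinset)
  have h5 : ((U ∪ (l ++ C).toFinset).card : ℝ) ≤ U.card + C.length + k := by
    have h6 : (U ∪ (l ++ C).toFinset).card ≤ U.card + (l ++ C).length :=
      (Finset.card_union_le _ _).trans (Nat.add_le_add_left (List.toFinset_card_le _) _)
    rw [List.length_append] at h6
    have h7 : (U ∪ (l ++ C).toFinset).card ≤ U.card + C.length + k := by omega
    exact_mod_cast h7
  have h8 : cnt (fun v => nb K ((l ++ C).take (k - 1)).toFinset v ∧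
      v ∉ U ∪ (l ++ C).toFinset) ≤
      cnt (fun v => (v :: l ++ C).Nodup ∧ Tight K k (v :: l ++ C) ∧ ∀ x ∈ v :: l, x ∉ U) := ?_
  · have h9 : (cnt (fun v => nb K ((l ++ C).take (k - 1)).toFinset v ∧
      v ∉ U ∪ (l ++ C).toFinset) : ℝ) ≤
      (cnt (fun v => (v :: l ++ C).Nodup ∧ Tight K k (v :: l ++ C) ∧
        ∀ x ∈ v :: l, x ∉ U) : ℝ) := by exact_mod_cast h8
    refine le_trans ?_ h9
    linarith
  refine cnt_mono ?_
  rintro v ⟨⟨hv1, hv2⟩, hv3⟩
  have hv4 : v ∉ U := fun h => hv3 (Finset.mem_union_left _ h)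
  have hv5 : v ∉ l ++ C := fun h => hv3 (Finset.mem_union_right _ (List.mem_toFinset.2 h))
  refine ⟨?_, ?_, ?_⟩
  · rw [List.cons_append, List.nodup_cons]; exact ⟨hv5, h1⟩
  · rw [List.cons_append]
    exact good_tight_cons hk hlen2 h1 h2 hv5 hv2
  · intro x hx
    rcases List.mem_cons.1 hx with rfl | hx
    · exact hv4
    · exact h3 x hx

/-- constants: the degree beats the forbidden sets -/
theorem good_room {K : Set (Finset V)} {k : ℕ} (hk : 3 ≤ k) {α ζ ζ₀ : ℝ} {Y A S : Finset V}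
    (hζ₀ : ζ₀ ≤ 1 / 100) (hζ : ζ ≤ ζ₀) (hE : ExtStr K k α ζ Y A)
    (hS : (S.card : ℝ) ≤ ζ₀ * Fintype.card V) (hn : 100 * k ≤ Fintype.card V) :
    (Fintype.card V : ℝ) / 4 + (Y ∪ A ∪ S).card + 5 * k ≤
      (1 - 1 / (k : ℝ)) * (Fintype.card V : ℝ) := by
  have h1 := hE.cardY_hi
  have h2 := hE.cardA
  set n : ℝ := (Fintype.card V : ℝ) with hn'
  have hn0 : (0 : ℝ) ≤ n := by positivity
  have hnk : (100 : ℝ) * k ≤ n := by rw [hn']; exact_mod_cast hn
  have h3 : ((Y ∪ A ∪ S).card : ℝ) ≤ Y.card + A.card + S.card := by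
    have : (Y ∪ A ∪ S).card ≤ Y.card + A.card + S.card :=
      (Finset.card_union_le _ _).trans (Nat.add_le_add_right (Finset.card_union_le _ _) _)
    exact_mod_cast this
  have h4 : (1 : ℝ) / k ≤ 1 / 3 := by
    apply one_div_le_one_div_of_le (by norm_num); exact_mod_cast hk
  have h5 : (1 : ℝ) / k * n ≤ 1 / 3 * n := mul_le_mul_of_nonneg_right h4 hn0
  have h6 : ζ * n ≤ 1 / 100 * n := mul_le_mul_of_nonneg_right (hζ.trans hζ₀) hn0
  have h7 : ζ₀ * n ≤ 1 / 100 * n := mul_le_mul_of_nonneg_right hζ₀ hn0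
  have h8 : (Y.card : ℝ) ≤ 1 / k * n + ζ * n := by rw [← add_mul]; exact h1
  have h9 : (1 - 1 / (k : ℝ)) * n = n - 1 / k * n := by ring
  rw [h9]
  linarith

/-- few bad tuples compared with `(n/4)^(k-1)` -/
theorem good_few {k : ℕ} (hk : 1 ≤ k) {α ζ ζ₀ n : ℝ} (hα : 0 < α) (hζ₀ : ζ₀ ≤ α / (4 * 8 ^ k))
    (hζ : ζ ≤ ζ₀) (hn : 0 < n) :
    2 ^ (k - 1) * (ζ / α) * n ^ (k - 1) < (n / 4) ^ (k - 1) / (4 * 4) := by
  have h1 : ζ / α ≤ 1 / (4 * 8 ^ k) := by
    rw [div_le_iff₀ hα]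
    calc ζ ≤ α / (4 * 8 ^ k) := hζ.trans hζ₀
      _ = _ := by ring
  have h2 : (2 : ℝ) ^ (k - 1) * (ζ / α) * n ^ (k - 1) ≤
      2 ^ (k - 1) * (1 / (4 * 8 ^ k)) * n ^ (k - 1) := by gcongr
  refine h2.trans_lt ?_
  have hpos : 0 < n ^ (k - 1) := by positivity
  have h3 : (n / 4) ^ (k - 1) / (4 * 4) = n ^ (k - 1) * (1 / (4 ^ (k - 1) * (4 * 4))) := by
    rw [div_pow]; field_simp
  rw [h3, mul_comm]
  refine mul_lt_mul_of_pos_left ?_ hpos
  obtain ⟨m, rfl⟩ : ∃ m, k = m + 1 := ⟨k - 1, by omega⟩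
  simp only [Nat.add_sub_cancel]
  rw [mul_one_div, div_lt_div_iff₀ (by positivity) (by positivity)]
  have h8 : (8 : ℝ) ^ (m + 1) = 2 ^ m * 4 ^ m * 8 := by
    rw [pow_succ, ← mul_pow]; norm_num
  rw [h8]
  have : (0 : ℝ) < 2 ^ m * 4 ^ m := by positivity
  nlinarith

theorem good_extend_left {K : Set (Finset V)} {k : ℕ} (hk : 3 ≤ k) {α ζ ζ₀ : ℝ} (hα : 0 < α)
    (hζ1 : ζ₀ ≤ 1 / 100) (hζ2 : ζ₀ ≤ α / (4 * 8 ^ k))
    (hn : 100 * k ≤ Fintype.card V)
    (hK : Cx K k ((1 - 1 / (k : ℝ)) * (Fintype.card V : ℝ))) {Y A S : Finset V}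
    (hζ0 : 0 ≤ ζ) (hζ : ζ ≤ ζ₀) (hE : ExtStr K k α ζ Y A)
    (hS : (S.card : ℝ) ≤ ζ₀ * Fintype.card V) {C : List V} (hC : C.Nodup) (hCl : k ≤ C.length)
    (hCu : C.length ≤ 4 * k) (hCt : Tight K k C) :
    ∃ a : List V, a.length = k - 1 ∧ (a ++ C).Nodup ∧ Tight K k (a ++ C) ∧
      (∀ v ∈ a, v ∉ S ∧ v ∉ Y ∧ v ∉ A) ∧ GoodS K k α Y a := by
  have hroom := good_room hk hζ1 hζ hE hS hn
  have hn0 : (0 : ℝ) < Fintype.card V := by
    have : 0 < Fintype.card V := by omega
    exact_mod_cast this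
  have hCu' : (C.length : ℝ) ≤ 4 * k := by exact_mod_cast hCu
  have h1 := good_left_count (by omega) hK hC hCl hCt (Y ∪ A ∪ S) ((Fintype.card V : ℝ) / 4)
    (by positivity) (by linarith)
  have h2 := good_count hk hα hζ0 hE
  have h3 := good_few (k := k) (by omega) hα hζ2 hζ hn0
  by_contra hcon
  push Not at hcon
  have h4 : cnt (fun f : Fin (k - 1) → V => (List.ofFn f ++ C).Nodup ∧
      Tight K k (List.ofFn f ++ C) ∧ ∀ v ∈ List.ofFn f, v ∉ Y ∪ A ∪ S) ≤
      cnt (fun s : Fin (k - 1) → V => (∀ i, s i ∉ Y) ∧ ¬ GoodS K k α Y (List.ofFn s)) := by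
    refine cnt_mono ?_
    rintro f ⟨hf1, hf2, hf3⟩
    refine ⟨fun i hi => hf3 (f i) (by simp [List.mem_ofFn]) (by simp [hi]), fun hg => ?_⟩
    refine hcon (List.ofFn f) (by simp) hf1 hf2 ?_ hg
    intro v hv
    have := hf3 v hv
    simp only [Finset.mem_union, not_or] at this
    exact ⟨this.2, this.1.1, this.1.2⟩
  have h5 : (cnt (fun f : Fin (k - 1) → V => (List.ofFn f ++ C).Nodup ∧
      Tight K k (List.ofFn f ++ C) ∧ ∀ v ∈ List.ofFn f, v ∉ Y ∪ A ∪ S) : ℝ) ≤
      (cnt (fun s : Fin (k - 1) → V => (∀ i, s i ∉ Y) ∧ ¬ GoodS K k α Y (List.ofFn s)) : ℝ) := by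
    exact_mod_cast h4
  have h6 : (0 : ℝ) < ((Fintype.card V : ℝ) / 4) ^ (k - 1) := by positivity
  linarith

/-- a short tight path can be extended to a piece avoiding a given small set -/
theorem extend_piece (k : ℕ) (hk : 3 ≤ k) (α : ℝ) (hα : 0 < α) : ∃ ζ₀ > (0 : ℝ), ∃ n₀ : ℕ,
    ∀ (V : Type) [Fintype V] [DecidableEq V], n₀ ≤ Fintype.card V → ∀ K : Set (Finset V),
      Cx K k ((1 - 1 / (k : ℝ)) * (Fintype.card V : ℝ)) →
      ∀ (ζ : ℝ) (Y A S : Finset V), 0 ≤ ζ → ζ ≤ ζ₀ → ExtStr K k α ζ Y A →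
      (S.card : ℝ) ≤ ζ₀ * Fintype.card V →
      ∀ C : List V, C.Nodup → k ≤ C.length → C.length ≤ 2 * k → Tight K k C →
      ∃ a b : List V, a.length = k - 1 ∧ b.length = k - 1 ∧ (a ++ C ++ b).Nodup ∧
        (∀ v ∈ a ++ b, v ∉ S ∧ v ∉ Y ∧ v ∉ A) ∧ IsPiece K k α Y (a ++ C ++ b) := by
  refine ⟨min (1 / 100) (α / (4 * 8 ^ k)), by positivity, 100 * k, ?_⟩
  intro V _ _ hn K hK ζ Y A S hζ0 hζ hE hS C hC hCl hCu hCt
  have hz1 : min (1 / 100) (α / (4 * 8 ^ k)) ≤ 1 / 100 := min_le_left _ _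
  have hz2 : min (1 / 100) (α / (4 * 8 ^ k)) ≤ α / (4 * 8 ^ k) := min_le_right _ _
  obtain ⟨a, ha1, ha2, ha3, ha4, ha5⟩ := good_extend_left hk hα hz1 hz2 hn hK hζ0 hζ hE hS hC hCl
    (by omega) hCt
  have hl2 : (a ++ C).reverse.length = k - 1 + C.length := by
    rw [List.length_reverse, List.length_append, ha1]
  obtain ⟨b, hb1, hb2, hb3, hb4, hb5⟩ := good_extend_left (C := (a ++ C).reverse) hk hα hz1 hz2 hn
    hK hζ0 hζ hE hS (List.nodup_reverse.2 ha2) (by omega) (by omega) ha3.good_reverse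
  have hrev : (b ++ (a ++ C).reverse).reverse = a ++ C ++ b.reverse := by simp
  have hlen : (a ++ C ++ b.reverse).length = (a ++ C).length + (k - 1) := by
    rw [List.length_append, List.length_reverse, hb1]
  have htake : (a ++ C ++ b.reverse).take (k - 1) = a := by
    rw [List.append_assoc, List.take_append_of_le_length (by omega), ← ha1, List.take_length]
  have hdrop : (a ++ C ++ b.reverse).drop ((a ++ C ++ b.reverse).length - (k - 1)) =
      b.reverse := by
    rw [hlen, Nat.add_sub_cancel, List.drop_left]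
  refine ⟨a, b.reverse, ha1, by simpa using hb1, ?_, ?_, ?_, ?_, ?_, ?_, ?_, ?_⟩
  · rw [← hrev, List.nodup_reverse]; exact hb2
  · intro v hv
    rcases List.mem_append.1 hv with h | h
    · exact ha4 v h
    · exact hb4 v (List.mem_reverse.1 h)
  · rw [hlen]; omega
  · rw [← hrev]; exact hb3.good_reverse
  · rw [htake]; exact fun v hv => (ha4 v hv).2.1
  · rw [hdrop]; exact fun v hv => (hb4 v (List.mem_reverse.1 hv)).2.1
  · rw [htake]; exact ha5
  · rw [hdrop]; exact hb5.reverse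

end Pool.Agent.THC
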