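import Pool.Agent.Lib.MP_5c6f2e_co.Defs

/-!
# MP_5c6f2e_co, P11: lopsided local lemma for class-preserving random bijections
-/

set_option autoImplicit false

namespace Pool.Agent.THC

open Finset

section LLL

private theorem LLL_sum_union {α : Type*} [DecidableEq α] (f : α → ℝ) (hf : ∀ a, 0 ≤ f a)
    (s t : Finset α) : ∑ a ∈ s ∪ t, f a ≤ ∑ a ∈ s, f a + ∑ a ∈ t, f a := by
  have h := Finset.sum_union_inter (s₁ := s) (s₂ := t) (f := f)
  have h2 : 0 ≤ ∑ a ∈ s ∩ t, f a := Finset.sum_nonneg (fun a _ => hf a)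
  linarith

private theorem LLL_sum_biUnion {α β : Type*} [DecidableEq α] (f : α → ℝ) (hf : ∀ a, 0 ≤ f a)
    (S : Finset β) (g : β → Finset α) : ∑ a ∈ S.biUnion g, f a ≤ ∑ b ∈ S, ∑ a ∈ g b, f a := by
  classical
  induction S using Finset.induction_on with
  | empty => simp
  | insert b S hb ih =>
    rw [Finset.biUnion_insert, Finset.sum_insert hb]
    exact (LLL_sum_union f hf _ _).trans (by linarith)

variable {P Q : Type} [Fintype P] [DecidableEq P] [Fintype Q] [DecidableEq Q]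

/-- class-preserving bijections realising `M` and avoiding all members of `G` -/
private noncomputable def LAv (cP : P → Bool) (cQ : Q → Bool) (G : Finset (Finset (P × Q)))
    (M : Finset (P × Q)) : Finset (P ≃ Q) := by
  classical
  exact univ.filter (fun σ => (∀ p, cQ (σ p) = cP p) ∧ (∀ x ∈ M, σ x.1 = x.2) ∧
    ∀ M' ∈ G, ∃ x ∈ M', σ x.1 ≠ x.2)

private theorem mem_LAv {cP : P → Bool} {cQ : Q → Bool} {G : Finset (Finset (P × Q))}
    {M : Finset (P × Q)} {σ : P ≃ Q} :
    σ ∈ LAv cP cQ G M ↔ (∀ p, cQ (σ p) = cP p) ∧ (∀ x ∈ M, σ x.1 = x.2) ∧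
    ∀ M' ∈ G, ∃ x ∈ M', σ x.1 ≠ x.2 := by
  unfold LAv
  simp only [Finset.mem_filter, Finset.mem_univ, true_and]

private theorem LLL_step {cP : P → Bool} {cQ : Q → Bool}
    (hcard : ∀ b, cnt (fun p => cP p = b) = cnt (fun q => cQ q = b))
    {kk N : ℕ} (hN : ∀ b, N + kk ≤ cnt (fun p => cP p = b))
    {G : Finset (Finset (P × Q))} {M : Finset (P × Q)} {x : P × Q} (hx : x ∉ M)
    (hk : M.card ≤ kk) (hcx : cP x.1 = cQ x.2)
    (hinj : ∀ y ∈ M, (x.1 = y.1 ↔ x.2 = y.2))
    (hconf : ∀ M' ∈ G, ∀ y ∈ M', (x.1 = y.1 ↔ x.2 = y.2)) :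
    (LAv cP cQ G (insert x M)).card * N ≤ (LAv cP cQ G M).card := by
  classical
  set R : Finset Q := univ.filter (fun q => cQ q = cP x.1) \ M.image Prod.snd with hR
  have hRc : N ≤ R.card := by
    have h1 : (univ.filter (fun q => cQ q = cP x.1)).card ≤ R.card + (M.image Prod.snd).card := by
      have := Finset.le_card_sdiff (M.image Prod.snd) (univ.filter (fun q => cQ q = cP x.1))
      rw [← hR] at this; omega
    have h2 : (M.image Prod.snd).card ≤ kk := Finset.card_image_le.trans hk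
    have h3 := hN (cP x.1)
    rw [hcard, cnt_eq] at h3
    omega
  refine (Nat.mul_le_mul_left _ hRc).trans ?_
  rw [← Finset.card_product]
  refine Finset.card_le_card_of_injOn
    (fun z : (P ≃ Q) × Q => z.1.trans (Equiv.swap x.2 z.2)) ?_ ?_
  · rintro ⟨σ, q⟩ hz
    rw [Finset.mem_coe, Finset.mem_product] at hz
    obtain ⟨hσ, hq⟩ := hz
    rw [mem_LAv] at hσ
    obtain ⟨c1, c2, c3⟩ := hσ
    simp only [hR, Finset.mem_sdiff, Finset.mem_filter, Finset.mem_univ, true_and,
      Finset.mem_image, not_exists, not_and] at hq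
    obtain ⟨q1, q2⟩ := hq
    have hσx : σ x.1 = x.2 := c2 x (Finset.mem_insert_self _ _)
    rw [Finset.mem_coe, mem_LAv]
    refine ⟨?_, ?_, ?_⟩
    · intro p
      simp only [Equiv.trans_apply]
      by_cases h1 : σ p = x.2
      · have : p = x.1 := σ.injective (h1.trans hσx.symm)
        rw [h1, Equiv.swap_apply_left, q1, this]
      · by_cases h2 : σ p = q
        · rw [h2, Equiv.swap_apply_right, ← hcx, ← q1, ← h2, c1]
        · rw [Equiv.swap_apply_of_ne_of_ne h1 h2, c1]
    · intro y hy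
      have hy2 := c2 y (Finset.mem_insert_of_mem hy)
      simp only [Equiv.trans_apply]
      rw [hy2]
      refine Equiv.swap_apply_of_ne_of_ne ?_ ?_
      · intro h
        have h1 := (hinj y hy).2 h.symm
        exact hx (by rw [Prod.ext h1 h.symm]; exact hy)
      · exact q2 y hy
    · intro M' hM'
      by_contra hc
      push Not at hc
      obtain ⟨z, hz, hz1⟩ := c3 M' hM'
      have hz2 := hc z hz
      simp only [Equiv.trans_apply] at hz2
      have hzc := hconf M' hM' z hz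
      by_cases h1 : σ z.1 = x.2
      · have h3 : z.1 = x.1 := σ.injective (h1.trans hσx.symm)
        rw [h1, Equiv.swap_apply_left] at hz2
        have := hzc.1 h3.symm
        exact hz1 (h1.trans this)
      · by_cases h2 : σ z.1 = q
        · rw [h2, Equiv.swap_apply_right] at hz2
          have := hzc.2 hz2
          rw [← this] at h1
          exact h1 hσx
        · rw [Equiv.swap_apply_of_ne_of_ne h1 h2] at hz2
          exact hz1 hz2
  · rintro ⟨σ, q⟩ hz ⟨σ', q'⟩ hz' heq
    rw [Finset.mem_coe, Finset.mem_product] at hz hz'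
    have hσ := (mem_LAv.1 hz.1).2.1 x (Finset.mem_insert_self _ _)
    have hσ' := (mem_LAv.1 hz'.1).2.1 x (Finset.mem_insert_self _ _)
    simp only at heq hσ hσ'
    have h1 := congrArg (fun e : P ≃ Q => e x.1) heq
    simp only [Equiv.trans_apply] at h1
    rw [hσ, hσ', Equiv.swap_apply_left, Equiv.swap_apply_left] at h1
    subst h1
    have h2 : σ = σ' := by
      ext p
      have := congrArg (fun e : P ≃ Q => e p) heq
      simp only [Equiv.trans_apply] at this
      exact (Equiv.swap x.2 q).injective this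
    rw [h2]

private theorem LLL_one {cP : P → Bool} {cQ : Q → Bool}
    (hcard : ∀ b, cnt (fun p => cP p = b) = cnt (fun q => cQ q = b))
    {kk N : ℕ} (hN : ∀ b, N + kk ≤ cnt (fun p => cP p = b))
    {G : Finset (Finset (P × Q))} (M : Finset (P × Q))
    (hk : M.card ≤ kk) (hcx : ∀ x ∈ M, cP x.1 = cQ x.2)
    (hinj : ∀ x ∈ M, ∀ y ∈ M, (x.1 = y.1 ↔ x.2 = y.2))
    (hconf : ∀ x ∈ M, ∀ M' ∈ G, ∀ y ∈ M', (x.1 = y.1 ↔ x.2 = y.2)) :
    (LAv cP cQ G M).card * N ^ M.card ≤ (LAv cP cQ G ∅).card := by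
  classical
  induction M using Finset.induction_on with
  | empty => simp
  | insert x M hx ih =>
    have hk' : M.card ≤ kk := (Finset.card_le_card (Finset.subset_insert _ _)).trans hk
    have h1 := ih hk' (fun y hy => hcx y (Finset.mem_insert_of_mem hy))
      (fun y hy z hz => hinj y (Finset.mem_insert_of_mem hy) z (Finset.mem_insert_of_mem hz))
      (fun y hy => hconf y (Finset.mem_insert_of_mem hy))
    have h2 := LLL_step hcard hN (G := G) hx hk' (hcx x (Finset.mem_insert_self _ _))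
      (fun y hy => hinj x (Finset.mem_insert_self _ _) y (Finset.mem_insert_of_mem hy))
      (hconf x (Finset.mem_insert_self _ _))
    rw [Finset.card_insert_of_notMem hx, pow_succ']
    calc (LAv cP cQ G (insert x M)).card * (N * N ^ M.card)
        = ((LAv cP cQ G (insert x M)).card * N) * N ^ M.card := by ring
      _ ≤ (LAv cP cQ G M).card * N ^ M.card := Nat.mul_le_mul_right _ h2
      _ ≤ _ := h1

/-- lopsided local lemma for class-preserving random bijections -/
theorem lll_perm {P Q : Type} [Fintype P] [DecidableEq P] [Fintype Q] [DecidableEq Q]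
    (cP : P → Bool) (cQ : Q → Bool) (hcard : ∀ b, cnt (fun p => cP p = b) = cnt (fun q => cQ q = b))
    (kk : ℕ) (hkk : 1 ≤ kk) (N : ℕ) (hN : ∀ b, N + kk ≤ cnt (fun p => cP p = b)) (hN1 : 1 ≤ N)
    (E : Finset (Finset (P × Q)))
    (hne : ∀ M ∈ E, M.Nonempty) (hk : ∀ M ∈ E, M.card ≤ kk)
    (hcls : ∀ M ∈ E, ∀ x ∈ M, cP x.1 = cQ x.2)
    (hinj : ∀ M ∈ E, ∀ x ∈ M, ∀ y ∈ M, (x.1 = y.1 ↔ x.2 = y.2))
    (h1 : ∀ p : P, ∑ M ∈ E with (∃ q, (p, q) ∈ M), (1 / (N : ℝ)) ^ M.card ≤ 1 / (8 * kk))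
    (h2 : ∀ q : Q, ∑ M ∈ E with (∃ p, (p, q) ∈ M), (1 / (N : ℝ)) ^ M.card ≤ 1 / (8 * kk)) :
    ∃ σ : P ≃ Q, (∀ p, cQ (σ p) = cP p) ∧ ∀ M ∈ E, ∃ x ∈ M, σ x.1 ≠ x.2 := by
  classical
  have hNR : (0 : ℝ) < N := by exact_mod_cast hN1
  have hkkR : (1 : ℝ) ≤ kk := by exact_mod_cast hkk
  have hpow : ∀ M : Finset (P × Q), (0 : ℝ) ≤ (1 / (N : ℝ)) ^ M.card := fun M => by positivity
  -- one event given non-conflicting ones
  have one : ∀ G : Finset (Finset (P × Q)), ∀ M ∈ E,
      (∀ x ∈ M, ∀ M' ∈ G, ∀ y ∈ M', (x.1 = y.1 ↔ x.2 = y.2)) →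
      ((LAv cP cQ G M).card : ℝ) ≤ (1 / (N : ℝ)) ^ M.card * (LAv cP cQ G ∅).card := by
    intro G M hM hc
    have := LLL_one hcard hN (G := G) M (hk M hM) (hcls M hM) (hinj M hM) hc
    have h3 : ((LAv cP cQ G M).card : ℝ) * (N : ℝ) ^ M.card ≤ (LAv cP cQ G ∅).card := by
      exact_mod_cast this
    rw [one_div, inv_pow, inv_mul_eq_div, le_div_iff₀ (by positivity)]
    exact h3
  -- the conflicting sum
  have conf : ∀ M ∈ E, ∀ G ⊆ E,
      ∑ M' ∈ G with (∃ x ∈ M, ∃ y ∈ M', ¬ (x.1 = y.1 ↔ x.2 = y.2)), (1 / (N : ℝ)) ^ M'.card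
        ≤ 1 / 4 := by
    intro M hM G hG
    have hsub : (G.filter (fun M' => ∃ x ∈ M, ∃ y ∈ M', ¬ (x.1 = y.1 ↔ x.2 = y.2))) ⊆
        M.biUnion (fun x => (E.filter (fun M' => ∃ q, (x.1, q) ∈ M')) ∪
          (E.filter (fun M' => ∃ p, (p, x.2) ∈ M'))) := by
      intro M' hM'
      rw [Finset.mem_filter] at hM'
      obtain ⟨hG', x, hx, y, hy, hxy⟩ := hM'
      rw [Finset.mem_biUnion]
      refine ⟨x, hx, ?_⟩
      rw [Finset.mem_union, Finset.mem_filter, Finset.mem_filter]
      by_cases h3 : x.1 = y.1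
      · left; exact ⟨hG hG', y.2, by rw [h3]; exact hy⟩
      · right
        have h4 : x.2 = y.2 := by
          by_contra h5
          exact hxy ⟨fun h => absurd h h3, fun h => absurd h h5⟩
        exact ⟨hG hG', y.1, by rw [h4]; exact hy⟩
    calc ∑ M' ∈ G with (∃ x ∈ M, ∃ y ∈ M', ¬ (x.1 = y.1 ↔ x.2 = y.2)), (1 / (N : ℝ)) ^ M'.card
        ≤ ∑ M' ∈ M.biUnion (fun x => (E.filter (fun M' => ∃ q, (x.1, q) ∈ M')) ∪
          (E.filter (fun M' => ∃ p, (p, x.2) ∈ M'))), (1 / (N : ℝ)) ^ M'.card :=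
          Finset.sum_le_sum_of_subset_of_nonneg hsub (fun _ _ _ => hpow _)
      _ ≤ ∑ x ∈ M, ∑ M' ∈ (E.filter (fun M' => ∃ q, (x.1, q) ∈ M')) ∪
          (E.filter (fun M' => ∃ p, (p, x.2) ∈ M')), (1 / (N : ℝ)) ^ M'.card :=
          LLL_sum_biUnion _ hpow _ _
      _ ≤ ∑ x ∈ M, (1 / (8 * (kk : ℝ)) + 1 / (8 * kk)) := by
          refine Finset.sum_le_sum (fun x _ => ?_)
          refine (LLL_sum_union _ hpow _ _).trans ?_
          exact add_le_add (h1 x.1) (h2 x.2)
      _ = M.card * (1 / (4 * (kk : ℝ))) := by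
          rw [Finset.sum_const, nsmul_eq_mul]; congr 1; field_simp; norm_num
      _ ≤ kk * (1 / (4 * (kk : ℝ))) := by
          refine mul_le_mul_of_nonneg_right ?_ (by positivity)
          exact_mod_cast hk M hM
      _ = 1 / 4 := by field_simp
  -- the main estimate
  have two : ∀ G : Finset (Finset (P × Q)), G ⊆ E → ∀ M ∈ E,
      ((LAv cP cQ G M).card : ℝ) ≤ 2 * (1 / (N : ℝ)) ^ M.card * (LAv cP cQ G ∅).card := by
    intro G
    induction G using Finset.strongInduction with
    | H G ih =>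
      intro hGE M hM
      set G1 := G.filter (fun M' => ∃ x ∈ M, ∃ y ∈ M', ¬ (x.1 = y.1 ↔ x.2 = y.2)) with hG1
      set G2 := G.filter (fun M' => ¬ ∃ x ∈ M, ∃ y ∈ M', ¬ (x.1 = y.1 ↔ x.2 = y.2)) with hG2
      have hG2s : G2 ⊆ G := Finset.filter_subset _ _
      have hG2E : G2 ⊆ E := hG2s.trans hGE
      have hone := one G2 M hM (by
        intro x hx M' hM' y hy
        by_contra hc
        rw [hG2, Finset.mem_filter] at hM'
        exact hM'.2 ⟨x, hx, y, hy, hc⟩)
      have hmono : ((LAv cP cQ G M).card : ℝ) ≤ (LAv cP cQ G2 M).card := by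
        have : LAv cP cQ G M ⊆ LAv cP cQ G2 M := by
          intro σ hσ
          rw [mem_LAv] at hσ ⊢
          exact ⟨hσ.1, hσ.2.1, fun M' hM' => hσ.2.2 M' (hG2s hM')⟩
        exact_mod_cast Finset.card_le_card this
      rcases Finset.eq_empty_or_nonempty G1 with he | hne1
      · have hGG : G2 = G := by
          rw [hG2]
          refine Finset.filter_true_of_mem (fun M' hM' hc => ?_)
          have : M' ∈ G1 := by rw [hG1, Finset.mem_filter]; exact ⟨hM', hc⟩
          rw [he] at this; simp at this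
        rw [hGG] at hone
        have h5 : (0 : ℝ) ≤ (1 / (N : ℝ)) ^ M.card * (LAv cP cQ G ∅).card := by positivity
        linarith
      · have hss : G2 ⊂ G := by
          refine ⟨hG2s, fun hc => ?_⟩
          obtain ⟨M', hM'⟩ := hne1
          rw [hG1, Finset.mem_filter] at hM'
          have := hc hM'.1
          rw [hG2, Finset.mem_filter] at this
          exact this.2 hM'.2
        have ih2 := ih G2 hss hG2E
        have hcov : LAv cP cQ G2 ∅ ⊆ LAv cP cQ G ∅ ∪ G1.biUnion (fun M' => LAv cP cQ G2 M') := by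
          intro σ hσ
          rw [Finset.mem_union, Finset.mem_biUnion]
          by_cases h5 : ∃ M' ∈ G1, ∀ x ∈ M', σ x.1 = x.2
          · obtain ⟨M', hM', h6⟩ := h5
            right
            refine ⟨M', hM', ?_⟩
            rw [mem_LAv] at hσ ⊢
            exact ⟨hσ.1, h6, hσ.2.2⟩
          · left
            push Not at h5
            rw [mem_LAv] at hσ ⊢
            refine ⟨hσ.1, hσ.2.1, ?_⟩
            intro M' hM'
            by_cases h7 : ∃ x ∈ M, ∃ y ∈ M', ¬ (x.1 = y.1 ↔ x.2 = y.2)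
            · exact h5 M' (by rw [hG1, Finset.mem_filter]; exact ⟨hM', h7⟩)
            · exact hσ.2.2 M' (by rw [hG2, Finset.mem_filter]; exact ⟨hM', h7⟩)
        have hc1 : ((LAv cP cQ G2 ∅).card : ℝ) ≤ (LAv cP cQ G ∅).card +
            ∑ M' ∈ G1, ((LAv cP cQ G2 M').card : ℝ) := by
          have h8 := (Finset.card_le_card hcov).trans ((Finset.card_union_le _ _).trans
            (Nat.add_le_add_left Finset.card_biUnion_le _))
          exact_mod_cast h8
        have hc2 : ∑ M' ∈ G1, ((LAv cP cQ G2 M').card : ℝ) ≤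
            (2 * (LAv cP cQ G2 ∅).card) * ∑ M' ∈ G1, (1 / (N : ℝ)) ^ M'.card := by
          rw [Finset.mul_sum]
          refine Finset.sum_le_sum (fun M' hM' => ?_)
          have hM'E : M' ∈ E := hGE (Finset.mem_of_mem_filter _ hM')
          have := ih2 M' hM'E
          linarith
        have hc3 := conf M hM G hGE
        rw [← hG1] at hc3
        have hc4 : (2 * ((LAv cP cQ G2 ∅).card : ℝ)) * ∑ M' ∈ G1, (1 / (N : ℝ)) ^ M'.card ≤
            (2 * (LAv cP cQ G2 ∅).card) * (1 / 4) :=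
          mul_le_mul_of_nonneg_left hc3 (by positivity)
        have hc5 : ((LAv cP cQ G2 ∅).card : ℝ) ≤ 2 * (LAv cP cQ G ∅).card := by linarith
        calc ((LAv cP cQ G M).card : ℝ) ≤ (LAv cP cQ G2 M).card := hmono
          _ ≤ (1 / (N : ℝ)) ^ M.card * (LAv cP cQ G2 ∅).card := hone
          _ ≤ (1 / (N : ℝ)) ^ M.card * (2 * (LAv cP cQ G ∅).card) :=
              mul_le_mul_of_nonneg_left hc5 (hpow _)
          _ = _ := by ring
  -- positivity
  have hsmall : ∀ M ∈ E, (1 / (N : ℝ)) ^ M.card ≤ 1 / 8 := by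
    intro M hM
    obtain ⟨x, hx⟩ := hne M hM
    have h3 : (1 / (N : ℝ)) ^ M.card ≤ ∑ M' ∈ E with (∃ q, (x.1, q) ∈ M'),
        (1 / (N : ℝ)) ^ M'.card :=
      Finset.single_le_sum (f := fun M' : Finset (P × Q) => (1 / (N : ℝ)) ^ M'.card)
        (fun _ _ => hpow _) (by rw [Finset.mem_filter]; exact ⟨hM, x.2, hx⟩)
    refine (h3.trans (h1 x.1)).trans ?_
    rw [div_le_div_iff₀ (by positivity) (by norm_num)]
    linarith
  have hpos : ∀ G : Finset (Finset (P × Q)), G ⊆ E → 0 < (LAv cP cQ G ∅).card := by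
    intro G
    induction G using Finset.induction_on with
    | empty =>
      intro _
      rw [Finset.card_pos]
      have e : ∀ b : Bool, {p : P // cP p = b} ≃ {q : Q // cQ q = b} := by
        intro b
        refine Fintype.equivOfCardEq ?_
        rw [Fintype.card_subtype, Fintype.card_subtype, ← cnt_eq, ← cnt_eq]
        exact hcard b
      refine ⟨Equiv.ofFiberEquiv e, ?_⟩
      rw [mem_LAv]
      exact ⟨fun p => Equiv.ofFiberEquiv_map e p, by simp, by simp⟩
    | insert M G hMG ih =>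
      intro hGE
      have hM : M ∈ E := hGE (Finset.mem_insert_self _ _)
      have hG : G ⊆ E := (Finset.subset_insert _ _).trans hGE
      have h3 := ih hG
      have h4 := two G hG M hM
      have h5 : LAv cP cQ G ∅ ⊆ LAv cP cQ (insert M G) ∅ ∪ LAv cP cQ G M := by
        intro σ hσ
        rw [Finset.mem_union]
        rw [mem_LAv] at hσ
        by_cases h6 : ∀ x ∈ M, σ x.1 = x.2
        · right; rw [mem_LAv]; exact ⟨hσ.1, h6, hσ.2.2⟩
        · left
          push Not at h6
          rw [mem_LAv]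
          refine ⟨hσ.1, hσ.2.1, ?_⟩
          intro M' hM'
          rcases Finset.mem_insert.1 hM' with rfl | h7
          · exact h6
          · exact hσ.2.2 M' h7
      have h6 : ((LAv cP cQ G ∅).card : ℝ) ≤ (LAv cP cQ (insert M G) ∅).card +
          (LAv cP cQ G M).card := by
        exact_mod_cast (Finset.card_le_card h5).trans (Finset.card_union_le _ _)
      have h7 := hsmall M hM
      have h8 : (0 : ℝ) < (LAv cP cQ G ∅).card := by exact_mod_cast h3
      have h9 : 2 * (1 / (N : ℝ)) ^ M.card * ((LAv cP cQ G ∅).card : ℝ) ≤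
          2 * (1 / 8) * (LAv cP cQ G ∅).card := by
        refine mul_le_mul_of_nonneg_right ?_ h8.le
        linarith
      have h10 : (0 : ℝ) < (LAv cP cQ (insert M G) ∅).card := by linarith
      exact_mod_cast h10
  obtain ⟨σ, hσ⟩ := Finset.card_pos.1 (hpos E (Finset.Subset.refl _))
  rw [mem_LAv] at hσ
  exact ⟨σ, hσ.1, hσ.2.2⟩

end LLL

end Pool.Agent.THC
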