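import Pool.Agent.Lib.MP_5c6f2e_co.Defs

/-!
# MP_5c6f2e_co, P1 : windows of lists
-/

set_option autoImplicit false

namespace Pool.Agent.THC

open Finset

variable {V : Type} [Fintype V] [DecidableEq V]

theorem AllWin.mono_inf {A : Type*} {Φ : List A → Prop} {k : ℕ} {l m : List A}
    (h : AllWin Φ k l) (hm : m <:+: l) : AllWin Φ k m :=
  fun w hw hk => h w (hw.trans hm) hk

/-- windows of `l ++ r`: only the crossing ones have to be checked -/
theorem AllWin.append {A : Type*} {Φ : List A → Prop} {k : ℕ} {l r : List A}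
    (hl : AllWin Φ k l) (hr : AllWin Φ k r)
    (hc : AllWin Φ k (l.drop (l.length - (k - 1)) ++ r.take (k - 1))) :
    AllWin Φ k (l ++ r) := by
  intro w hw hk
  obtain ⟨s, t, e⟩ := hw
  rcases List.append_eq_append_iff.1 e with ⟨a, h1, h2⟩ | ⟨c, h1, h2⟩
  · exact hl w ⟨s, a, h1.symm⟩ hk
  · rcases List.append_eq_append_iff.1 h1 with ⟨a', h3, h4⟩ | ⟨c', h3, h4⟩
    · by_cases hc0 : c = []
      · subst hc0
        exact hl w ⟨s, [], by simp [h3, h4]⟩ hk
      by_cases ha0 : a' = []
      · subst ha0
        exact hr w ⟨[], t, by simp [h2, h4]⟩ hk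
      have hcl : 0 < c.length := List.length_pos_iff.2 hc0
      have hal : 0 < a'.length := List.length_pos_iff.2 ha0
      have hwl : a'.length + c.length = k := by rw [← hk, h4, List.length_append]
      refine hc w ?_ hk
      have e1 : a' <:+ l.drop (l.length - (k - 1)) := by
        have hs : a' <:+ l := ⟨s, h3.symm⟩
        have hd : l.drop (l.length - (k - 1)) <:+ l := List.drop_suffix _ _
        refine List.suffix_of_suffix_length_le hs hd ?_
        rw [List.length_drop, h3, List.length_append]
        omega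
      have e2 : c <+: r.take (k - 1) := by
        have hs : c <+: r := ⟨t, h2.symm⟩
        refine List.prefix_take_iff.2 ⟨hs, by omega⟩
      obtain ⟨x, hx⟩ := e1
      obtain ⟨y, hy⟩ := e2
      exact ⟨x, y, by rw [h4, ← hx, ← hy]; simp [List.append_assoc]⟩
    · exact hr w ⟨c', t, by rw [h2, h4]⟩ hk

/-- concatenation of blocks of length at least `k-1` -/
theorem AllWin.flatten {A : Type*} {Φ : List A → Prop} {k : ℕ} (hk : 1 ≤ k) (L : List (List A))
    (hlen : ∀ B ∈ L, k - 1 ≤ B.length) (hB : ∀ B ∈ L, AllWin Φ k B)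
    (hJ : L.IsChain (fun B B' => AllWin Φ k (B.drop (B.length - (k - 1)) ++ B'.take (k - 1)))) :
    AllWin Φ k L.flatten := by
  induction L with
  | nil =>
    intro w hw hwk
    have : w.length ≤ 0 := by simpa using hw.length_le
    omega
  | cons B L ih =>
    rw [List.flatten_cons]
    refine AllWin.append (hB B (by simp))
      (ih (fun B' h' => hlen B' (List.mem_cons_of_mem _ h'))
        (fun B' h' => hB B' (List.mem_cons_of_mem _ h')) hJ.tail) ?_
    cases L with
    | nil =>
      simp only [List.flatten_nil, List.take_nil, List.append_nil]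
      exact (hB B (by simp)).mono_inf (List.drop_suffix _ _).isInfix
    | cons B' L' =>
      rw [List.flatten_cons, List.take_append_of_le_length (hlen B' (by simp))]
      exact (List.isChain_cons_cons.1 hJ).1

/-- cyclic version: `L ++ [head of L]` is a chain -/
theorem AllWin.flatten_cyclic {A : Type*} {Φ : List A → Prop} {k : ℕ} (hk : 1 ≤ k) (B₀ : List A)
    (L : List (List A))
    (hlen : ∀ B ∈ B₀ :: L, k - 1 ≤ B.length) (hB : ∀ B ∈ B₀ :: L, AllWin Φ k B)
    (hJ : (B₀ :: L ++ [B₀]).IsChain
      (fun B B' => AllWin Φ k (B.drop (B.length - (k - 1)) ++ B'.take (k - 1)))) :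
    AllWin Φ k ((B₀ :: L).flatten ++ ((B₀ :: L).flatten).take (k - 1)) := by
  have h := AllWin.flatten (Φ := Φ) hk (B₀ :: L ++ [B₀])
    (fun B h => hlen B (by
      simp only [List.cons_append, List.mem_cons, List.mem_append, List.mem_nil_iff, or_false] at h ⊢
      tauto))
    (fun B h => hB B (by
      simp only [List.cons_append, List.mem_cons, List.mem_append, List.mem_nil_iff, or_false] at h ⊢
      tauto)) hJ
  refine h.mono_inf ?_
  have e : ((B₀ :: L).flatten).take (k - 1) = B₀.take (k - 1) := by
    rw [List.flatten_cons, List.take_append_of_le_length (hlen B₀ (by simp))]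
  rw [e, List.flatten_append]
  refine ⟨[], B₀.drop (k - 1), ?_⟩
  simp [List.append_assoc]

theorem EdgeL.perm {K : Set (Finset V)} {l m : List V} (h : EdgeL K l) (hp : l.Perm m) :
    EdgeL K m := by
  refine ⟨hp.nodup_iff.1 h.1, ?_⟩
  rw [← List.toFinset_eq_of_perm _ _ hp]
  exact h.2

theorem Tight.reverse {K : Set (Finset V)} {k : ℕ} {l : List V} (h : Tight K k l) :
    Tight K k l.reverse := by
  intro w hw hk
  have h1 : w.reverse <:+: l := by
    rw [← List.reverse_reverse l]
    exact List.reverse_infix.2 hw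
  exact (h w.reverse h1 (by simpa using hk)).perm (List.reverse_perm w)

theorem edgeL_ofFn {K : Set (Finset V)} {m : ℕ} (f : Fin m → V) :
    EdgeL K (List.ofFn f) ↔ EdgeF K f := by
  unfold EdgeL EdgeF
  rw [List.nodup_ofFn]
  have : (List.ofFn f).toFinset = Finset.univ.image f := by
    ext v
    simp [List.mem_ofFn]
  rw [this]

/-- a tight Hamilton cycle in the format of the frozen statement -/
theorem HamCyc.toFun {n k : ℕ} (hk : 1 ≤ k) (hkn : k ≤ n) {H : Finset (Finset (Fin n))}
    (hH : ∀ e ∈ H, e.card = k)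
    (h : HamCyc {s : Finset (Fin n) | ∃ e ∈ H, s ⊆ e} k) :
    ∃ g : ℕ → Fin n,
      (∀ i : ℕ, g (i + n) = g i) ∧
      (∀ i j : ℕ, i < n → j < n → g i = g j → i = j) ∧
      (∀ i : ℕ, (Finset.range k).image (fun j => g (i + j)) ∈ H) := by
  obtain ⟨l, hnd, hall, ht⟩ := h
  have hn : 0 < n := by omega
  have hlen : l.length = n := by
    have h1 : l.toFinset = Finset.univ := by
      ext v; simp [hall v]
    have h2 : l.toFinset.card = l.length := List.toFinset_card_of_nodup hnd
    rw [h1, Finset.card_univ, Fintype.card_fin] at h2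
    exact h2.symm
  refine ⟨fun i => l[i % n]'(by rw [hlen]; exact Nat.mod_lt _ hn), ?_, ?_, ?_⟩
  · intro i
    simp only [Nat.add_mod_right]
  · intro i j hi hj hij
    have := (List.Nodup.getElem_inj_iff hnd).1 hij
    rwa [Nat.mod_eq_of_lt hi, Nat.mod_eq_of_lt hj] at this
  · intro i
    set L : List (Fin n) := l ++ l.take (k - 1) with hL
    have hLl : L.length = n + (k - 1) := by
      rw [hL, List.length_append, List.length_take, hlen]
      omega
    have hget : ∀ a : ℕ, ∀ ha : a < L.length, L[a] = l[a % n]'(by rw [hlen]; exact Nat.mod_lt _ hn) := by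
      intro a ha
      by_cases han : a < n
      · have e1 : a % n = a := Nat.mod_eq_of_lt han
        simp only [hL, e1]
        rw [List.getElem_append_left]
      · have e1 : a % n = a - n := by
          rw [Nat.mod_eq_sub_mod (by omega), Nat.mod_eq_of_lt (by omega)]
        simp only [hL, e1]
        rw [List.getElem_append_right (by rw [hlen]; omega)]
        rw [List.getElem_take]
        congr 1
        rw [hlen]
    set a : ℕ := i % n with ha
    have han : a < n := Nat.mod_lt _ hn
    set w : List (Fin n) := (L.drop a).take k with hw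
    have hwl : w.length = k := by
      rw [hw, List.length_take, List.length_drop, hLl]
      omega
    have hwin : w <:+: L := (List.take_prefix _ _).isInfix.trans (List.drop_suffix _ _).isInfix
    obtain ⟨hwn, e, he, hse⟩ := ht w hwin hwl
    have hcard : w.toFinset.card = k := by
      rw [List.toFinset_card_of_nodup hwn, hwl]
    have heq : w.toFinset = e := Finset.eq_of_subset_of_card_le hse (by rw [hH e he, hcard])
    have himg : (Finset.range k).image (fun j => l[(i + j) % n]'(by
        rw [hlen]; exact Nat.mod_lt _ hn)) = w.toFinset := by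
      ext v
      simp only [Finset.mem_image, Finset.mem_range, List.mem_toFinset, List.mem_iff_getElem]
      constructor
      · rintro ⟨j, hj, rfl⟩
        refine ⟨j, by rw [hwl]; exact hj, ?_⟩
        simp only [hw, List.getElem_take, List.getElem_drop]
        rw [hget]
        congr 1
        rw [ha, Nat.mod_add_mod]
      · rintro ⟨j, hj, rfl⟩
        refine ⟨j, by rw [hwl] at hj; exact hj, ?_⟩
        simp only [hw, List.getElem_take, List.getElem_drop]
        rw [hget]
        congr 1
        rw [ha, Nat.mod_add_mod]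
    rw [himg, heq]
    exact he

/-- the hypothesis of the frozen statement gives a complex -/
theorem Cx.ofH {n k : ℕ} (hk : 1 ≤ k) {H : Finset (Finset (Fin n))} (hn : H.Nonempty)
    (hH : ∀ e ∈ H, e.card = k)
    (hdeg : ∀ S : Finset (Fin n), S.card = k - 1 → (∃ e ∈ H, S ⊆ e) →
          (1 - 1 / (k : ℝ)) * (n : ℝ) ≤
            ((Finset.univ.filter (fun v : Fin n => v ∉ S ∧ insert v S ∈ H)).card : ℝ)) :
    Cx {s : Finset (Fin n) | ∃ e ∈ H, s ⊆ e} k ((1 - 1 / (k : ℝ)) * (n : ℝ)) := by
  refine ⟨?_, ?_, ?_⟩
  · obtain ⟨e, he⟩ := hn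
    exact ⟨e, he, Finset.empty_subset _⟩
  · rintro s ⟨e, he, hs⟩ t hts
    exact ⟨e, he, hts.trans hs⟩
  · rintro s ⟨e, he, hs⟩ hsk
    -- a set `S` of size `k-1` between `s` and `e`
    obtain ⟨S, hsS, hSe, hSc⟩ := Finset.exists_subsuperset_card_eq hs
      (show s.card ≤ k - 1 by omega) (by rw [hH e he]; omega)
    refine (hdeg S hSc ⟨e, he, hSe⟩).trans ?_
    have : ((Finset.univ.filter (fun v : Fin n => v ∉ S ∧ insert v S ∈ H)).card) ≤
        cnt (nb {s : Finset (Fin n) | ∃ e ∈ H, s ⊆ e} s) := by
      rw [← cnt_eq]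
      refine cnt_mono ?_
      rintro v ⟨hv1, hv2⟩
      exact ⟨fun h => hv1 (hsS h), insert v S, hv2, Finset.insert_subset_insert _ hsS⟩
    exact_mod_cast this

end Pool.Agent.THC
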