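import Mathlib
import Pool.Agent.Lib.MP_5c6f2e_co.Defs

/-!
Greedy selection of small disjoint systems of tuples.
-/

set_option autoImplicit false

namespace Pool.Agent.THC

open Finset

variable {V : Type} [Fintype V] [DecidableEq V]

namespace Select

private lemma cnt_le_sum {α ι : Type*} [Fintype α] (s : Finset ι) (P : ι → α → Prop) :
    cnt (fun a => ∃ i ∈ s, P i a) ≤ ∑ i ∈ s, cnt (P i) := by
  classical
  rw [cnt_eq]
  have : (Finset.univ.filter fun a => ∃ i ∈ s, P i a) ⊆
      s.biUnion fun i => Finset.univ.filter (P i) := by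
    intro a ha
    simp only [Finset.mem_filter, Finset.mem_univ, true_and, Finset.mem_biUnion] at ha ⊢
    exact ha
  refine (Finset.card_le_card this).trans (Finset.card_biUnion_le.trans (le_of_eq ?_))
  exact Finset.sum_congr rfl fun i _ => (cnt_eq _).symm

/-- tuples with a prescribed coordinate in `S` -/
lemma cnt_coord (r : ℕ) (i : Fin r) (S : Finset V) :
    cnt (fun f : Fin r → V => f i ∈ S) ≤ S.card * Fintype.card V ^ (r - 1) := by
  classical
  rw [cnt_eq]
  have h : (Finset.univ.filter fun f : Fin r → V => f i ∈ S) =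
      Fintype.piFinset fun j => if j = i then S else Finset.univ := by
    ext f
    simp only [Finset.mem_filter, Finset.mem_univ, true_and, Fintype.mem_piFinset]
    constructor
    · intro hf j
      by_cases hj : j = i
      · subst hj; simpa using hf
      · simp [hj]
    · intro hf
      simpa using hf i
  rw [h, Fintype.card_piFinset]
  have h2 : ∏ j : Fin r, (if j = i then S else Finset.univ : Finset V).card =
      S.card * Fintype.card V ^ (r - 1) := by
    rw [← Finset.mul_prod_erase _ _ (Finset.mem_univ i)]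
    rw [if_pos rfl]
    congr 1
    rw [Finset.prod_congr rfl (g := fun _ => Fintype.card V)]
    · rw [Finset.prod_const, Finset.card_erase_of_mem (Finset.mem_univ _), Finset.card_univ,
        Fintype.card_fin]
    · intro j hj
      rw [if_neg (Finset.ne_of_mem_erase hj), Finset.card_univ]
  exact h2.le

/-- tuples with two equal coordinates -/
lemma cnt_coincide (r : ℕ) (i j : Fin r) (hij : i ≠ j) :
    cnt (fun f : Fin r → V => f i = f j) ≤ Fintype.card V ^ (r - 1) := by
  classical
  rw [cnt_eq]
  have h : Fintype.card V ^ (r - 1) = (Finset.univ : Finset ({k : Fin r // k ≠ i} → V)).card := by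
    rw [Finset.card_univ, Fintype.card_fun]
    congr 1
    simp [Fintype.card_subtype_compl]
  rw [h]
  refine Finset.card_le_card_of_injOn (fun f k => f k.1) (fun f _ => Finset.mem_coe.2
    (Finset.mem_univ _)) ?_
  intro f hf g hg hfg
  simp only [Finset.coe_filter, Finset.mem_univ, true_and, Set.mem_ofPred_eq] at hf hg
  funext k
  by_cases hk : k = i
  · subst hk
    rw [hf, hg]
    exact congrFun hfg ⟨j, fun h => hij h.symm⟩
  · exact congrFun hfg ⟨k, hk⟩

/-- tuples which are not injective or meet `S` are few -/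
lemma cnt_bad (r : ℕ) (S : Finset V) :
    cnt (fun f : Fin r → V => ¬ (Function.Injective f ∧ ∀ j, f j ∉ S)) ≤
      r * (S.card + r) * Fintype.card V ^ (r - 1) := by
  classical
  have h1 : cnt (fun f : Fin r → V => ¬ (Function.Injective f ∧ ∀ j, f j ∉ S)) ≤
      cnt (fun f : Fin r → V => (∃ p ∈ (Finset.univ : Finset (Fin r × Fin r)).filter
        (fun p => p.1 ≠ p.2), f p.1 = f p.2) ∨ ∃ j ∈ (Finset.univ : Finset (Fin r)), f j ∈ S) := by
    refine cnt_mono fun f hf => ?_
    by_contra hcon
    push Not at hcon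
    refine hf ⟨fun a b hab => ?_, fun j => hcon.2 j (Finset.mem_univ _)⟩
    by_contra hne
    exact hcon.1 (a, b) (by simp [hne]) hab
  refine h1.trans ((cnt_or_le _ _).trans ?_)
  have h2 := cnt_le_sum ((Finset.univ : Finset (Fin r × Fin r)).filter (fun p => p.1 ≠ p.2))
    (fun p (f : Fin r → V) => f p.1 = f p.2)
  have h3 := cnt_le_sum (Finset.univ : Finset (Fin r)) (fun j (f : Fin r → V) => f j ∈ S)
  have h4 : ∑ p ∈ (Finset.univ : Finset (Fin r × Fin r)).filter (fun p => p.1 ≠ p.2),
      cnt (fun f : Fin r → V => f p.1 = f p.2) ≤ r * r * Fintype.card V ^ (r - 1) := by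
    calc _ ≤ ∑ p ∈ (Finset.univ : Finset (Fin r × Fin r)).filter (fun p => p.1 ≠ p.2),
          Fintype.card V ^ (r - 1) := by
          refine Finset.sum_le_sum fun p hp => ?_
          exact cnt_coincide r p.1 p.2 (Finset.mem_filter.1 hp).2
      _ ≤ r * r * Fintype.card V ^ (r - 1) := by
          rw [Finset.sum_const, smul_eq_mul]
          refine Nat.mul_le_mul_right _ ((Finset.card_filter_le _ _).trans (le_of_eq ?_))
          rw [Finset.card_univ, Fintype.card_prod, Fintype.card_fin]
  have h5 : ∑ j ∈ (Finset.univ : Finset (Fin r)), cnt (fun f : Fin r → V => f j ∈ S) ≤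
      r * (S.card * Fintype.card V ^ (r - 1)) := by
    calc _ ≤ ∑ j ∈ (Finset.univ : Finset (Fin r)), S.card * Fintype.card V ^ (r - 1) :=
          Finset.sum_le_sum fun j _ => cnt_coord r j S
      _ = _ := by rw [Finset.sum_const, smul_eq_mul, Finset.card_univ, Fintype.card_fin]
  calc _ ≤ r * r * Fintype.card V ^ (r - 1) + r * (S.card * Fintype.card V ^ (r - 1)) :=
        Nat.add_le_add (h2.trans h4) (h3.trans h5)
    _ = _ := by ring

private lemma cnt_and_not {α : Type*} [Fintype α] (P Q : α → Prop) :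
    cnt P ≤ cnt (fun a => P a ∧ Q a) + cnt (fun a => ¬ Q a) := by
  classical
  refine (cnt_mono (Q := fun a => (P a ∧ Q a) ∨ ¬ Q a) fun a ha => ?_).trans (cnt_or_le _ _)
  by_cases h : Q a
  · exact Or.inl ⟨ha, h⟩
  · exact Or.inr h

/-- a large family has many members which are injective and avoid `S` -/
lemma cnt_good (r : ℕ) (hr : 1 ≤ r) (c : ℝ) (S : Finset V) (F : (Fin r → V) → Prop)
    (hF : c * (Fintype.card V : ℝ) ^ r ≤ (cnt F : ℝ)) :
    (c * Fintype.card V - r * (S.card + r)) * (Fintype.card V : ℝ) ^ (r - 1) ≤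
      (cnt (fun f : Fin r → V => F f ∧ (Function.Injective f ∧ ∀ j, f j ∉ S)) : ℝ) := by
  have h1 := cnt_and_not F (fun f : Fin r → V => Function.Injective f ∧ ∀ j, f j ∉ S)
  have h2 := cnt_bad r S
  have h3 : (cnt F : ℝ) ≤ (cnt (fun f : Fin r → V => F f ∧ (Function.Injective f ∧ ∀ j, f j ∉ S)) : ℝ)
      + r * (S.card + r) * (Fintype.card V : ℝ) ^ (r - 1) := by
    have := h1.trans (Nat.add_le_add_left h2 _)
    exact_mod_cast this
  have h4 : (Fintype.card V : ℝ) ^ r = (Fintype.card V : ℝ) * (Fintype.card V : ℝ) ^ (r - 1) := by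
    rw [← pow_succ']
    congr 1; omega
  rw [h4] at hF
  have : (c * Fintype.card V - r * (S.card + r)) * (Fintype.card V : ℝ) ^ (r - 1) =
      c * ((Fintype.card V : ℝ) * (Fintype.card V : ℝ) ^ (r - 1)) -
        r * (S.card + r) * (Fintype.card V : ℝ) ^ (r - 1) := by ring
  rw [this]
  linarith

omit [Fintype V] [DecidableEq V] in
lemma injective_cons {m r : ℕ} {T : Fin m → Fin r → V} {t : Fin r → V}
    (hT : Function.Injective (fun p : Fin m × Fin r => T p.1 p.2)) (ht : Function.Injective t)
    (hd : ∀ a j j', t j ≠ T a j') :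
    Function.Injective (fun p : Fin (m + 1) × Fin r =>
      (Fin.cons t T : Fin (m + 1) → Fin r → V) p.1 p.2) := by
  rintro ⟨a, j⟩ ⟨b, j'⟩ h
  simp only at h
  revert h
  refine Fin.cases ?_ (fun a' => ?_) a <;> refine Fin.cases ?_ (fun b' => ?_) b
  · intro h
    simp only [Fin.cons_zero] at h
    rw [ht h]
  · intro h
    simp only [Fin.cons_zero, Fin.cons_succ] at h
    exact absurd h (hd _ _ _)
  · intro h
    simp only [Fin.cons_zero, Fin.cons_succ] at h
    exact absurd h.symm (hd _ _ _)
  · intro h
    simp only [Fin.cons_succ] at h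
    have := @hT (a', j) (b', j') h
    simp only [Prod.mk.injEq] at this
    rw [this.1, this.2]

private lemma cnt_cons {m : ℕ} {α : Type*} (P : α → Prop) (t : α) (T : Fin m → α) :
    cnt (fun a => P ((Fin.cons t T : Fin (m + 1) → α) a)) =
      (by classical exact if P t then 1 else 0) + cnt (fun a => P (T a)) := by
  classical
  rw [cnt_eq, cnt_eq, Fin.univ_succ, Finset.filter_cons]
  split_ifs with h1 h2 h2
  · rw [Finset.card_cons, Finset.filter_map, Finset.card_map, add_comm]
    congr 1
    
  · simp at h1; exact absurd h1 h2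
  · simp at h1; exact absurd h2 h1
  · rw [Finset.filter_map, Finset.card_map, zero_add]
    rfl

lemma selection_aux {I : Type} [Fintype I] [Nonempty I] (r : ℕ)
    (hr : 1 ≤ r) (c : ℝ) (hc : 0 < c) (F : I → (Fin r → V) → Prop)
    (hF : ∀ i, c * (Fintype.card V : ℝ) ^ r ≤ (cnt (F i) : ℝ)) (hn : 0 < Fintype.card V) :
    ∀ m : ℕ, (r : ℝ) ^ 2 * m ≤ c / 2 * (Fintype.card V : ℝ) →
    ∃ T : Fin m → Fin r → V, (∀ a, ∃ i, F i (T a)) ∧
      Function.Injective (fun p : Fin m × Fin r => T p.1 p.2) ∧
      ∑ i, (1 / 2 : ℝ) ^ (cnt (fun a => F i (T a))) ≤ Fintype.card I * (1 - c / 4) ^ m := by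
  classical
  intro m
  induction m with
  | zero =>
    intro _
    refine ⟨Fin.elim0, fun a => a.elim0, fun p => p.1.elim0, ?_⟩
    have : ∀ i, cnt (fun a : Fin 0 => F i ((Fin.elim0 : Fin 0 → Fin r → V) a)) = 0 := fun i => by
      rw [cnt_eq]; simp
    simp [this]
  | succ m ih =>
    intro hm
    have hm' : (r : ℝ) ^ 2 * m ≤ c / 2 * (Fintype.card V : ℝ) := by
      refine le_trans ?_ hm
      push_cast
      nlinarith [sq_nonneg (r : ℝ)]
    obtain ⟨T, hT1, hT2, hT3⟩ := ih hm'
    set S : Finset V := Finset.univ.image (fun p : Fin m × Fin r => T p.1 p.2) with hS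
    have hScard : (S.card : ℝ) ≤ m * r := by
      have : S.card ≤ m * r := by
        refine Finset.card_image_le.trans (le_of_eq ?_)
        rw [Finset.card_univ, Fintype.card_prod, Fintype.card_fin, Fintype.card_fin]
      exact_mod_cast this
    set w : I → ℝ := fun i => (1 / 2 : ℝ) ^ (cnt (fun a => F i (T a))) with hw
    have hwpos : ∀ i, 0 < w i := fun i => by positivity
    set W : ℝ := ∑ i, w i with hW
    have hWpos : 0 < W := Finset.sum_pos (fun i _ => hwpos i) Finset.univ_nonempty
    set g : (Fin r → V) → Prop := fun t => Function.Injective t ∧ ∀ j, t j ∉ S with hg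
    have hgood : ∀ i, c / 2 * (Fintype.card V : ℝ) ^ r ≤
        (cnt (fun t : Fin r → V => F i t ∧ g t) : ℝ) := by
      intro i
      refine le_trans ?_ (cnt_good r hr c S (F i) (hF i))
      have h4 : (Fintype.card V : ℝ) ^ r = (Fintype.card V : ℝ) * (Fintype.card V : ℝ) ^ (r - 1) := by
        rw [← pow_succ']
        congr 1; omega
      rw [h4, ← mul_assoc]
      refine mul_le_mul_of_nonneg_right ?_ (by positivity)
      have h5 : (r : ℝ) * (S.card + r) ≤ (r : ℝ) ^ 2 * ((m : ℝ) + 1) := by
        have : (r : ℝ) * (S.card + r) ≤ r * (m * r + r) :=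
          mul_le_mul_of_nonneg_left (by linarith) (by positivity)
        linarith [this, show (r : ℝ) * (m * r + r) = (r : ℝ) ^ 2 * ((m : ℝ) + 1) by ring]
      push_cast at hm
      linarith
    -- averaging
    have hsum : ∑ t : Fin r → V, c / 2 * W ≤
        ∑ t : Fin r → V, ∑ i, if F i t ∧ g t then w i else 0 := by
      rw [Finset.sum_comm]
      rw [Finset.sum_const, Finset.card_univ, Fintype.card_fun, Fintype.card_fin, nsmul_eq_mul]
      have : ∀ i, ∑ t : Fin r → V, (if F i t ∧ g t then w i else 0) =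
          (cnt (fun t : Fin r → V => F i t ∧ g t) : ℝ) * w i := by
        intro i
        rw [← Finset.sum_filter, Finset.sum_const, nsmul_eq_mul, cnt_eq]
      simp_rw [this]
      calc ((Fintype.card V ^ r : ℕ) : ℝ) * (c / 2 * W)
          = ∑ i, c / 2 * (Fintype.card V : ℝ) ^ r * w i := by
            rw [← Finset.mul_sum]; push_cast; ring
        _ ≤ _ := Finset.sum_le_sum fun i _ =>
            mul_le_mul_of_nonneg_right (hgood i) (hwpos i).le
    have : Nonempty V := Fintype.card_pos_iff.1 hn
    obtain ⟨t, -, ht⟩ := Finset.exists_le_of_sum_le (Finset.univ_nonempty (α := Fin r → V)) hsum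
    obtain ⟨i₀, hi₀⟩ : ∃ i, F i t ∧ g t := by
      by_contra hcon
      push Not at hcon
      have : ∑ i, (if F i t ∧ g t then w i else 0) = 0 :=
        Finset.sum_eq_zero fun i _ => if_neg fun h => hcon i h.1 h.2
      rw [this] at ht
      have : 0 < c / 2 * W := by positivity
      linarith
    have hgt := hi₀.2
    refine ⟨Fin.cons t T, fun a => ?_, ?_, ?_⟩
    · refine Fin.cases ⟨i₀, by simpa using hi₀.1⟩ (fun a' => by simpa using hT1 a') a
    · refine injective_cons hT2 hgt.1 fun a j j' h => hgt.2 j ?_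
      rw [h, hS]
      exact Finset.mem_image_of_mem (fun p : Fin m × Fin r => T p.1 p.2) (Finset.mem_univ (a, j'))
    · have h1 : ∀ i, (1 / 2 : ℝ) ^ (cnt (fun a => F i ((Fin.cons t T : Fin (m + 1) → Fin r → V) a))) =
          w i - 1 / 2 * (if F i t ∧ g t then w i else 0) := by
        intro i
        rw [cnt_cons]
        by_cases h : F i t
        · rw [if_pos h, if_pos ⟨h, hgt⟩, pow_add, pow_one]
          simp only [hw]; ring
        · rw [if_neg h, if_neg fun h' => h h'.1, zero_add]
          simp only [hw]; ring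
      simp_rw [h1]
      rw [Finset.sum_sub_distrib, ← Finset.mul_sum]
      have h2 : 0 ≤ 1 - c / 4 ∨ True := Or.inr trivial
      calc W - 1 / 2 * ∑ i, (if F i t ∧ g t then w i else 0)
          ≤ W * (1 - c / 4) := by nlinarith
        _ ≤ Fintype.card I * (1 - c / 4) ^ m * (1 - c / 4) := by
            refine mul_le_mul_of_nonneg_right hT3 ?_
            by_contra hneg
            push Not at hneg
            have hle : ∑ i, (if F i t ∧ g t then w i else 0) ≤ W := by
              refine Finset.sum_le_sum fun i _ => ?_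
              split_ifs
              · exact le_rfl
              · exact (hwpos i).le
            nlinarith
        _ = _ := by rw [pow_succ]; ring

end Select

open Select

/-- selection of a small disjoint system of tuples containing many members of each family -/
theorem selection {V I : Type} [Fintype V] [DecidableEq V] [Fintype I] [Nonempty I] (r m : ℕ)
    (hr : 1 ≤ r) (c : ℝ) (hc : 0 < c) (hc1 : c ≤ 1) (F : I → (Fin r → V) → Prop)
    (hF : ∀ i, c * (Fintype.card V : ℝ) ^ r ≤ (cnt (F i) : ℝ))
    (hm : (r : ℝ) ^ 2 * (m + 1) ≤ c / 2 * (Fintype.card V : ℝ)) :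
    ∃ T : Fin m → Fin r → V, (∀ a, ∃ i, F i (T a)) ∧
      Function.Injective (fun p : Fin m × Fin r => T p.1 p.2) ∧
      ∀ i, c / 4 * m - Real.logb 2 (Fintype.card I) ≤ (cnt (fun a => F i (T a)) : ℝ) := by
  have hr0 : (1 : ℝ) ≤ r := by exact_mod_cast hr
  have hn : 0 < Fintype.card V := by
    by_contra h
    have h0 : (Fintype.card V : ℝ) = 0 := by exact_mod_cast (Nat.eq_zero_of_not_pos h)
    rw [h0, mul_zero] at hm
    have : 0 < (r : ℝ) ^ 2 * (m + 1) := by positivity
    linarith
  obtain ⟨T, h1, h2, h3⟩ := selection_aux r hr c hc F hF hn m (by nlinarith [sq_nonneg (r : ℝ)])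
  refine ⟨T, h1, h2, fun i => ?_⟩
  have hle : (1 / 2 : ℝ) ^ (cnt (fun a => F i (T a))) ≤ Fintype.card I * (1 - c / 4) ^ m :=
    le_trans (Finset.single_le_sum (f := fun i => (1 / 2 : ℝ) ^ (cnt (fun a => F i (T a))))
      (fun i _ => by positivity) (Finset.mem_univ i)) h3
  have hI : (0 : ℝ) < Fintype.card I := by exact_mod_cast Fintype.card_pos
  have hx : 0 < 1 - c / 4 := by linarith
  have hlog := Real.logb_le_logb_of_le (b := 2) (by norm_num) (by positivity) hle
  rw [Real.logb_pow, Real.logb_mul hI.ne' (by positivity), Real.logb_pow] at hlog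
  have hhalf : Real.logb 2 (1 / 2) = -1 := by
    rw [one_div, Real.logb_inv, Real.logb_self_eq_one (by norm_num)]
  rw [hhalf] at hlog
  have hbound : Real.logb 2 (1 - c / 4) ≤ -(c / 4) := by
    have h4 : Real.log (1 - c / 4) ≤ -(c / 4) := by
      have := Real.log_le_sub_one_of_pos hx
      linarith
    have h5 : 0 < Real.log 2 := Real.log_pos (by norm_num)
    have h6 : Real.log 2 ≤ 1 := by
      have := Real.log_two_lt_d9
      linarith
    rw [Real.logb, div_le_iff₀ h5]
    nlinarith
  have hmul : (m : ℝ) * Real.logb 2 (1 - c / 4) ≤ m * -(c / 4) :=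
    mul_le_mul_of_nonneg_left hbound (by positivity)
  linarith

/-- greedy choice of disjoint tuples -/
theorem greedy_tuples {V : Type} [Fintype V] [DecidableEq V] (r N : ℕ) (hr : 1 ≤ r)
    (c : ℝ) (hc : 0 < c) (S : Finset V) (F : Fin N → (Fin r → V) → Prop)
    (hF : ∀ i, c * (Fintype.card V : ℝ) ^ r ≤ (cnt (F i) : ℝ))
    (hN : (r : ℝ) * (S.card + r * (N + 1)) < c * (Fintype.card V : ℝ)) :
    ∃ T : Fin N → Fin r → V, (∀ i, F i (T i)) ∧ (∀ i j, T i j ∉ S) ∧
      Function.Injective (fun p : Fin N × Fin r => T p.1 p.2) := by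
  classical
  induction N generalizing S with
  | zero => exact ⟨Fin.elim0, fun i => i.elim0, fun i => i.elim0, fun p => p.1.elim0⟩
  | succ N ih =>
    have hr0 : (1 : ℝ) ≤ r := by exact_mod_cast hr
    have hn : 0 < Fintype.card V := by
      by_contra h
      have h0 : (Fintype.card V : ℝ) = 0 := by exact_mod_cast (Nat.eq_zero_of_not_pos h)
      rw [h0, mul_zero] at hN
      have : 0 ≤ (r : ℝ) * (S.card + r * ((N + 1 : ℕ) + 1)) := by positivity
      linarith
    have hn0 : (0 : ℝ) < Fintype.card V := by exact_mod_cast hn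
    have h1 := cnt_good r hr c S (F 0) (hF 0)
    have h2 : 0 < (cnt (fun f : Fin r → V => F 0 f ∧ (Function.Injective f ∧ ∀ j, f j ∉ S)) : ℝ) := by
      refine lt_of_lt_of_le ?_ h1
      refine mul_pos ?_ (by positivity)
      push_cast at hN
      nlinarith [mul_nonneg (mul_nonneg (by positivity : (0 : ℝ) ≤ r) (by positivity : (0 : ℝ) ≤ r))
        (by positivity : (0 : ℝ) ≤ N)]
    obtain ⟨t, ht1, ht2, ht3⟩ := exists_of_cnt_pos (by exact_mod_cast h2)
    obtain ⟨T, hT1, hT2, hT3⟩ := ih (S ∪ Finset.univ.image t) (fun i => F i.succ)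
      (fun i => hF i.succ) (by
        have : ((S ∪ Finset.univ.image t).card : ℝ) ≤ S.card + r := by
          have h3 : (S ∪ Finset.univ.image t).card ≤ S.card + r := by
            refine (Finset.card_union_le _ _).trans (Nat.add_le_add_left ?_ _)
            refine Finset.card_image_le.trans (le_of_eq ?_)
            rw [Finset.card_univ, Fintype.card_fin]
          exact_mod_cast h3
        push_cast at hN ⊢
        refine lt_of_le_of_lt ?_ hN
        refine mul_le_mul_of_nonneg_left ?_ (by positivity)
        linarith)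
    refine ⟨Fin.cons t T, fun i => ?_, fun i j => ?_, ?_⟩
    · refine Fin.cases (by simpa using ht1) (fun i' => by simpa using hT1 i') i
    · refine Fin.cases (by simpa using ht3 j) (fun i' => ?_) i
      simp only [Fin.cons_succ]
      exact fun h => hT2 i' j (Finset.mem_union_left _ h)
    · refine injective_cons hT3 ht2 fun a j j' h => hT2 a j' ?_
      rw [← h]
      exact Finset.mem_union_right _ (Finset.mem_image_of_mem _ (Finset.mem_univ _))

/-- injective choice from large sets -/
theorem choose_inj {α β : Type} [Fintype α] [Fintype β] (S : α → β → Prop)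
    (h : ∀ a, Fintype.card α ≤ cnt (S a)) : ∃ f : α → β, Function.Injective f ∧ ∀ a, S a (f a) := by
  classical
  have key := (Finset.all_card_le_biUnion_card_iff_exists_injective
    (fun a => Finset.univ.filter (S a))).1 (fun s => by
      rcases s.eq_empty_or_nonempty with rfl | ⟨a, ha⟩
      · simp
      · refine le_trans (Finset.card_le_univ s) ((h a).trans ?_)
        rw [cnt_eq]
        exact Finset.card_le_card (Finset.subset_biUnion_of_mem
          (fun a => Finset.univ.filter (S a)) ha))
  obtain ⟨f, hf1, hf2⟩ := key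
  exact ⟨f, hf1, fun a => (Finset.mem_filter.1 (hf2 a)).2⟩

end Pool.Agent.THC
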