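import Pool.Agent.Lib.MP_5c6f2e_co.Lists
import Pool.Agent.Lib.MP_5c6f2e_co.Count
import Pool.Agent.Lib.MP_5c6f2e_co.Connect
import Pool.Agent.Lib.MP_5c6f2e_co.Select

/-!
# MP_5c6f2e_co, P10: the non-extremal case (absorbing method, assembly)

`nonext_of_cover`: the statement of piece P9 (`almost_cover`) implies the non-extremal case.
With `almost_cover` at hand: `nonext k hk γ hγ := nonext_of_cover k hk (almost_cover k hk) γ hγ`.
-/

set_option autoImplicit false

namespace Pool.Agent.THC

open Finset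

namespace NonExt

/-- the last `k-1` entries -/
def lst (k : ℕ) {A : Type*} (l : List A) : List A := l.drop (l.length - (k - 1))

theorem lst_append {A : Type*} {k : ℕ} {l r : List A} (h : k - 1 ≤ r.length) :
    lst k (l ++ r) = lst k r := by
  unfold lst
  rw [List.length_append, List.drop_append]
  have h1 : l.length ≤ l.length + r.length - (k - 1) := by omega
  rw [List.drop_eq_nil_of_le h1, List.nil_append]
  congr 1
  omega

theorem take_app {A : Type*} {k : ℕ} {l r : List A} (h : k - 1 ≤ l.length) :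
    (l ++ r).take (k - 1) = l.take (k - 1) := List.take_append_of_le_length h

theorem length_lst {A : Type*} {k : ℕ} {l : List A} (h : k - 1 ≤ l.length) :
    (lst k l).length = k - 1 := by
  unfold lst
  rw [List.length_drop]
  omega

theorem allWin_short {A : Type*} {Φ : List A → Prop} {k : ℕ} {l : List A} (h : l.length < k) :
    AllWin Φ k l := by
  intro w hw hl
  have := hw.length_le
  omega

theorem glue {A : Type*} {Φ : List A → Prop} {k : ℕ} {X C Z : List A} (hX : AllWin Φ k X)
    (hZ : AllWin Φ k Z) (hC : k - 1 ≤ C.length)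
    (h : AllWin Φ k (lst k X ++ C ++ Z.take (k - 1))) : AllWin Φ k (X ++ C ++ Z) := by
  have hCw : AllWin Φ k C := h.mono_inf ⟨lst k X, Z.take (k - 1), rfl⟩
  have h1 : AllWin Φ k (X ++ C) := by
    refine AllWin.append hX hCw (h.mono_inf ?_)
    refine ⟨[], C.drop (k - 1) ++ Z.take (k - 1), ?_⟩
    simp only [List.nil_append, List.append_assoc]
    congr 1
    rw [← List.append_assoc, List.take_append_drop]
  refine AllWin.append h1 hZ (h.mono_inf ?_)
  change lst k (X ++ C) ++ _ <:+: _
  rw [lst_append hC]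
  refine ⟨lst k X ++ C.take (C.length - (k - 1)), [], ?_⟩
  simp only [List.append_nil, List.append_assoc]
  congr 1
  rw [← List.append_assoc]
  congr 1
  exact List.take_append_drop _ _

/-- alternating concatenation of the blocks `B i` and the connectors `C i` -/
def pathL {A : Type*} (B C : ℕ → List A) : ℕ → List A
  | 0 => B 0
  | n + 1 => pathL B C n ++ C n ++ B (n + 1)

theorem lst_pathL {A : Type*} {k : ℕ} (B C : ℕ → List A) (n : ℕ) (h : k - 1 ≤ (B n).length) :
    lst k (pathL B C n) = lst k (B n) := by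
  cases n with
  | zero => rfl
  | succ n => exact lst_append h

theorem le_length_pathL {A : Type*} {m : ℕ} (B C : ℕ → List A) (n : ℕ)
    (h : m ≤ (B 0).length) : m ≤ (pathL B C n).length := by
  induction n with
  | zero => exact h
  | succ n ih =>
    change m ≤ (pathL B C n ++ C n ++ B (n + 1)).length
    rw [List.length_append, List.length_append]
    omega

theorem take_pathL {A : Type*} {k : ℕ} (B C : ℕ → List A) (n : ℕ) (h : k - 1 ≤ (B 0).length) :
    (pathL B C n).take (k - 1) = (B 0).take (k - 1) := by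
  induction n with
  | zero => rfl
  | succ n ih =>
    change (pathL B C n ++ C n ++ B (n + 1)).take (k - 1) = _
    rw [List.append_assoc, take_app (le_length_pathL B C n h), ih]

theorem pathL_allWin {A : Type*} {Φ : List A → Prop} {k : ℕ} (B C : ℕ → List A) (n : ℕ)
    (hB : ∀ i ≤ n, AllWin Φ k (B i)) (hBl : ∀ i ≤ n, k - 1 ≤ (B i).length)
    (hCl : ∀ i < n, k - 1 ≤ (C i).length)
    (h : ∀ i < n, AllWin Φ k (lst k (B i) ++ C i ++ (B (i + 1)).take (k - 1))) :
    AllWin Φ k (pathL B C n) := by
  induction n with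
  | zero => exact hB 0 le_rfl
  | succ n ih =>
    change AllWin Φ k (pathL B C n ++ C n ++ B (n + 1))
    refine glue (ih (fun i hi => hB i (by omega)) (fun i hi => hBl i (by omega))
      (fun i hi => hCl i (by omega)) (fun i hi => h i (by omega))) (hB _ le_rfl)
      (hCl n (by omega)) ?_
    rw [lst_pathL B C n (hBl n (by omega))]
    exact h n (by omega)

theorem cyc_allWin {A : Type*} {Φ : List A → Prop} {k : ℕ} (hk : 1 ≤ k) (B C : ℕ → List A) (n : ℕ)
    (hB : ∀ i ≤ n, AllWin Φ k (B i)) (hBl : ∀ i ≤ n, k - 1 ≤ (B i).length)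
    (hCl : ∀ i ≤ n, k - 1 ≤ (C i).length)
    (h : ∀ i < n, AllWin Φ k (lst k (B i) ++ C i ++ (B (i + 1)).take (k - 1)))
    (hc : AllWin Φ k (lst k (B n) ++ C n ++ (B 0).take (k - 1))) :
    AllWin Φ k ((pathL B C n ++ C n) ++ (pathL B C n ++ C n).take (k - 1)) := by
  have h0 : k - 1 ≤ (B 0).length := hBl 0 (by omega)
  rw [take_app (le_length_pathL B C n h0), take_pathL B C n h0]
  refine glue (pathL_allWin B C n hB hBl (fun i hi => hCl i hi.le) h) (allWin_short ?_)
    (hCl n le_rfl) ?_
  · rw [List.length_take]; omega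
  · rw [lst_pathL B C n (hBl n le_rfl), List.take_take, min_self]
    exact hc

theorem pathL_perm {A : Type*} (B C : ℕ → List A) (n : ℕ) :
    (pathL B C n).Perm ((List.range (n + 1)).flatMap B ++ (List.range n).flatMap C) := by
  induction n with
  | zero => simp [pathL]
  | succ n ih =>
    change (pathL B C n ++ C n ++ B (n + 1)).Perm _
    have e1 : (List.range (n + 1 + 1)).flatMap B = (List.range (n + 1)).flatMap B ++ B (n + 1) := by
      rw [List.range_succ (n := n + 1), List.flatMap_append, List.flatMap_singleton]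
    have e2 : (List.range (n + 1)).flatMap C = (List.range n).flatMap C ++ C n := by
      rw [List.range_succ (n := n), List.flatMap_append, List.flatMap_singleton]
    rw [e1, e2]
    refine (List.Perm.append_right _ (List.Perm.append_right _ ih)).trans ?_
    simp only [List.append_assoc]
    refine List.Perm.append_left _ ?_
    rw [← List.append_assoc]
    exact List.perm_append_comm

theorem edgeL_sublist {V : Type} [Fintype V] [DecidableEq V] {K : Set (Finset V)}
    (hd : ∀ s ∈ K, ∀ t ⊆ s, t ∈ K) {l m : List V} (h : EdgeL K l) (hm : m.Sublist l) :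
    EdgeL K m :=
  ⟨h.1.sublist hm, hd _ h.2 _ (fun x hx => by
    rw [List.mem_toFinset] at hx ⊢
    exact hm.subset hx)⟩

theorem edge_take {V : Type} [Fintype V] [DecidableEq V] {K : Set (Finset V)}
    (hd : ∀ s ∈ K, ∀ t ⊆ s, t ∈ K) {k : ℕ} {l : List V} (h : Tight K k l) (hl : k ≤ l.length) :
    EdgeL K (l.take (k - 1)) := by
  refine edgeL_sublist hd (h (l.take k) (List.take_prefix k l).isInfix ?_) ?_
  · rw [List.length_take]; omega
  · have : l.take (k - 1) = (l.take k).take (k - 1) := by
      rw [List.take_take]; congr 1; omega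
    rw [this]
    exact List.take_sublist _ _

theorem edge_lst {V : Type} [Fintype V] [DecidableEq V] {K : Set (Finset V)}
    (hd : ∀ s ∈ K, ∀ t ⊆ s, t ∈ K) {k : ℕ} {l : List V} (h : Tight K k l) (hl : k ≤ l.length) :
    EdgeL K (lst k l) := by
  refine edgeL_sublist hd (h (l.drop (l.length - k)) (List.drop_suffix _ l).isInfix ?_) ?_
  · rw [List.length_drop]; omega
  · unfold lst
    by_cases hk : k = 0
    · subst hk; simp
    · have : l.drop (l.length - (k - 1)) = (l.drop (l.length - k)).drop 1 := by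
        rw [List.drop_drop]; congr 1; omega
      rw [this]
      exact List.drop_sublist _ _

theorem cnt_coord {V : Type} [Fintype V] [DecidableEq V] {m : ℕ} (S : Finset V) (j : Fin m) :
    cnt (fun f : Fin m → V => f j ∈ S) = S.card * (Fintype.card V) ^ (m - 1) := by
  classical
  rw [cnt_eq]
  have h : (Finset.univ.filter (fun f : Fin m → V => f j ∈ S)) =
      Fintype.piFinset (Function.update (fun _ => (Finset.univ : Finset V)) j S) := by
    ext f
    simp only [Finset.mem_filter, Finset.mem_univ, true_and, Fintype.mem_piFinset]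
    constructor
    · intro h a
      by_cases ha : a = j
      · subst ha; simpa using h
      · simp [Function.update_of_ne ha]
    · intro h
      simpa using h j
  rw [h, Fintype.card_piFinset]
  rw [← Finset.mul_prod_erase Finset.univ _ (Finset.mem_univ j)]
  simp only [Function.update_self]
  congr 1
  rw [Finset.prod_congr rfl (g := fun _ => Fintype.card V)]
  · rw [Finset.prod_const, Finset.card_erase_of_mem (Finset.mem_univ j), Finset.card_univ,
      Fintype.card_fin]
  · intro i hi
    rw [Function.update_of_ne (Finset.ne_of_mem_erase hi), Finset.card_univ]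

theorem cnt_hit {V : Type} [Fintype V] [DecidableEq V] {m : ℕ} (S : Finset V) :
    (cnt (fun f : Fin m → V => ∃ j, f j ∈ S) : ℝ) ≤
      m * S.card * (Fintype.card V : ℝ) ^ (m - 1) := by
  classical
  have h : cnt (fun f : Fin m → V => ∃ j, f j ∈ S) ≤
      ∑ j : Fin m, cnt (fun f : Fin m → V => f j ∈ S) := by
    simp only [cnt_eq]
    have : (Finset.univ.filter (fun f : Fin m → V => ∃ j, f j ∈ S)) ⊆
        Finset.univ.biUnion (fun j : Fin m => Finset.univ.filter (fun f : Fin m → V => f j ∈ S)) := by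
      intro f hf
      simp only [Finset.mem_filter, Finset.mem_univ, true_and, Finset.mem_biUnion] at hf ⊢
      exact hf
    exact (Finset.card_le_card this).trans Finset.card_biUnion_le
  simp only [cnt_coord, Finset.sum_const, Finset.card_univ, Fintype.card_fin, smul_eq_mul] at h
  have h2 : (cnt (fun f : Fin m → V => ∃ j, f j ∈ S) : ℝ) ≤
      ((m * (S.card * Fintype.card V ^ (m - 1)) : ℕ) : ℝ) := by exact_mod_cast h
  refine h2.trans (le_of_eq ?_)
  push_cast
  ring

theorem log_small (ε : ℝ) (hε : 0 < ε) : ∃ n₀ : ℕ, ∀ n : ℕ, n₀ ≤ n →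
    Real.logb 2 n ≤ ε * n := by
  have h := (Real.isLittleO_log_id_atTop.def (c := ε * Real.log 2)
    (mul_pos hε (Real.log_pos (by norm_num))))
  have h2 := tendsto_natCast_atTop_atTop.eventually h
  obtain ⟨n₀, hn⟩ := Filter.eventually_atTop.1 h2
  refine ⟨n₀, fun n hn0 => ?_⟩
  have h3 := hn n hn0
  have hl2 : (0 : ℝ) < Real.log 2 := Real.log_pos (by norm_num)
  simp only [id, Real.norm_eq_abs, Nat.abs_cast] at h3
  have h4 := (le_abs_self _).trans h3
  unfold Real.logb
  rw [div_le_iff₀ hl2]
  calc Real.log n ≤ ε * Real.log 2 * n := h4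
    _ = ε * n * Real.log 2 := by ring

theorem flatMap_perm_congr {A B : Type*} (l : List A) (f g : A → List B)
    (h : ∀ a ∈ l, (f a).Perm (g a)) : (l.flatMap f).Perm (l.flatMap g) := by
  induction l with
  | nil => simp
  | cons a l ih =>
    rw [List.flatMap_cons, List.flatMap_cons]
    exact (h a (by simp)).append (ih (fun b hb => h b (by simp [hb])))

theorem absorb_insert {V : Type} [Fintype V] [DecidableEq V] {K : Set (Finset V)} {k : ℕ}
    (hk : 2 ≤ k) (m : ℕ) (T : Fin (m + 1) → List V) (C : ℕ → List V)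
    (hTl : ∀ a, (T a).length = 2 * k - 2) (hT : ∀ a, Tight K k (T a))
    (hCl : ∀ i, k - 1 ≤ (C i).length)
    (hC : ∀ i, Tight K k (lst k (T (Fin.ofNat (m + 1) i)) ++ C i ++
      (T (Fin.ofNat (m + 1) (i + 1))).take (k - 1)))
    (U : Finset V) (f : V → Fin (m + 1)) (hf : Set.InjOn f U)
    (hab : ∀ u ∈ U, Absorbs K k u (T (f u))) :
    ∃ A' : List V, 2 * k - 2 ≤ A'.length ∧ Tight K k A' ∧
      A'.Perm (pathL (fun i => T (Fin.ofNat (m + 1) i)) C m ++ U.toList) ∧
      A'.take (k - 1) = (T 0).take (k - 1) ∧ lst k A' = lst k (T (Fin.ofNat (m + 1) m)) := by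
  classical
  set E : Fin (m + 1) → List V := fun a => (U.filter (fun u => f u = a)).toList with hE
  set B' : Fin (m + 1) → List V := fun a => (T a).take (k - 1) ++ (E a ++ (T a).drop (k - 1))
    with hB'
  have hE1 : ∀ a, E a = [] ∨ ∃ u ∈ U, f u = a ∧ E a = [u] := by
    intro a
    rcases Finset.eq_empty_or_nonempty (U.filter (fun u => f u = a)) with h | ⟨u, hu⟩
    · left; simp only [hE]; rw [h, Finset.toList_empty]
    · right
      rw [Finset.mem_filter] at hu
      refine ⟨u, hu.1, hu.2, ?_⟩
      have : U.filter (fun u => f u = a) = {u} := by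
        ext v
        rw [Finset.mem_filter, Finset.mem_singleton]
        constructor
        · intro hv
          exact hf hv.1 hu.1 (hv.2.trans hu.2.symm)
        · rintro rfl; exact hu
      simp only [hE]
      rw [this, Finset.toList_singleton]
  have hlt : ∀ a, ((T a).take (k - 1)).length = k - 1 := by
    intro a; rw [List.length_take, hTl]; omega
  have hld : ∀ a, ((T a).drop (k - 1)).length = k - 1 := by
    intro a; rw [List.length_drop, hTl]; omega
  have hB'len : ∀ a, 2 * k - 2 ≤ (B' a).length := by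
    intro a
    simp only [hB', List.length_append, hlt, hld]; omega
  have hB't : ∀ a, Tight K k (B' a) := by
    intro a
    rcases hE1 a with h | ⟨u, hu, hfu, h⟩
    · simp only [hB', h, List.nil_append, List.take_append_drop]; exact hT a
    · simp only [hB', h, List.singleton_append]
      have := (hab u hu).2
      rw [hfu] at this; exact this
  have hB'take : ∀ a, (B' a).take (k - 1) = (T a).take (k - 1) := by
    intro a
    simp only [hB']
    rw [take_app (by rw [hlt]), List.take_take, min_self]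
  have hlT : ∀ a, lst k (T a) = (T a).drop (k - 1) := by
    intro a
    unfold lst
    rw [hTl]; congr 1; omega
  have hB'lst : ∀ a, lst k (B' a) = lst k (T a) := by
    intro a
    simp only [hB']
    rw [← List.append_assoc, lst_append (by rw [hld]), hlT]
    unfold lst
    rw [hld]; simp
  set A' : List V := pathL (fun i => B' (Fin.ofNat (m + 1) i)) C m with hA'
  refine ⟨A', ?_, ?_, ?_, ?_, ?_⟩
  · exact le_length_pathL _ C m (hB'len _)
  · refine pathL_allWin _ C m (fun i _ => hB't _) (fun i _ => ?_) (fun i _ => hCl i)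
      (fun i _ => ?_)
    · have := hB'len (Fin.ofNat (m + 1) i); omega
    · rw [hB'lst, hB'take]; exact hC i
  · have h1 : A'.Perm ((List.range (m + 1)).flatMap (fun i => B' (Fin.ofNat (m + 1) i)) ++
        (List.range m).flatMap C) := pathL_perm _ C m
    have h2 : (pathL (fun i => T (Fin.ofNat (m + 1) i)) C m).Perm
      ((List.range (m + 1)).flatMap (fun i => T (Fin.ofNat (m + 1) i)) ++
        (List.range m).flatMap C) := pathL_perm _ C m
    have h3 : ((List.range (m + 1)).flatMap (fun i => B' (Fin.ofNat (m + 1) i))).Perm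
        ((List.range (m + 1)).flatMap (fun i => T (Fin.ofNat (m + 1) i) ++
          E (Fin.ofNat (m + 1) i))) := by
      refine flatMap_perm_congr _ _ _ (fun i _ => ?_)
      simp only [hB']
      conv_rhs => rw [← List.take_append_drop (k - 1) (T (Fin.ofNat (m + 1) i))]
      rw [List.append_assoc]
      exact List.Perm.append_left _ List.perm_append_comm
    have h4 : ((List.range (m + 1)).flatMap (fun i => T (Fin.ofNat (m + 1) i) ++
          E (Fin.ofNat (m + 1) i))).Perm
        ((List.range (m + 1)).flatMap (fun i => T (Fin.ofNat (m + 1) i)) ++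
          (List.range (m + 1)).flatMap (fun i => E (Fin.ofNat (m + 1) i))) :=
      (List.flatMap_append_perm _ _ _).symm
    have h5 : ((List.range (m + 1)).flatMap (fun i => E (Fin.ofNat (m + 1) i))).Perm U.toList := by
      rw [List.perm_ext_iff_of_nodup]
      · intro u
        rw [List.mem_flatMap, Finset.mem_toList]
        constructor
        · rintro ⟨i, _, hi⟩
          simp only [hE, Finset.mem_toList, Finset.mem_filter] at hi
          exact hi.1
        · intro hu
          refine ⟨(f u : ℕ), List.mem_range.2 (f u).2, ?_⟩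
          simp only [hE, Finset.mem_toList, Finset.mem_filter]
          refine ⟨hu, ?_⟩
          apply Fin.ext
          simp [Fin.ofNat, Nat.mod_eq_of_lt (f u).2]
      · rw [List.nodup_flatMap]
        refine ⟨fun i _ => Finset.nodup_toList _, ?_⟩
        refine List.Pairwise.imp_of_mem ?_ List.nodup_range
        intro i j hi hj hij
        rw [Function.onFun, List.disjoint_left]
        intro u hu hu'
        simp only [hE, Finset.mem_toList, Finset.mem_filter] at hu hu'
        have := hu.2.symm.trans hu'.2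
        apply hij
        have h6 := congrArg Fin.val this
        simp only [Fin.ofNat, Nat.mod_eq_of_lt (List.mem_range.1 hi),
          Nat.mod_eq_of_lt (List.mem_range.1 hj)] at h6
        exact h6
      · exact Finset.nodup_toList _
    refine h1.trans ((List.Perm.append_right _ (h3.trans h4)).trans ?_)
    refine List.Perm.trans ?_ (List.Perm.append_right _ h2.symm)
    rw [List.append_assoc, List.append_assoc]
    refine List.Perm.append_left _ ?_
    refine List.perm_append_comm.trans (List.Perm.append_left _ h5)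
  · rw [hA', take_pathL _ _ _ (by have := hB'len (Fin.ofNat (m + 1) 0); omega), hB'take]
    congr 2
  · rw [hA', lst_pathL _ _ _ (by have := hB'len (Fin.ofNat (m + 1) m); omega), hB'lst]

theorem length_pathL {A : Type*} (B C : ℕ → List A) (b c : ℕ) (hB : ∀ i, (B i).length = b)
    (hC : ∀ i, (C i).length = c) (n : ℕ) : (pathL B C n).length = (n + 1) * b + n * c := by
  induction n with
  | zero => simp [pathL, hB]
  | succ n ih =>
    change (pathL B C n ++ C n ++ B (n + 1)).length = _
    rw [List.length_append, List.length_append, ih, hB, hC]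
    ring

theorem ofNat_inj {N i j : ℕ} (hi : i < N + 1) (hj : j < N + 1)
    (h : Fin.ofNat (N + 1) i = Fin.ofNat (N + 1) j) : i = j := by
  have h6 := congrArg Fin.val h
  simpa only [Fin.ofNat, Nat.mod_eq_of_lt hi, Nat.mod_eq_of_lt hj] using h6

theorem nodup_fam {V : Type} {N r : ℕ} (T : Fin (N + 1) → Fin r → V)
    (hT : Function.Injective (fun p : Fin (N + 1) × Fin r => T p.1 p.2)) (n : ℕ)
    (hn : n ≤ N + 1) :
    ((List.range n).flatMap (fun i => List.ofFn (T (Fin.ofNat (N + 1) i)))).Nodup := by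
  rw [List.nodup_flatMap]
  refine ⟨fun i _ => ?_, ?_⟩
  · rw [List.nodup_ofFn]
    intro a b hab
    have := @hT (Fin.ofNat (N + 1) i, a) (Fin.ofNat (N + 1) i, b) hab
    exact congrArg Prod.snd this
  · refine List.Pairwise.imp_of_mem ?_ List.nodup_range
    intro i j hi hj hij
    rw [Function.onFun, List.disjoint_left]
    intro u hu hu'
    rw [List.mem_ofFn] at hu hu'
    obtain ⟨a, ha⟩ := hu
    obtain ⟨b, hb⟩ := hu'
    have := @hT (Fin.ofNat (N + 1) i, a) (Fin.ofNat (N + 1) j, b) (ha.trans hb.symm)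
    have h2 := congrArg Prod.fst this
    rw [List.mem_range] at hi hj
    exact hij (ofNat_inj (by omega) (by omega) h2)

theorem absorbing_path (k : ℕ) (hk : 3 ≤ k) (β₁ : ℝ) (hβ : 0 < β₁) : ∃ τ > (0 : ℝ), ∃ n₀ : ℕ,
    ∀ (V : Type) [Fintype V] [DecidableEq V], n₀ ≤ Fintype.card V →
    ∀ (K : Set (Finset V)) (D : ℝ), Cx K k D → 2 / 3 * (Fintype.card V : ℝ) ≤ D →
      (∀ v, {v} ∈ K) →
    ∃ A : List V, k ≤ A.length ∧ A.Nodup ∧ Tight K k A ∧
      (A.length : ℝ) ≤ β₁ * Fintype.card V ∧
      ∀ U : Finset V, (U.card : ℝ) ≤ τ * Fintype.card V →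
        ∃ A' : List V, k ≤ A'.length ∧ Tight K k A' ∧ A'.Perm (A ++ U.toList) ∧
          A'.take (k - 1) = A.take (k - 1) ∧ lst k A' = lst k A := by
  classical
  obtain ⟨c₁, hc₁, habs⟩ := absorbers k (by omega)
  obtain ⟨M, hM, hcon⟩ := connect k (by omega)
  obtain ⟨c₂, hc₂, hcon⟩ := hcon M le_rfl
  set c : ℝ := min c₁ 1 with hcdef
  have hc : 0 < c := lt_min hc₁ one_pos
  have hc1 : c ≤ 1 := min_le_right _ _
  have hcc : c ≤ c₁ := min_le_left _ _
  obtain ⟨r, hr⟩ : ∃ r, r = 2 * k - 2 := ⟨_, rfl⟩
  have hr4 : 4 ≤ r := by omega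
  have hM2 : 2 ≤ M := by omega
  have hr4' : (4 : ℝ) ≤ r := by exact_mod_cast hr4
  have hM2' : (2 : ℝ) ≤ M := by exact_mod_cast hM2
  set P : ℝ := r + 2 * M with hP
  have hPpos : 0 < P := by positivity
  set δ : ℝ := min (β₁ / P) (min (c / (4 * r ^ 2)) (c₂ / (2 * M * P))) with hδ
  have hδpos : 0 < δ := by
    refine lt_min (by positivity) (lt_min (by positivity) (by positivity))
  have hδ1 : δ * P ≤ β₁ := by
    have : δ ≤ β₁ / P := min_le_left _ _
    rwa [le_div_iff₀ hPpos] at this
  have hδ2 : δ * (4 * r ^ 2) ≤ c := by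
    have : δ ≤ c / (4 * r ^ 2) := (min_le_right _ _).trans (min_le_left _ _)
    rwa [le_div_iff₀ (by positivity)] at this
  have hδ3 : δ * (2 * M * P) ≤ c₂ := by
    have : δ ≤ c₂ / (2 * M * P) := (min_le_right _ _).trans (min_le_right _ _)
    rwa [le_div_iff₀ (by positivity)] at this
  obtain ⟨n₁, hn₁⟩ := log_small (c * δ / 16) (by positivity)
  refine ⟨c * δ / 16, by positivity, max n₁ (⌈2 / δ⌉₊ + 1), ?_⟩
  intro V _ _ hn K D hK hD hv
  set n : ℕ := Fintype.card V with hndef
  have hlog := hn₁ n (le_trans (le_max_left _ _) hn)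
  have hnδ : 2 / δ ≤ n := by
    have h1 : ⌈2 / δ⌉₊ + 1 ≤ n := le_trans (le_max_right _ _) hn
    exact (Nat.le_ceil _).trans (by exact_mod_cast (by omega : ⌈2 / δ⌉₊ ≤ n))
  have hnpos : 0 < n := by
    have h1 : ⌈2 / δ⌉₊ + 1 ≤ n := le_trans (le_max_right _ _) hn
    omega
  have hn0 : (0 : ℝ) < n := by exact_mod_cast hnpos
  have hnδ2 : 2 ≤ δ * n := by
    rw [div_le_iff₀ hδpos] at hnδ; linarith
  have : Nonempty V := Fintype.card_pos_iff.1 hnpos
  obtain ⟨m, hm⟩ : ∃ m, ⌊δ * n⌋₊ = m + 1 := by
    have : 1 ≤ ⌊δ * n⌋₊ := Nat.le_floor (by push_cast; linarith)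
    exact ⟨⌊δ * n⌋₊ - 1, by omega⟩
  have hm1 : (m : ℝ) + 1 ≤ δ * n := by
    have := Nat.floor_le (show 0 ≤ δ * n by positivity)
    rw [hm] at this; push_cast at this; exact this
  have hm2 : δ * n / 2 ≤ (m : ℝ) + 1 := by
    have := Nat.lt_floor_add_one (δ * n)
    rw [hm] at this; push_cast at this; linarith
  -- absorbers
  obtain ⟨T, hT1, hT2, hT3⟩ := selection (V := V) (I := V) (2 * k - 2) (m + 1) (by omega) c hc hc1
    (fun v x => Absorbs K k v (List.ofFn x))
    (fun v => (mul_le_mul_of_nonneg_right hcc (by positivity)).trans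
      (habs V K D hK hD v (hv v)))
    (by
      rw [← hr]
      push_cast
      have : (r : ℝ) ^ 2 * (m + 1 + 1) ≤ (r : ℝ) ^ 2 * (2 * (δ * n)) := by
        apply mul_le_mul_of_nonneg_left _ (by positivity)
        linarith
      refine this.trans ?_
      nlinarith)
  have hTt : ∀ a, Tight K k (List.ofFn (T a)) := fun a => by
    obtain ⟨v, h⟩ := hT1 a; exact h.1
  have hTlen : ∀ a, (List.ofFn (T a)).length = 2 * k - 2 := fun a => List.length_ofFn
  -- connectors
  set S : Finset V := Finset.univ.image (fun p : Fin (m + 1) × Fin (2 * k - 2) => T p.1 p.2)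
    with hS
  have hScard : (S.card : ℝ) ≤ (m + 1) * r := by
    have : S.card ≤ (m + 1) * r := by
      refine Finset.card_image_le.trans ?_
      rw [Finset.card_univ, Fintype.card_prod, Fintype.card_fin, Fintype.card_fin, ← hr]
    exact_mod_cast this
  obtain ⟨Q, hQ1, hQ2, hQ3⟩ := greedy_tuples (V := V) M (m + 1) (by omega) c₂ hc₂ S
    (fun i w => Tight K k (lst k (List.ofFn (T (Fin.ofNat (m + 1) i))) ++ List.ofFn w ++
      (List.ofFn (T (Fin.ofNat (m + 1) (i + 1)))).take (k - 1)))
    (fun i => hcon V K D hK hD _ _ (length_lst (by rw [hTlen]; omega))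
      (by rw [List.length_take, hTlen]; omega)
      (edge_lst hK.down (hTt _) (by rw [hTlen]; omega))
      (edge_take hK.down (hTt _) (by rw [hTlen]; omega)))
    (by
      push_cast
      have h1 : (M : ℝ) * (S.card + M * (m + 1 + 1)) ≤ M * (P * (m + 1)) := by
        apply mul_le_mul_of_nonneg_left _ (by positivity)
        rw [hP]
        nlinarith
      have h2 : (M : ℝ) * (P * (m + 1)) ≤ M * (P * (δ * n)) := by
        apply mul_le_mul_of_nonneg_left _ (by positivity)
        exact mul_le_mul_of_nonneg_left hm1 hPpos.le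
      have h3 : (M : ℝ) * (P * (δ * n)) ≤ c₂ / 2 * n := by
        have := mul_le_mul_of_nonneg_right hδ3 hn0.le
        linarith
      have h4 : c₂ / 2 * n < c₂ * n := by nlinarith
      linarith)
  set B : Fin (m + 1) → List V := fun a => List.ofFn (T a) with hB
  set C : ℕ → List V := fun i => List.ofFn (Q (Fin.ofNat (m + 1) i)) with hC
  set A : List V := pathL (fun i => B (Fin.ofNat (m + 1) i)) C m with hA
  have hClen : ∀ i, (C i).length = M := fun i => List.length_ofFn
  have hBC : ∀ i, Tight K k (lst k (B (Fin.ofNat (m + 1) i)) ++ C i ++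
      (B (Fin.ofNat (m + 1) (i + 1))).take (k - 1)) := by
    intro i
    have := hQ1 (Fin.ofNat (m + 1) i)
    have e1 : Fin.ofNat (m + 1) ((Fin.ofNat (m + 1) i : Fin (m + 1)) : ℕ) =
        Fin.ofNat (m + 1) i := by
      apply Fin.ext; simp [Fin.ofNat]
    have e2 : Fin.ofNat (m + 1) (((Fin.ofNat (m + 1) i : Fin (m + 1)) : ℕ) + 1) =
        Fin.ofNat (m + 1) (i + 1) := by
      apply Fin.ext; simp [Fin.ofNat]
    rw [e1, e2] at this
    exact this
  have hAt : Tight K k A := by
    refine pathL_allWin _ C m (fun i _ => hTt _) (fun i _ => ?_) (fun i _ => ?_)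
      (fun i _ => hBC i)
    · simp only [hB, hTlen]; omega
    · rw [hClen]; exact hM
  have hAlen : A.length = (m + 1) * (2 * k - 2) + m * M :=
    length_pathL _ _ _ _ (fun i => hTlen _) hClen m
  refine ⟨A, ?_, ?_, hAt, ?_, ?_⟩
  · rw [hAlen]
    have : 1 * (2 * k - 2) ≤ (m + 1) * (2 * k - 2) := Nat.mul_le_mul_right _ (by omega)
    omega
  · rw [(pathL_perm _ C m).nodup_iff, List.nodup_append]
    refine ⟨nodup_fam T hT2 _ le_rfl, nodup_fam Q hQ3 _ (by omega), ?_⟩
    intro a ha b hb hab
    rw [List.mem_flatMap] at ha hb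
    obtain ⟨i, _, hi⟩ := ha
    obtain ⟨j, _, hj⟩ := hb
    rw [List.mem_ofFn] at hi hj
    obtain ⟨x, hx⟩ := hi
    obtain ⟨y, hy⟩ := hj
    apply hQ2 (Fin.ofNat (m + 1) j) y
    rw [hy, ← hab, ← hx, hS]
    exact Finset.mem_image.2 ⟨(Fin.ofNat (m + 1) i, x), Finset.mem_univ _, rfl⟩
  · rw [hAlen, ← hr]
    push_cast
    have h1 : ((m : ℝ) + 1) * r + m * M ≤ (m + 1) * P := by
      rw [hP]; nlinarith
    have h2 : ((m : ℝ) + 1) * P ≤ δ * n * P := mul_le_mul_of_nonneg_right hm1 hPpos.le
    have h3 := mul_le_mul_of_nonneg_right hδ1 hn0.le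
    linarith
  · intro U hU
    obtain ⟨g, hg1, hg2⟩ := choose_inj (α := {u // u ∈ U}) (β := Fin (m + 1))
      (fun u a => Absorbs K k u (List.ofFn (T a))) (by
        intro u
        have h1 := hT3 u
        rw [← hndef] at h1
        push_cast at h1
        have h2 : (U.card : ℝ) ≤ (cnt (fun a => Absorbs K k (u : V) (List.ofFn (T a))) : ℝ) := by
          refine le_trans ?_ h1
          have h3 : c * δ / 16 * n * 2 ≤ c / 4 * (m + 1) := by nlinarith
          linarith
        rw [Fintype.card_coe]
        exact_mod_cast h2)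
    obtain ⟨A', hA1, hA2, hA3, hA4, hA5⟩ := absorb_insert (K := K) (k := k) (by omega) m B C
      hTlen hTt (fun i => by rw [hClen]; exact hM) hBC U
      (fun v => if h : v ∈ U then g ⟨v, h⟩ else 0) (by
        intro u hu v hv huv
        have hu' : u ∈ U := hu
        have hv' : v ∈ U := hv
        simp only [hu', hv', dif_pos] at huv
        exact congrArg Subtype.val (hg1 huv)) (by
        intro u hu
        simp only [hu, dif_pos]
        exact hg2 ⟨u, hu⟩)
    refine ⟨A', by omega, hA2, hA3, ?_, ?_⟩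
    · rw [hA4, hA, take_pathL _ _ _ (by simp only [hB, hTlen]; omega)]
      congr 2
    · rw [hA5, hA, lst_pathL _ _ _ (by simp only [hB, hTlen]; omega)]

theorem reservoir (k : ℕ) (hk : 3 ≤ k) : ∃ M : ℕ, k - 1 ≤ M ∧ ∃ σ > (0 : ℝ),
    ∀ β₂ > (0 : ℝ), ∃ ρ > (0 : ℝ), ∃ n₀ : ℕ,
    ∀ (V : Type) [Fintype V] [DecidableEq V], n₀ ≤ Fintype.card V →
    ∀ (K : Set (Finset V)) (D : ℝ), Cx K k D → 2 / 3 * (Fintype.card V : ℝ) ≤ D →
    ∀ S : Finset V, (S.card : ℝ) ≤ σ * Fintype.card V →
    ∃ (q : ℕ) (R : Fin q → Fin M → V),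
      Function.Injective (fun p : Fin q × Fin M => R p.1 p.2) ∧ (∀ a j, R a j ∉ S) ∧
      (M * q : ℝ) ≤ β₂ * Fintype.card V ∧
      ∀ s t : List V, s.length = k - 1 → t.length = k - 1 → EdgeL K s → EdgeL K t →
        ρ * Fintype.card V ≤
          (cnt (fun a => Tight K k (s ++ List.ofFn (R a) ++ t)) : ℝ) := by
  classical
  obtain ⟨M, hM, hcon⟩ := connect k (by omega)
  obtain ⟨c', hc', hcon⟩ := hcon M le_rfl
  set c : ℝ := min c' 1 with hcdef
  have hc : 0 < c := lt_min hc' one_pos
  have hc1 : c ≤ 1 := min_le_right _ _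
  have hcc : c ≤ c' := min_le_left _ _
  have hM2 : 2 ≤ M := by omega
  have hM2' : (2 : ℝ) ≤ M := by exact_mod_cast hM2
  have hM0 : (0 : ℝ) < M := by linarith
  refine ⟨M, hM, c / (2 * M), by positivity, fun β₂ hβ₂ => ?_⟩
  set δ : ℝ := min (β₂ / M) (c / (8 * M ^ 2)) with hδ
  have hδpos : 0 < δ := lt_min (by positivity) (by positivity)
  have hδ1 : δ * M ≤ β₂ := by
    have : δ ≤ β₂ / M := min_le_left _ _
    rwa [le_div_iff₀ hM0] at this
  have hδ2 : δ * (8 * M ^ 2) ≤ c := by
    have : δ ≤ c / (8 * M ^ 2) := min_le_right _ _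
    rwa [le_div_iff₀ (by positivity)] at this
  obtain ⟨n₁, hn₁⟩ := log_small (c * δ / (64 * k)) (by positivity)
  refine ⟨c * δ / 32, by positivity, max n₁ (⌈2 / δ⌉₊ + 1), ?_⟩
  intro V _ _ hn K D hK hD S hS
  set n : ℕ := Fintype.card V with hndef
  have hlog := hn₁ n (le_trans (le_max_left _ _) hn)
  have hnδ : 2 / δ ≤ n := by
    have h1 : ⌈2 / δ⌉₊ + 1 ≤ n := le_trans (le_max_right _ _) hn
    exact (Nat.le_ceil _).trans (by exact_mod_cast (by omega : ⌈2 / δ⌉₊ ≤ n))
  have hnpos : 0 < n := by
    have h1 : ⌈2 / δ⌉₊ + 1 ≤ n := le_trans (le_max_right _ _) hn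
    omega
  have hn0 : (0 : ℝ) < n := by exact_mod_cast hnpos
  have hnδ2 : 2 ≤ δ * n := by
    rw [div_le_iff₀ hδpos] at hnδ; linarith
  have : Nonempty V := Fintype.card_pos_iff.1 hnpos
  obtain ⟨q, hq⟩ : ∃ q, ⌊δ * n⌋₊ = q := ⟨_, rfl⟩
  have hq1 : (q : ℝ) ≤ δ * n := by
    have := Nat.floor_le (show 0 ≤ δ * n by positivity)
    rwa [hq] at this
  have hq2 : δ * n / 2 ≤ (q : ℝ) := by
    have := Nat.lt_floor_add_one (δ * n)
    rw [hq] at this; linarith
  set F : ((Fin (k - 1) → V) × (Fin (k - 1) → V)) → (Fin M → V) → Prop := fun p w =>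
    (EdgeL K (List.ofFn p.1) → EdgeL K (List.ofFn p.2) →
      Tight K k (List.ofFn p.1 ++ List.ofFn w ++ List.ofFn p.2)) ∧ ∀ j, w j ∉ S with hF
  have hpow : (n : ℝ) ^ M = n ^ (M - 1) * n := by
    rw [← pow_succ]; congr 1; omega
  have hhit : (cnt (fun w : Fin M → V => ∃ j, w j ∈ S) : ℝ) ≤ c / 2 * (n : ℝ) ^ M := by
    refine (cnt_hit S).trans ?_
    rw [← hndef, hpow]
    have h1 : (M : ℝ) * S.card ≤ c / 2 * n := by
      have h2 := mul_le_mul_of_nonneg_left hS hM0.le
      have h3 : (M : ℝ) * (c / (2 * M) * n) = c / 2 * n := by field_simp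
      linarith
    have h4 := mul_le_mul_of_nonneg_right h1 (show (0 : ℝ) ≤ n ^ (M - 1) by positivity)
    linarith
  have hFc : ∀ p, c / 2 * (n : ℝ) ^ M ≤ (cnt (F p) : ℝ) := by
    intro p
    set G : (Fin M → V) → Prop := fun w => (EdgeL K (List.ofFn p.1) → EdgeL K (List.ofFn p.2) →
      Tight K k (List.ofFn p.1 ++ List.ofFn w ++ List.ofFn p.2)) with hG
    have hGc : c * (n : ℝ) ^ M ≤ (cnt G : ℝ) := by
      by_cases he : EdgeL K (List.ofFn p.1) ∧ EdgeL K (List.ofFn p.2)
      · have h1 := hcon V K D hK hD _ _ (List.length_ofFn (f := p.1))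
          (List.length_ofFn (f := p.2)) he.1 he.2
        refine (mul_le_mul_of_nonneg_right hcc (by positivity)).trans (h1.trans ?_)
        exact_mod_cast cnt_mono (fun w hw _ _ => hw)
      · have h1 : cnt G = Fintype.card (Fin M → V) := by
          rw [cnt_eq, Finset.filter_true_of_mem, Finset.card_univ]
          intro w _ h1 h2
          exact absurd ⟨h1, h2⟩ he
        rw [h1, Fintype.card_fun, Fintype.card_fin, ← hndef]
        push_cast
        have : (0 : ℝ) ≤ (n : ℝ) ^ M := by positivity
        nlinarith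
    have hle : (cnt G : ℝ) ≤ cnt (F p) + cnt (fun w : Fin M → V => ∃ j, w j ∈ S) := by
      have h1 := cnt_or_le (F p) (fun w : Fin M → V => ∃ j, w j ∈ S)
      have h2 : cnt G ≤ cnt (fun w => F p w ∨ ∃ j, w j ∈ S) := by
        refine cnt_mono (fun w hw => ?_)
        by_cases h : ∃ j, w j ∈ S
        · exact Or.inr h
        · left
          refine ⟨hw, ?_⟩
          push Not at h
          exact h
      exact_mod_cast h2.trans h1
    linarith
  obtain ⟨R, hR1, hR2, hR3⟩ := selection (V := V) (I := (Fin (k - 1) → V) × (Fin (k - 1) → V)) M q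
    (by omega) (c / 2) (by positivity) (by linarith) F hFc (by
      rw [← hndef]
      have h1 : (M : ℝ) ^ 2 * (q + 1) ≤ (M : ℝ) ^ 2 * (2 * (δ * n)) := by
        apply mul_le_mul_of_nonneg_left _ (by positivity)
        linarith
      refine h1.trans ?_
      nlinarith)
  refine ⟨q, R, hR2, ?_, ?_, ?_⟩
  · intro a j
    obtain ⟨p, hp⟩ := hR1 a
    exact hp.2 j
  · have h1 := mul_le_mul_of_nonneg_left hq1 hM0.le
    have h2 := mul_le_mul_of_nonneg_right hδ1 hn0.le
    linarith
  · intro s t hs ht hse hte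
    have h1 := hR3 (s.get ∘ Fin.cast hs.symm, t.get ∘ Fin.cast ht.symm)
    have e1 : List.ofFn (s.get ∘ Fin.cast hs.symm) = s := by
      apply List.ext_get
      · simp [hs]
      · intro i h1 h2
        simp
    have e2 : List.ofFn (t.get ∘ Fin.cast ht.symm) = t := by
      apply List.ext_get
      · simp [ht]
      · intro i h1 h2
        simp
    have h2 : (cnt (fun a => F (s.get ∘ Fin.cast hs.symm, t.get ∘ Fin.cast ht.symm) (R a)) : ℝ) ≤
        (cnt (fun a => Tight K k (s ++ List.ofFn (R a) ++ t)) : ℝ) := by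
      have : cnt (fun a => F (s.get ∘ Fin.cast hs.symm, t.get ∘ Fin.cast ht.symm) (R a)) ≤
          cnt (fun a => Tight K k (s ++ List.ofFn (R a) ++ t)) := by
        refine cnt_mono (fun a ha => ?_)
        have h3 := ha.1
        simp only [e1, e2] at h3
        exact h3 hse hte
      exact_mod_cast this
    refine le_trans ?_ (h1.trans h2)
    rw [Fintype.card_prod, Fintype.card_fun, Fintype.card_fin, ← hndef]
    have h4 : Real.logb 2 (((n ^ (k - 1) * n ^ (k - 1) : ℕ)) : ℝ) =
        (2 * (k - 1 : ℕ) : ℝ) * Real.logb 2 n := by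
      push_cast
      rw [← pow_add, Real.logb_pow]
      push_cast; ring
    rw [h4]
    have h5 : (2 * (k - 1 : ℕ) : ℝ) * Real.logb 2 n ≤ 2 * k * (c * δ / (64 * k) * n) := by
      have h6 : (0 : ℝ) ≤ 2 * (k - 1 : ℕ) := by positivity
      refine (mul_le_mul_of_nonneg_left hlog h6).trans ?_
      apply mul_le_mul_of_nonneg_right _ (by positivity)
      have : ((k - 1 : ℕ) : ℝ) ≤ k := by exact_mod_cast Nat.sub_le _ _
      linarith
    have h7 : (2 : ℝ) * k * (c * δ / (64 * k) * n) = c * δ / 32 * n := by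
      have : (k : ℝ) ≠ 0 := by positivity
      field_simp; norm_num
    have h8 : c * δ / 32 * n + c * δ / 32 * n ≤ c / 2 / 4 * q := by nlinarith
    linarith

theorem map_getD_range {A : Type*} (l : List A) (d : A) :
    (List.range l.length).map (fun i => l.getD i d) = l := by
  apply List.ext_getElem
  · simp
  · intro i h1 h2
    simp [List.getD_eq_getElem?_getD, List.getElem?_eq_getElem h2]

theorem nearExt_mono {V : Type} [Fintype V] [DecidableEq V] {K : Set (Finset V)} {k : ℕ}
    {γ γ' : ℝ} (h : NearExt K k γ) (hγ : γ ≤ γ') : NearExt K k γ' := by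
  obtain ⟨Y, h1, h2⟩ := h
  refine ⟨Y, ?_, ?_⟩
  · refine le_trans ?_ h1
    apply mul_le_mul_of_nonneg_right _ (Nat.cast_nonneg _)
    linarith
  · refine h2.trans ?_
    exact mul_le_mul_of_nonneg_right hγ (by positivity)

end NonExt

open NonExt in
theorem nonext_of_cover (k : ℕ) (hk : 3 ≤ k)
    (almost_cover : ∀ (γ : ℝ), 0 < γ → ∃ β > (0 : ℝ),
      ∀ η > (0 : ℝ), ∀ b : ℕ, 1 ≤ b → ∃ n₀ : ℕ,
      ∀ (V : Type) [Fintype V] [DecidableEq V], n₀ ≤ Fintype.card V → ∀ K : Set (Finset V),
        Cx K k ((1 - 1 / (k : ℝ) - β) * (Fintype.card V : ℝ)) → (∀ v, {v} ∈ K) →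
        ¬ NearExt K k γ →
        ∃ L : List (List V), (∀ B ∈ L, B.length = k * b ∧ Tight K k B) ∧ L.flatten.Nodup ∧
          (1 - η) * (Fintype.card V : ℝ) ≤ (L.flatten.length : ℝ))
    (γ : ℝ) (hγ : 0 < γ) : ∃ n₀ : ℕ,
    ∀ (V : Type) [Fintype V] [DecidableEq V], n₀ ≤ Fintype.card V → ∀ K : Set (Finset V),
      Cx K k ((1 - 1 / (k : ℝ)) * (Fintype.card V : ℝ)) → (∀ v, {v} ∈ K) → ¬ NearExt K k γ →
      HamCyc K k := by
  classical
  have hk3 : (3 : ℝ) ≤ k := by exact_mod_cast hk
  obtain ⟨β₀, hβ₀, hcov⟩ := almost_cover (γ / 2) (by positivity)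
  obtain ⟨M, hM, σ, hσ, hres⟩ := reservoir k hk
  set β : ℝ := min (min β₀ (γ / (2 * (k + 1)))) (1 / 2) with hβdef
  have hβ : 0 < β := lt_min (lt_min hβ₀ (by positivity)) (by norm_num)
  have hββ₀ : β ≤ β₀ := (min_le_left _ _).trans (min_le_left _ _)
  have hβγ : β * (2 * (k + 1)) ≤ γ := by
    have : β ≤ γ / (2 * (k + 1)) := (min_le_left _ _).trans (min_le_right _ _)
    rwa [le_div_iff₀ (by positivity)] at this
  have hβ2 : β ≤ 1 / 2 := min_le_right _ _
  obtain ⟨τ, hτ, n₁, habs⟩ := absorbing_path k hk (min (β / 2) σ)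
    (lt_min (by positivity) hσ)
  obtain ⟨ρ, hρ, n₂, hres⟩ := hres (min (β / 2) (τ / 2)) (lt_min (by positivity) (by positivity))
  set b : ℕ := ⌈2 / (k * ρ)⌉₊ + 1 with hb
  have hb1 : 1 ≤ b := by omega
  have hbρ : 2 ≤ (k * b : ℝ) * ρ := by
    have h1 : 2 / (k * ρ) ≤ b := by
      refine (Nat.le_ceil _).trans ?_
      exact_mod_cast Nat.le_succ _
    rw [div_le_iff₀ (by positivity)] at h1
    linarith
  obtain ⟨n₃, hcov⟩ := hcov (τ / 2) (by positivity) b hb1
  refine ⟨max (max n₁ n₂) (max (2 * n₃) (⌈2 / ρ⌉₊ + 1)), ?_⟩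
  intro V _ _ hn K hK hv hne
  have hn1 : n₁ ≤ Fintype.card V := le_trans (le_max_left _ _) (le_trans (le_max_left _ _) hn)
  have hn2 : n₂ ≤ Fintype.card V := le_trans (le_max_right _ _) (le_trans (le_max_left _ _) hn)
  have hn3 : 2 * n₃ ≤ Fintype.card V :=
    le_trans (le_max_left _ _) (le_trans (le_max_right _ _) hn)
  have hn4 : ⌈2 / ρ⌉₊ + 1 ≤ Fintype.card V :=
    le_trans (le_max_right _ _) (le_trans (le_max_right _ _) hn)
  have hnρ : 2 ≤ ρ * Fintype.card V := by
    have h1 : 2 / ρ ≤ Fintype.card V :=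
      (Nat.le_ceil _).trans (by exact_mod_cast (by omega : ⌈2 / ρ⌉₊ ≤ Fintype.card V))
    rw [div_le_iff₀ hρ] at h1; linarith
  have hnpos : 0 < Fintype.card V := by omega
  have hn0 : (0 : ℝ) < Fintype.card V := by exact_mod_cast hnpos
  have hD : 2 / 3 * (Fintype.card V : ℝ) ≤ (1 - 1 / (k : ℝ)) * (Fintype.card V : ℝ) := by
    apply mul_le_mul_of_nonneg_right _ hn0.le
    have : 1 / (k : ℝ) ≤ 1 / 3 := one_div_le_one_div_of_le (by norm_num) hk3
    linarith
  -- the absorbing path
  obtain ⟨A, hA1, hA2, hA3, hA4, hA5⟩ := habs V hn1 K _ hK hD hv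
  have hAβ : (A.length : ℝ) ≤ β / 2 * Fintype.card V :=
    hA4.trans (mul_le_mul_of_nonneg_right (min_le_left _ _) hn0.le)
  have hScard : A.toFinset.card = A.length := List.toFinset_card_of_nodup hA2
  -- the reservoir
  obtain ⟨q, R, hR1, hR2, hR3, hR4⟩ := hres V hn2 K _ hK hD A.toFinset (by
    rw [hScard]
    exact hA4.trans (mul_le_mul_of_nonneg_right (min_le_right _ _) hn0.le))
  have hRβ : (M * q : ℝ) ≤ β / 2 * Fintype.card V :=
    hR3.trans (mul_le_mul_of_nonneg_right (min_le_left _ _) hn0.le)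
  have hRτ : (M * q : ℝ) ≤ τ / 2 * Fintype.card V :=
    hR3.trans (mul_le_mul_of_nonneg_right (min_le_right _ _) hn0.le)
  set RS : Finset V := Finset.univ.image (fun p : Fin q × Fin M => R p.1 p.2) with hRS
  have hRScard : RS.card = q * M := by
    rw [hRS, Finset.card_image_of_injective _ hR1, Finset.card_univ, Fintype.card_prod,
      Fintype.card_fin, Fintype.card_fin]
  have hdisj : Disjoint A.toFinset RS := by
    rw [Finset.disjoint_right]
    intro v hv
    rw [hRS, Finset.mem_image] at hv
    obtain ⟨p, _, rfl⟩ := hv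
    exact hR2 _ _
  set W : Finset V := (A.toFinset ∪ RS)ᶜ with hW
  have hWmem : ∀ v, v ∈ W → v ∉ A.toFinset ∪ RS := by
    intro v hv
    rwa [hW, Finset.mem_compl] at hv
  have hWcard : W.card + A.length + q * M = Fintype.card V := by
    have h1 := Finset.card_compl_add_card (A.toFinset ∪ RS)
    rw [Finset.card_union_of_disjoint hdisj, hScard, hRScard, ← hW] at h1
    omega
  have hWcard' : (W.card : ℝ) + A.length + M * q = Fintype.card V := by
    have : ((W.card + A.length + q * M : ℕ) : ℝ) = Fintype.card V := by rw [hWcard]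
    push_cast at this
    linarith
  have hWβ : (1 - β) * (Fintype.card V : ℝ) ≤ W.card := by linarith
  have hWn : (W.card : ℝ) ≤ Fintype.card V := by
    have : (0 : ℝ) ≤ A.length := Nat.cast_nonneg _
    have h2 : (0 : ℝ) ≤ M * q := by positivity
    linarith
  have hW3 : n₃ ≤ W.card := by
    have h1 : (1 / 2 : ℝ) * Fintype.card V ≤ W.card := by
      refine le_trans ?_ hWβ
      apply mul_le_mul_of_nonneg_right _ hn0.le
      linarith
    have h2 : ((2 * n₃ : ℕ) : ℝ) ≤ Fintype.card V := by exact_mod_cast hn3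
    push_cast at h2
    have h3 : (n₃ : ℝ) ≤ W.card := by linarith
    exact_mod_cast h3
  -- the almost cover
  have hcardW : Fintype.card {v // v ∈ W} = W.card := Fintype.card_coe W
  obtain ⟨L, hL1, hL2, hL3⟩ := hcov {v // v ∈ W} (by rw [hcardW]; exact hW3) (rst K W) (by
      refine (hK.rst W).mono ?_
      rw [hcardW]
      have h1 : (1 + k * β) * (W.card : ℝ) ≤ (1 + k * β₀) * W.card := by
        apply mul_le_mul_of_nonneg_right _ (Nat.cast_nonneg _)
        have := mul_le_mul_of_nonneg_left hββ₀ (show (0 : ℝ) ≤ k by positivity)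
        linarith
      have h2 : (Fintype.card V : ℝ) ≤ (1 + k * β) * W.card := by
        have h3 : (1 + k * β) * ((1 - β) * (Fintype.card V : ℝ)) ≤ (1 + k * β) * W.card :=
          mul_le_mul_of_nonneg_left hWβ (by positivity)
        refine le_trans ?_ h3
        have h4 : (1 : ℝ) ≤ (1 + k * β) * (1 - β) := by
          have h5 : 3 * β ≤ k * β := mul_le_mul_of_nonneg_right hk3 hβ.le
          nlinarith
        nlinarith
      have h3 : (1 : ℝ) / k * (Fintype.card V : ℝ) ≤ (1 / k + β₀) * W.card := by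
        have h4 : (1 / (k : ℝ) + β₀) * W.card = 1 / k * ((1 + k * β₀) * W.card) := by
          field_simp
        rw [h4]
        exact mul_le_mul_of_nonneg_left (h2.trans h1) (by positivity)
      linarith) (by
      intro v
      change Finset.map _ {v} ∈ K
      rw [Finset.map_singleton]
      exact hv _) (by
      intro h
      apply hne
      refine nearExt_mono (h.of_rst (by positivity) hβ.le (by omega) hWβ) ?_
      linarith)
  set Lf : List (List V) := L.map (List.map Subtype.val) with hLf
  have hLfflat : Lf.flatten = L.flatten.map Subtype.val := by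
    rw [hLf, List.map_flatten]
  obtain ⟨p, hp⟩ : ∃ p, p = Lf.length := ⟨_, rfl⟩
  have hpL : L.length = p := by rw [hp, hLf, List.length_map]
  have hLf1 : ∀ B ∈ Lf, B.length = k * b ∧ Tight K k B := by
    intro B hB
    rw [hLf, List.mem_map] at hB
    obtain ⟨B', hB', rfl⟩ := hB
    exact ⟨by rw [List.length_map]; exact (hL1 B' hB').1, Tight.map_rst (hL1 B' hB').2⟩
  have hLlen : L.flatten.length = p * (k * b) := by
    rw [List.length_flatten]
    have : L.map List.length = List.replicate p (k * b) := by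
      rw [List.eq_replicate_iff]
      refine ⟨by rw [List.length_map, hpL], ?_⟩
      intro x hx
      rw [List.mem_map] at hx
      obtain ⟨B, hB, rfl⟩ := hx
      exact (hL1 B hB).1
    rw [this, List.sum_replicate, smul_eq_mul]
  have hLW : p * (k * b) ≤ W.card := by
    rw [← hLlen, ← hcardW]
    exact hL2.length_le_card
  have hkb : k ≤ k * b := Nat.le_mul_of_pos_right _ (by omega)
  have hp1 : ((p : ℝ) + 1) ≤ ρ * Fintype.card V := by
    have h1 : (p * (k * b) : ℝ) ≤ Fintype.card V := by
      refine le_trans ?_ hWn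
      exact_mod_cast hLW
    have h2 := mul_le_mul_of_nonneg_left hbρ (show (0 : ℝ) ≤ p by positivity)
    have h3 := mul_le_mul_of_nonneg_right h1 hρ.le
    linarith
  -- the blocks
  set B : ℕ → List V := fun i => if i = 0 then A else Lf.getD (i - 1) [] with hB
  have hBmem : ∀ i, i ≠ 0 → i ≤ p → B i ∈ Lf := by
    intro i hi hip
    simp only [hB, if_neg hi]
    rw [List.getD_eq_getElem _ _ (by omega)]
    exact List.getElem_mem _
  have hBt : ∀ i ≤ p, Tight K k (B i) ∧ k ≤ (B i).length := by
    intro i hi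
    by_cases h0 : i = 0
    · simp only [hB, if_pos h0]; exact ⟨hA3, hA1⟩
    · have := hLf1 _ (hBmem i h0 hi)
      exact ⟨this.2, by rw [this.1]; exact hkb⟩
  set nx : ℕ → ℕ := fun i => if i < p then i + 1 else 0 with hnx
  have hnxp : ∀ i, nx i ≤ p := by
    intro i; simp only [hnx]; split_ifs <;> omega
  obtain ⟨d, hd1, hd2⟩ := choose_inj (α := Fin (p + 1)) (β := Fin q)
    (fun i a => Tight K k (lst k (B i) ++ List.ofFn (R a) ++ (B (nx i)).take (k - 1))) (by
      intro i
      have hi : (i : ℕ) ≤ p := by omega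
      have h1 := hR4 (lst k (B i)) ((B (nx i)).take (k - 1))
        (length_lst (by have := (hBt i hi).2; omega))
        (by rw [List.length_take]; have := (hBt _ (hnxp i)).2; omega)
        (edge_lst hK.down (hBt i hi).1 (hBt i hi).2)
        (edge_take hK.down (hBt _ (hnxp i)).1 (hBt _ (hnxp i)).2)
      rw [Fintype.card_fin]
      have h2 := hp1.trans h1
      exact_mod_cast h2)
  set C : ℕ → List V := fun i => List.ofFn (R (d (Fin.ofNat (p + 1) i))) with hC
  have hClen : ∀ i, k - 1 ≤ (C i).length := by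
    intro i; simp only [hC, List.length_ofFn]; exact hM
  have hBC : ∀ i ≤ p, Tight K k (lst k (B i) ++ C i ++ (B (nx i)).take (k - 1)) := by
    intro i hi
    have h1 := hd2 (Fin.ofNat (p + 1) i)
    have e1 : ((Fin.ofNat (p + 1) i : Fin (p + 1)) : ℕ) = i := by
      simp [Fin.ofNat, Nat.mod_eq_of_lt (Nat.lt_succ_of_le hi)]
    rw [e1] at h1
    exact h1
  -- the base
  set base : List V := A ++ Lf.flatten ++ (List.range (p + 1)).flatMap C with hbase
  have hbnd : base.Nodup := by
    rw [hbase, List.nodup_append, List.nodup_append]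
    refine ⟨⟨hA2, ?_, ?_⟩, ?_, ?_⟩
    · rw [hLfflat]; exact hL2.map Subtype.val_injective
    · intro x hx y hy hxy
      rw [hLfflat, List.mem_map] at hy
      obtain ⟨y', _, rfl⟩ := hy
      apply hWmem _ y'.2
      rw [← hxy]
      exact Finset.mem_union_left _ (List.mem_toFinset.2 hx)
    · refine nodup_fam (fun a => R (d a)) ?_ (p + 1) le_rfl
      intro x y hxy
      have h1 := @hR1 (d x.1, x.2) (d y.1, y.2) hxy
      rw [Prod.mk.injEq] at h1
      exact Prod.ext (hd1 h1.1) h1.2
    · intro x hx y hy hxy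
      rw [List.mem_flatMap] at hy
      obtain ⟨i, _, hi⟩ := hy
      simp only [hC, List.mem_ofFn] at hi
      obtain ⟨j, hj⟩ := hi
      rw [List.mem_append] at hx
      rcases hx with hx | hx
      · apply hR2 (d (Fin.ofNat (p + 1) i)) j
        rw [hj, ← hxy]
        exact List.mem_toFinset.2 hx
      · rw [hLfflat, List.mem_map] at hx
        obtain ⟨x', _, hx'⟩ := hx
        apply hWmem _ x'.2
        rw [hx', hxy, ← hj]
        refine Finset.mem_union_right _ ?_
        rw [hRS, Finset.mem_image]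
        exact ⟨(d (Fin.ofNat (p + 1) i), j), Finset.mem_univ _, rfl⟩
  set U : Finset V := (base.toFinset)ᶜ with hU
  have hUcard : (U.card : ℝ) ≤ τ * Fintype.card V := by
    have h1 := Finset.card_compl_add_card base.toFinset
    rw [List.toFinset_card_of_nodup hbnd, ← hU] at h1
    have h2 : A.length + L.flatten.length ≤ base.length := by
      rw [hbase, List.length_append, List.length_append, hLfflat, List.length_map]
      omega
    have h3 : (U.card : ℝ) + A.length + L.flatten.length ≤ Fintype.card V := by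
      have : U.card + A.length + L.flatten.length ≤ Fintype.card V := by omega
      exact_mod_cast this
    rw [hcardW] at hL3
    have h4 := mul_le_mul_of_nonneg_left hWn (show (0 : ℝ) ≤ τ / 2 by positivity)
    linarith
  obtain ⟨A', hA'1, hA'2, hA'3, hA'4, hA'5⟩ := hA5 U hUcard
  set B' : ℕ → List V := fun i => if i = 0 then A' else Lf.getD (i - 1) [] with hB'
  have hB'ne : ∀ i, i ≠ 0 → B' i = B i := by
    intro i hi; simp only [hB', hB, if_neg hi]
  have hB'take : ∀ i, (B' i).take (k - 1) = (B i).take (k - 1) := by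
    intro i
    by_cases hi : i = 0
    · simp only [hB', hB, if_pos hi]; exact hA'4
    · rw [hB'ne i hi]
  have hB'lst : ∀ i, lst k (B' i) = lst k (B i) := by
    intro i
    by_cases hi : i = 0
    · simp only [hB', hB, if_pos hi]; exact hA'5
    · rw [hB'ne i hi]
  have hB't : ∀ i ≤ p, Tight K k (B' i) ∧ k ≤ (B' i).length := by
    intro i hi
    by_cases h0 : i = 0
    · simp only [hB', if_pos h0]; exact ⟨hA'2, hA'1⟩
    · rw [hB'ne i h0]; exact hBt i hi
  have hperm : (pathL B' C p ++ C p).Perm (base ++ U.toList) := by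
    have h1 : (pathL B' C p ++ C p).Perm
        (((List.range (p + 1)).flatMap B' ++ (List.range p).flatMap C) ++ C p) :=
      List.Perm.append_right _ (pathL_perm B' C p)
    have h2 : (List.range (p + 1)).flatMap C = (List.range p).flatMap C ++ C p := by
      rw [List.range_succ (n := p), List.flatMap_append, List.flatMap_singleton]
    rw [List.append_assoc, ← h2] at h1
    have h3 : (List.range (p + 1)).flatMap B' = A' ++ Lf.flatten := by
      rw [List.range_succ_eq_map, List.flatMap_cons, List.flatMap_map]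
      congr 1
      have h4 : (List.range p).flatMap (fun i => B' i.succ) =
          ((List.range p).map (fun i => Lf.getD i [])).flatten := by
        rw [List.flatMap_def]
        rfl
      rw [h4, hp, map_getD_range]
    rw [h3] at h1
    refine h1.trans ?_
    rw [hbase]
    refine (List.Perm.append_right _ (List.Perm.append_right _ hA'3)).trans ?_
    simp only [List.append_assoc]
    refine List.Perm.append_left _ ?_
    refine List.perm_append_comm.trans ?_
    simp only [List.append_assoc]
    exact List.Perm.refl _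
  refine ⟨pathL B' C p ++ C p, ?_, ?_, ?_⟩
  · rw [hperm.nodup_iff, List.nodup_append]
    refine ⟨hbnd, Finset.nodup_toList _, ?_⟩
    intro x hx y hy hxy
    rw [Finset.mem_toList, hU, Finset.mem_compl, List.mem_toFinset] at hy
    exact hy (hxy ▸ hx)
  · intro v
    rw [hperm.mem_iff, List.mem_append, Finset.mem_toList, hU, Finset.mem_compl,
      List.mem_toFinset]
    exact em _
  · refine cyc_allWin (by omega) B' C p (fun i hi => (hB't i hi).1)
      (fun i hi => by have := (hB't i hi).2; omega) (fun i _ => hClen i) (fun i hi => ?_) ?_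
    · rw [hB'lst, hB'take]
      have := hBC i hi.le
      simp only [hnx, if_pos hi] at this
      exact this
    · rw [hB'lst, hB'take]
      have := hBC p le_rfl
      simp only [hnx, lt_irrefl, if_false] at this
      exact this

end Pool.Agent.THC
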