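import Pool.Agent.Lib.MP_5c6f2e_co.Defs

/-!
# MP_5c6f2e_co, piece P13c: disjoint special edges
-/

set_option autoImplicit false

namespace Pool.Agent.THC

open Finset

/-! ## Counting tuples -/

theorem se_cnt_sum {α : Type*} [Fintype α] (P : α → Prop) [DecidablePred P] :
    cnt P = ∑ a, if P a then 1 else 0 := by
  rw [cnt_eq, Finset.card_filter]

theorem se_cnt_cons {V : Type*} [Fintype V] {r : ℕ} (Q : (Fin (r + 1) → V) → Prop) :
    cnt Q = ∑ v : V, cnt (fun g : Fin r → V => Q (Fin.cons v g)) := by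
  classical
  simp only [se_cnt_sum]
  rw [← Fintype.sum_prod_type' (f := fun (v : V) (g : Fin r → V) =>
    if Q (Fin.cons v g) then 1 else 0)]
  exact (Fintype.sum_equiv (Fin.consEquiv fun _ => V) _ _ fun p => rfl).symm

theorem se_cnt_cons' {V : Type*} [Fintype V] {r : ℕ} (Q : (Fin (r + 1) → V) → Prop) :
    cnt Q = ∑ g : Fin r → V, cnt (fun v : V => Q (Fin.cons v g)) := by
  classical
  rw [se_cnt_cons]
  simp only [se_cnt_sum]
  rw [Finset.sum_comm]

theorem se_tree_count {V : Type*} [Fintype V] (d : ℝ) (hd : 0 ≤ d) (r : ℕ) (P : List V → Prop)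
    (h0 : P []) (hs : ∀ l : List V, P l → l.length < r → d ≤ (cnt (fun v => P (v :: l)) : ℝ)) :
    d ^ r ≤ (cnt (fun f : Fin r → V => P (List.ofFn f)) : ℝ) := by
  classical
  induction r with
  | zero =>
    rw [pow_zero, cnt_eq]
    have : (Finset.univ.filter fun f : Fin 0 → V => P (List.ofFn f)) = Finset.univ := by
      ext f
      simp [h0]
    rw [this]
    simp
  | succ r ih =>
    have ih' := ih fun l hl hlr => hs l hl (by omega)
    rw [se_cnt_cons']
    push_cast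
    calc d ^ (r + 1) = d * d ^ r := by ring
      _ ≤ d * (cnt (fun f : Fin r → V => P (List.ofFn f)) : ℝ) := mul_le_mul_of_nonneg_left ih' hd
      _ = ∑ g ∈ Finset.univ.filter (fun f : Fin r → V => P (List.ofFn f)), d := by
          rw [cnt_eq, Finset.sum_const, nsmul_eq_mul]
          ring
      _ ≤ ∑ g ∈ Finset.univ.filter (fun f : Fin r → V => P (List.ofFn f)),
            (cnt (fun v : V => P (List.ofFn (Fin.cons v g : Fin (r + 1) → V))) : ℝ) := by
          refine Finset.sum_le_sum fun g hg => ?_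
          have hg' := (Finset.mem_filter.1 hg).2
          have h1 := hs _ hg' (by simp)
          simpa [List.ofFn_succ] using h1
      _ ≤ _ := Finset.sum_le_sum_of_subset_of_nonneg (Finset.filter_subset _ _)
            fun _ _ _ => Nat.cast_nonneg _

theorem se_cnt_avoid {V : Type*} [Fintype V] [DecidableEq V] (P : V → Prop) (S : Finset V) :
    (cnt P : ℝ) - S.card ≤ (cnt (fun v => P v ∧ v ∉ S) : ℝ) := by
  classical
  rw [cnt_eq, cnt_eq]
  have h : (Finset.univ.filter P).card ≤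
      (Finset.univ.filter fun v => P v ∧ v ∉ S).card + S.card := by
    refine (Finset.card_le_card (t := (Finset.univ.filter fun v => P v ∧ v ∉ S) ∪ S) ?_).trans
      (Finset.card_union_le _ _)
    intro v hv
    simp only [Finset.mem_filter, Finset.mem_univ, true_and, Finset.mem_union] at hv ⊢
    tauto
  have h' : ((Finset.univ.filter P).card : ℝ) ≤
      (Finset.univ.filter fun v => P v ∧ v ∉ S).card + S.card := by exact_mod_cast h
  linarith

variable {V : Type} [Fintype V] [DecidableEq V]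

omit [Fintype V] in
theorem se_edge_cons {K : Set (Finset V)} {l : List V} {v : V} (h : EdgeL K l)
    (hv : nb K l.toFinset v) : EdgeL K (v :: l) := by
  refine ⟨List.nodup_cons.2 ⟨fun h' => hv.1 (List.mem_toFinset.2 h'), h.1⟩, ?_⟩
  rw [List.toFinset_cons]
  exact hv.2

omit [Fintype V] in
theorem se_edge_perm {K : Set (Finset V)} {l m : List V} (h : EdgeL K l) (hp : l.Perm m) :
    EdgeL K m :=
  ⟨hp.nodup_iff.1 h.1, by rw [← List.toFinset_eq_of_perm _ _ hp]; exact h.2⟩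

/-- the tuples `y :: T` with `T` outside `W` -/
theorem se_count_T {K : Set (Finset V)} {j : ℕ} {D : ℝ} (hK : Cx K (j + 2) D) (y : V)
    (hy : {y} ∈ K) (W : Finset V) (d : ℝ) (hd : 0 ≤ d) (hW : d ≤ D - W.card) :
    d ^ j ≤ (cnt (fun g : Fin j → V => EdgeL K (y :: List.ofFn g) ∧ ∀ i, g i ∉ W) : ℝ) := by
  classical
  have h := se_tree_count d hd j (fun l => EdgeL K (y :: l) ∧ ∀ x ∈ l, x ∉ W)
    ⟨⟨by simp, by simpa using hy⟩, by simp⟩ (by
      intro l hl hlen
      have hc : ((y :: l).toFinset).card < j + 2 := by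
        rw [List.toFinset_card_of_nodup hl.1.1, List.length_cons]
        omega
      have h1 := hK.deg _ hl.1.2 hc
      have h2 := se_cnt_avoid (nb K (y :: l).toFinset) W
      refine (hW.trans (sub_le_sub_right h1 _)).trans (h2.trans ?_)
      have : cnt (fun v => nb K (y :: l).toFinset v ∧ v ∉ W) ≤
          cnt (fun v => EdgeL K (y :: v :: l) ∧ ∀ x ∈ v :: l, x ∉ W) := by
        refine cnt_mono fun v hv => ⟨?_, ?_⟩
        · exact se_edge_perm (se_edge_cons hl.1 hv.1) (List.Perm.swap _ _ _)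
        · intro x hx
          rcases List.mem_cons.1 hx with rfl | hx
          · exact hv.2
          · exact hl.2 x hx
      exact_mod_cast this)
  refine h.trans ?_
  have : cnt (fun f : Fin j → V => EdgeL K (y :: List.ofFn f) ∧ ∀ x ∈ List.ofFn f, x ∉ W) ≤
      cnt (fun g : Fin j → V => EdgeL K (y :: List.ofFn g) ∧ ∀ i, g i ∉ W) := by
    refine cnt_mono fun g hg => ⟨hg.1, fun i => hg.2 _ (by simp)⟩
  exact_mod_cast this

/-- every vertex of `Y` is a vertex of the complex -/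
theorem se_mem {K : Set (Finset V)} {j : ℕ} {D α ζ : ℝ} (hK : Cx K (j + 2) D)
    {Y A : Finset V} (hS : ExtStr K (j + 2) α ζ Y A) (hn : 0 < Fintype.card V)
    (hα : α < (1 / 2) ^ (j + 1)) (hY : (Y.card : ℝ) ≤ (Fintype.card V : ℝ) / 2) (y : V)
    (hy : y ∈ Y) : {y} ∈ K := by
  classical
  by_contra hcon
  have hyA : y ∉ A := fun h => (Finset.disjoint_left.1 hS.disj h) hy
  have h1 := hS.bad1 y hyA 0
  have h2 : cnt (fun g : Fin (j + 1) → V => ∀ i, g i ∉ Y) ≤
      cnt (fun f : Fin (j + 2) → V => f 0 = y ∧ OneY Y f ∧ ¬ EdgeF K f) := by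
    rw [cnt_eq, cnt_eq]
    refine Finset.card_le_card_of_injOn (fun g => (Fin.cons y g : Fin (j + 2) → V)) ?_ ?_
    · intro g hg
      simp only [Finset.coe_filter, Finset.mem_univ, true_and] at hg ⊢
      refine ⟨rfl, ⟨0, hy, ?_⟩, ?_⟩
      · intro i hi
        by_contra hne
        obtain ⟨i', rfl⟩ := Fin.exists_succ_eq.2 hne
        exact hg i' hi
      · intro hE
        apply hcon
        refine hK.down _ hE.2 _ ?_
        intro x hx
        rw [Finset.mem_singleton] at hx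
        rw [hx, Finset.mem_image]
        exact ⟨0, Finset.mem_univ _, rfl⟩
    · intro g _ g' _ h
      exact (Fin.cons_injective2 h).2
  have h3 := se_tree_count ((Fintype.card V : ℝ) / 2) (by positivity) (j + 1)
    (fun l : List V => ∀ x ∈ l, x ∉ Y) (by simp) (by
      intro l hl _
      have h4 := se_cnt_avoid (fun _ : V => True) Y
      have h5 : cnt (fun _ : V => True) = Fintype.card V := by simp [cnt_eq]
      rw [h5] at h4
      have h6 : cnt (fun v : V => True ∧ v ∉ Y) ≤ cnt (fun v => ∀ x ∈ v :: l, x ∉ Y) := by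
        refine cnt_mono fun v hv x hx => ?_
        rcases List.mem_cons.1 hx with rfl | hx
        · exact hv.2
        · exact hl x hx
      have h7 : (cnt (fun v : V => True ∧ v ∉ Y) : ℝ) ≤ cnt (fun v => ∀ x ∈ v :: l, x ∉ Y) := by
        exact_mod_cast h6
      linarith)
  have h8 : cnt (fun f : Fin (j + 1) → V => ∀ x ∈ List.ofFn f, x ∉ Y) ≤
      cnt (fun g : Fin (j + 1) → V => ∀ i, g i ∉ Y) :=
    cnt_mono fun g hg i => hg _ (List.mem_ofFn.2 ⟨i, rfl⟩)
  have h9 : ((Fintype.card V : ℝ) / 2) ^ (j + 1) ≤ α * (Fintype.card V : ℝ) ^ (j + 1) := by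
    refine h3.trans (le_trans ?_ h1)
    exact_mod_cast h8.trans h2
  have h10 : (0 : ℝ) < (Fintype.card V : ℝ) ^ (j + 1) := by positivity
  rw [div_eq_mul_one_div, mul_pow, mul_comm] at h9
  have := le_of_mul_le_mul_right h9 h10
  linarith

/-! numerical facts -/

theorem se_num0 {k ζ : ℝ} (hk3 : 3 ≤ k) (hζ0 : 0 ≤ ζ) (hζ : ζ ≤ 1 / (24 * k ^ 3)) :
    ζ * k ^ 3 ≤ 1 / 24 ∧ ζ * k ^ 2 ≤ 1 / 72 ∧ ζ * k ≤ 1 / 216 ∧ ζ ≤ 1 / 648 := by
  have hkpos : 0 < k := by linarith
  have h1 : ζ * k ^ 3 ≤ 1 / 24 := by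
    rw [le_div_iff₀ (by positivity)] at hζ
    linarith
  have h2 : ζ * k ^ 2 ≤ 1 / 72 := by
    have : ζ * k ^ 2 * 3 ≤ ζ * k ^ 2 * k := mul_le_mul_of_nonneg_left hk3 (by positivity)
    nlinarith
  have h3 : ζ * k ≤ 1 / 216 := by
    have : ζ * k * 3 ≤ ζ * k * k := mul_le_mul_of_nonneg_left hk3 (by positivity)
    nlinarith
  have h4 : ζ * 3 ≤ ζ * k := mul_le_mul_of_nonneg_left hk3 (by positivity)
  exact ⟨h1, h2, h3, by linarith⟩

theorem se_num1 {k ζ n y h : ℝ} (hk3 : 3 ≤ k) (hYhi : y ≤ (1 / k + ζ) * n)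
    (hh : h = k * y - n) : h ≤ k * ζ * n := by
  have hkpos : 0 < k := by linarith
  have huk : 1 / k * k = 1 := by field_simp
  have h1 : k * y ≤ k * ((1 / k + ζ) * n) := mul_le_mul_of_nonneg_left hYhi hkpos.le
  have h2 : k * ((1 / k + ζ) * n) = (1 / k * k) * n + k * ζ * n := by ring
  rw [h2, huk, one_mul] at h1
  linarith

theorem se_num2 {k ζ n z h : ℝ} (hk3 : 3 ≤ k) (hh : h ≤ k * ζ * n) (hz : z ≤ k * h) :
    z ≤ ζ * k ^ 2 * n := by
  have hkpos : 0 < k := by linarith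
  have h1 : k * h ≤ k * (k * ζ * n) := mul_le_mul_of_nonneg_left hh hkpos.le
  linarith [show k * (k * ζ * n) = ζ * k ^ 2 * n by ring]

theorem se_num3 {k ζ n y : ℝ} (hk3 : 3 ≤ k) (hn : 0 < n) (hζ0 : 0 ≤ ζ)
    (hζ : ζ ≤ 1 / (24 * k ^ 3)) (hYhi : y ≤ (1 / k + ζ) * n) : y ≤ n / 2 := by
  obtain ⟨-, -, -, h4⟩ := se_num0 hk3 hζ0 hζ
  have hu3 : 1 / k ≤ 1 / 3 := one_div_le_one_div_of_le (by norm_num) hk3
  have : (1 / k + ζ) * n ≤ 1 / 2 * n := mul_le_mul_of_nonneg_right (by linarith) hn.le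
  linarith

theorem se_num4 {k α : ℝ} {j : ℕ} (hk3 : 3 ≤ k) (hα : α ≤ 1 / (4 * k ^ 3 * 4 ^ (j + 2))) :
    α < (1 / 2) ^ (j + 1) := by
  refine lt_of_le_of_lt hα ?_
  rw [one_div_pow]
  refine one_div_lt_one_div_of_lt (by positivity) ?_
  have h1 : (2 : ℝ) ^ (j + 1) ≤ 4 ^ (j + 2) :=
    (pow_le_pow_left₀ (by norm_num) (by norm_num) _).trans
      (pow_le_pow_right₀ (by norm_num) (by omega))
  have h2 : (1 : ℝ) < 4 * k ^ 3 := by
    have h3 : (3 : ℝ) ^ 3 ≤ k ^ 3 := pow_le_pow_left₀ (by norm_num) hk3 3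
    linarith
  have h3 : (0 : ℝ) < 4 ^ (j + 2) := by positivity
  calc (2 : ℝ) ^ (j + 1) ≤ 1 * 4 ^ (j + 2) := by rw [one_mul]; exact h1
    _ < _ := mul_lt_mul_of_pos_right h2 h3

theorem se_num5 {k ζ n y a z w : ℝ} (hk3 : 3 ≤ k) (hn : 0 < n) (hζ0 : 0 ≤ ζ)
    (hζ : ζ ≤ 1 / (24 * k ^ 3)) (hYhi : y ≤ (1 / k + ζ) * n) (ha : a ≤ ζ * n)
    (hz : z ≤ ζ * k ^ 2 * n) (hw : w ≤ y + a + z) : n / 4 ≤ (1 - 1 / k) * n - w := by
  obtain ⟨-, h2, -, h4⟩ := se_num0 hk3 hζ0 hζ
  have hu3 : 1 / k ≤ 1 / 3 := one_div_le_one_div_of_le (by norm_num) hk3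
  have h1 : (1 / k + 2 * ζ + ζ * k ^ 2 + 1 / k) * n ≤ 3 / 4 * n :=
    mul_le_mul_of_nonneg_right (by linarith) hn.le
  have h5 : (1 / k + 2 * ζ + ζ * k ^ 2 + 1 / k) * n =
    (1 / k + ζ) * n + ζ * n + ζ * k ^ 2 * n + 1 / k * n := by ring
  have h6 : (1 - 1 / k) * n = n - 1 / k * n := by ring
  rw [h6]
  linarith

theorem se_num6 {k ζ n y z m : ℝ} (hk3 : 3 ≤ k) (hn : 0 < n) (hζ0 : 0 ≤ ζ)
    (hζ : ζ ≤ 1 / (24 * k ^ 3)) (hYlo : (1 / k - ζ) * n ≤ y)
    (hz : z ≤ ζ * k ^ 2 * n) (hm : y ≤ m + z) : n / (2 * k) ≤ m := by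
  obtain ⟨h1, h2, h3, h4⟩ := se_num0 hk3 hζ0 hζ
  have hkpos : 0 < k := by linarith
  have h5 : (ζ + ζ * k ^ 2) ≤ 1 / (2 * k) := by
    rw [le_div_iff₀ (by positivity)]
    have : (ζ + ζ * k ^ 2) * (2 * k) = 2 * (ζ * k) + 2 * (ζ * k ^ 3) := by ring
    rw [this]
    linarith
  have h6 : (ζ + ζ * k ^ 2) * n ≤ 1 / (2 * k) * n := mul_le_mul_of_nonneg_right h5 hn.le
  have h7 : n / (2 * k) = 1 / k * n - 1 / (2 * k) * n := by
    field_simp
    ring
  rw [h7]
  have h8 : (1 / k - ζ) * n = 1 / k * n - ζ * n := by ring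
  have h9 : (ζ + ζ * k ^ 2) * n = ζ * n + ζ * k ^ 2 * n := by ring
  linarith

theorem se_num7 {k α n h m c z : ℝ} {j : ℕ} (hk3 : 3 ≤ k) (hn : 0 < n) (hh : 0 < h)
    (hα : α ≤ 1 / (4 * k ^ 3 * 4 ^ (j + 2))) (hm : n / (2 * k) ≤ m)
    (h1 : m * (n / 4) ^ j ≤ c) (h2 : c * (h / k) ≤ z * (α * n ^ (j + 1))) (hz0 : 0 ≤ z)
    (hz : z ≤ k * h) : False := by
  have hkpos : 0 < k := by linarith
  have h3 : n / (2 * k) * (n / 4) ^ j * (h / k) ≤
      k * h * (1 / (4 * k ^ 3 * 4 ^ (j + 2)) * n ^ (j + 1)) := by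
    calc n / (2 * k) * (n / 4) ^ j * (h / k) ≤ m * (n / 4) ^ j * (h / k) := by gcongr
      _ ≤ c * (h / k) := by gcongr
      _ ≤ z * (α * n ^ (j + 1)) := h2
      _ ≤ z * (1 / (4 * k ^ 3 * 4 ^ (j + 2)) * n ^ (j + 1)) := by gcongr
      _ ≤ _ := by gcongr
  have h4 : n / (2 * k) * (n / 4) ^ j * (h / k) = 1 / 2 * (n ^ (j + 1) * h / (k ^ 2 * 4 ^ j)) := by
    rw [div_pow]
    field_simp
    ring
  have h5 : k * h * (1 / (4 * k ^ 3 * 4 ^ (j + 2)) * n ^ (j + 1)) =
      1 / 64 * (n ^ (j + 1) * h / (k ^ 2 * 4 ^ j)) := by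
    rw [pow_add 4 j 2]
    field_simp
    ring
  rw [h4, h5] at h3
  have h6 : 0 < n ^ (j + 1) * h / (k ^ 2 * 4 ^ j) := by positivity
  linarith

/-- the double count: there is a special edge avoiding the small set `Z` -/
theorem se_step {K : Set (Finset V)} {j : ℕ} {α ζ h : ℝ}
    (hK : Cx K (j + 2) ((1 - 1 / ((j : ℝ) + 2)) * (Fintype.card V : ℝ))) (hj : 1 ≤ j)
    {Y A Z : Finset V} (hS : ExtStr K (j + 2) α ζ Y A) (hn : 0 < Fintype.card V)
    (hα : α ≤ 1 / (4 * ((j : ℝ) + 2) ^ 3 * 4 ^ (j + 2)))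
    (hζ0 : 0 ≤ ζ) (hζ : ζ ≤ 1 / (24 * ((j : ℝ) + 2) ^ 3))
    (hh : h = ((j : ℝ) + 2) * Y.card - Fintype.card V) (hhpos : 0 < h)
    (hZ : (Z.card : ℝ) ≤ ((j : ℝ) + 2) * h) :
    ∃ (y y' : V) (T : List V), y ∈ Y ∧ y' ∈ Y ∧ T.length = j ∧ (∀ x ∈ T, x ∉ Y ∧ x ∉ A) ∧
      EdgeL K (y :: T ++ [y']) ∧ ∀ x ∈ y :: T ++ [y'], x ∉ Z := by
  classical
  by_contra hcon
  push Not at hcon
  set n : ℝ := (Fintype.card V : ℝ) with hn'
  have hnpos : 0 < n := by rw [hn']; exact_mod_cast hn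
  set k : ℝ := (j : ℝ) + 2 with hk
  have hj1 : (1 : ℝ) ≤ (j : ℝ) := by exact_mod_cast hj
  have hk3 : 3 ≤ k := by linarith
  have hkpos : 0 < k := by linarith
  have hYhi := hS.cardY_hi
  have hYlo := hS.cardY_lo
  have hA := hS.cardA
  push_cast at hYhi hYlo hA
  rw [← hk, ← hn'] at hYhi hYlo
  rw [← hn'] at hA
  have hhζ : h ≤ k * ζ * n := se_num1 hk3 hYhi hh
  have hZn : (Z.card : ℝ) ≤ ζ * k ^ 2 * n := se_num2 hk3 hhζ hZ
  have hYn : (Y.card : ℝ) ≤ n / 2 := se_num3 hk3 hnpos hζ0 hζ hYhi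
  have hαpow : α < (1 / 2) ^ (j + 1) := se_num4 hk3 hα
  have hmem : ∀ y ∈ Y, {y} ∈ K := se_mem hK hS hn hαpow hYn
  have hfew : ∀ y ∈ Y, (cnt (fun g : Fin (j + 1) → V => (∃ i, g i ∈ Y) ∧
      EdgeL K (y :: List.ofFn g)) : ℝ) ≤ α * n ^ (j + 1) := hS.few
  -- the set of exceptions
  set W : Finset V := Y ∪ A ∪ Z with hW
  have hWcard : (W.card : ℝ) ≤ Y.card + A.card + Z.card := by
    have h1 : W.card ≤ Y.card + A.card + Z.card :=
      (Finset.card_union_le _ _).trans (Nat.add_le_add_right (Finset.card_union_le _ _) _)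
    exact_mod_cast h1
  have hd : n / 4 ≤ (1 - 1 / k) * n - W.card :=
    se_num5 hk3 hnpos hζ0 hζ hYhi hA hZn hWcard
  -- the pairs `(y, T)`
  let Ωp : (Fin (j + 1) → V) → Prop := fun g => g 0 ∈ Y \ Z ∧ (∀ i : Fin j, g i.succ ∉ W) ∧
    EdgeL K (List.ofFn g)
  have hΩ : ((Y \ Z).card : ℝ) * (n / 4) ^ j ≤ (cnt Ωp : ℝ) := by
    rw [se_cnt_cons]
    push_cast
    calc ((Y \ Z).card : ℝ) * (n / 4) ^ j = ∑ y ∈ Y \ Z, (n / 4) ^ j := by
          rw [Finset.sum_const, nsmul_eq_mul]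
      _ ≤ ∑ y ∈ Y \ Z, (cnt (fun g : Fin j → V => Ωp (Fin.cons y g)) : ℝ) := by
          refine Finset.sum_le_sum fun y hy => ?_
          have h1 := se_count_T hK y (hmem y (Finset.mem_sdiff.1 hy).1) W (n / 4) (by positivity) hd
          refine h1.trans ?_
          have h2 : cnt (fun g : Fin j → V => EdgeL K (y :: List.ofFn g) ∧ ∀ i, g i ∉ W) ≤
              cnt (fun g : Fin j → V => Ωp (Fin.cons y g)) := by
            refine cnt_mono fun g hg => ⟨by simpa using! hy, fun i => by simpa using hg.2 i, ?_⟩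
            rw [List.ofFn_succ]
            simpa using hg.1
          exact_mod_cast h2
      _ ≤ _ := Finset.sum_le_sum_of_subset_of_nonneg (Finset.subset_univ _)
            fun _ _ _ => Nat.cast_nonneg _
  -- every pair has many completions by vertices of `Y ∩ Z`
  have hcompl : ∀ g, Ωp g → h / k ≤
      (((Y ∩ Z).filter fun v => EdgeL K (v :: List.ofFn g)).card : ℝ) := by
    intro g hg
    obtain ⟨hg0, hgW, hgE⟩ := hg
    have hc : ((List.ofFn g).toFinset).card < j + 2 := by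
      rw [List.toFinset_card_of_nodup hgE.1, List.length_ofFn]
      omega
    have h1 := hK.deg _ hgE.2 hc
    have h2 := se_cnt_avoid (nb K (List.ofFn g).toFinset) Yᶜ
    have h3 : ((Yᶜ).card : ℝ) = n - Y.card := by
      rw [Finset.card_compl, Nat.cast_sub (Finset.card_le_univ Y)]
    have h4 : (cnt (fun v => nb K (List.ofFn g).toFinset v ∧ v ∉ Yᶜ) : ℝ) ≤
        (((Y ∩ Z).filter fun v => EdgeL K (v :: List.ofFn g)).card : ℝ) := by
      rw [cnt_eq]
      refine Nat.cast_le.2 (Finset.card_le_card ?_)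
      intro v hv
      simp only [Finset.mem_filter, Finset.mem_univ, true_and, Finset.mem_compl, not_not] at hv
      have hE := se_edge_cons hgE hv.1
      refine Finset.mem_filter.2 ⟨Finset.mem_inter.2 ⟨hv.2, ?_⟩, hE⟩
      have hofFn : List.ofFn g = g 0 :: List.ofFn (fun i : Fin j => g i.succ) := List.ofFn_succ
      obtain ⟨x, hx, hxZ⟩ := hcon (g 0) v (List.ofFn (fun i : Fin j => g i.succ))
        (Finset.mem_sdiff.1 hg0).1 hv.2 (by simp) (by
          intro x hx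
          obtain ⟨i, rfl⟩ := List.mem_ofFn.1 hx
          have := hgW i
          simp only [hW, Finset.mem_union, not_or] at this
          exact ⟨this.1.1, this.1.2⟩) (by
          rw [← hofFn]
          exact se_edge_perm hE (List.perm_append_singleton _ _).symm)
      rw [← hofFn] at hx
      rcases List.mem_append.1 hx with hx | hx
      · rw [hofFn] at hx
        rcases List.mem_cons.1 hx with rfl | hx
        · exact absurd hxZ (Finset.mem_sdiff.1 hg0).2
        · obtain ⟨i, rfl⟩ := List.mem_ofFn.1 hx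
          have := hgW i
          simp only [hW, Finset.mem_union, not_or] at this
          exact absurd hxZ this.2
      · rw [List.mem_singleton] at hx
        rwa [← hx]
    have h5 : h / k = Y.card - 1 / k * n := by
      rw [hh]
      field_simp
    have h6 : (1 - 1 / k) * n = n - 1 / k * n := by ring
    rw [h3] at h2
    rw [h5]
    rw [h6] at h1
    linarith
  -- double counting
  have hdc : (cnt Ωp : ℝ) * (h / k) ≤ ((Y ∩ Z).card : ℝ) * (α * n ^ (j + 1)) := by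
    have h1 := Finset.sum_card_bipartiteAbove_eq_sum_card_bipartiteBelow
      (s := Finset.univ.filter Ωp) (t := Y ∩ Z)
      (fun (g : Fin (j + 1) → V) (v : V) => EdgeL K (v :: List.ofFn g))
    have h2 : (cnt Ωp : ℝ) * (h / k) ≤ ((∑ g ∈ Finset.univ.filter Ωp,
        (Finset.bipartiteAbove (fun (g : Fin (j + 1) → V) (v : V) => EdgeL K (v :: List.ofFn g))
          (Y ∩ Z) g).card : ℕ) : ℝ) := by
      rw [cnt_eq, ← nsmul_eq_mul, ← Finset.sum_const]
      push_cast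
      exact Finset.sum_le_sum fun g hg => hcompl g (Finset.mem_filter.1 hg).2
    rw [h1] at h2
    refine h2.trans ?_
    rw [← nsmul_eq_mul, ← Finset.sum_const]
    push_cast
    refine Finset.sum_le_sum fun v hv => ?_
    refine le_trans ?_ (hfew v (Finset.mem_inter.1 hv).1)
    have h4 : ((Finset.univ.filter Ωp).bipartiteBelow
        (fun (g : Fin (j + 1) → V) (v : V) => EdgeL K (v :: List.ofFn g)) v).card =
        cnt (fun g : Fin (j + 1) → V => Ωp g ∧ EdgeL K (v :: List.ofFn g)) := by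
      rw [cnt_eq, Finset.bipartiteBelow, Finset.filter_filter]
    rw [h4]
    refine Nat.cast_le.2 (cnt_mono fun g hg => ⟨⟨0, (Finset.mem_sdiff.1 hg.1.1).1⟩, hg.2⟩)
  have hYZ : ((Y ∩ Z).card : ℝ) ≤ k * h :=
    (Nat.cast_le.2 (Finset.card_le_card Finset.inter_subset_right)).trans hZ
  have hYmZ : (Y.card : ℝ) ≤ ((Y \ Z).card : ℝ) + Z.card := by
    have h1 : Y.card ≤ (Y \ Z).card + Z.card := by
      have := Finset.le_card_sdiff Z Y
      omega
    exact_mod_cast h1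
  exact se_num7 hk3 hnpos hhpos hα (se_num6 hk3 hnpos hζ0 hζ hYlo hZn hYmZ) hΩ hdc
    (Nat.cast_nonneg _) hYZ

/-- disjoint special edges in the case of excess of `Y` -/
theorem special_edges (k : ℕ) (hk : 3 ≤ k) : ∃ α₀ > (0 : ℝ), ∀ α > (0 : ℝ), α ≤ α₀ →
    ∃ ζ₀ > (0 : ℝ), ∃ n₀ : ℕ,
    ∀ (V : Type) [Fintype V] [DecidableEq V], n₀ ≤ Fintype.card V → ∀ K : Set (Finset V),
      Cx K k ((1 - 1 / (k : ℝ)) * (Fintype.card V : ℝ)) →
      ∀ (ζ : ℝ) (Y A : Finset V), 0 ≤ ζ → ζ ≤ ζ₀ → ExtStr K k α ζ Y A →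
      ∃ L : List (List V), (∀ C ∈ L, ∃ (y y' : V) (T : List V), C = y :: T ++ [y'] ∧ y ∈ Y ∧
          y' ∈ Y ∧ T.length = k - 2 ∧ (∀ x ∈ T, x ∉ Y ∧ x ∉ A) ∧ EdgeL K C) ∧
        L.flatten.Nodup ∧ L.length = k * Y.card - Fintype.card V := by
  obtain ⟨j, rfl⟩ : ∃ j, k = j + 2 := ⟨k - 2, by omega⟩
  have hj : 1 ≤ j := by omega
  refine ⟨1 / (4 * ((j : ℝ) + 2) ^ 3 * 4 ^ (j + 2)), by positivity, fun α _ hα =>
    ⟨1 / (24 * ((j : ℝ) + 2) ^ 3), by positivity, 1, ?_⟩⟩
  intro V _ _ hn K hK ζ Y A hζ0 hζ hS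
  have hK' : Cx K (j + 2) ((1 - 1 / ((j : ℝ) + 2)) * (Fintype.card V : ℝ)) := by
    push_cast at hK
    exact hK
  have main : ∀ m : ℕ, m ≤ (j + 2) * Y.card - Fintype.card V → ∃ L : List (List V),
      (∀ C ∈ L, ∃ (y y' : V) (T : List V), C = y :: T ++ [y'] ∧ y ∈ Y ∧
          y' ∈ Y ∧ T.length = j + 2 - 2 ∧ (∀ x ∈ T, x ∉ Y ∧ x ∉ A) ∧ EdgeL K C) ∧
        L.flatten.Nodup ∧ L.length = m ∧ L.flatten.length = (j + 2) * m := by
    intro m
    induction m with
    | zero => exact fun _ => ⟨[], by simp, by simp, rfl, by simp⟩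
    | succ m ih =>
      intro hm
      obtain ⟨L, hL1, hL2, hL3, hL4⟩ := ih (by omega)
      have hh : (((j + 2) * Y.card - Fintype.card V : ℕ) : ℝ) =
          ((j : ℝ) + 2) * Y.card - Fintype.card V := by
        rw [Nat.cast_sub (by omega)]
        push_cast
        ring
      have hZ : (L.flatten.toFinset.card : ℝ) ≤ ((j : ℝ) + 2) *
          (((j + 2) * Y.card - Fintype.card V : ℕ) : ℝ) := by
        have h1 : L.flatten.toFinset.card ≤ (j + 2) * ((j + 2) * Y.card - Fintype.card V) := by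
          refine (List.toFinset_card_le _).trans ?_
          rw [hL4]
          exact Nat.mul_le_mul_left _ (by omega)
        have h2 : (L.flatten.toFinset.card : ℝ) ≤
            (((j + 2) * ((j + 2) * Y.card - Fintype.card V) : ℕ) : ℝ) := Nat.cast_le.2 h1
        rw [Nat.cast_mul] at h2
        push_cast at h2 ⊢
        exact h2
      obtain ⟨y, y', T, hy, hy', hT, hTY, hE, hnZ⟩ := se_step hK' hj hS (by omega) hα hζ0 hζ hh
        (by
          have : 0 < (j + 2) * Y.card - Fintype.card V := by omega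
          exact_mod_cast this) hZ
      refine ⟨(y :: T ++ [y']) :: L, ?_, ?_, ?_, ?_⟩
      · intro C hC
        rcases List.mem_cons.1 hC with rfl | hC
        · exact ⟨y, y', T, rfl, hy, hy', by simpa using hT, hTY, hE⟩
        · exact hL1 C hC
      · rw [List.flatten_cons, List.nodup_append]
        refine ⟨hE.1, hL2, ?_⟩
        rintro a ha b hb rfl
        exact hnZ a ha (List.mem_toFinset.2 hb)
      · simp [hL3]
      · rw [List.flatten_cons, List.length_append, hL4]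
        simp only [List.cons_append, List.length_cons, List.length_append, List.length_nil, hT]
        ring
  obtain ⟨L, hL1, hL2, hL3, -⟩ := main _ le_rfl
  exact ⟨L, hL1, hL2, hL3⟩

end Pool.Agent.THC
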