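import Pool.Agent.Lib.MP_5c6f2e_co.Good
import Pool.Agent.Lib.MP_5c6f2e_co.Core
import Pool.Agent.Lib.MP_5c6f2e_co.Special

/-!
# MP_5c6f2e_co, P13d: the whole system of pieces
-/

set_option autoImplicit false

namespace Pool.Agent.THC

open Finset

section pieces

variable {V : Type} [Fintype V] [DecidableEq V]

/-- a system of `p` disjoint pieces with `x` vertices outside `Y` and `y` vertices inside `Y` -/
private structure PSys (K : Set (Finset V)) (k : ℕ) (α : ℝ) (Y : Finset V)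
    (Bs : List (List V)) (p x y : ℕ) : Prop where
  len : Bs.length = p
  nodup : Bs.flatten.Nodup
  piece : ∀ B ∈ Bs, IsPiece K k α Y B
  cx : Bs.flatten.countP (fun v => decide (v ∉ Y)) = x
  cy : Bs.flatten.countP (fun v => decide (v ∈ Y)) = y

private theorem PSys.flen {K : Set (Finset V)} {k : ℕ} {α : ℝ} {Y : Finset V}
    {Bs : List (List V)} {p x y : ℕ} (h : PSys K k α Y Bs p x y) :
    Bs.flatten.length = x + y := by
  have := List.length_eq_countP_add_countP (fun v => decide (v ∉ Y)) (l := Bs.flatten)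
  rw [this, h.cx, ← h.cy]
  congr 1
  apply List.countP_congr
  intro v _
  simp

private theorem PSys.nil {K : Set (Finset V)} {k : ℕ} {α : ℝ} {Y : Finset V} :
    PSys K k α Y [] 0 0 0 :=
  ⟨rfl, by simp, by simp, by simp, by simp⟩

private theorem PSys.cons {K : Set (Finset V)} {k : ℕ} {α : ℝ} {Y : Finset V}
    {Bs : List (List V)} {p x y : ℕ} (h : PSys K k α Y Bs p x y) {B : List V}
    (hB : IsPiece K k α Y B) (hn : B.Nodup) (hd : ∀ v ∈ B, v ∉ Bs.flatten) :
    PSys K k α Y (B :: Bs) (p + 1) (B.countP (fun v => decide (v ∉ Y)) + x)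
      (B.countP (fun v => decide (v ∈ Y)) + y) := by
  refine ⟨by simp [h.len], ?_, ?_, ?_, ?_⟩
  · rw [List.flatten_cons, List.nodup_append']
    refine ⟨hn, h.nodup, ?_⟩
    intro v hv hv'
    exact hd v hv hv'
  · intro B' hB'
    rcases List.mem_cons.1 hB' with rfl | hB'
    · exact hB
    · exact h.piece B' hB'
  · rw [List.flatten_cons, List.countP_append, h.cx]
  · rw [List.flatten_cons, List.countP_append, h.cy]

omit [Fintype V] in
private theorem cntX_eq_len {Y : Finset V} {l : List V} (h : ∀ v ∈ l, v ∉ Y) :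
    l.countP (fun v => decide (v ∉ Y)) = l.length := by
  rw [List.countP_eq_length]; intro v hv; simpa using h v hv

omit [Fintype V] in
private theorem cntY_eq_zero {Y : Finset V} {l : List V} (h : ∀ v ∈ l, v ∉ Y) :
    l.countP (fun v => decide (v ∈ Y)) = 0 := by
  rw [List.countP_eq_zero]; intro v hv; simpa using h v hv

/-- uncovered vertices outside `Y` -/
private theorem PSys.uncovX {K : Set (Finset V)} {k : ℕ} {α : ℝ} {Y : Finset V}
    {Bs : List (List V)} {p x y : ℕ} (h : PSys K k α Y Bs p x y) :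
    cnt (fun v : V => v ∉ Y ∧ v ∉ Bs.flatten) + x + Y.card = Fintype.card V := by
  classical
  have hx : (Bs.flatten.toFinset.filter (fun v => v ∉ Y)).card = x := by
    rw [← h.cx, List.countP_eq_length_filter, ← List.toFinset_card_of_nodup (h.nodup.filter _)]
    congr 1
    ext v; simp only [Finset.mem_filter, List.mem_toFinset, List.mem_filter, decide_eq_true_eq]
  rw [cnt_eq, ← hx]
  have h1 : (univ.filter (fun v : V => v ∉ Y ∧ v ∉ Bs.flatten)).card +
      (Bs.flatten.toFinset.filter (fun v => v ∉ Y)).card = (univ.filter (fun v : V => v ∉ Y)).card := by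
    rw [← Finset.card_union_of_disjoint]
    · congr 1
      ext v
      simp only [Finset.mem_union, Finset.mem_filter, Finset.mem_univ, true_and, List.mem_toFinset]
      tauto
    · rw [Finset.disjoint_left]
      intro v hv hv'
      simp only [Finset.mem_filter, Finset.mem_univ, true_and, List.mem_toFinset] at hv hv'
      exact hv.2 hv'.1
  rw [h1]
  have h2 : (univ.filter (fun v : V => v ∉ Y)) = Yᶜ := by ext v; simp
  rw [h2, Finset.card_compl]
  have := Finset.card_le_univ Y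
  omega

/-- uncovered vertices inside `Y` -/
private theorem PSys.uncovY {K : Set (Finset V)} {k : ℕ} {α : ℝ} {Y : Finset V}
    {Bs : List (List V)} {p x y : ℕ} (h : PSys K k α Y Bs p x y) :
    cnt (fun v : V => v ∈ Y ∧ v ∉ Bs.flatten) + y = Y.card := by
  classical
  have hy : (Bs.flatten.toFinset.filter (fun v => v ∈ Y)).card = y := by
    rw [← h.cy, List.countP_eq_length_filter, ← List.toFinset_card_of_nodup (h.nodup.filter _)]
    congr 1
    ext v; simp only [Finset.mem_filter, List.mem_toFinset, List.mem_filter, decide_eq_true_eq]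
  rw [cnt_eq, ← hy, ← Finset.card_union_of_disjoint]
  · congr 1
    ext v
    simp only [Finset.mem_union, Finset.mem_filter, Finset.mem_univ, true_and, List.mem_toFinset]
    tauto
  · rw [Finset.disjoint_left]
    intro v hv hv'
    simp only [Finset.mem_filter, Finset.mem_univ, true_and, List.mem_toFinset] at hv hv'
    exact hv.2 hv'.1

omit [Fintype V] in
private theorem tight_of_len {K : Set (Finset V)} {k : ℕ} {C : List V} (hC : EdgeL K C)
    (hl : C.length = k) : Tight K k C := by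
  intro w hw hwl
  rwa [hw.sublist.eq_of_length (by rw [hwl, hl])]

private abbrev ExtH (K : Set (Finset V)) (k : ℕ) (α : ℝ) (Y A : Finset V) (M : ℕ) : Prop :=
  ∀ S : Finset V, S.card ≤ M → ∀ C : List V, C.Nodup → k ≤ C.length → C.length ≤ 2 * k →
    Tight K k C → ∃ a b : List V, a.length = k - 1 ∧ b.length = k - 1 ∧ (a ++ C ++ b).Nodup ∧
      (∀ v ∈ a ++ b, v ∉ S ∧ v ∉ Y ∧ v ∉ A) ∧ IsPiece K k α Y (a ++ C ++ b)

private theorem cntX_abc {Y : Finset V} {k m : ℕ} {a C b : List V} (ha : a.length = k - 1)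
    (hb : b.length = k - 1) (hab : ∀ v ∈ a ++ b, v ∉ Y)
    (hC : C.countP (fun v => decide (v ∉ Y)) = m) :
    (a ++ C ++ b).countP (fun v => decide (v ∉ Y)) = (k - 1) + m + (k - 1) := by
  rw [List.countP_append, List.countP_append, hC,
    cntX_eq_len (l := a) (fun v hv => hab v (List.mem_append_left _ hv)),
    cntX_eq_len (l := b) (fun v hv => hab v (List.mem_append_right _ hv)), ha, hb]

private theorem cntY_abc {Y : Finset V} {m : ℕ} {a C b : List V} (hab : ∀ v ∈ a ++ b, v ∉ Y)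
    (hC : C.countP (fun v => decide (v ∈ Y)) = m) :
    (a ++ C ++ b).countP (fun v => decide (v ∈ Y)) = m := by
  rw [List.countP_append, List.countP_append, hC,
    cntY_eq_zero (l := a) (fun v hv => hab v (List.mem_append_left _ hv)),
    cntY_eq_zero (l := b) (fun v hv => hab v (List.mem_append_right _ hv))]
  omega

private theorem PSys.congr {K : Set (Finset V)} {k : ℕ} {α : ℝ} {Y : Finset V}
    {Bs : List (List V)} {p x y p' x' y' : ℕ} (h : PSys K k α Y Bs p x y) (hp : p = p')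
    (hx : x = x') (hy : y = y') : PSys K k α Y Bs p' x' y' := by
  subst hp; subst hx; subst hy; exact h

private theorem PSys.cardF {K : Set (Finset V)} {k : ℕ} {α : ℝ} {Y : Finset V}
    {Bs : List (List V)} {p x y : ℕ} (h : PSys K k α Y Bs p x y) :
    Bs.flatten.toFinset.card = x + y := by
  rw [List.toFinset_card_of_nodup h.nodup, h.flen]

/-- add the extension of a core -/
private theorem PSys.addCore {K : Set (Finset V)} {k : ℕ} {α : ℝ} {Y A : Finset V} {M : ℕ}
    (hE : ExtH K k α Y A M)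
    {Bs : List (List V)} {p x y : ℕ} (h : PSys K k α Y Bs p x y) (R : Finset V)
    (hM : R.card + x + y ≤ M) {C : List V} (hCn : C.Nodup) (hCl : k ≤ C.length)
    (hCu : C.length ≤ 2 * k) (hCt : Tight K k C) (hCd : ∀ v ∈ C, v ∉ Bs.flatten)
    {mx my : ℕ} (hmx : C.countP (fun v => decide (v ∉ Y)) = mx)
    (hmy : C.countP (fun v => decide (v ∈ Y)) = my) :
    ∃ B, PSys K k α Y (B :: Bs) (p + 1) ((k - 1) + mx + (k - 1) + x) (my + y) ∧
      (∀ v ∈ C, v ∈ B) ∧ ∀ v ∈ B, v ∈ C ∨ v ∉ R := by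
  obtain ⟨a, b, ha, hb, hn, hab, hp⟩ := hE (R ∪ Bs.flatten.toFinset)
    ((Finset.card_union_le _ _).trans (by rw [h.cardF]; omega)) C hCn hCl hCu hCt
  have hab' : ∀ v ∈ a ++ b, v ∉ Y := fun v hv => (hab v hv).2.1
  have habS : ∀ v ∈ a ++ b, v ∉ R ∧ v ∉ Bs.flatten := by
    intro v hv
    have := (hab v hv).1
    simp only [Finset.mem_union, List.mem_toFinset, not_or] at this
    exact this
  refine ⟨a ++ C ++ b, ?_, ?_, ?_⟩
  · have := h.cons hp hn (by
      intro v hv
      rcases List.mem_append.1 hv with hv | hv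
      · rcases List.mem_append.1 hv with hv | hv
        · exact (habS v (List.mem_append_left _ hv)).2
        · exact hCd v hv
      · exact (habS v (List.mem_append_right _ hv)).2)
    rwa [cntX_abc ha hb hab' hmx, cntY_abc hab' hmy] at this
  · intro v hv
    exact List.mem_append_left _ (List.mem_append_right _ hv)
  · intro v hv
    rcases List.mem_append.1 hv with hv | hv
    · rcases List.mem_append.1 hv with hv | hv
      · exact Or.inr (habS v (List.mem_append_left _ hv)).1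
      · exact Or.inl hv
    · exact Or.inr (habS v (List.mem_append_right _ hv)).1

/-- stage 1: extend the special edges -/
private theorem stage1 {K : Set (Finset V)} {k : ℕ} (hk : 3 ≤ k) {α : ℝ} {Y A : Finset V} {M : ℕ}
    (hE : ExtH K k α Y A M) (R : Finset V) (L : List (List V))
    (hL : ∀ C ∈ L, ∃ (y y' : V) (T : List V), C = y :: T ++ [y'] ∧ y ∈ Y ∧
          y' ∈ Y ∧ T.length = k - 2 ∧ (∀ x ∈ T, x ∉ Y ∧ x ∉ A) ∧ EdgeL K C)
    (hn : L.flatten.Nodup) (hR : ∀ v ∈ L.flatten, v ∈ R)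
    (hM : R.card + (3 * k - 2) * L.length ≤ M) :
    ∃ Bs, PSys K k α Y Bs L.length ((3 * k - 4) * L.length) (2 * L.length) ∧
      ∀ v ∈ Bs.flatten, v ∈ L.flatten ∨ v ∉ R := by
  induction L with
  | nil => exact ⟨[], PSys.nil, by simp⟩
  | cons C L ih =>
    rw [List.flatten_cons, List.nodup_append'] at hn
    rw [List.length_cons, mul_add, mul_one] at hM
    obtain ⟨Bs, hBs, hBR⟩ := ih (fun C' hC' => hL C' (List.mem_cons_of_mem _ hC')) hn.2.1
      (fun v hv => hR v (by rw [List.flatten_cons]; exact List.mem_append_right _ hv))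
      (by omega)
    obtain ⟨y, y', T, rfl, hy, hy', hTl, hT, hCE⟩ := hL C (List.mem_cons_self ..)
    have hlen : (y :: T ++ [y']).length = k := by
      simp only [List.cons_append, List.length_cons, List.length_append, List.length_nil, hTl]
      omega
    obtain ⟨B, hB, hCB, hBC⟩ := hBs.addCore hE R (mx := k - 2) (my := 2) (by
        have : (3 * k - 4) * L.length + 2 * L.length = (3 * k - 2) * L.length := by
          rw [← add_mul]; congr 1; omega
        omega) hCE.1 (by omega) (by omega) (tight_of_len hCE hlen) (by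
        intro v hv hv'
        rcases hBR v hv' with h | h
        · exact hn.2.2 hv h
        · exact h (hR v (by rw [List.flatten_cons]; exact List.mem_append_left _ hv)))
      (by
        rw [List.countP_append, List.countP_cons, cntX_eq_len (fun v hv => (hT v hv).1), hTl]
        simp [hy, hy'])
      (by
        rw [List.countP_append, List.countP_cons, cntY_eq_zero (fun v hv => (hT v hv).1)]
        simp [hy, hy'])
    refine ⟨B :: Bs, hB.congr (by simp) ?_ ?_, ?_⟩
    · rw [List.length_cons, mul_add, mul_one]; omega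
    · rw [List.length_cons, mul_add, mul_one]; omega
    · intro v hv
      rw [List.flatten_cons, List.mem_append] at hv ⊢
      rcases hv with hv | hv
      · rcases hBC v hv with h | h
        · exact Or.inl (Or.inl h)
        · exact Or.inr h
      · rcases hBR v hv with h | h
        · exact Or.inl (Or.inr h)
        · exact Or.inr h

/-- stage 2: cover the atypical vertices -/
private theorem stage2 {K : Set (Finset V)} {k : ℕ} (hk : 3 ≤ k) {α : ℝ} {Y A : Finset V} {M : ℕ}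
    (hE : ExtH K k α Y A M)
    (hC : ∀ S : Finset V, S.card ≤ M → ∀ v, v ∉ Y → v ∉ S → ∃ (y y' : V) (T : List V),
      T.length = k - 2 ∧ (y :: v :: T ++ [y']).Nodup ∧ y ∈ Y ∧ y' ∈ Y ∧ (∀ x ∈ T, x ∉ Y) ∧
        (∀ x ∈ y :: y' :: T, x ∉ S) ∧ Tight K k (y :: v :: T ++ [y']))
    {Bs : List (List V)} {p x y : ℕ} (h : PSys K k α Y Bs p x y) (As : List V)
    (hA : ∀ a ∈ As, a ∉ Y) (hM : x + y + (3 * k - 1) * As.length ≤ M) :
    ∃ Bs' q, q ≤ As.length ∧ PSys K k α Y Bs' (p + q) (x + (3 * k - 3) * q) (y + 2 * q) ∧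
      ∀ a ∈ As, a ∈ Bs'.flatten := by
  induction As with
  | nil => exact ⟨Bs, 0, le_rfl, by simpa using h, by simp⟩
  | cons a As ih =>
    rw [List.length_cons, mul_add, mul_one] at hM
    obtain ⟨Bs', q, hq, hP, hcov⟩ := ih (fun a' ha' => hA a' (List.mem_cons_of_mem _ ha'))
      (by omega)
    by_cases ha : a ∈ Bs'.flatten
    · refine ⟨Bs', q, by rw [List.length_cons]; omega, hP, ?_⟩
      intro a' ha'
      rcases List.mem_cons.1 ha' with rfl | ha'
      · exact ha
      · exact hcov a' ha'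
    · have hcard : x + (3 * k - 3) * q + (y + 2 * q) ≤ M := by
        have h1 : (3 * k - 3) * q + 2 * q = (3 * k - 1) * q := by
          rw [← add_mul]; congr 1; omega
        have h2 : (3 * k - 1) * q ≤ (3 * k - 1) * As.length := Nat.mul_le_mul_left _ hq
        omega
      have haY : a ∉ Y := hA a (List.mem_cons_self ..)
      obtain ⟨y1, y2, T, hTl, hnd, hy1, hy2, hTY, hTS, hTt⟩ := hC Bs'.flatten.toFinset
        (by rw [hP.cardF]; exact hcard) a haY (by rwa [List.mem_toFinset])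
      have hlen : (y1 :: a :: T ++ [y2]).length = k + 1 := by
        simp only [List.cons_append, List.length_cons, List.length_append, List.length_nil, hTl]
        omega
      obtain ⟨B, hB, hCB, hBC⟩ := hP.addCore hE ∅ (mx := k - 1) (my := 2)
        (by rw [Finset.card_empty]; omega) hnd (by omega) (by omega) hTt (by
          intro v hv
          have hv' : v = a ∨ v ∈ y1 :: y2 :: T := by
            simp only [List.cons_append, List.mem_cons, List.mem_append, List.not_mem_nil,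
              or_false] at hv ⊢
            tauto
          rcases hv' with rfl | hv'
          · exact ha
          · have := hTS v hv'
            rwa [List.mem_toFinset] at this)
        (by
          rw [List.countP_append, List.countP_cons, List.countP_cons, cntX_eq_len hTY, hTl]
          simp [hy1, hy2, haY]
          omega)
        (by
          rw [List.countP_append, List.countP_cons, List.countP_cons, cntY_eq_zero hTY]
          simp [hy1, hy2, haY])
      refine ⟨B :: Bs', q + 1, by rw [List.length_cons]; omega, hB.congr (by omega) ?_ ?_, ?_⟩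
      · rw [mul_add, mul_one]; omega
      · omega
      · intro a' ha'
        rw [List.flatten_cons, List.mem_append]
        rcases List.mem_cons.1 ha' with rfl | ha'
        · exact Or.inl (hCB a' (by simp))
        · exact Or.inr (hcov a' ha')

/-- stage 3: extra pieces -/
private theorem stage3 {K : Set (Finset V)} {k : ℕ} {α : ℝ} {Y A : Finset V} {M : ℕ}
    (hX : ∀ S : Finset V, S.card ≤ M → ∃ C : List V, C.length = k ∧ C.Nodup ∧
      (∀ v ∈ C, v ∉ S ∧ v ∉ Y ∧ v ∉ A) ∧ IsPiece K k α Y C ∧ IsPiece K k α Y (C.take (k - 1)))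
    {Bs : List (List V)} {p x y : ℕ} (h : PSys K k α Y Bs p x y) (r : ℕ)
    (hM : x + y + k * r ≤ M) :
    ∃ Bs', PSys K k α Y Bs' (p + r) (x + k * r) y ∧ ∀ a ∈ Bs.flatten, a ∈ Bs'.flatten := by
  induction r with
  | zero => exact ⟨Bs, by simpa using h, fun a ha => ha⟩
  | succ r ih =>
    rw [mul_add, mul_one] at hM
    obtain ⟨Bs', hP, hcov⟩ := ih (by omega)
    obtain ⟨C, hCl, hCn, hC, hp, -⟩ := hX Bs'.flatten.toFinset (by rw [hP.cardF]; omega)
    have hnew := hP.cons hp hCn (fun v hv => by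
      have := (hC v hv).1
      rwa [List.mem_toFinset] at this)
    rw [cntX_eq_len (fun v hv => (hC v hv).2.1), cntY_eq_zero (fun v hv => (hC v hv).2.1),
      hCl] at hnew
    refine ⟨C :: Bs', hnew.congr (by omega) (by rw [mul_add, mul_one]; omega) (by omega), ?_⟩
    intro a ha
    rw [List.flatten_cons, List.mem_append]
    exact Or.inr (hcov a ha)

/-- stage 4: one trivial piece -/
private theorem stage4 {K : Set (Finset V)} {k : ℕ} (hk : 3 ≤ k) {α : ℝ} {Y A : Finset V} {M : ℕ}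
    (hX : ∀ S : Finset V, S.card ≤ M → ∃ C : List V, C.length = k ∧ C.Nodup ∧
      (∀ v ∈ C, v ∉ S ∧ v ∉ Y ∧ v ∉ A) ∧ IsPiece K k α Y C ∧ IsPiece K k α Y (C.take (k - 1)))
    {Bs : List (List V)} {p x y : ℕ} (h : PSys K k α Y Bs p x y) (hM : x + y ≤ M) :
    ∃ Bs', PSys K k α Y Bs' (p + 1) (x + (k - 1)) y ∧ ∀ a ∈ Bs.flatten, a ∈ Bs'.flatten := by
  obtain ⟨C, hCl, hCn, hC, -, hp⟩ := hX Bs.flatten.toFinset (by rw [h.cardF]; omega)
  have hC' : ∀ v ∈ C.take (k - 1), v ∉ Bs.flatten ∧ v ∉ Y := by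
    intro v hv
    have := hC v (List.mem_of_mem_take hv)
    rw [List.mem_toFinset] at this
    exact ⟨this.1, this.2.1⟩
  have hnew := h.cons hp (hCn.sublist (List.take_sublist _ _)) (fun v hv => (hC' v hv).1)
  rw [cntX_eq_len (fun v hv => (hC' v hv).2), cntY_eq_zero (fun v hv => (hC' v hv).2),
    List.length_take, hCl] at hnew
  refine ⟨C.take (k - 1) :: Bs, hnew.congr rfl (by omega) (by omega), ?_⟩
  intro a ha
  rw [List.flatten_cons, List.mem_append]
  exact Or.inr ha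

end pieces

/-- the combinatorial part of `pieces`, with all bounds given -/
private theorem pieces_core {V : Type} [Fintype V] [DecidableEq V] {K : Set (Finset V)} {k : ℕ}
    (hk : 3 ≤ k) {α : ℝ} {Y A : Finset V} {M : ℕ}
    (hE : ExtH K k α Y A M)
    (hC : ∀ S : Finset V, S.card ≤ M → ∀ v, v ∉ Y → v ∉ S → ∃ (y y' : V) (T : List V),
      T.length = k - 2 ∧ (y :: v :: T ++ [y']).Nodup ∧ y ∈ Y ∧ y' ∈ Y ∧ (∀ x ∈ T, x ∉ Y) ∧
        (∀ x ∈ y :: y' :: T, x ∉ S) ∧ Tight K k (y :: v :: T ++ [y']))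
    (hX : ∀ S : Finset V, S.card ≤ M → ∃ C : List V, C.length = k ∧ C.Nodup ∧
      (∀ v ∈ C, v ∉ S ∧ v ∉ Y ∧ v ∉ A) ∧ IsPiece K k α Y C ∧ IsPiece K k α Y (C.take (k - 1)))
    (L : List (List V))
    (hL : ∀ C ∈ L, ∃ (y y' : V) (T : List V), C = y :: T ++ [y'] ∧ y ∈ Y ∧
          y' ∈ Y ∧ T.length = k - 2 ∧ (∀ x ∈ T, x ∉ Y ∧ x ∉ A) ∧ EdgeL K C)
    (hn : L.flatten.Nodup) (hLl : L.length = k * Y.card - Fintype.card V)
    (hAY : Disjoint A Y)
    (hM : 4 * k * (k * Y.card - Fintype.card V) + 3 * k * A.card +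
      k * (Fintype.card V - k * Y.card) + k ≤ M)
    (hMY : M ≤ Y.card) :
    ∃ Bs : List (List V), Bs ≠ [] ∧ Bs.flatten.Nodup ∧ (∀ B ∈ Bs, IsPiece K k α Y B) ∧
        (∀ a ∈ A, a ∈ Bs.flatten) ∧ Bs.flatten.length ≤ M ∧
        ∃ t : ℕ, cnt (fun v : V => v ∉ Y ∧ v ∉ Bs.flatten) = (k - 1) * t ∧
          cnt (fun v : V => v ∈ Y ∧ v ∉ Bs.flatten) = t + Bs.length := by
  obtain ⟨h, hh⟩ : ∃ h, h = k * Y.card - Fintype.card V := ⟨_, rfl⟩
  obtain ⟨r, hr⟩ : ∃ r, r = Fintype.card V - k * Y.card := ⟨_, rfl⟩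
  rw [← hh, ← hr] at hM
  rw [← hh] at hLl
  have hflen : L.flatten.length = k * h := by
    rw [List.length_flatten, List.sum_eq_card_nsmul (L.map List.length) k, List.length_map, hLl,
      smul_eq_mul, mul_comm]
    intro m hm
    obtain ⟨C, hC', rfl⟩ := List.mem_map.1 hm
    obtain ⟨y, y', T, rfl, -, -, hTl, -, -⟩ := hL C hC'
    simp only [List.cons_append, List.length_cons, List.length_append, List.length_nil, hTl]
    omega
  obtain ⟨h1, hh1⟩ : ∃ h1, h1 = k * h := ⟨_, rfl⟩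
  obtain ⟨a1, ha1⟩ : ∃ a1, a1 = k * A.card := ⟨_, rfl⟩
  obtain ⟨r1, hr1⟩ : ∃ r1, r1 = k * r := ⟨_, rfl⟩
  have hM' : 4 * h1 + 3 * a1 + r1 + k ≤ M := by
    rw [hh1, ha1, hr1]; nlinarith [hM]
  have e1 : (3 * k - 2) * h + 2 * h = 3 * h1 := by
    rw [hh1, ← add_mul, ← mul_assoc]; congr 1; omega
  have e2 : (3 * k - 4) * h + 4 * h = 3 * h1 := by
    rw [hh1, ← add_mul, ← mul_assoc]; congr 1; omega
  have e3 : (3 * k - 1) * A.card + A.card = 3 * a1 := by
    rw [ha1]
    have : (3 * k - 1) * A.card + 1 * A.card = 3 * k * A.card := by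
      rw [← add_mul]; congr 1; omega
    rw [← mul_assoc]; omega
  have hh3 : 3 * h ≤ h1 := by rw [hh1]; exact Nat.mul_le_mul_right _ hk
  have ha3 : 3 * A.card ≤ a1 := by rw [ha1]; exact Nat.mul_le_mul_right _ hk
  have hr3 : 3 * r ≤ r1 := by rw [hr1]; exact Nat.mul_le_mul_right _ hk
  obtain ⟨B1, hB1, -⟩ := stage1 hk hE L.flatten.toFinset L hL hn
    (fun v hv => List.mem_toFinset.2 hv) (by
      rw [List.toFinset_card_of_nodup hn, hflen, hLl, ← hh1]; omega)
  rw [hLl] at hB1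
  obtain ⟨B2, q, hq, hB2, hcov2⟩ := stage2 hk hE hC hB1 A.toList
    (fun a ha => Finset.disjoint_left.1 hAY (Finset.mem_toList.1 ha))
    (by rw [Finset.length_toList]; omega)
  rw [Finset.length_toList] at hq
  have e4 : (3 * k - 3) * q + 3 * q = 3 * (k * q) := by
    rw [← add_mul, ← mul_assoc]; congr 1; omega
  have hq1 : k * q ≤ a1 := by rw [ha1]; exact Nat.mul_le_mul_left _ hq
  have hq3 : 3 * q ≤ k * q := Nat.mul_le_mul_right _ hk
  obtain ⟨B3, hB3, hcov3⟩ := stage3 hX hB2 r (by rw [← hr1]; omega)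
  obtain ⟨B4, hB4, hcov4⟩ := stage4 hk hX hB3 (by rw [← hr1]; omega)
  have hx := hB4.uncovX
  have hy := hB4.uncovY
  rw [← hr1] at hx
  refine ⟨B4, ?_, hB4.nodup, hB4.piece, ?_, ?_, ?_⟩
  · intro h0
    have := hB4.len
    rw [h0] at this
    simp at this
  · intro a ha
    exact hcov4 a (hcov3 a (hcov2 a (Finset.mem_toList.2 ha)))
  · rw [hB4.flen, ← hr1]
    omega
  · obtain ⟨t, ht⟩ : ∃ t, cnt (fun v : V => v ∈ Y ∧ v ∉ B4.flatten) = t + (h + q + r + 1) :=
      ⟨cnt (fun v : V => v ∈ Y ∧ v ∉ B4.flatten) - (h + q + r + 1), by omega⟩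
    refine ⟨t, ?_, by rw [ht, hB4.len]⟩
    rw [ht] at hy
    have hkY : k * Y.card = k * t + 3 * (k * h) + 3 * (k * q) + k * r + k := by
      rw [← hy]; ring
    rw [← hh1, ← hr1] at hkY
    have ht2 : (k - 1) * t + t = k * t := by
      have : (k - 1) * t + 1 * t = k * t := by rw [← add_mul]; congr 1; omega
      omega
    omega

theorem pieces (k : ℕ) (hk : 3 ≤ k) : ∃ α₀ > (0 : ℝ), ∀ α > (0 : ℝ), α ≤ α₀ →
    ∀ ξ > (0 : ℝ), ∃ ζ₀ > (0 : ℝ), ∃ n₀ : ℕ,
    ∀ (V : Type) [Fintype V] [DecidableEq V], n₀ ≤ Fintype.card V → ∀ K : Set (Finset V),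
      Cx K k ((1 - 1 / (k : ℝ)) * (Fintype.card V : ℝ)) →
      ∀ (ζ : ℝ) (Y A : Finset V), 0 ≤ ζ → ζ ≤ ζ₀ → ExtStr K k α ζ Y A →
      ∃ Bs : List (List V), Bs ≠ [] ∧ Bs.flatten.Nodup ∧ (∀ B ∈ Bs, IsPiece K k α Y B) ∧
        (∀ a ∈ A, a ∈ Bs.flatten) ∧ (Bs.flatten.length : ℝ) ≤ ξ * Fintype.card V ∧
        ∃ t : ℕ, cnt (fun v : V => v ∉ Y ∧ v ∉ Bs.flatten) = (k - 1) * t ∧
          cnt (fun v : V => v ∈ Y ∧ v ∉ Bs.flatten) = t + Bs.length := by
  obtain ⟨α₀, hα₀, hsp⟩ := special_edges k hk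
  refine ⟨α₀, hα₀, fun α hα hαle ξ hξ => ?_⟩
  obtain ⟨ζ₁, hζ₁, n₁, h1⟩ := extend_piece k hk α hα
  obtain ⟨ζ₂, hζ₂, n₂, h2⟩ := core_through k hk α hα
  obtain ⟨ζ₃, hζ₃, n₃, h3⟩ := extra_piece k hk α hα
  obtain ⟨ζ₄, hζ₄, n₄, h4⟩ := hsp α hα hαle
  have hk0 : (3 : ℝ) ≤ k := by exact_mod_cast hk
  have hkpos : (0 : ℝ) < k := by linarith
  obtain ⟨θ, hθ⟩ : ∃ θ : ℝ, θ = min (min ζ₁ ζ₂) (min ζ₃ (min ξ (1 / (2 * k)))) := ⟨_, rfl⟩
  have hθpos : 0 < θ := by
    rw [hθ]; positivity
  have hθ1 : θ ≤ ζ₁ := by rw [hθ]; exact (min_le_left _ _).trans (min_le_left _ _)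
  have hθ2 : θ ≤ ζ₂ := by rw [hθ]; exact (min_le_left _ _).trans (min_le_right _ _)
  have hθ3 : θ ≤ ζ₃ := by rw [hθ]; exact (min_le_right _ _).trans (min_le_left _ _)
  have hθ4 : θ ≤ ξ := by
    rw [hθ]; exact (min_le_right _ _).trans ((min_le_right _ _).trans (min_le_left _ _))
  have hθ5 : θ ≤ 1 / (2 * k) := by
    rw [hθ]; exact (min_le_right _ _).trans ((min_le_right _ _).trans (min_le_right _ _))
  obtain ⟨n₅, hn₅⟩ := exists_nat_ge (2 * (k + 1) / θ)
  refine ⟨min (min (min ζ₁ ζ₂) (min ζ₃ ζ₄)) (θ / (20 * k ^ 2)), by positivity,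
    max (max (max n₁ n₂) (max n₃ n₄)) n₅, ?_⟩
  intro V _ _ hn K hK ζ Y A hζ0 hζle hS
  simp only [max_le_iff] at hn
  simp only [le_min_iff] at hζle
  obtain ⟨⟨⟨hn1, hn2⟩, hn3, hn4⟩, hn5⟩ := hn
  obtain ⟨⟨⟨hz1, hz2⟩, hz3, hz4⟩, hz5⟩ := hζle
  obtain ⟨n, hnn⟩ : ∃ n : ℝ, n = (Fintype.card V : ℝ) := ⟨_, rfl⟩
  have hn0 : 0 ≤ n := by rw [hnn]; positivity
  have hn5' : 2 * (k + 1) ≤ θ * n := by
    have : (2 * (k + 1) / θ : ℝ) ≤ n := by
      rw [hnn]; exact hn₅.trans (by exact_mod_cast hn5)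
    rw [div_le_iff₀ hθpos] at this
    linarith
  have hz : 20 * k ^ 2 * ζ ≤ θ := by
    rw [le_div_iff₀ (by positivity)] at hz5; linarith
  obtain ⟨L, hL, hLn, hLl⟩ := h4 V hn4 K hK ζ Y A hζ0 hz4 hS
  have hMle : ((⌊θ * n⌋₊ : ℕ) : ℝ) ≤ θ * n := Nat.floor_le (by positivity)
  have hlo := hS.cardY_lo
  have hhi := hS.cardY_hi
  have hcA := hS.cardA
  rw [← hnn] at hlo hhi hcA
  have hkk : (k : ℝ) * (1 / k) = 1 := by field_simp
  have hY1 : ((k * Y.card - Fintype.card V : ℕ) : ℝ) ≤ k * ζ * n := by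
    rcases le_total (Fintype.card V) (k * Y.card) with hc | hc
    · rw [Nat.cast_sub hc, Nat.cast_mul, ← hnn]
      have := mul_le_mul_of_nonneg_left hhi hkpos.le
      have e : (k : ℝ) * ((1 / k + ζ) * n) = n + k * ζ * n := by
        rw [add_mul, mul_add, ← mul_assoc, hkk]; ring
      linarith
    · rw [Nat.sub_eq_zero_of_le hc]; simp; positivity
  have hY2 : ((Fintype.card V - k * Y.card : ℕ) : ℝ) ≤ k * ζ * n := by
    rcases le_total (k * Y.card) (Fintype.card V) with hc | hc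
    · rw [Nat.cast_sub hc, Nat.cast_mul, ← hnn]
      have := mul_le_mul_of_nonneg_left hlo hkpos.le
      have e : (k : ℝ) * ((1 / k - ζ) * n) = n - k * ζ * n := by
        rw [sub_mul, mul_sub, ← mul_assoc, hkk]; ring
      linarith
    · rw [Nat.sub_eq_zero_of_le hc]; simp; positivity
  have hzn : 20 * k ^ 2 * ζ * n ≤ θ * n := mul_le_mul_of_nonneg_right hz hn0
  have hkz : 0 ≤ k * ζ * n := by positivity
  have hkkz : 0 ≤ k ^ 2 * ζ * n := by positivity
  have hkzk : 3 * (k * ζ * n) ≤ k ^ 2 * ζ * n := by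
    have : (k : ℝ) ^ 2 * ζ * n = k * (k * ζ * n) := by ring
    rw [this]; exact mul_le_mul_of_nonneg_right hk0 hkz
  obtain ⟨Bs, hb1, hb2, hb3, hb4, hb5, hb6⟩ := pieces_core (M := ⌊θ * n⌋₊) hk (α := α) (Y := Y)
    (A := A) (K := K)
    (fun S hSc C hCn hCl hCu hCt => h1 V hn1 K hK ζ Y A S hζ0 hz1 hS (by
      rw [← hnn]
      have : (S.card : ℝ) ≤ ((⌊θ * n⌋₊ : ℕ) : ℝ) := by exact_mod_cast hSc
      have h' : θ * n ≤ ζ₁ * n := mul_le_mul_of_nonneg_right hθ1 hn0
      linarith) C hCn hCl hCu hCt)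
    (fun S hSc v hvY hvS => h2 V hn2 K hK ζ Y A S hζ0 hz2 hS (by
      rw [← hnn]
      have : (S.card : ℝ) ≤ ((⌊θ * n⌋₊ : ℕ) : ℝ) := by exact_mod_cast hSc
      have h' : θ * n ≤ ζ₂ * n := mul_le_mul_of_nonneg_right hθ2 hn0
      linarith) v hvY hvS)
    (fun S hSc => h3 V hn3 K hK ζ Y A S hζ0 hz3 hS (by
      rw [← hnn]
      have : (S.card : ℝ) ≤ ((⌊θ * n⌋₊ : ℕ) : ℝ) := by exact_mod_cast hSc
      have h' : θ * n ≤ ζ₃ * n := mul_le_mul_of_nonneg_right hθ3 hn0
      linarith))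
    L hL hLn hLl hS.disj
    (by
      apply Nat.le_floor
      push_cast
      have e1 : 4 * (k : ℝ) * ((k * Y.card - Fintype.card V : ℕ) : ℝ) ≤ 4 * (k ^ 2 * ζ * n) := by
        have := mul_le_mul_of_nonneg_left hY1 (show (0 : ℝ) ≤ 4 * k by positivity)
        calc _ ≤ _ := this
          _ = _ := by ring
      have e2 : 3 * (k : ℝ) * (A.card : ℝ) ≤ 3 * (k * ζ * n) := by
        have := mul_le_mul_of_nonneg_left hcA (show (0 : ℝ) ≤ 3 * k by positivity)
        calc _ ≤ _ := this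
          _ = _ := by ring
      have e3 : (k : ℝ) * ((Fintype.card V - k * Y.card : ℕ) : ℝ) ≤ k ^ 2 * ζ * n := by
        have := mul_le_mul_of_nonneg_left hY2 hkpos.le
        calc _ ≤ _ := this
          _ = _ := by ring
      linarith)
    (by
      have : ((⌊θ * n⌋₊ : ℕ) : ℝ) ≤ (Y.card : ℝ) := by
        refine hMle.trans (le_trans ?_ hlo)
        have h' : θ * n ≤ 1 / (2 * k) * n := mul_le_mul_of_nonneg_right hθ5 hn0
        have h'' : ζ * n ≤ 1 / (2 * k) * n := by
          have hk2 : (1 : ℝ) ≤ 20 * k ^ 2 := by nlinarith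
          have : ζ ≤ 20 * k ^ 2 * ζ := le_mul_of_one_le_left hζ0 hk2
          exact mul_le_mul_of_nonneg_right (this.trans (hz.trans hθ5)) hn0
        have e : (1 / (k : ℝ)) = 1 / (2 * k) + 1 / (2 * k) := by field_simp; norm_num
        rw [sub_mul, e, add_mul]
        linarith
      exact_mod_cast this)
  refine ⟨Bs, hb1, hb2, hb3, hb4, ?_, hb6⟩
  have h5 : (Bs.flatten.length : ℝ) ≤ ((⌊θ * n⌋₊ : ℕ) : ℝ) := by exact_mod_cast hb5
  have h' : θ * n ≤ ξ * n := mul_le_mul_of_nonneg_right hθ4 hn0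
  rw [← hnn]
  linarith

end Pool.Agent.THC
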