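import Pool.Agent.Lib.MP_5c6f2e_co.Template
import Pool.Agent.Lib.MP_5c6f2e_co.Clean
import Pool.Agent.Lib.MP_5c6f2e_co.Pieces
import Pool.Agent.Lib.MP_5c6f2e_co.NonExt
import Pool.Agent.Lib.MP_5c6f2e_co.Cover
import Pool.Agent.Lib.MP_5c6f2e_co.Dirac

/-! Final assembly for MP_5c6f2e_co. -/

set_option autoImplicit false

namespace Pool.Agent.THC

open Finset

theorem nonext (k : ℕ) (hk : 3 ≤ k) (γ : ℝ) (hγ : 0 < γ) : ∃ n₀ : ℕ,
    ∀ (V : Type) [Fintype V] [DecidableEq V], n₀ ≤ Fintype.card V → ∀ K : Set (Finset V),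
      Cx K k ((1 - 1 / (k : ℝ)) * (Fintype.card V : ℝ)) → (∀ v, {v} ∈ K) → ¬ NearExt K k γ →
      HamCyc K k := nonext_of_cover k hk (almost_cover k hk) γ hγ

theorem main3 (k : ℕ) (hk : 3 ≤ k) : ∃ n₀ : ℕ,
    ∀ (V : Type) [Fintype V] [DecidableEq V], n₀ ≤ Fintype.card V → ∀ K : Set (Finset V),
      Cx K k ((1 - 1 / (k : ℝ)) * (Fintype.card V : ℝ)) → (∀ v, {v} ∈ K) → HamCyc K k := by
  classical
  obtain ⟨α₀, hα₀, hcl⟩ := clean k hk
  obtain ⟨α₁, hα₁, hpc⟩ := pieces k hk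
  obtain ⟨α₂, hα₂, ξ, hξ, n₂, htm⟩ := template_ham k hk
  set α := min α₀ (min α₁ α₂) with hα
  have hαpos : 0 < α := lt_min hα₀ (lt_min hα₁ hα₂)
  obtain ⟨ζ₁, hζ₁, n₁, hpc1⟩ := hpc α hαpos ((min_le_right _ _).trans (min_le_left _ _)) ξ hξ
  set ζ := min ζ₁ ξ with hζ
  have hζpos : 0 < ζ := lt_min hζ₁ hξ
  obtain ⟨γ, hγ, n₀, hcl1⟩ := hcl α hαpos (min_le_left _ _) ζ hζpos
  obtain ⟨n₃, hne⟩ := nonext k hk γ hγ
  refine ⟨max (max n₀ n₁) (max n₂ n₃), ?_⟩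
  intro V _ _ hn K hK hv
  have h0 : n₀ ≤ Fintype.card V := le_trans (le_max_left _ _) (le_trans (le_max_left _ _) hn)
  have h1 : n₁ ≤ Fintype.card V := le_trans (le_max_right _ _) (le_trans (le_max_left _ _) hn)
  have h2 : n₂ ≤ Fintype.card V := le_trans (le_max_left _ _) (le_trans (le_max_right _ _) hn)
  have h3 : n₃ ≤ Fintype.card V := le_trans (le_max_right _ _) (le_trans (le_max_right _ _) hn)
  by_cases hext : NearExt K k γ
  · obtain ⟨Y, A, hS⟩ := hcl1 V h0 K hK hv hext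
    obtain ⟨Bs, hb1, hb2, hb3, hb4, hb5, t, ht1, ht2⟩ :=
      hpc1 V h1 K hK ζ Y A hζpos.le (min_le_left _ _) hS
    exact htm V h2 K α ζ Y A hαpos ((min_le_right _ _).trans (min_le_right _ _)) hζpos.le
      (min_le_right _ _) hS hK.down Bs hb1 hb2 hb3 hb4 hb5 t ht1 ht2
  · exact hne V h3 K hK hv hext


theorem full (k : ℕ) (hk : 2 ≤ k) : ∃ n₀ : ℕ, ∀ n : ℕ, n₀ ≤ n →
      ∀ H : Finset (Finset (Fin n)),
        (∀ e ∈ H, e.card = k) →
        (∀ v : Fin n, ∃ e ∈ H, v ∈ e) →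
        (∀ S : Finset (Fin n), S.card = k - 1 → (∃ e ∈ H, S ⊆ e) →
          (1 - 1 / (k : ℝ)) * (n : ℝ) ≤
            ((Finset.univ.filter (fun v : Fin n => v ∉ S ∧ insert v S ∈ H)).card : ℝ)) →
        ∃ g : ℕ → Fin n,
          (∀ i : ℕ, g (i + n) = g i) ∧
          (∀ i j : ℕ, i < n → j < n → g i = g j → i = j) ∧
          (∀ i : ℕ, (Finset.range k).image (fun j => g (i + j)) ∈ H) := by
  rcases Nat.lt_or_ge 2 k with h3 | h2
  · obtain ⟨n₀, h⟩ := main3 k h3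
    refine ⟨max n₀ (k + 1), ?_⟩
    intro n hn H hH hcov hdeg
    have hn1 : n₀ ≤ n := le_trans (le_max_left _ _) hn
    have hn2 : k + 1 ≤ n := le_trans (le_max_right _ _) hn
    have hne : H.Nonempty := by
      obtain ⟨e, he, -⟩ := hcov ⟨0, by omega⟩
      exact ⟨e, he⟩
    have hcx := Cx.ofH (by omega) hne hH hdeg
    have := h (Fin n) (by simpa using hn1) _ (by simpa using hcx) (by
      intro v
      obtain ⟨e, he, hv⟩ := hcov v
      exact ⟨e, he, by simpa using hv⟩)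
    exact HamCyc.toFun (by omega) (by omega) hH this
  · obtain rfl : k = 2 := by omega
    exact ⟨3, fun n hn H hH hcov hdeg => dirac hn H hH hcov hdeg⟩

end Pool.Agent.THC
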