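import Pool.Agent.Lib.MP_5c6f2e_co.TemplateB
import Pool.Agent.Lib.MP_5c6f2e_co.LLL

set_option autoImplicit false

namespace Pool.Agent.THC

open Finset

namespace Tmpl

variable {V : Type} [Fintype V] [DecidableEq V]
variable {K : Set (Finset V)} {k : ℕ} {α : ℝ} {Y : Finset V}

theorem cnt_subtype {A : Type*} [Fintype A] (S T : A → Prop) [DecidablePred S] :
    cnt (fun p : {i // S i} => T p.1) = cnt (fun i => S i ∧ T i) := by
  classical
  rw [cnt_eq, cnt_eq]
  rw [← Finset.card_map (Function.Embedding.subtype S)]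
  congr 1
  ext a
  simp only [Finset.mem_map, Finset.mem_filter, Finset.mem_univ, true_and,
    Function.Embedding.coe_subtype, Subtype.exists, exists_and_right, exists_eq_right]
  constructor
  · rintro ⟨h1, h2⟩; exact ⟨h1, h2⟩
  · rintro ⟨h1, h2⟩; exact ⟨h1, h2⟩

theorem cnt_fix {m : ℕ} (a : Fin m) (v : V) (Q : (Fin m → V) → Prop) :
    cnt (fun g : Fin m → V => g a = v ∧ Q g) ≤ Fintype.card V ^ (m - 1) := by
  classical
  refine (cnt_mono (Q := fun g => g a = v) (fun g h => h.1)).trans ?_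
  rw [cnt_eq]
  have : (univ.filter (fun g : Fin m → V => g a = v)) =
      Fintype.piFinset (fun b => if b = a then {v} else univ) := by
    ext g
    simp only [Finset.mem_filter, Finset.mem_univ, true_and, Fintype.mem_piFinset]
    constructor
    · intro h b
      by_cases hb : b = a
      · subst hb; simp [h]
      · simp [hb]
    · intro h
      simpa using h a
  rw [this, Fintype.card_piFinset]
  rw [← Finset.mul_prod_erase univ _ (Finset.mem_univ a)]
  simp only [if_true, Finset.card_singleton, one_mul]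
  rw [Finset.prod_congr rfl (g := fun _ => Fintype.card V)]
  · rw [Finset.prod_const, Finset.card_erase_of_mem (Finset.mem_univ a)]
    simp
  · intro b hb
    rw [if_neg (Finset.ne_of_mem_erase hb)]; rfl

theorem card_window_le {n : ℕ} (hkn : k ≤ n) (p : Fin n) :
    (univ.filter (fun i : Fin n => ∃ j : Fin k, (p : ℕ) = ((i : ℕ) + j) % n)).card ≤ k := by
  classical
  have hn : 0 < n := p.pos
  set S := univ.filter (fun i : Fin n => ∃ j : Fin k, (p : ℕ) = ((i : ℕ) + j) % n) with hS
  have hex : ∀ i : Fin n, i ∈ S → ∃ j : Fin k, (p : ℕ) = ((i : ℕ) + j) % n := fun i hi =>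
    (Finset.mem_filter.1 hi).2
  have : ∀ i : {i // i ∈ S}, ∃ j : Fin k, (p : ℕ) = ((i.1 : ℕ) + j) % n := fun i => hex i.1 i.2
  choose g hg using this
  have hinj : Function.Injective g := by
    intro a b hab
    have h1 := hg a
    have h2 := hg b
    rw [hab] at h1
    have h3 : (a.1 : ℕ) + (g b : ℕ) ≡ (b.1 : ℕ) + (g b : ℕ) [MOD n] := by
      unfold Nat.ModEq; rw [← h1, ← h2]
    have h4 := Nat.ModEq.add_right_cancel' _ h3
    have h5 := Nat.ModEq.eq_of_lt_of_lt h4 a.1.2 b.1.2
    exact Subtype.ext (Fin.ext h5)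
  have := Fintype.card_le_of_injective g hinj
  simpa using this

theorem core (hk : 3 ≤ k) {n : ℕ} (hn : Fintype.card V = n) (hkn : k ≤ n) (R : List V)
    (f : Fin n → V ⊕ Bool)
    (hphi : ∀ i, i < n → Phi K k α Y (List.ofFn (fun j : Fin k => f ⟨(i + j) % n,
        Nat.mod_lt _ (by omega)⟩)))
    (hX : cnt (fun i => f i = Sum.inr true) = cnt (fun v => v ∉ Y ∧ v ∉ R))
    (hY : cnt (fun i => f i = Sum.inr false) = cnt (fun v => v ∈ Y ∧ v ∉ R))
    (hfix : ∀ v ∈ R, ∃ i, f i = Sum.inl v)
    (ξ β : ℝ) (hα : 0 ≤ α) (hαβ : α ≤ β) (hξ : 0 ≤ ξ)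
    (hR : (cnt (fun i => ∃ v, f i = Sum.inl v) : ℝ) ≤ ξ * n)
    (hβ : k * (β * (8 * k) ^ k) ≤ 1 / (8 * k))
    (hαξ : k * α * (8 * k) ^ k + k ^ 2 * ξ * (8 * k) ^ k ≤ 1 / (8 * k))
    (htot : (cnt (fun f : Fin k → V => OneY Y f ∧ ¬ EdgeF K f) : ℝ) ≤ β * (n : ℝ) ^ k)
    (hbad : ∀ v, v ∉ R → ∀ p : Fin k,
      (cnt (fun f : Fin k → V => f p = v ∧ OneY Y f ∧ ¬ EdgeF K f) : ℝ) ≤ α * (n : ℝ) ^ (k - 1))
    (N : ℕ) (hN1 : 1 ≤ N) (hNX : N + k ≤ cnt (fun v => v ∉ Y ∧ v ∉ R))
    (hNY : N + k ≤ cnt (fun v => v ∈ Y ∧ v ∉ R)) (hNn : 1 / (N : ℝ) ≤ 8 * k / n) :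
    HamCyc K k := by
  classical
  have hn0 : 0 < n := by omega
  have hnR : (0 : ℝ) < n := by exact_mod_cast hn0
  have hkR : (3 : ℝ) ≤ k := by exact_mod_cast hk
  have : Nonempty V := Fintype.card_pos_iff.1 (by omega)
  obtain ⟨v0⟩ := (inferInstance : Nonempty V)
  set P := {i : Fin n // ∃ b, f i = Sum.inr b} with hP
  set Q := {v : V // v ∉ R} with hQ
  set cP : P → Bool := fun p => decide (f p.1 = Sum.inr true) with hcP
  set cQ : Q → Bool := fun q => decide (q.1 ∉ Y) with hcQ
  have hcPt : cnt (fun p => cP p = true) = cnt (fun v => v ∉ Y ∧ v ∉ R) := by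
    rw [← hX]
    have : cnt (fun p : P => cP p = true) = cnt (fun p : P => f p.1 = Sum.inr true) :=
      cnt_congr (fun p => by simp [hcP])
    rw [this, cnt_subtype (fun i => ∃ b, f i = Sum.inr b) (fun i => f i = Sum.inr true)]
    exact cnt_congr (fun i => ⟨fun h => h.2, fun h => ⟨⟨_, h⟩, h⟩⟩)
  have hcPf : cnt (fun p => cP p = false) = cnt (fun v => v ∈ Y ∧ v ∉ R) := by
    rw [← hY]
    have : cnt (fun p : P => cP p = false) = cnt (fun p : P => f p.1 = Sum.inr false) := by
      apply cnt_congr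
      intro p
      obtain ⟨b, hb⟩ := p.2
      simp only [hcP, hb, decide_eq_false_iff_not, Sum.inr.injEq]
      cases b <;> simp
    rw [this, cnt_subtype (fun i => ∃ b, f i = Sum.inr b) (fun i => f i = Sum.inr false)]
    exact cnt_congr (fun i => ⟨fun h => h.2, fun h => ⟨⟨_, h⟩, h⟩⟩)
  have hcQt : cnt (fun q => cQ q = true) = cnt (fun v => v ∉ Y ∧ v ∉ R) := by
    have : cnt (fun q : Q => cQ q = true) = cnt (fun q : Q => q.1 ∉ Y) :=
      cnt_congr (fun p => by simp [hcQ])
    rw [this, cnt_subtype (fun v => v ∉ R) (fun v => v ∉ Y)]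
    exact cnt_congr (fun i => and_comm)
  have hcQf : cnt (fun q => cQ q = false) = cnt (fun v => v ∈ Y ∧ v ∉ R) := by
    have : cnt (fun q : Q => cQ q = false) = cnt (fun q : Q => q.1 ∈ Y) :=
      cnt_congr (fun p => by simp [hcQ])
    rw [this, cnt_subtype (fun v => v ∉ R) (fun v => v ∈ Y)]
    exact cnt_congr (fun i => and_comm)
  set x : ℝ := 1 / (N : ℝ) with hx
  have hx0 : 0 ≤ x := by positivity
  have hxn : x * n ≤ 8 * k := by
    rw [le_div_iff₀ hnR] at hNn; exact hNn
  have h8k : (1 : ℝ) ≤ 8 * k := by linarith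
  -- numerical estimate
  have hnum : ∀ m : ℕ, m ≤ k → (n : ℝ) ^ m * x ^ m ≤ (8 * k) ^ k := by
    intro m hm
    rw [← mul_pow, mul_comm]
    exact (pow_le_pow_left₀ (by positivity) hxn m).trans (pow_le_pow_right₀ h8k hm)
  have hnum1 : ∀ m : ℕ, 1 ≤ m → m ≤ k → (n : ℝ) ^ (m - 1) * x ^ m ≤ (8 * k) ^ k / n := by
    intro m hm1 hm
    rw [le_div_iff₀ hnR]
    have : (n : ℝ) ^ (m - 1) * x ^ m * n = (n : ℝ) ^ m * x ^ m := by
      obtain ⟨m', rfl⟩ : ∃ m', m = m' + 1 := ⟨m - 1, by omega⟩
      simp only [Nat.add_sub_cancel]; ring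
    rw [this]; exact hnum m hm
  let fill : (P ≃ Q) → Fin n → V := fun σ j =>
    if h : ∃ b, f j = Sum.inr b then (σ ⟨j, h⟩).1 else (f j).elim id (fun _ => v0)
  have hfill : ∀ σ : P ≃ Q, ∀ j v, f j = Sum.inl v → fill σ j = v := by
    intro σ j v hv
    have h : ¬ ∃ b, f j = Sum.inr b := by rw [hv]; simp
    simp only [fill, dif_neg h, hv, Sum.elim_inl, id]
  -- events of a single window
  have hEv : ∀ i : Fin n, ∃ Ev : Finset (Finset (P × Q)),
      (∀ M ∈ Ev, M.Nonempty ∧ M.card ≤ k) ∧
      (∀ M ∈ Ev, ∀ y ∈ M, cP y.1 = cQ y.2) ∧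
      (∀ M ∈ Ev, ∀ y ∈ M, ∀ z ∈ M, (y.1 = z.1 ↔ y.2 = z.2)) ∧
      (∀ M ∈ Ev, ∀ y ∈ M, ∃ j : Fin k, (y.1.1 : ℕ) = ((i : ℕ) + j) % n) ∧
      (∑ M ∈ Ev, x ^ M.card ≤ β * (8 * k) ^ k) ∧
      (∀ q : Q, ∑ M ∈ Ev with (∃ p, (p, q) ∈ M), x ^ M.card ≤
        (k * α * (8 * k) ^ k / n +
          if (∃ j : Fin k, ∃ v, f ⟨((i : ℕ) + j) % n, Nat.mod_lt _ hn0⟩ = Sum.inl v) then
            (k : ℝ) * (8 * k) ^ k / n else 0)) ∧
      ∀ σ : P ≃ Q, (∀ p, cQ (σ p) = cP p) → (∀ M ∈ Ev, ∃ y ∈ M, σ y.1 ≠ y.2) →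
        EdgeL K (List.ofFn (fun j : Fin k => fill σ ⟨((i : ℕ) + j) % n, Nat.mod_lt _ hn0⟩)) := by
    intro i
    rcases window_data hn0 hkn f i (hphi i i.2) with ⟨w', hw', hE⟩ | ⟨F, hFk, hFY, hF, hFne, pos,
      hpos, hposw, hposr, hpos1, hposE⟩
    · refine ⟨∅, by simp, by simp, by simp, by simp, ?_, ?_, ?_⟩
      · simp only [Finset.sum_empty]
        have : 0 ≤ β := hα.trans hαβ
        positivity
      · intro q
        simp only [Finset.filter_empty, Finset.sum_empty]
        split_ifs <;> positivity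
      · intro σ _ _
        have : List.ofFn (fun j : Fin k => fill σ ⟨((i : ℕ) + j) % n, Nat.mod_lt _ hn0⟩) = w' := by
          have hl : w'.length = k := by
            have := congrArg List.length hw'; simpa using this.symm
          apply List.ext_getElem
          · simp [hl]
          · intro j h1 h2
            rw [List.getElem_ofFn]
            apply hfill
            have := List.getElem_of_eq hw' (i := j) (by simpa using h1)
            simpa using this
        rw [this]; exact hE
    · set posP : Fin (k - F.length) → P := fun a => ⟨pos a, hposr a⟩ with hposP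
      have hposPinj : Function.Injective posP := by
        intro a b hab
        exact hpos (congrArg Subtype.val hab)
      have hone : ∃! a, cP (posP a) = false := by
        obtain ⟨a, ha, hu⟩ := hpos1
        refine ⟨a, ?_, ?_⟩
        · simp only [hcP, hposP, ha]; simp
        · intro b hb
          apply hu
          obtain ⟨c, hc⟩ := hposr b
          simp only [hcP, hposP, hc, decide_eq_false_iff_not, Sum.inr.injEq] at hb
          rw [hc]
          cases c
          · rfl
          · simp at hb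
      have hm : k - F.length ≤ k := Nat.sub_le _ _
      have hm1 : 1 ≤ k - F.length := by omega
      -- bound on all bad assignments
      have hb : (cnt (fun g : Fin (k - F.length) → V => OneY Y g ∧
          ¬ EdgeL K (F ++ List.ofFn g)) : ℝ) ≤ β * (n : ℝ) ^ (k - F.length) := by
        rcases hF with rfl | hF
        · simp only [List.nil_append, edgeL_ofFn]
          exact htot
        · unfold OKF at hF
          rw [hn] at hF
          refine hF.trans ?_
          apply mul_le_mul_of_nonneg_right hαβ (by positivity)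
      by_cases hF0 : F = []
      · subst hF0
        obtain ⟨Ev, e1, e2, e3, e4, e5, e6, e7⟩ := window_events (K := K) (k := k) (Y := Y) R cP []
          hFk posP hposPinj hone hb (δ := α * (n : ℝ) ^ (k - 1)) (by
            intro v hv a
            simp only [List.nil_append, edgeL_ofFn]
            exact hbad v hv a)
        refine ⟨Ev, ?_, e2, e3, ?_, ?_, ?_, ?_⟩
        · intro M hM
          have := e1 M hM
          exact ⟨Finset.card_pos.1 (by omega), by omega⟩
        · intro M hM y hy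
          obtain ⟨a, ha⟩ := e4 M hM y hy
          rw [ha]; exact hposw a
        · rw [Finset.sum_congr rfl (fun M hM => by rw [e1 M hM]), Finset.sum_const, nsmul_eq_mul]
          calc (Ev.card : ℝ) * x ^ (k - ([] : List V).length)
              ≤ β * (n : ℝ) ^ (k - ([] : List V).length) * x ^ (k - ([] : List V).length) :=
                mul_le_mul_of_nonneg_right e5 (by positivity)
            _ = β * ((n : ℝ) ^ (k - ([] : List V).length) * x ^ (k - ([] : List V).length)) := by ring
            _ ≤ β * (8 * k) ^ k := mul_le_mul_of_nonneg_left (hnum _ hm) (hα.trans hαβ)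
        · intro q
          have h6 := e6 q
          rw [Finset.sum_congr rfl (fun M hM => by rw [e1 M (Finset.mem_filter.1 hM).1]),
            Finset.sum_const, nsmul_eq_mul]
          have h7 : ((Ev.filter (fun M => ∃ p, (p, q) ∈ M)).card : ℝ) * x ^ (k - ([] : List V).length)
              ≤ k * α * (8 * k) ^ k / n := by
            calc _ ≤ k * (α * (n : ℝ) ^ (k - 1)) * x ^ (k - ([] : List V).length) :=
                  mul_le_mul_of_nonneg_right h6 (by positivity)
              _ = k * α * ((n : ℝ) ^ (k - 1) * x ^ k) := by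
                  simp only [List.length_nil, Nat.sub_zero]; ring
              _ ≤ k * α * ((8 * k) ^ k / n) :=
                  mul_le_mul_of_nonneg_left (hnum1 k (by omega) le_rfl) (by positivity)
              _ = k * α * (8 * k) ^ k / n := by ring
          refine h7.trans ?_
          have : (0 : ℝ) ≤ if (∃ j : Fin k, ∃ v, f ⟨((i : ℕ) + j) % n, Nat.mod_lt _ hn0⟩ = Sum.inl v)
              then (k : ℝ) * (8 * k) ^ k / n else 0 := by split_ifs <;> positivity
          linarith
        · intro σ hσ hM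
          have := e7 σ hσ hM
          refine hposE (fill σ) (hfill σ) ?_
          convert this using 3
          funext a
          simp only [fill, dif_pos (hposr a)]; rfl
      · obtain ⟨Ev, e1, e2, e3, e4, e5, e6, e7⟩ := window_events (K := K) (k := k) (Y := Y) R cP F
          hFk posP hposPinj hone hb (δ := (n : ℝ) ^ (k - F.length - 1)) (by
            intro v hv a
            have := cnt_fix a v (fun g => OneY Y g ∧ ¬ EdgeL K (F ++ List.ofFn g))
            rw [hn] at this
            exact_mod_cast this)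
        refine ⟨Ev, ?_, e2, e3, ?_, ?_, ?_, ?_⟩
        · intro M hM
          have := e1 M hM
          exact ⟨Finset.card_pos.1 (by omega), by omega⟩
        · intro M hM y hy
          obtain ⟨a, ha⟩ := e4 M hM y hy
          rw [ha]; exact hposw a
        · rw [Finset.sum_congr rfl (fun M hM => by rw [e1 M hM]), Finset.sum_const, nsmul_eq_mul]
          calc (Ev.card : ℝ) * x ^ (k - F.length)
              ≤ β * (n : ℝ) ^ (k - F.length) * x ^ (k - F.length) :=
                mul_le_mul_of_nonneg_right e5 (by positivity)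
            _ = β * ((n : ℝ) ^ (k - F.length) * x ^ (k - F.length)) := by ring
            _ ≤ β * (8 * k) ^ k := mul_le_mul_of_nonneg_left (hnum _ hm) (hα.trans hαβ)
        · intro q
          have h6 := e6 q
          rw [Finset.sum_congr rfl (fun M hM => by rw [e1 M (Finset.mem_filter.1 hM).1]),
            Finset.sum_const, nsmul_eq_mul, if_pos (hFne hF0)]
          have h7 : ((Ev.filter (fun M => ∃ p, (p, q) ∈ M)).card : ℝ) * x ^ (k - F.length)
              ≤ k * (8 * k) ^ k / n := by
            calc _ ≤ k * ((n : ℝ) ^ (k - F.length - 1)) * x ^ (k - F.length) :=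
                  mul_le_mul_of_nonneg_right h6 (by positivity)
              _ = k * ((n : ℝ) ^ (k - F.length - 1) * x ^ (k - F.length)) := by ring
              _ ≤ k * ((8 * k) ^ k / n) :=
                  mul_le_mul_of_nonneg_left (hnum1 _ hm1 hm) (by positivity)
              _ = k * (8 * k) ^ k / n := by ring
          have : (0 : ℝ) ≤ k * α * (8 * k) ^ k / n := by positivity
          linarith
        · intro σ hσ hM
          have := e7 σ hσ hM
          refine hposE (fill σ) (hfill σ) ?_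
          convert this using 3
          funext a
          simp only [fill, dif_pos (hposr a)]; rfl
  choose Ev e1 e2 e3 e4 e5 e6 e7 using hEv
  obtain ⟨σ, hσ1, hσ2⟩ := lll_perm cP cQ (by
      intro b; cases b
      · rw [hcPf, hcQf]
      · rw [hcPt, hcQt]) k (by omega) N (by
      intro b; cases b
      · rw [hcPf]; exact hNY
      · rw [hcPt]; exact hNX) hN1 (univ.biUnion Ev)
    (by
      intro M hM; obtain ⟨i, -, hi⟩ := Finset.mem_biUnion.1 hM; exact (e1 i M hi).1)
    (by
      intro M hM; obtain ⟨i, -, hi⟩ := Finset.mem_biUnion.1 hM; exact (e1 i M hi).2)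
    (by
      intro M hM; obtain ⟨i, -, hi⟩ := Finset.mem_biUnion.1 hM; exact e2 i M hi)
    (by
      intro M hM; obtain ⟨i, -, hi⟩ := Finset.mem_biUnion.1 hM; exact e3 i M hi)
    (by
      intro p
      rw [Finset.filter_biUnion]
      refine (sum_biUnion_le' _ _ _ (fun M => by positivity)).trans ?_
      have h1 : ∀ i : Fin n, ∑ M ∈ (Ev i).filter (fun M => ∃ q, (p, q) ∈ M), (1 / (N : ℝ)) ^ M.card ≤
          if (∃ j : Fin k, (p.1 : ℕ) = ((i : ℕ) + j) % n) then β * (8 * k) ^ k else 0 := by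
        intro i
        split_ifs with h
        · exact (Finset.sum_le_sum_of_subset_of_nonneg (Finset.filter_subset _ _)
            (fun M _ _ => by positivity)).trans (e5 i)
        · rw [Finset.filter_false_of_mem, Finset.sum_empty]
          rintro M hM ⟨q, hq⟩
          exact h (e4 i M hM _ hq)
      refine (Finset.sum_le_sum (fun i _ => h1 i)).trans ?_
      rw [← Finset.sum_filter, Finset.sum_const, nsmul_eq_mul]
      refine le_trans ?_ hβ
      apply mul_le_mul_of_nonneg_right
      · exact_mod_cast card_window_le hkn p.1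
      · have : 0 ≤ β := hα.trans hαβ
        positivity)
    (by
      intro q
      rw [Finset.filter_biUnion]
      refine (sum_biUnion_le' _ _ _ (fun M => by positivity)).trans ?_
      refine (Finset.sum_le_sum (fun i _ => e6 i q)).trans ?_
      rw [Finset.sum_add_distrib, Finset.sum_const, ← Finset.sum_filter, Finset.sum_const,
        nsmul_eq_mul, nsmul_eq_mul, Finset.card_univ, Fintype.card_fin]
      refine le_trans ?_ hαξ
      have hcount : ((univ.filter (fun i : Fin n => ∃ j : Fin k, ∃ v,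
          f ⟨((i : ℕ) + j) % n, Nat.mod_lt _ hn0⟩ = Sum.inl v)).card : ℝ) ≤ k * (ξ * n) := by
        have h1 : (univ.filter (fun i : Fin n => ∃ j : Fin k, ∃ v,
            f ⟨((i : ℕ) + j) % n, Nat.mod_lt _ hn0⟩ = Sum.inl v)) ⊆
            (univ.filter (fun p : Fin n => ∃ v, f p = Sum.inl v)).biUnion
              (fun p => univ.filter (fun i : Fin n => ∃ j : Fin k, (p : ℕ) = ((i : ℕ) + j) % n)) := by
          intro i hi
          obtain ⟨-, j, v, hv⟩ := Finset.mem_filter.1 hi
          rw [Finset.mem_biUnion]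
          exact ⟨⟨((i : ℕ) + j) % n, Nat.mod_lt _ hn0⟩, Finset.mem_filter.2 ⟨Finset.mem_univ _, v, hv⟩,
            Finset.mem_filter.2 ⟨Finset.mem_univ _, j, rfl⟩⟩
        have h2 := (Finset.card_le_card h1).trans (Finset.card_biUnion_le_card_mul _ _ k
          (fun p _ => card_window_le hkn p))
        rw [← cnt_eq (fun p : Fin n => ∃ v, f p = Sum.inl v)] at h2
        have h3 : ((univ.filter (fun i : Fin n => ∃ j : Fin k, ∃ v,
            f ⟨((i : ℕ) + j) % n, Nat.mod_lt _ hn0⟩ = Sum.inl v)).card : ℝ) ≤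
            (cnt (fun p : Fin n => ∃ v, f p = Sum.inl v) : ℝ) * k := by exact_mod_cast h2
        refine h3.trans ?_
        rw [mul_comm (k : ℝ)]
        exact mul_le_mul_of_nonneg_right hR (by positivity)
      have h4 : (n : ℝ) * (k * α * (8 * k) ^ k / n) = k * α * (8 * k) ^ k := by
        field_simp
      have h5 : ((univ.filter (fun i : Fin n => ∃ j : Fin k, ∃ v,
          f ⟨((i : ℕ) + j) % n, Nat.mod_lt _ hn0⟩ = Sum.inl v)).card : ℝ) * (k * (8 * k) ^ k / n)
          ≤ k ^ 2 * ξ * (8 * k) ^ k := by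
        refine (mul_le_mul_of_nonneg_right hcount (by positivity)).trans (le_of_eq ?_)
        field_simp
      rw [h4]
      linarith)
  -- the final cyclic order
  have hsurj : Function.Surjective (fill σ) := by
    intro v
    by_cases hv : v ∈ R
    · obtain ⟨i, hi⟩ := hfix v hv
      exact ⟨i, hfill σ i v hi⟩
    · refine ⟨(σ.symm ⟨v, hv⟩).1, ?_⟩
      simp only [fill, dif_pos (σ.symm ⟨v, hv⟩).2]
      have : σ ⟨(σ.symm ⟨v, hv⟩).1, (σ.symm ⟨v, hv⟩).2⟩ = ⟨v, hv⟩ := by
        rw [Subtype.coe_eta, Equiv.apply_symm_apply]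
      rw [this]
  have hbij : Function.Bijective (fill σ) :=
    (Fintype.bijective_iff_surjective_and_card _).2 ⟨hsurj, by simp [hn]⟩
  refine ⟨List.ofFn (fill σ), List.nodup_ofFn.2 hbij.1, ?_, ?_⟩
  · intro v
    obtain ⟨i, hi⟩ := hsurj v
    exact (List.mem_ofFn' _ _).2 ⟨i, hi⟩
  · unfold Tight
    rw [allWin_cyclic (by omega) hkn]
    intro i hi
    exact e7 ⟨i, hi⟩ σ hσ1 (fun M hM => hσ2 M (Finset.mem_biUnion.2 ⟨⟨i, hi⟩, Finset.mem_univ _, hM⟩))

theorem length_le_flatten (L : List (List V)) (h : ∀ B ∈ L, 1 ≤ B.length) :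
    L.length ≤ L.flatten.length := by
  induction L with
  | nil => simp
  | cons B L ih =>
    rw [List.flatten_cons, List.length_append, List.length_cons]
    have h1 := h B (by simp)
    have h2 := ih (fun B' hB' => h B' (by simp [hB']))
    omega

theorem card_split (R : List V) (hR : R.Nodup) (Y : Finset V) :
    R.length + cnt (fun v => v ∉ Y ∧ v ∉ R) + cnt (fun v => v ∈ Y ∧ v ∉ R) = Fintype.card V := by
  classical
  have h1 : R.length = cnt (fun v => v ∈ R) := by
    rw [cnt_eq, ← List.toFinset_card_of_nodup hR]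
    congr 1; ext v; simp
  have h2 : cnt (fun v => v ∉ R) = cnt (fun v => v ∉ Y ∧ v ∉ R) + cnt (fun v => v ∈ Y ∧ v ∉ R) := by
    rw [cnt_eq, cnt_eq, cnt_eq, ← Finset.card_union_of_disjoint]
    · congr 1; ext v
      simp only [Finset.mem_filter, Finset.mem_univ, true_and, Finset.mem_union]
      tauto
    · rw [Finset.disjoint_left]
      intro v hv hv'
      simp only [Finset.mem_filter, Finset.mem_univ, true_and] at hv hv'
      exact hv.1 hv'.1
  have h3 : cnt (fun v => v ∈ R) + cnt (fun v => v ∉ R) = Fintype.card V := by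
    rw [cnt_eq, cnt_eq, Finset.card_filter_add_card_filter_not]
    rfl
  omega

end Tmpl

open Tmpl in
theorem template_ham (k : ℕ) (hk : 3 ≤ k) : ∃ α₁ > (0 : ℝ), ∃ ξ > (0 : ℝ), ∃ n₀ : ℕ,
    ∀ (V : Type) [Fintype V] [DecidableEq V], n₀ ≤ Fintype.card V → ∀ K : Set (Finset V),
      ∀ (α ζ : ℝ) (Y A : Finset V), 0 < α → α ≤ α₁ → 0 ≤ ζ → ζ ≤ ξ → ExtStr K k α ζ Y A →
      (∀ s ∈ K, ∀ t ⊆ s, t ∈ K) →
      ∀ Bs : List (List V), Bs ≠ [] → Bs.flatten.Nodup → (∀ B ∈ Bs, IsPiece K k α Y B) →
        (∀ a ∈ A, a ∈ Bs.flatten) → (Bs.flatten.length : ℝ) ≤ ξ * Fintype.card V →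
        ∀ t : ℕ, cnt (fun v : V => v ∉ Y ∧ v ∉ Bs.flatten) = (k - 1) * t →
          cnt (fun v : V => v ∈ Y ∧ v ∉ Bs.flatten) = t + Bs.length →
        HamCyc K k := by
  have hkR : (3 : ℝ) ≤ k := by exact_mod_cast hk
  have hk0 : (0 : ℝ) < k := by linarith
  have hC1 : (1 : ℝ) ≤ (8 * k) ^ k := one_le_pow₀ (by linarith)
  have hC0 : (0 : ℝ) < (8 * k) ^ k := by positivity
  refine ⟨1 / (16 * k ^ 2 * (8 * k) ^ k), by positivity, 1 / (16 * k ^ 3 * (8 * k) ^ k),
    by positivity, 16 * k ^ 2, ?_⟩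
  set α₁ : ℝ := 1 / (16 * k ^ 2 * (8 * k) ^ k) with hα₁
  set ξ : ℝ := 1 / (16 * k ^ 3 * (8 * k) ^ k) with hξdef
  intro V _ _ hn K α ζ Y A hα hαα hζ hζξ hS _ Bs hne hnd hp hA hlen t hX hY
  set n := Fintype.card V with hndef
  set R := Bs.flatten with hR
  have hnR : (16 : ℝ) * k ^ 2 ≤ n := by exact_mod_cast hn
  have hn0 : (0 : ℝ) < n := lt_of_lt_of_le (by positivity) hnR
  have hξ0 : 0 ≤ ξ := by positivity
  have hξα : ξ * k = α₁ := by
    rw [hα₁, hξdef]; field_simp
  have hξle : ξ * k ≤ 1 / 16 := by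
    rw [hξα, hα₁, div_le_div_iff₀ (by positivity) (by norm_num)]
    have : (1 : ℝ) ≤ k ^ 2 * (8 * k) ^ k := one_le_mul_of_one_le_of_one_le (by nlinarith) hC1
    nlinarith
  have hsplit := card_split R hnd Y
  have hYlo := hS.cardY_lo
  have hYhi := hS.cardY_hi
  rw [← hndef] at hYlo hYhi
  have hcY : (Y.card : ℝ) ≤ cnt (fun v => v ∈ Y ∧ v ∉ R) + R.length := by
    have h1 : Y.card ≤ cnt (fun v => v ∈ Y ∧ v ∉ R) + R.length := by
      rw [cnt_eq, ← List.toFinset_card_of_nodup hnd]
      refine le_trans (Finset.card_le_card ?_) (Finset.card_union_le _ _)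
      intro v hv
      by_cases h : v ∈ R
      · simp [h]
      · simp [h, hv]
    exact_mod_cast h1
  have hcY' : (cnt (fun v => v ∈ Y ∧ v ∉ R) : ℝ) ≤ Y.card := by
    have h1 : cnt (fun v => v ∈ Y ∧ v ∉ R) ≤ Y.card := by
      rw [cnt_eq]
      exact Finset.card_le_card (fun v hv => by simp at hv; exact hv.1)
    exact_mod_cast h1
  have hsplitR : (R.length : ℝ) + cnt (fun v => v ∉ Y ∧ v ∉ R) + cnt (fun v => v ∈ Y ∧ v ∉ R) = n := by
    exact_mod_cast hsplit
  -- class sizes are at least n/(2k)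
  have hinv : (1 : ℝ) / k ≤ 1 / 3 := by
    apply one_div_le_one_div_of_le (by norm_num) hkR
  have hξk : ξ ≤ 1 / (16 * k) := by
    rw [le_div_iff₀ (by positivity)]; nlinarith
  have hk2 : (1 : ℝ) / (16 * k) = 1 / k / 16 := by ring
  have hk3 : (1 : ℝ) / (2 * k) = 1 / k / 2 := by ring
  have hNYr : 1 / (2 * (k : ℝ)) * n ≤ cnt (fun v => v ∈ Y ∧ v ∉ R) := by
    have h1 : (1 / (k : ℝ) - ξ) * n ≤ (1 / (k : ℝ) - ζ) * n :=
      mul_le_mul_of_nonneg_right (by linarith) hn0.le
    have h2 : (1 / (k : ℝ)) * n ≥ 0 := by positivity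
    rw [hk3]
    have h3 : ξ * n ≤ (1 / (k : ℝ) / 16) * n := by
      rw [← hk2]; exact mul_le_mul_of_nonneg_right hξk hn0.le
    nlinarith
  have hNXr : (1 / 2 : ℝ) * n ≤ cnt (fun v => v ∉ Y ∧ v ∉ R) := by
    have h1 : (1 / (k : ℝ) + ζ) * n ≤ (1 / 3 + ξ) * n :=
      mul_le_mul_of_nonneg_right (by linarith) hn0.le
    have h3 : ξ * n ≤ (1 / 16 / 3) * n := by
      apply mul_le_mul_of_nonneg_right _ hn0.le
      rw [hk2] at hξk; linarith
    nlinarith
  have hp1 : Bs.length ≤ R.length := length_le_flatten Bs (fun B hB => by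
    have := (hp B hB).len; omega)
  have ht : Bs.length ≤ t := by
    by_contra hc
    push_neg at hc
    have h1 : (t : ℝ) ≤ ξ * n := by
      have : (t : ℝ) ≤ R.length := by exact_mod_cast (hc.le.trans hp1)
      linarith
    have h2 : (cnt (fun v => v ∉ Y ∧ v ∉ R) : ℝ) ≤ k * t := by
      rw [hX]; push_cast
      apply mul_le_mul_of_nonneg_right _ (by positivity)
      exact_mod_cast Nat.sub_le _ _
    have h3 : (k : ℝ) * t ≤ k * (ξ * n) := mul_le_mul_of_nonneg_left h1 hk0.le
    have h4 : k * (ξ * n) ≤ 1 / 16 * n := by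
      have : k * (ξ * n) = ξ * k * n := by ring
      rw [this]; exact mul_le_mul_of_nonneg_right hξle hn0.le
    linarith
  have hkn : k ≤ n := by nlinarith
  obtain ⟨f, hf1, hf2, hf3, hf4⟩ := exists_template (K := K) (k := k) (α := α) (Y := Y)
    (by omega) hne hp ht (n := n) (by rw [← hX, ← hY]; exact hsplit) hkn
  have hfixcount : cnt (fun i => ∃ v, f i = Sum.inl v) = R.length := by
    classical
    have h1 : cnt (fun i => ∃ v, f i = Sum.inl v) + cnt (fun i => f i = Sum.inr true) +
        cnt (fun i => f i = Sum.inr false) = n := by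
      rw [cnt_eq, cnt_eq, cnt_eq, ← Finset.card_union_of_disjoint, ← Finset.card_union_of_disjoint]
      · conv_rhs => rw [← Fintype.card_fin n, ← Finset.card_univ]
        congr 1
        ext i
        simp only [Finset.mem_union, Finset.mem_filter, Finset.mem_univ, true_and, iff_true]
        rcases f i with v | b
        · exact Or.inl (Or.inl ⟨v, rfl⟩)
        · cases b
          · exact Or.inr rfl
          · exact Or.inl (Or.inr rfl)
      · rw [Finset.disjoint_left]
        intro i hi hi'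
        simp only [Finset.mem_union, Finset.mem_filter, Finset.mem_univ, true_and] at hi hi'
        rw [hi'] at hi; simp at hi
      · rw [Finset.disjoint_left]
        intro i hi hi'
        simp only [Finset.mem_filter, Finset.mem_univ, true_and] at hi hi'
        rw [hi'] at hi; simp at hi
    omega
  -- the number N
  have hk4 : 0 < 4 * k := by omega
  set N := n / (4 * k) with hN
  have hNlow : (n : ℝ) / (8 * k) ≤ N := by
    have h1 : (n : ℝ) / (4 * k) < N + 1 := by
      have := Nat.lt_succ_floor ((n : ℝ) / (4 * k))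
      have h2 : ⌊(n : ℝ) / (4 * k)⌋₊ = N := by
        rw [hN]
        have := Nat.floor_div_eq_div (K := ℝ) n (4 * k)
        push_cast at this
        exact this
      rw [h2] at this
      exact_mod_cast this
    have h2 : (1 : ℝ) ≤ n / (8 * k) := by
      rw [le_div_iff₀ (by positivity)]; nlinarith
    have h3 : (n : ℝ) / (4 * k) = 2 * (n / (8 * k)) := by field_simp; ring
    linarith
  have hNup : (N : ℝ) ≤ n / (4 * k) := by
    have := @Nat.cast_div_le ℝ _ _ _ n (4 * k)
    push_cast at this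
    exact this
  have hN1 : 1 ≤ N := by
    have h2 : (1 : ℝ) ≤ n / (8 * k) := by
      rw [le_div_iff₀ (by positivity)]; nlinarith
    exact_mod_cast h2.trans hNlow
  have hNk : (N : ℝ) + k ≤ 1 / (2 * (k : ℝ)) * n := by
    have h1 : (k : ℝ) ≤ n / (4 * k) := by
      rw [le_div_iff₀ (by positivity)]; nlinarith
    have h3 : 1 / (2 * (k : ℝ)) * n = 2 * (n / (4 * k)) := by field_simp; ring
    linarith
  have hNk' : 1 / (2 * (k : ℝ)) * n ≤ 1 / 2 * n := by
    apply mul_le_mul_of_nonneg_right _ hn0.le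
    apply one_div_le_one_div_of_le (by norm_num); linarith
  refine core (α := α) (Y := Y) hk hndef.symm hkn R f hf1 (by rw [hf2, hX]) (by rw [hf3, hY]) hf4 ξ (max α ξ) hα.le
    (le_max_left _ _) hξ0 (by rw [hfixcount]; exact hlen) ?_ ?_ ?_ ?_ N hN1 ?_ ?_ ?_
  · have h1 : max α ξ ≤ α₁ := by
      apply max_le hαα
      rw [← hξα]; nlinarith
    calc (k : ℝ) * (max α ξ * (8 * k) ^ k) ≤ k * (α₁ * (8 * k) ^ k) := by gcongr
      _ = 1 / (16 * k) := by rw [hα₁]; field_simp
      _ ≤ 1 / (8 * k) := by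
          apply one_div_le_one_div_of_le (by positivity); nlinarith
  · calc (k : ℝ) * α * (8 * k) ^ k + k ^ 2 * ξ * (8 * k) ^ k
        ≤ (k : ℝ) * α₁ * (8 * k) ^ k + k ^ 2 * ξ * (8 * k) ^ k := by gcongr
      _ = 1 / (16 * (k : ℝ)) + 1 / (16 * (k : ℝ)) := by
          congr 1
          · rw [hα₁]; field_simp
          · rw [hξdef]; field_simp
      _ = 1 / (8 * (k : ℝ)) := by field_simp; ring
  · refine hS.tot.trans ?_
    rw [← hndef]
    apply mul_le_mul_of_nonneg_right _ (by positivity)
    exact hζξ.trans (le_max_right _ _)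
  · intro v hv p
    have := hS.bad1 v (fun h => hv (hA v h)) p
    rw [← hndef] at this
    exact this
  · have : (N : ℝ) + k ≤ cnt (fun v => v ∉ Y ∧ v ∉ R) := by linarith
    exact_mod_cast this
  · have : (N : ℝ) + k ≤ cnt (fun v => v ∈ Y ∧ v ∉ R) := by linarith
    exact_mod_cast this
  · rw [div_le_div_iff₀ (by exact_mod_cast hN1) hn0]
    rw [div_le_iff₀ (by positivity)] at hNlow
    linarith

end Pool.Agent.THC
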