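import Pool.Agent.Lib.MP_5c6f2e_co.Defs
import Pool.Agent.Lib.MP_5c6f2e_co.Lists

set_option autoImplicit false

namespace Pool.Agent.THC

open Finset

namespace Tmpl

theorem infix_iff {A : Type*} {w l : List A} :
    w <:+: l ↔ ∃ i, i + w.length ≤ l.length ∧ w = (l.drop i).take w.length := by
  constructor
  · rintro ⟨s, t, rfl⟩
    refine ⟨s.length, by simp, ?_⟩
    simp
  · rintro ⟨i, -, h⟩
    rw [h]
    exact (List.take_prefix _ _).isInfix.trans (List.drop_suffix _ _).isInfix

/-- cyclic windows of a list -/
theorem cyclic_window {A : Type*} {n k : ℕ} (hk : 1 ≤ k) (hkn : k ≤ n) (f : Fin n → A) (i : ℕ)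
    (hi : i < n) :
    (((List.ofFn f ++ (List.ofFn f).take (k - 1)).drop i).take k) =
      List.ofFn (fun j : Fin k => f ⟨(i + j) % n, Nat.mod_lt _ (by omega)⟩) := by
  apply List.ext_getElem
  · simp; omega
  · intro j h1 h2
    simp only [List.length_ofFn] at h2
    rw [List.getElem_take, List.getElem_drop, List.getElem_ofFn]
    by_cases hij : i + j < n
    · rw [List.getElem_append_left (by simpa using hij), List.getElem_ofFn]
      congr 1
      exact Fin.ext (Nat.mod_eq_of_lt hij).symm
    · rw [List.getElem_append_right (by simpa using hij), List.getElem_take, List.getElem_ofFn]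
      congr 1
      apply Fin.ext
      simp only [List.length_ofFn]
      rw [Nat.mod_eq_sub_mod (by omega), Nat.mod_eq_of_lt (by omega)]

theorem allWin_cyclic {A : Type*} {Φ : List A → Prop} {n k : ℕ} (hk : 1 ≤ k) (hkn : k ≤ n)
    (f : Fin n → A) :
    AllWin Φ k (List.ofFn f ++ (List.ofFn f).take (k - 1)) ↔
      ∀ i, i < n → Φ (List.ofFn (fun j : Fin k => f ⟨(i + j) % n, Nat.mod_lt _ (by omega)⟩)) := by
  constructor
  · intro h i hi
    rw [← cyclic_window hk hkn f i hi]
    apply h
    · exact (List.take_prefix _ _).isInfix.trans (List.drop_suffix _ _).isInfix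
    · simp; omega
  · intro h w hw hl
    obtain ⟨i, hi, he⟩ := infix_iff.1 hw
    rw [hl] at hi he
    simp only [List.length_append, List.length_ofFn, List.length_take] at hi
    have hin : i < n := by omega
    rw [he, cyclic_window hk hkn f i hin]
    exact h i hin

/-- windows of length `k` of a list of the form `l₁ ++ l₂` with both of length `k-1` -/
theorem crossing {A : Type*} {k : ℕ} (hk : 2 ≤ k) {l₁ l₂ w : List A} (h1 : l₁.length = k - 1)
    (h2 : l₂.length = k - 1) (hw : w <:+: l₁ ++ l₂) (hl : w.length = k) :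
    ∃ i, i < k - 1 ∧ w = l₁.drop i ++ l₂.take (i + 1) := by
  obtain ⟨i, hi, he⟩ := infix_iff.1 hw
  rw [hl] at hi he
  simp only [List.length_append, h1, h2] at hi
  refine ⟨i, by omega, ?_⟩
  rw [he, List.drop_append, List.take_append]
  congr 1
  · apply List.take_of_length_le; simp; omega
  · simp only [List.length_drop, h1]
    rw [show i - (k - 1) = 0 by omega, List.drop_zero]
    congr 1; omega


theorem countP_ofFn' {A : Type*} {n : ℕ} (f : Fin n → A) (p : A → Bool) :
    (List.ofFn f).countP p = (univ.filter (fun i => p (f i) = true)).card := by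
  rw [List.ofFn_eq_map, List.countP_map, Finset.card_def, Finset.filter_val,
    ← Multiset.countP_eq_card_filter, Fin.univ_def]
  change _ = Multiset.countP (fun i => p (f i) = true) (↑(List.finRange n) : Multiset (Fin n))
  rw [Multiset.coe_countP]
  apply List.countP_congr
  intro x _; simp

/-! ### window types -/

variable {V : Type} [Fintype V] [DecidableEq V]

/-- `F` has few bad completions -/
def OKF (K : Set (Finset V)) (k : ℕ) (α : ℝ) (Y : Finset V) (F : List V) : Prop :=
  (cnt (fun g : Fin (k - F.length) → V => OneY Y g ∧ ¬ EdgeL K (F ++ List.ofFn g)) : ℝ) ≤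
      α * (Fintype.card V : ℝ) ^ (k - F.length)

/-- allowed windows of slots. `inr true` is a free slot for a vertex outside `Y`, `inr false` a free
slot for a vertex of `Y` -/
def Phi (K : Set (Finset V)) (k : ℕ) (α : ℝ) (Y : Finset V) (w : List (V ⊕ Bool)) : Prop :=
  (∃ w' : List V, w = w'.map Sum.inl ∧ EdgeL K w') ∨
  ∃ (F : List V) (c : List Bool), c.count false = 1 ∧ F.length + c.length = k ∧
    (∀ v ∈ F, v ∉ Y) ∧ (F = [] ∨ OKF K k α Y F) ∧
    (w = F.map Sum.inl ++ c.map Sum.inr ∨ w = c.map Sum.inr ++ F.map Sum.inl)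

/-- the block `Y X^(k-1)` -/
def Ub (k : ℕ) : List Bool := false :: List.replicate (k - 1) true

/-- the block `Y X^(k-1) Y` -/
def Ub' (k : ℕ) : List Bool := false :: (List.replicate (k - 1) true ++ [false])

def J (K : Set (Finset V)) (k : ℕ) (α : ℝ) (Y : Finset V) (B B' : List (V ⊕ Bool)) : Prop :=
  AllWin (Phi K k α Y) k (B.drop (B.length - (k - 1)) ++ B'.take (k - 1))

variable {K : Set (Finset V)} {k : ℕ} {α : ℝ} {Y : Finset V}

theorem phi_free {c : List Bool} (h1 : c.count false = 1) (h2 : c.length = k) :
    Phi K k α Y (c.map Sum.inr) :=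
  Or.inr ⟨[], c, h1, by simpa using h2, by simp, Or.inl rfl, Or.inl (by simp)⟩

theorem Ub_len (hk : 1 ≤ k) : (Ub k).length = k := by simp [Ub]; omega

theorem Ub'_len (hk : 1 ≤ k) : (Ub' k).length = k + 1 := by simp [Ub']; omega

theorem win_Ub (hk : 1 ≤ k) : AllWin (Phi K k α Y) k ((Ub k).map Sum.inr) := by
  intro w hw hl
  have : w = (Ub k).map Sum.inr := by
    apply hw.eq_of_length
    simp [hl, Ub_len hk]
  rw [this]
  apply phi_free _ (Ub_len hk)
  simp [Ub, List.count_replicate]

theorem win_Ub' (hk : 1 ≤ k) : AllWin (Phi K k α Y) k ((Ub' k).map Sum.inr) := by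
  intro w hw hl
  obtain ⟨c, hc, rfl⟩ := List.infix_map_iff.1 hw
  rw [List.length_map] at hl
  apply phi_free _ hl
  obtain ⟨i, hi, he⟩ := infix_iff.1 hc
  rw [hl, Ub'_len hk] at hi
  rw [hl] at he
  have hi' : i = 0 ∨ i = 1 := by omega
  rcases hi' with rfl | rfl
  · have : c = Ub k := by
      rw [he, Ub', Ub, List.drop_zero, ← List.cons_append, List.take_append_of_le_length]
      · apply List.take_of_length_le; simp; omega
      · simp; omega
    rw [this]; simp [Ub, List.count_replicate]
  · have : c = List.replicate (k - 1) true ++ [false] := by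
      rw [he, Ub', List.drop_one, List.tail_cons]
      apply List.take_of_length_le; simp; omega
    rw [this]; simp [List.count_append, List.count_replicate]

theorem take_Ub (hk : 2 ≤ k) : (Ub k).take (k - 1) = false :: List.replicate (k - 2) true := by
  obtain ⟨m, rfl⟩ : ∃ m, k = m + 2 := ⟨k - 2, by omega⟩
  simp [Ub]

theorem take_Ub' (hk : 2 ≤ k) : (Ub' k).take (k - 1) = false :: List.replicate (k - 2) true := by
  obtain ⟨m, rfl⟩ : ∃ m, k = m + 2 := ⟨k - 2, by omega⟩
  simp only [Ub', show m + 2 - 1 = m + 1 by omega, show m + 2 - 2 = m by omega,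
    List.take_succ_cons]
  rw [List.take_append_of_le_length (by simp)]
  simp

theorem drop_Ub (hk : 2 ≤ k) : (Ub k).drop ((Ub k).length - (k - 1)) = List.replicate (k - 1) true := by
  rw [Ub_len (by omega), show k - (k - 1) = 1 by omega]
  simp [Ub]

theorem drop_Ub' (hk : 2 ≤ k) : (Ub' k).drop ((Ub' k).length - (k - 1)) =
    List.replicate (k - 2) true ++ [false] := by
  obtain ⟨m, rfl⟩ : ∃ m, k = m + 2 := ⟨k - 2, by omega⟩
  rw [Ub'_len (by omega), show m + 2 + 1 - (m + 2 - 1) = 2 by omega]
  simp [Ub', List.replicate_succ]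

/-- junction fixed | `Y X^(k-2)` -/
theorem junc_fix_free (hk : 2 ≤ k) {a : List V} (ha : a.length = k - 1) (haY : ∀ v ∈ a, v ∉ Y)
    (hg : GoodS K k α Y a) :
    AllWin (Phi K k α Y) k (a.map Sum.inl ++ (false :: List.replicate (k - 2) true).map Sum.inr) := by
  intro w hw hl
  obtain ⟨i, hi, rfl⟩ := crossing hk (by simpa using ha) (by simp; omega) hw hl
  right
  refine ⟨a.drop i, (false :: List.replicate (k - 2) true).take (i + 1), ?_, ?_, ?_, ?_, ?_⟩
  · simp [List.count_replicate]
  · simp; omega
  · exact fun v hv => haY v (List.mem_of_mem_drop hv)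
  · right
    apply hg _ (List.drop_sublist _ _)
    intro h0
    have := congrArg List.length h0
    rw [List.length_drop, ha, List.length_nil] at this; omega
  · left; simp

/-- junction `X^(k-2) Y` | fixed -/
theorem junc_free_fix (hk : 2 ≤ k) {a : List V} (ha : a.length = k - 1) (haY : ∀ v ∈ a, v ∉ Y)
    (hg : GoodS K k α Y a) :
    AllWin (Phi K k α Y) k ((List.replicate (k - 2) true ++ [false]).map Sum.inr ++ a.map Sum.inl) := by
  intro w hw hl
  obtain ⟨i, hi, rfl⟩ := crossing hk (by simp; omega) (by simpa using ha) hw hl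
  right
  refine ⟨a.take (i + 1), (List.replicate (k - 2) true ++ [false]).drop i, ?_, ?_, ?_, ?_, ?_⟩
  · rw [List.drop_append_of_le_length (by simp; omega)]
    simp [List.count_append, List.count_replicate]
  · simp; omega
  · exact fun v hv => haY v (List.mem_of_mem_take hv)
  · right
    apply hg _ (List.take_sublist _ _)
    intro h0
    have := congrArg List.length h0
    rw [List.length_take, ha, List.length_nil] at this; omega
  · right; simp

/-- junction `X^(k-1)` | `Y X^(k-2)` -/
theorem junc_free_free (hk : 2 ≤ k) :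
    AllWin (Phi K k α Y) k ((List.replicate (k - 1) true).map Sum.inr ++
      (false :: List.replicate (k - 2) true).map Sum.inr) := by
  intro w hw hl
  obtain ⟨i, hi, rfl⟩ := crossing hk (by simp) (by simp; omega) hw hl
  have : (List.map Sum.inr (List.replicate (k - 1) true)).drop i ++
      (List.map Sum.inr (false :: List.replicate (k - 2) true)).take (i + 1) =
      ((List.replicate (k - 1) true).drop i ++
        (false :: List.replicate (k - 2) true).take (i + 1)).map (Sum.inr : Bool → V ⊕ Bool) := by
    simp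
  rw [this]
  apply phi_free
  · simp [List.count_append, List.count_replicate]
  · simp; omega

theorem J_UU (hk : 2 ≤ k) : J K k α Y ((Ub k).map Sum.inr) ((Ub k).map Sum.inr) := by
  unfold J
  rw [List.length_map, ← List.map_drop, ← List.map_take, drop_Ub hk, take_Ub hk]
  exact junc_free_free hk

theorem J_UU' (hk : 2 ≤ k) : J K k α Y ((Ub k).map Sum.inr) ((Ub' k).map Sum.inr) := by
  unfold J
  rw [List.length_map, ← List.map_drop, ← List.map_take, drop_Ub hk, take_Ub' hk]
  exact junc_free_free hk

theorem J_BU (hk : 2 ≤ k) {B : List V} (hB : IsPiece K k α Y B) :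
    J K k α Y (B.map Sum.inl) ((Ub k).map Sum.inr) := by
  unfold J
  rw [List.length_map, ← List.map_drop, ← List.map_take, take_Ub hk]
  exact junc_fix_free hk (by simp; have := hB.len; omega) hB.endX hB.endG

theorem J_BU' (hk : 2 ≤ k) {B : List V} (hB : IsPiece K k α Y B) :
    J K k α Y (B.map Sum.inl) ((Ub' k).map Sum.inr) := by
  unfold J
  rw [List.length_map, ← List.map_drop, ← List.map_take, take_Ub' hk]
  exact junc_fix_free hk (by simp; have := hB.len; omega) hB.endX hB.endG

theorem J_U'B (hk : 2 ≤ k) {B : List V} (hB : IsPiece K k α Y B) :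
    J K k α Y ((Ub' k).map Sum.inr) (B.map Sum.inl) := by
  unfold J
  rw [List.length_map, ← List.map_drop, ← List.map_take, drop_Ub' hk]
  exact junc_free_fix hk (by simp; have := hB.len; omega) hB.startX hB.startG

theorem win_B {B : List V} (hB : Tight K k B) : AllWin (Phi K k α Y) k (B.map Sum.inl) := by
  intro w hw hl
  obtain ⟨c, hc, rfl⟩ := List.infix_map_iff.1 hw
  left
  exact ⟨c, rfl, hB c hc (by simpa using hl)⟩

/-- the rest of the template -/
def restT (k : ℕ) (rest : List (List V)) : List (List (V ⊕ Bool)) :=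
  rest.flatMap (fun B => [B.map Sum.inl, (Ub' k).map Sum.inr])

/-- blocks of the template after the first piece -/
def tailT (k m : ℕ) (rest : List (List V)) : List (List (V ⊕ Bool)) :=
  List.replicate m ((Ub k).map Sum.inr) ++ ((Ub' k).map Sum.inr :: restT k rest)

theorem chain1 (hk : 2 ≤ k) {B₁ : List V} (h1 : IsPiece K k α Y B₁) (rest : List (List V))
    (hr : ∀ B ∈ rest, IsPiece K k α Y B) :
    ((Ub' k).map Sum.inr :: (restT k rest ++ [B₁.map Sum.inl])).IsChain (J K k α Y) := by
  induction rest with
  | nil =>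
    simp only [restT, List.flatMap_nil, List.nil_append]
    rw [List.isChain_cons_cons]
    exact ⟨J_U'B hk h1, List.isChain_singleton _⟩
  | cons B rest ih =>
    have : restT k (B :: rest) = B.map Sum.inl :: (Ub' k).map Sum.inr :: restT k rest := by
      simp [restT]
    rw [this, List.cons_append, List.cons_append, List.isChain_cons_cons, List.isChain_cons_cons]
    exact ⟨J_U'B hk (hr B (by simp)), J_BU' hk (hr B (by simp)),
      ih (fun B' hB' => hr B' (by simp [hB']))⟩

theorem chain2 (hk : 2 ≤ k) {B₁ : List V} (h1 : IsPiece K k α Y B₁) (rest : List (List V))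
    (hr : ∀ B ∈ rest, IsPiece K k α Y B) (m : ℕ) :
    (tailT k m rest ++ [B₁.map Sum.inl]).IsChain (J K k α Y) ∧
    J K k α Y ((Ub k).map Sum.inr) ((tailT k m rest ++ [B₁.map Sum.inl]).head
      (by simp [tailT])) ∧
    J K k α Y (B₁.map Sum.inl) ((tailT k m rest ++ [B₁.map Sum.inl]).head
      (by simp [tailT])) := by
  induction m with
  | zero =>
    simp only [tailT, List.replicate_zero, List.nil_append, List.cons_append, List.head_cons]
    exact ⟨chain1 hk h1 rest hr, J_UU' hk, J_BU' hk h1⟩
  | succ m ih =>
    have e : tailT k (m + 1) rest ++ [B₁.map Sum.inl] =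
        (Ub k).map Sum.inr :: (tailT k m rest ++ [B₁.map Sum.inl]) := by
      simp [tailT, List.replicate_succ]
    refine ⟨?_, ?_, ?_⟩
    · rw [e]
      obtain ⟨a, l, hal⟩ := List.exists_cons_of_ne_nil
        (show tailT k m rest ++ [B₁.map (Sum.inl : V → V ⊕ Bool)] ≠ [] by simp [tailT])
      have h2 := ih.2.1
      have h3 := ih.1
      simp only [hal, List.head_cons] at h2 h3 ⊢
      rw [List.isChain_cons_cons]
      exact ⟨h2, h3⟩
    · simp only [e, List.head_cons]; exact J_UU hk
    · simp only [e, List.head_cons]; exact J_BU hk h1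

/-- the template -/
def tmpl (k m : ℕ) (B₁ : List V) (rest : List (List V)) : List (V ⊕ Bool) :=
  (B₁.map Sum.inl :: tailT k m rest).flatten

theorem tmpl_win (hk : 2 ≤ k) {B₁ : List V} (h1 : IsPiece K k α Y B₁) (rest : List (List V))
    (hr : ∀ B ∈ rest, IsPiece K k α Y B) (m : ℕ) :
    AllWin (Phi K k α Y) k (tmpl k m B₁ rest ++ (tmpl k m B₁ rest).take (k - 1)) := by
  unfold tmpl
  have hmem : ∀ B ∈ B₁.map Sum.inl :: tailT k m rest,
      (∃ C, IsPiece K k α Y C ∧ B = C.map Sum.inl) ∨ B = (Ub k).map Sum.inr ∨
        B = (Ub' k).map Sum.inr := by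
    intro B hB
    simp only [tailT, restT, List.mem_cons, List.mem_append, List.mem_replicate,
      List.mem_flatMap, List.not_mem_nil, or_false] at hB
    rcases hB with rfl | ⟨-, rfl⟩ | rfl | ⟨C, hC, rfl | rfl⟩
    · exact Or.inl ⟨B₁, h1, rfl⟩
    · exact Or.inr (Or.inl rfl)
    · exact Or.inr (Or.inr rfl)
    · exact Or.inl ⟨C, hr C hC, rfl⟩
    · exact Or.inr (Or.inr rfl)
  refine AllWin.flatten_cyclic (k := k) (by omega) _ _ ?_ ?_ ?_
  · intro B hB
    rcases hmem B hB with ⟨C, hC, rfl⟩ | rfl | rfl
    · simpa using hC.len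
    · simp [Ub_len (show 1 ≤ k by omega)]
    · rw [List.length_map, Ub'_len (by omega)]; omega
  · intro B hB
    rcases hmem B hB with ⟨C, hC, rfl⟩ | rfl | rfl
    · exact win_B hC.tight
    · exact win_Ub (by omega)
    · exact win_Ub' (by omega)
  · obtain ⟨hc1, -, hc3⟩ := chain2 hk h1 rest hr m
    obtain ⟨a, l, hal⟩ := List.exists_cons_of_ne_nil
        (show tailT k m rest ++ [B₁.map (Sum.inl : V → V ⊕ Bool)] ≠ [] by simp [tailT])
    simp only [hal, List.head_cons] at hc1 hc3
    rw [List.cons_append, hal, List.isChain_cons_cons]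
    exact ⟨hc3, hc1⟩


/-! ### counting the slots -/

theorem tailT_len (hk : 2 ≤ k) (m : ℕ) (rest : List (List V)) :
    ((tailT k m rest).flatten).length = m * k + (rest.length + 1) * (k + 1) + rest.flatten.length := by
  have h : ∀ rest : List (List V), ((restT k rest).flatten).length =
      rest.length * (k + 1) + rest.flatten.length := by
    intro rest
    induction rest with
    | nil => simp [restT]
    | cons B rest ih =>
      have : restT k (B :: rest) = B.map Sum.inl :: (Ub' k).map Sum.inr :: restT k rest := by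
        simp [restT]
      rw [this, List.flatten_cons, List.flatten_cons, List.length_append, List.length_append, ih,
        List.length_map, List.length_map, Ub'_len (by omega), List.flatten_cons,
        List.length_append, List.length_cons]
      ring
  unfold tailT
  rw [List.flatten_append, List.length_append, List.flatten_cons, List.length_append, h,
    List.length_flatten]
  simp only [List.map_replicate, List.sum_replicate, List.length_map, Ub_len (show 1 ≤ k by omega),
    Ub'_len (show 1 ≤ k by omega), smul_eq_mul]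
  ring

/-- number of free slots of type `b` -/
def cb (b : Bool) (l : List (V ⊕ Bool)) : ℕ := l.countP (fun s => decide (s = Sum.inr b))

theorem cb_append (b : Bool) (l l' : List (V ⊕ Bool)) : cb b (l ++ l') = cb b l + cb b l' :=
  List.countP_append

theorem cb_inl (b : Bool) (B : List V) : cb b (B.map Sum.inl) = 0 := by
  unfold cb; rw [List.countP_eq_zero]; simp

theorem cb_inr (b : Bool) (c : List Bool) : cb (V := V) b (c.map Sum.inr) = c.count b := by
  unfold cb; rw [List.countP_map, List.count]
  apply List.countP_congr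
  intro x _; simp

theorem cb_replicate (b : Bool) (m : ℕ) (B : List (V ⊕ Bool)) :
    cb b (List.replicate m B).flatten = m * cb b B := by
  induction m with
  | zero => simp [cb]
  | succ m ih => rw [List.replicate_succ, List.flatten_cons, cb_append, ih]; ring

theorem tailT_count (m : ℕ) (rest : List (List V)) (b : Bool) :
    cb b ((tailT k m rest).flatten) =
      m * (Ub k).count b + (rest.length + 1) * (Ub' k).count b := by
  have h : ∀ rest : List (List V), cb b ((restT k rest).flatten) =
      rest.length * (Ub' k).count b := by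
    intro rest
    induction rest with
    | nil => simp [restT, cb]
    | cons B rest ih =>
      have : restT k (B :: rest) = B.map Sum.inl :: (Ub' k).map Sum.inr :: restT k rest := by
        simp [restT]
      rw [this, List.flatten_cons, List.flatten_cons, cb_append, cb_append, ih,
        cb_inl, cb_inr, List.length_cons]
      ring
  unfold tailT
  rw [List.flatten_append, cb_append, List.flatten_cons, cb_append, h,
    cb_inr, cb_replicate, cb_inr]
  ring

omit [Fintype V] [DecidableEq V] in
theorem mem_tailT {m : ℕ} {rest : List (List V)} {v : V} (hv : v ∈ rest.flatten) :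
    (Sum.inl v : V ⊕ Bool) ∈ (tailT k m rest).flatten := by
  rw [List.mem_flatten] at hv
  obtain ⟨B, hB, hv⟩ := hv
  rw [List.mem_flatten]
  refine ⟨B.map Sum.inl, ?_, List.mem_map_of_mem hv⟩
  simp only [tailT, restT, List.mem_append, List.mem_cons, List.mem_flatMap]
  exact Or.inr (Or.inr ⟨B, hB, Or.inl rfl⟩)

/-- summary of the template as a function on `Fin n` -/
theorem exists_template (hk : 2 ≤ k) {Bs : List (List V)} (hne : Bs ≠ [])
    (hp : ∀ B ∈ Bs, IsPiece K k α Y B) {t n : ℕ} (ht : Bs.length ≤ t)
    (hn : Bs.flatten.length + (k - 1) * t + (t + Bs.length) = n) (hkn : k ≤ n) :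
    ∃ f : Fin n → V ⊕ Bool,
      (∀ i, i < n → Phi K k α Y (List.ofFn (fun j : Fin k => f ⟨(i + j) % n,
        Nat.mod_lt _ (by omega)⟩))) ∧
      cnt (fun i => f i = Sum.inr true) = (k - 1) * t ∧
      cnt (fun i => f i = Sum.inr false) = t + Bs.length ∧
      ∀ v ∈ Bs.flatten, ∃ i, f i = Sum.inl v := by
  classical
  obtain ⟨B₁, rest, rfl⟩ := List.exists_cons_of_ne_nil hne
  have h1 : IsPiece K k α Y B₁ := hp B₁ (by simp)
  have hr : ∀ B ∈ rest, IsPiece K k α Y B := fun B hB => hp B (by simp [hB])
  rw [List.length_cons] at ht hn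
  rw [List.flatten_cons, List.length_append] at hn
  obtain ⟨m, rfl⟩ : ∃ m, t = rest.length + 1 + m := ⟨t - (rest.length + 1), by omega⟩
  obtain ⟨k', rfl⟩ : ∃ k', k = k' + 2 := ⟨k - 2, by omega⟩
  have hlen : (tmpl (k' + 2) m B₁ rest).length = n := by
    rw [← hn]
    unfold tmpl
    rw [List.flatten_cons, List.length_append, tailT_len hk, List.length_map,
      show k' + 2 - 1 = k' + 1 by omega]
    ring
  subst hlen
  set T := tmpl (k' + 2) m B₁ rest with hT
  have e : List.ofFn (fun i : Fin T.length => T[i]) = T := List.ofFn_getElem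
  have hcb : ∀ b : Bool, cnt (fun i : Fin T.length => T[i] = Sum.inr b) = cb b T := by
    intro b
    rw [cnt_eq]
    conv_rhs => rw [← e]
    unfold cb
    rw [countP_ofFn']
    simp
  have hT2 : ∀ b : Bool, cb b T = m * (Ub (k' + 2)).count b +
      (rest.length + 1) * (Ub' (k' + 2)).count b := by
    intro b
    rw [hT, tmpl, List.flatten_cons, cb_append, cb_inl, tailT_count, zero_add]
  refine ⟨fun i => T[i], ?_, ?_, ?_, ?_⟩
  · have h := tmpl_win hk h1 rest hr m
    rw [← hT, ← e] at h
    exact (allWin_cyclic (by omega) hkn (fun i : Fin T.length => T[i])).1 h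
  · rw [hcb, hT2]
    simp [Ub, Ub']
    ring
  · rw [hcb, hT2, List.length_cons]
    simp [Ub, Ub', List.count_replicate]
    ring
  · intro v hv
    have : (Sum.inl v : V ⊕ Bool) ∈ T := by
      rw [hT, tmpl, List.flatten_cons, List.mem_append]
      rw [List.flatten_cons, List.mem_append] at hv
      rcases hv with hv | hv
      · exact Or.inl (List.mem_map_of_mem hv)
      · exact Or.inr (mem_tailT hv)
    obtain ⟨i, hi, he⟩ := List.getElem_of_mem this
    exact ⟨⟨i, hi⟩, he⟩

end Tmpl

end Pool.Agent.THC
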