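import Pool.Agent.Lib.MP_5c6f2e_co.TemplateA

set_option autoImplicit false

namespace Pool.Agent.THC

open Finset

namespace Tmpl

variable {V : Type} [Fintype V] [DecidableEq V]
variable {K : Set (Finset V)} {k : ℕ} {α : ℝ} {Y : Finset V}

theorem sum_biUnion_le' {ι β : Type*} [DecidableEq β] (s : Finset ι) (t : ι → Finset β)
    (f : β → ℝ) (hf : ∀ b, 0 ≤ f b) : ∑ b ∈ s.biUnion t, f b ≤ ∑ i ∈ s, ∑ b ∈ t i, f b := by
  classical
  induction s using Finset.induction_on with
  | empty => simp
  | insert a s ha ih =>
    rw [Finset.biUnion_insert, Finset.sum_insert ha]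
    have h1 : ∑ b ∈ t a ∪ s.biUnion t, f b ≤ ∑ b ∈ t a, f b + ∑ b ∈ s.biUnion t, f b := by
      rw [← Finset.sum_union_inter]
      have : 0 ≤ ∑ b ∈ t a ∩ s.biUnion t, f b := Finset.sum_nonneg (fun b _ => hf b)
      linarith
    linarith

/-- the data of a window with at least one free slot -/
theorem window_data {n : ℕ} (hn : 0 < n) (hkn : k ≤ n) (f : Fin n → V ⊕ Bool) (i : ℕ)
    (h : Phi K k α Y (List.ofFn (fun j : Fin k => f ⟨(i + j) % n, Nat.mod_lt _ hn⟩))) :
    (∃ w' : List V, List.ofFn (fun j : Fin k => f ⟨(i + j) % n, Nat.mod_lt _ hn⟩) =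
      w'.map Sum.inl ∧ EdgeL K w') ∨
    ∃ (F : List V), F.length < k ∧ (∀ v ∈ F, v ∉ Y) ∧ (F = [] ∨ OKF K k α Y F) ∧
      (F ≠ [] → ∃ j : Fin k, ∃ v, f ⟨(i + j) % n, Nat.mod_lt _ hn⟩ = Sum.inl v) ∧
      ∃ pos : Fin (k - F.length) → Fin n, Function.Injective pos ∧
        (∀ a, ∃ j : Fin k, (pos a : ℕ) = (i + j) % n) ∧
        (∀ a, ∃ b, f (pos a) = Sum.inr b) ∧ (∃! a, f (pos a) = Sum.inr false) ∧
        ∀ fill : Fin n → V, (∀ j v, f j = Sum.inl v → fill j = v) →
          EdgeL K (F ++ List.ofFn (fun a => fill (pos a))) →
          EdgeL K (List.ofFn (fun j : Fin k => fill ⟨(i + j) % n, Nat.mod_lt _ hn⟩)) := by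
  rcases h with h | ⟨F, c, hc1, hlen, hFY, hF, hw⟩
  · exact Or.inl h
  right
  have hclen : c.length = k - F.length := by omega
  have hc0 : 0 < c.length := by
    rcases c with _ | ⟨a, c⟩
    · simp at hc1
    · simp
  have hFk : F.length < k := by omega
  -- injectivity of the shift
  have hinj : ∀ a b : ℕ, a < k → b < k → (i + a) % n = (i + b) % n → a = b := by
    intro a b ha hb hab
    have : a ≡ b [MOD n] := Nat.ModEq.add_left_cancel' i hab
    have := Nat.ModEq.eq_of_lt_of_lt this (by omega) (by omega)
    exact this
  refine ⟨F, hFk, hFY, hF, ?_, ?_⟩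
  · intro hne
    have hFl : 0 < F.length := List.length_pos_of_ne_nil hne
    rcases hw with hw | hw
    · refine ⟨⟨0, by omega⟩, F[0], ?_⟩
      have := congrArg (fun l => l[0]?) hw
      simp only [List.getElem?_ofFn] at this
      rw [List.getElem?_append_left (by simpa using hFl)] at this
      simp only [show 0 < k by omega, dif_pos, List.getElem?_map] at this
      rw [List.getElem?_eq_getElem hFl] at this
      simpa using this
    · refine ⟨⟨c.length, by omega⟩, F[0], ?_⟩
      have := congrArg (fun l => l[c.length]?) hw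
      simp only [List.getElem?_ofFn] at this
      rw [List.getElem?_append_right (by simp)] at this
      simp only [show c.length < k by omega, dif_pos, List.length_map, Nat.sub_self,
        List.getElem?_map] at this
      rw [List.getElem?_eq_getElem hFl] at this
      simpa using this
  · -- offset
    obtain ⟨off, hoff, hFoff, hfree, hfill⟩ : ∃ off : ℕ, off + (k - F.length) ≤ k ∧ True ∧
        (∀ a : Fin (k - F.length), f ⟨(i + (off + a)) % n, Nat.mod_lt _ hn⟩ =
          Sum.inr (c.getD a true)) ∧
        ∀ fill : Fin n → V, (∀ j v, f j = Sum.inl v → fill j = v) →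
          (F ++ List.ofFn (fun a : Fin (k - F.length) =>
            fill ⟨(i + (off + a)) % n, Nat.mod_lt _ hn⟩)).Perm
          (List.ofFn (fun j : Fin k => fill ⟨(i + j) % n, Nat.mod_lt _ hn⟩)) := by
      rcases hw with hw | hw
      · have hget : ∀ j (hj : j < k), f ⟨(i + j) % n, Nat.mod_lt _ hn⟩ =
            (F.map Sum.inl ++ c.map Sum.inr)[j]'(by simp; omega) := by
          intro j hj
          have := List.getElem_of_eq hw (i := j) (by simpa using hj)
          simpa using this
        refine ⟨F.length, by omega, trivial, ?_, ?_⟩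
        · intro a
          rw [hget _ (by omega), List.getElem_append_right (by simp)]
          simp [List.getD_eq_getElem?_getD, List.getElem?_eq_getElem (show (a : ℕ) < c.length by omega)]
        · intro fill hfill
          apply List.Perm.of_eq
          apply List.ext_getElem
          · simp; omega
          · intro j h1 h2
            simp only [List.length_ofFn] at h2
            rw [List.getElem_ofFn]
            by_cases hj : j < F.length
            · rw [List.getElem_append_left hj]
              symm
              apply hfill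
              rw [hget j h2, List.getElem_append_left (by simpa using hj)]
              simp
            · rw [List.getElem_append_right (by omega), List.getElem_ofFn]
              congr 3; simp; omega
      · have hget : ∀ j (hj : j < k), f ⟨(i + j) % n, Nat.mod_lt _ hn⟩ =
            (c.map Sum.inr ++ F.map Sum.inl)[j]'(by simp; omega) := by
          intro j hj
          have := List.getElem_of_eq hw (i := j) (by simpa using hj)
          simpa using this
        refine ⟨0, by omega, trivial, ?_, ?_⟩
        · intro a
          rw [hget _ (by omega), List.getElem_append_left (by simp; omega)]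
          simp [List.getD_eq_getElem?_getD, List.getElem?_eq_getElem (show (a : ℕ) < c.length by omega)]
        · intro fill hfill
          refine List.perm_append_comm.trans (List.Perm.of_eq ?_)
          apply List.ext_getElem
          · simp; omega
          · intro j h1 h2
            simp only [List.length_ofFn] at h2
            rw [List.getElem_ofFn]
            by_cases hj : j < k - F.length
            · rw [List.getElem_append_left (by simpa using hj), List.getElem_ofFn]
              congr 3; simp
            · rw [List.getElem_append_right (by simpa using hj)]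
              symm
              apply hfill
              rw [hget j h2, List.getElem_append_right (by simp; omega)]
              simp [hclen]
    refine ⟨fun a => ⟨(i + (off + a)) % n, Nat.mod_lt _ hn⟩, ?_, ?_, ?_, ?_, ?_⟩
    · intro a b hab
      simp only [Fin.mk.injEq] at hab
      have := hinj _ _ (by omega) (by omega) hab
      exact Fin.ext (by omega)
    · intro a; exact ⟨⟨off + a, by omega⟩, rfl⟩
    · intro a; exact ⟨_, hfree a⟩
    · -- exactly one false
      have : ∃! a : Fin (k - F.length), c.getD a true = false := by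
        have hcnt : (univ.filter (fun a : Fin (k - F.length) => c.getD a true = false)).card
            = 1 := by
          have := countP_ofFn' (fun a : Fin (k - F.length) => c.getD a true)
            (fun b => b == false)
          simp only [beq_iff_eq] at this
          rw [← this]
          have e : List.ofFn (fun a : Fin (k - F.length) => c.getD a true) = c := by
            apply List.ext_getElem
            · simp; omega
            · intro j h1 h2
              simp [List.getD_eq_getElem?_getD, List.getElem?_eq_getElem h2]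
          rw [e]; exact hc1
        obtain ⟨a, ha⟩ := Finset.card_eq_one.1 hcnt
        refine ⟨a, ?_, ?_⟩
        · have : a ∈ univ.filter (fun a : Fin (k - F.length) => c.getD a true = false) := by
            rw [ha]; simp
          simpa using this
        · intro b hb
          have : b ∈ univ.filter (fun a : Fin (k - F.length) => c.getD a true = false) := by
            simpa using hb
          rw [ha] at this
          simpa using this
      obtain ⟨a, ha, hu⟩ := this
      refine ⟨a, ?_, ?_⟩
      · simp only [hfree a, ha]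
      · intro b hb
        apply hu
        simp only [hfree b, Sum.inr.injEq] at hb
        exact hb
    · intro fill hfl he
      exact EdgeL.perm he (hfill fill hfl)

/-- the bad events of one window -/
theorem window_events {P : Type} [Fintype P] [DecidableEq P] (R : List V) (cP : P → Bool)
    (F : List V) (hFk : F.length < k) (pos : Fin (k - F.length) → P)
    (hpos : Function.Injective pos) (hone : ∃! a, cP (pos a) = false)
    {β n : ℝ} (hb : (cnt (fun g : Fin (k - F.length) → V => OneY Y g ∧
      ¬ EdgeL K (F ++ List.ofFn g)) : ℝ) ≤ β * n) {δ : ℝ}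
    (hb1 : ∀ v, v ∉ R → ∀ a, (cnt (fun g : Fin (k - F.length) → V => g a = v ∧ OneY Y g ∧
      ¬ EdgeL K (F ++ List.ofFn g)) : ℝ) ≤ δ) :
    ∃ Ev : Finset (Finset (P × {v : V // v ∉ R})),
      (∀ M ∈ Ev, M.card = k - F.length) ∧
      (∀ M ∈ Ev, ∀ x ∈ M, cP x.1 = decide (x.2.1 ∉ Y)) ∧
      (∀ M ∈ Ev, ∀ x ∈ M, ∀ y ∈ M, (x.1 = y.1 ↔ x.2 = y.2)) ∧
      (∀ M ∈ Ev, ∀ x ∈ M, ∃ a, x.1 = pos a) ∧
      ((Ev.card : ℝ) ≤ β * n) ∧
      (∀ q : {v : V // v ∉ R}, (((Ev.filter (fun M => ∃ p, (p, q) ∈ M)).card : ℝ) ≤ k * δ)) ∧
      ∀ σ : P ≃ {v : V // v ∉ R}, (∀ p, decide ((σ p).1 ∉ Y) = cP p) →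
        (∀ M ∈ Ev, ∃ x ∈ M, σ x.1 ≠ x.2) →
        EdgeL K (F ++ List.ofFn (fun a => (σ (pos a)).1)) := by
  classical
  set Q := {v : V // v ∉ R} with hQ
  set G : Finset (Fin (k - F.length) → Q) := univ.filter (fun g => Function.Injective g ∧
    (∀ a, cP (pos a) = decide ((g a).1 ∉ Y)) ∧ ¬ EdgeL K (F ++ List.ofFn (fun a => (g a).1))) with hG
  set gr : (Fin (k - F.length) → Q) → Finset (P × Q) := fun g => univ.image (fun a => (pos a, g a))
    with hgr
  have hOne : ∀ g ∈ G, OneY Y (fun a => (g a).1) := by
    intro g hg
    obtain ⟨-, -, h2, -⟩ := Finset.mem_filter.1 hg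
    obtain ⟨a, ha, hu⟩ := hone
    refine ⟨a, ?_, ?_⟩
    · have := h2 a
      simp only [ha] at this
      by_contra hc
      have h3 : decide ((g a).1 ∉ Y) = true := by simpa using hc
      rw [h3] at this; simp at this
    · intro b hb
      apply hu
      have := h2 b
      rw [this]
      simpa using hb
  refine ⟨G.image gr, ?_, ?_, ?_, ?_, ?_, ?_, ?_⟩
  · intro M hM
    obtain ⟨g, hg, rfl⟩ := Finset.mem_image.1 hM
    rw [hgr]
    simp only
    rw [Finset.card_image_of_injective _ (fun a b hab => hpos (Prod.ext_iff.1 hab).1)]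
    simp
  · intro M hM x hx
    obtain ⟨g, hg, rfl⟩ := Finset.mem_image.1 hM
    obtain ⟨a, -, rfl⟩ := Finset.mem_image.1 hx
    exact (Finset.mem_filter.1 hg).2.2.1 a
  · intro M hM x hx y hy
    obtain ⟨g, hg, rfl⟩ := Finset.mem_image.1 hM
    obtain ⟨a, -, rfl⟩ := Finset.mem_image.1 hx
    obtain ⟨b, -, rfl⟩ := Finset.mem_image.1 hy
    have hgi := (Finset.mem_filter.1 hg).2.1
    simp only [hpos.eq_iff, hgi.eq_iff]
  · intro M hM x hx
    obtain ⟨g, hg, rfl⟩ := Finset.mem_image.1 hM
    obtain ⟨a, -, rfl⟩ := Finset.mem_image.1 hx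
    exact ⟨a, rfl⟩
  · refine le_trans ?_ hb
    have h1 : (G.image gr).card ≤ G.card := Finset.card_image_le
    have h2 : G.card ≤ cnt (fun g : Fin (k - F.length) → V => OneY Y g ∧
        ¬ EdgeL K (F ++ List.ofFn g)) := by
      rw [cnt_eq]
      apply Finset.card_le_card_of_injOn (fun g a => (g a).1)
      · intro g hg
        simp only [Finset.coe_filter, Finset.mem_univ, true_and, Set.mem_ofPred_eq]
        exact ⟨hOne g hg, (Finset.mem_filter.1 hg).2.2.2⟩
      · intro g _ g' _ h
        funext a
        exact Subtype.ext (congrFun h a)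
    exact_mod_cast h1.trans h2
  · intro q
    have h1 : ((G.image gr).filter (fun M => ∃ p, (p, q) ∈ M)) ⊆
        (univ : Finset (Fin (k - F.length))).biUnion (fun a => (G.filter (fun g => g a = q)).image gr) := by
      intro M hM
      obtain ⟨hM1, p, hp⟩ := Finset.mem_filter.1 hM
      obtain ⟨g, hg, rfl⟩ := Finset.mem_image.1 hM1
      obtain ⟨a, -, ha⟩ := Finset.mem_image.1 hp
      rw [Finset.mem_biUnion]
      refine ⟨a, Finset.mem_univ _, Finset.mem_image.2 ⟨g, Finset.mem_filter.2 ⟨hg, ?_⟩, rfl⟩⟩
      exact (Prod.ext_iff.1 ha).2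
    have h2 : ∀ a, (((G.filter (fun g => g a = q)).image gr).card : ℝ) ≤ δ := by
      intro a
      refine le_trans ?_ (hb1 q.1 q.2 a)
      have h3 : (G.filter (fun g => g a = q)).card ≤ cnt (fun g : Fin (k - F.length) → V =>
          g a = q.1 ∧ OneY Y g ∧ ¬ EdgeL K (F ++ List.ofFn g)) := by
        rw [cnt_eq]
        apply Finset.card_le_card_of_injOn (fun g a => (g a).1)
        · intro g hg
          obtain ⟨hg, hga⟩ := Finset.mem_filter.1 hg
          simp only [Finset.coe_filter, Finset.mem_univ, true_and, Set.mem_ofPred_eq]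
          exact ⟨by rw [hga], hOne g hg, (Finset.mem_filter.1 hg).2.2.2⟩
        · intro g _ g' _ h
          funext a
          exact Subtype.ext (congrFun h a)
      exact_mod_cast (Finset.card_image_le).trans h3
    have h4 := (Finset.card_le_card h1).trans Finset.card_biUnion_le
    have hδ : 0 ≤ δ := (Nat.cast_nonneg _).trans (h2 ⟨0, Nat.sub_pos_of_lt hFk⟩)
    generalize hc : (fun a => ((G.filter (fun g => g a = q)).image gr).card) = c at h4
    have hc' : ∀ a, ((G.filter (fun g => g a = q)).image gr).card = c a := fun a =>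
      congrFun hc a
    simp only [hc'] at h2
    have h5 : ((((G.image gr).filter (fun M => ∃ p, (p, q) ∈ M)).card : ℕ) : ℝ) ≤
        ((∑ a, c a : ℕ) : ℝ) := by
      exact Nat.cast_le.2 h4
    refine h5.trans ?_
    rw [Nat.cast_sum]
    refine (Finset.sum_le_sum (fun a _ => h2 a)).trans ?_
    rw [Finset.sum_const, Finset.card_univ, Fintype.card_fin, nsmul_eq_mul]
    apply mul_le_mul_of_nonneg_right _ hδ
    exact_mod_cast Nat.sub_le _ _
  · intro σ hσ hM
    by_contra hc
    have hg : (fun a => σ (pos a)) ∈ G := by
      rw [hG, Finset.mem_filter]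
      exact ⟨Finset.mem_univ _, σ.injective.comp hpos, fun a => (hσ _).symm, hc⟩
    obtain ⟨x, hx, hne⟩ := hM _ (Finset.mem_image_of_mem gr hg)
    obtain ⟨a, -, rfl⟩ := Finset.mem_image.1 hx
    exact hne rfl

end Tmpl

end Pool.Agent.THC
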